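import Mathlib

set_option autoImplicit false

open Polynomial

namespace Pool.Agent.LNDF

/-- the polynomial ring in two variables -/
abbrev A2 (k : Type) [Field k] : Type := MvPolynomial (Fin 2) k

/-- its field of fractions -/
abbrev K2 (k : Type) [Field k] : Type := FractionRing (A2 k)

variable {k : Type} [Field k]

/-- the embedding of `A2` in `K2` -/
noncomputable abbrev al (a : A2 k) : K2 k := algebraMap (A2 k) (K2 k) a

theorem al_inj {a b : A2 k} (h : al a = al b) : a = b :=
  IsFractionRing.injective (A2 k) (K2 k) h

theorem al_ne {a : A2 k} (h : a ≠ 0) : al a ≠ 0 := fun h0 => h (al_inj (by rw [h0]; simp [al]))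

/-- extension of a derivation to the field of fractions: the function -/
noncomputable def extFun (d : Derivation k (A2 k) (A2 k)) (x : K2 k) : K2 k :=
  (al (IsLocalization.sec (nonZeroDivisors (A2 k)) x).2 *
      al (d (IsLocalization.sec (nonZeroDivisors (A2 k)) x).1) -
    al (IsLocalization.sec (nonZeroDivisors (A2 k)) x).1 *
      al (d (IsLocalization.sec (nonZeroDivisors (A2 k)) x).2)) /
    al (IsLocalization.sec (nonZeroDivisors (A2 k)) x).2 ^ 2

theorem extFun_div (d : Derivation k (A2 k) (A2 k)) (a s : A2 k) (hs : s ≠ 0) :
    extFun d (al a / al s) = (al s * al (d a) - al a * al (d s)) / al s ^ 2 := by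
  unfold extFun
  set x : K2 k := al a / al s with hx
  set b := (IsLocalization.sec (nonZeroDivisors (A2 k)) x).1 with hb
  set t := (IsLocalization.sec (nonZeroDivisors (A2 k)) x).2 with ht
  have h1 : x * al (t : A2 k) = al b := IsLocalization.sec_spec (nonZeroDivisors (A2 k)) x
  have ht0 : (t : A2 k) ≠ 0 := nonZeroDivisors.ne_zero t.2
  have hs' := al_ne hs
  have ht' := al_ne ht0
  have h2 : a * (t : A2 k) = b * s := by
    apply al_inj
    rw [al, al, map_mul, map_mul]
    change al a * al (t : A2 k) = al b * al s
    rw [← h1, hx]
    field_simp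
  have h3 := congrArg d h2
  rw [Derivation.leibniz, Derivation.leibniz] at h3
  simp only [smul_eq_mul] at h3
  have h4 : al a * al (d (t : A2 k)) + al (t : A2 k) * al (d a) =
      al b * al (d s) + al s * al (d b) := by
    have h5 := congrArg (algebraMap (A2 k) (K2 k)) h3
    simpa [map_add, map_mul] using h5
  have h2' : al a * al (t : A2 k) = al b * al s := by
    have h5 := congrArg (algebraMap (A2 k) (K2 k)) h2
    simpa [map_mul] using h5
  rw [div_eq_div_iff (pow_ne_zero 2 ht') (pow_ne_zero 2 hs')]
  linear_combination (-(al s * al (t : A2 k))) * h4 +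
    (al s * al (d (t : A2 k)) + al (t : A2 k) * al (d s)) * h2'

/-- extension of a derivation to the field of fractions -/
noncomputable def ext (d : Derivation k (A2 k) (A2 k)) : Derivation k (K2 k) (K2 k) where
  toFun := extFun d
  map_add' := by
    intro x y
    obtain ⟨a, s, hs, rfl⟩ := IsFractionRing.div_surjective (A := A2 k) x
    obtain ⟨b, t, ht, rfl⟩ := IsFractionRing.div_surjective (A := A2 k) y
    have hs0 := nonZeroDivisors.ne_zero hs
    have ht0 := nonZeroDivisors.ne_zero ht
    have hs' : al s ≠ 0 := al_ne hs0
    have ht' : al t ≠ 0 := al_ne ht0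
    have h1 : al a / al s + al b / al t = al (a * t + b * s) / al (s * t) := by
      simp only [al, map_add, map_mul]
      field_simp
    change extFun d (al a / al s + al b / al t) = extFun d (al a / al s) + extFun d (al b / al t)
    rw [h1, extFun_div d _ _ (mul_ne_zero hs0 ht0), extFun_div d _ _ hs0, extFun_div d _ _ ht0]
    simp only [al, map_add, map_mul, Derivation.leibniz, smul_eq_mul]
    field_simp
    ring
  map_smul' := by
    intro r x
    obtain ⟨a, s, hs, rfl⟩ := IsFractionRing.div_surjective (A := A2 k) x
    have hs0 := nonZeroDivisors.ne_zero hs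
    have h1 : r • (al a / al s) = al (r • a) / al s := by
      rw [Algebra.smul_def r a]
      simp only [al, map_mul]
      rw [Algebra.smul_def, IsScalarTower.algebraMap_apply k (A2 k) (K2 k)]
      ring
    change extFun d (r • (al a / al s)) = r • extFun d (al a / al s)
    rw [h1, extFun_div d _ _ hs0, extFun_div d _ _ hs0, Derivation.map_smul,
      Algebra.smul_def r a, Algebra.smul_def r (d a)]
    simp only [al, map_mul]
    rw [Algebra.smul_def, IsScalarTower.algebraMap_apply k (A2 k) (K2 k)]
    ring
  map_one_eq_zero' := by
    change extFun d 1 = 0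
    have h1 : (1 : K2 k) = al 1 / al 1 := by simp [al]
    rw [h1, extFun_div d 1 1 one_ne_zero]
    simp [al]
  leibniz' := by
    intro x y
    obtain ⟨a, s, hs, rfl⟩ := IsFractionRing.div_surjective (A := A2 k) x
    obtain ⟨b, t, ht, rfl⟩ := IsFractionRing.div_surjective (A := A2 k) y
    have hs0 := nonZeroDivisors.ne_zero hs
    have ht0 := nonZeroDivisors.ne_zero ht
    have hs' : al s ≠ 0 := al_ne hs0
    have ht' : al t ≠ 0 := al_ne ht0
    have h1 : al a / al s * (al b / al t) = al (a * b) / al (s * t) := by
      simp only [al, map_mul]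
      field_simp
    change extFun d (al a / al s * (al b / al t)) =
      (al a / al s) • extFun d (al b / al t) + (al b / al t) • extFun d (al a / al s)
    rw [h1, extFun_div d _ _ (mul_ne_zero hs0 ht0), extFun_div d _ _ hs0, extFun_div d _ _ ht0]
    simp only [al, map_add, map_mul, Derivation.leibniz, smul_eq_mul]
    field_simp
    ring

theorem ext_al (d : Derivation k (A2 k) (A2 k)) (a : A2 k) : ext d (al a) = al (d a) := by
  have h1 : al a = al a / al 1 := by simp [al]
  change extFun d (al a) = _
  rw [h1, extFun_div d a 1 one_ne_zero]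
  simp [al]

/-- partial derivatives of rational functions -/
noncomputable def dK (i : Fin 2) : Derivation k (K2 k) (K2 k) := ext (MvPolynomial.pderiv i)

theorem dK_al (i : Fin 2) (a : A2 k) : dK i (al a) = al (MvPolynomial.pderiv i a) := ext_al _ a

/-- coefficientwise derivation on polynomials in one variable over a field -/
noncomputable def mc {K : Type} [Field K] [Algebra k K] (d : Derivation k K K) :
    Derivation k K[X] K[X] where
  toFun P := ∑ i ∈ P.support, monomial i (d (P.coeff i))
  map_add' := by
    intro P Q
    ext n
    simp only [coeff_add, finsetSum_coeff, coeff_monomial, Finset.sum_ite_eq', mem_support_iff]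
    split_ifs <;> simp_all
    rename_i h1 h2 h3
    rw [← map_add, h1, map_zero]
  map_smul' := by
    intro r P
    ext n
    simp only [finsetSum_coeff, coeff_monomial, Finset.sum_ite_eq', mem_support_iff,
      RingHom.id_apply, coeff_smul]
    by_cases h : P.coeff n = 0
    · simp [h]
    · by_cases hr : r = 0
      · simp [hr]
      · have : r • P.coeff n ≠ 0 := smul_ne_zero hr h
        simp [h, this]
  map_one_eq_zero' := by
    change (∑ i ∈ (1 : K[X]).support, monomial i (d ((1 : K[X]).coeff i))) = 0
    apply Finset.sum_eq_zero
    intro i _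
    rw [coeff_one]
    split_ifs <;> simp
  leibniz' := by
    intro P Q
    have key : ∀ R : K[X], ∀ n, (∑ i ∈ R.support, monomial i (d (R.coeff i)) : K[X]).coeff n =
        d (R.coeff n) := by
      intro R n
      simp only [finsetSum_coeff, coeff_monomial, Finset.sum_ite_eq', mem_support_iff]
      split_ifs with h
      · rfl
      · rw [show R.coeff n = 0 by simpa using h, map_zero]
    ext n
    change (∑ i ∈ (P * Q).support, monomial i (d ((P * Q).coeff i)) : K[X]).coeff n = _
    rw [key, coeff_mul, map_sum]
    simp only [smul_eq_mul, coeff_add]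
    rw [coeff_mul, coeff_mul, ← Finset.Nat.sum_antidiagonal_swap (n := n) (f := fun x : ℕ × ℕ =>
      Q.coeff x.1 * _), ← Finset.sum_add_distrib]
    apply Finset.sum_congr rfl
    rintro ⟨a, b⟩ _
    change _ = P.coeff a * (∑ i ∈ Q.support, monomial i (d (Q.coeff i)) : K[X]).coeff b +
      Q.coeff b * (∑ i ∈ P.support, monomial i (d (P.coeff i)) : K[X]).coeff a
    rw [key, key, Derivation.leibniz]
    simp

theorem mc_coeff {K : Type} [Field K] [Algebra k K] (d : Derivation k K K) (P : K[X]) (n : ℕ) :
    (mc d P).coeff n = d (P.coeff n) := by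
  change (∑ i ∈ P.support, monomial i (d (P.coeff i)) : K[X]).coeff n = _
  simp only [finsetSum_coeff, coeff_monomial, Finset.sum_ite_eq', mem_support_iff]
  split_ifs with h
  · rfl
  · rw [show P.coeff n = 0 by simpa using h, map_zero]

theorem mc_C {K : Type} [Field K] [Algebra k K] (d : Derivation k K K) (a : K) :
    mc d (C a) = C (d a) := by
  ext n
  rw [mc_coeff, coeff_C, coeff_C]
  split_ifs <;> simp

theorem mc_X {K : Type} [Field K] [Algebra k K] (d : Derivation k K K) : mc d (X : K[X]) = 0 := by
  ext n
  rw [mc_coeff, coeff_X]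
  split_ifs <;> simp

theorem mc_derivative {K : Type} [Field K] [Algebra k K] (d : Derivation k K K) (P : K[X]) :
    derivative (mc d P) = mc d (derivative P) := by
  ext n
  rw [coeff_derivative, mc_coeff, mc_coeff, coeff_derivative, Derivation.leibniz]
  have h1 : d ((n : K) + 1) = 0 := by
    have := d.map_natCast (n + 1)
    rwa [Nat.cast_add, Nat.cast_one] at this
  rw [h1]
  simp [mul_comm]

end Pool.Agent.LNDF
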