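import Mathlib
import Pool.Agent.LNDF.Defs

set_option autoImplicit false

open Polynomial

namespace Pool.Agent.LNDF

section Gauss

variable {R : Type} [CommRing R] [IsDomain R] [IsGCDMonoid R]

open scoped nonZeroDivisors in
/-- up to a unit, every non-zero polynomial over the field of fractions is the image of a primitive
polynomial -/
theorem exists_primitive_assoc (G : (FractionRing R)[X]) (hG : G ≠ 0) :
    ∃ g : R[X], g.IsPrimitive ∧ Associated (g.map (algebraMap R (FractionRing R))) G := by
  have : NormalizedGCDMonoid R := Nonempty.some inferInstance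
  obtain ⟨b, hb, hb2⟩ := IsLocalization.integerNormalization_spec (R⁰) G
  set h := IsLocalization.integerNormalization (R⁰) G with hh
  have hb0 : b ≠ 0 := nonZeroDivisors.ne_zero hb
  have hinj : Function.Injective (algebraMap R (FractionRing R)) :=
    IsFractionRing.injective R (FractionRing R)
  have hbK : algebraMap R (FractionRing R) b ≠ 0 := fun h0 => hb0 (hinj (by rw [h0, map_zero]))
  have h0 : h ≠ 0 := by
    intro h0
    rw [h0, Polynomial.map_zero] at hb2
    have h1 : C (algebraMap R (FractionRing R) b) * G = 0 := by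
      rw [Polynomial.C_mul', hb2]
      rw [algebraMap_smul]
    exact hG (by simpa [hbK, C_eq_zero] using h1)
  have hc0 : h.content ≠ 0 := fun h1 => h0 (content_eq_zero_iff.1 h1)
  have hcK : algebraMap R (FractionRing R) h.content ≠ 0 :=
    fun h1 => hc0 (hinj (by rw [h1, map_zero]))
  refine ⟨h.primPart, h.isPrimitive_primPart, ?_⟩
  have h2 : C (algebraMap R (FractionRing R) h.content) *
      h.primPart.map (algebraMap R (FractionRing R)) = C (algebraMap R (FractionRing R) b) * G := by
    rw [← Polynomial.map_C, ← Polynomial.map_mul, ← h.eq_C_content_mul_primPart, hb2,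
      Polynomial.C_mul', algebraMap_smul]
  have h3 : Associated (h.primPart.map (algebraMap R (FractionRing R)))
      (C (algebraMap R (FractionRing R) h.content) *
        h.primPart.map (algebraMap R (FractionRing R))) :=
    (associated_unit_mul_left _ _ (isUnit_C.2 (isUnit_iff_ne_zero.2 hcK))).symm
  have h4 : Associated (C (algebraMap R (FractionRing R) b) * G) G :=
    associated_unit_mul_left _ _ (isUnit_C.2 (isUnit_iff_ne_zero.2 hbK))
  rw [h2] at h3
  exact h3.trans h4

attribute [local instance] Polynomial.algebra Polynomial.isLocalization in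
open scoped nonZeroDivisors in
/-- an ideal of `R[X]` contained in no principal prime ideal contains a non-zero constant -/
theorem exists_C_mem (J : Ideal R[X]) (hJ : ∀ P : R[X], Prime P → ∃ a ∈ J, ¬ P ∣ a)
    (hne : J ≠ ⊥) : ∃ r : R, r ≠ 0 ∧ C r ∈ J := by
  have hinj : Function.Injective (algebraMap R (FractionRing R)) :=
    IsFractionRing.injective R (FractionRing R)
  have hmap : ∀ p : R[X], algebraMap R[X] (FractionRing R)[X] p =
      p.map (algebraMap R (FractionRing R)) := fun p => rfl
  set J' : Ideal (FractionRing R)[X] := J.map (algebraMap R[X] (FractionRing R)[X]) with hJ'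
  obtain ⟨G, hG⟩ : ∃ G, J' = Ideal.span {G} := by
    obtain ⟨G, hG⟩ := (IsPrincipalIdealRing.principal J').principal
    exact ⟨G, hG⟩
  have hmem : ∀ a ∈ J, G ∣ a.map (algebraMap R (FractionRing R)) := by
    intro a ha
    have h1 : algebraMap R[X] (FractionRing R)[X] a ∈ J' := Ideal.mem_map_of_mem _ ha
    rw [hG, Ideal.mem_span_singleton, hmap] at h1
    exact h1
  have hG0 : G ≠ 0 := by
    intro h0
    apply hne
    rw [eq_bot_iff]
    intro a ha
    have h1 := hmem a ha
    rw [h0, zero_dvd_iff] at h1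
    rw [Ideal.mem_bot]
    exact Polynomial.map_injective _ hinj (by rw [h1, Polynomial.map_zero])
  by_cases hu : IsUnit G
  · have h1 : (1 : (FractionRing R)[X]) ∈ J' := by
      rw [hG, Ideal.span_singleton_eq_top.2 hu]
      trivial
    rw [hJ', IsLocalization.mem_map_algebraMap_iff (R⁰.map (C : R →+* R[X]))] at h1
    obtain ⟨⟨⟨a, ha⟩, ⟨m, hm⟩⟩, h2⟩ := h1
    obtain ⟨r, hr, rfl⟩ := hm
    rw [one_mul] at h2
    simp only [hmap] at h2
    have h3 := Polynomial.map_injective _ hinj h2
    refine ⟨r, nonZeroDivisors.ne_zero hr, ?_⟩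
    rw [h3]
    exact ha
  · exfalso
    obtain ⟨G', hG', hdvd⟩ := WfDvdMonoid.exists_irreducible_factor hu hG0
    obtain ⟨g, hg, hgG⟩ := exists_primitive_assoc G' hG'.ne_zero
    have hgp : Prime (g.map (algebraMap R (FractionRing R))) := hgG.symm.prime hG'.prime
    have hgprime : Prime g := by
      refine ⟨hg.ne_zero, fun h1 => hgp.not_isUnit (h1.map (mapRingHom _)), ?_⟩
      intro a b hab
      have h1 : g.map (algebraMap R (FractionRing R)) ∣
          a.map (algebraMap R (FractionRing R)) * b.map (algebraMap R (FractionRing R)) := by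
        rw [← Polynomial.map_mul]
        exact Polynomial.map_dvd _ hab
      rcases hgp.dvd_or_dvd h1 with h2 | h2
      · exact Or.inl (hg.dvd_of_fraction_map_dvd_fraction_map h2)
      · exact Or.inr (hg.dvd_of_fraction_map_dvd_fraction_map h2)
    obtain ⟨a, ha, hna⟩ := hJ g hgprime
    apply hna
    apply hg.dvd_of_fraction_map_dvd_fraction_map (K := FractionRing R)
    exact (hgG.dvd.trans hdvd).trans (hmem a ha)

end Gauss

variable {k : Type} [Field k]

theorem exists_poly_mem_aux (e : A2 k ≃ₐ[k] (MvPolynomial (Fin 1) k)[X]) (i : Fin 2)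
    (he : e (MvPolynomial.X i) = C (MvPolynomial.X 0))
    (J : Ideal (A2 k)) (hJ : ∀ P : A2 k, Prime P → ∃ a ∈ J, ¬ P ∣ a)
    (hne : J ≠ ⊥) : ∃ R : k[X], R ≠ 0 ∧ aeval (MvPolynomial.X i : A2 k) R ∈ J := by
  have h0 : ∃ r : MvPolynomial (Fin 1) k, r ≠ 0 ∧
      C r ∈ J.comap (e.symm : (MvPolynomial (Fin 1) k)[X] →+* A2 k) := by
    apply exists_C_mem
    · intro P hP
      have hP' : Prime (e.symm P) :=
        (MulEquiv.prime_iff (e.symm : (MvPolynomial (Fin 1) k)[X] ≃* A2 k)).2 hP
      obtain ⟨a, ha, hna⟩ := hJ _ hP'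
      refine ⟨e a, ?_, ?_⟩
      · rw [Ideal.mem_comap]
        simpa using ha
      · intro h1
        apply hna
        have h2 := map_dvd (e.symm : (MvPolynomial (Fin 1) k)[X] →+* A2 k) h1
        simpa using h2
    · intro h1
      apply hne
      rw [eq_bot_iff]
      intro a ha
      have h2 : e a ∈ J.comap (e.symm : (MvPolynomial (Fin 1) k)[X] →+* A2 k) := by
        rw [Ideal.mem_comap]
        simpa using ha
      rw [h1, Ideal.mem_bot] at h2
      rw [Ideal.mem_bot]
      simpa using h2
  obtain ⟨r, hr0, hr⟩ := h0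
  have h1 : ∀ s : MvPolynomial (Fin 1) k, e.symm (C s) =
      aeval (MvPolynomial.X i : A2 k) (MvPolynomial.aeval (fun _ : Fin 1 => (X : k[X])) s) := by
    intro s
    have h2 : ((e.symm : (MvPolynomial (Fin 1) k)[X] →ₐ[k] A2 k).comp
        (IsScalarTower.toAlgHom k (MvPolynomial (Fin 1) k) (MvPolynomial (Fin 1) k)[X])) =
        (aeval (MvPolynomial.X i : A2 k)).comp
          (MvPolynomial.aeval (fun _ : Fin 1 => (X : k[X]))) := by
      apply MvPolynomial.algHom_ext
      intro j
      have hj : j = 0 := Subsingleton.elim _ _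
      subst hj
      have h3 : e.symm (C (MvPolynomial.X 0)) = MvPolynomial.X i := by
        rw [← he, AlgEquiv.symm_apply_apply]
      simp only [AlgHom.comp_apply, IsScalarTower.coe_toAlgHom', MvPolynomial.aeval_X, aeval_X]
      exact h3
    exact congrArg (fun φ => φ s) h2
  refine ⟨MvPolynomial.aeval (fun _ : Fin 1 => (X : k[X])) r, ?_, ?_⟩
  · intro h2
    have h3 := h1 r
    rw [h2, map_zero] at h3
    apply hr0
    have h4 : C r = 0 := by
      have := congrArg e h3
      simpa using this
    exact C_eq_zero.1 h4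
  · rw [← h1]
    exact hr

/-- An ideal of `k[X0,X1]` which is contained in no principal prime ideal contains a non-zero
polynomial in `X i` alone. Proof (`i = 0`; the other by symmetry): in `k(X0)[X1]` (a PID) the ideal
generated by `J` is principal; if it is not `(1)`, its generator can be taken primitive in `k[X0][X1]`
and of positive degree (`Polynomial.IsPrimitive.dvd_iff_fraction_map_dvd_fraction_map`), so it divides
all of `J`, and so does a prime factor. -/
theorem exists_poly_mem (J : Ideal (A2 k)) (hJ : ∀ P : A2 k, Prime P → ∃ a ∈ J, ¬ P ∣ a)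
    (hne : J ≠ ⊥) (i : Fin 2) : ∃ R : k[X], R ≠ 0 ∧ aeval (MvPolynomial.X i : A2 k) R ∈ J := by
  fin_cases i
  · apply exists_poly_mem_aux
      ((MvPolynomial.renameEquiv k (Equiv.swap (0 : Fin 2) 1)).trans (MvPolynomial.finSuccEquiv k 1))
      0 ?_ J hJ hne
    rw [AlgEquiv.trans_apply]
    have h1 : MvPolynomial.renameEquiv k (Equiv.swap (0 : Fin 2) 1) (MvPolynomial.X 0) =
        MvPolynomial.X (Fin.succ 0) := by
      simp
    rw [h1, MvPolynomial.finSuccEquiv_X_succ]
  · refine exists_poly_mem_aux (MvPolynomial.finSuccEquiv k 1) 1 ?_ J hJ hne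
    have h1 : (MvPolynomial.X 1 : A2 k) = MvPolynomial.X (Fin.succ 0) := by
      congr 1
    rw [h1, MvPolynomial.finSuccEquiv_X_succ]

/-- split off the power of `X i` -/
theorem exists_pow_mem (J : Ideal (A2 k)) (hJ : ∀ P : A2 k, Prime P → ∃ a ∈ J, ¬ P ∣ a)
    (hne : J ≠ ⊥) (i : Fin 2) : ∃ (s : ℕ) (e : A2 k), MvPolynomial.constantCoeff e ≠ 0 ∧
      e * MvPolynomial.X i ^ s ∈ J := by
  obtain ⟨R, hR, hRJ⟩ := exists_poly_mem J hJ hne i
  obtain ⟨q, hq, hnd⟩ := exists_eq_pow_rootMultiplicity_mul_and_not_dvd R hR 0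
  refine ⟨rootMultiplicity 0 R, aeval (MvPolynomial.X i : A2 k) q, ?_, ?_⟩
  · intro h1
    apply hnd
    rw [dvd_iff_isRoot, IsRoot.def]
    have h2 : (MvPolynomial.constantCoeff : A2 k →+* k) (aeval (MvPolynomial.X i : A2 k) q) =
        q.eval 0 := by
      have h3 := aeval_algHom_apply (MvPolynomial.aeval (0 : Fin 2 → k)) (MvPolynomial.X i : A2 k) q
      simpa [MvPolynomial.aeval_zero, coe_aeval_eq_eval] using h3.symm
    rw [← h2, h1]
  · rw [hq] at hRJ
    rw [map_mul, map_pow] at hRJ
    simp only [map_zero, sub_zero, aeval_X] at hRJ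
    rw [mul_comm]
    exact hRJ

end Pool.Agent.LNDF
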