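import Mathlib
import Pool.Agent.LNDHom.Main

set_option autoImplicit false

open TensorProduct

namespace Pool.Agent.LNDF

open Pool.Agent.LNDHom Pool.Agent.LNDHom.LocData

variable {V Λ : Type*} [CommRing V] [IsDomain V] [CommRing Λ] [IsDomain Λ] [Algebra V Λ]
  {D : Derivation V Λ Λ} {p : V}

theorem exists_np (h : LocData V Λ D p) : ∃ n, ¬ algebraMap V Λ p ∣ D (h.q n) := by
  by_contra hc
  push Not at hc
  obtain ⟨x, hx⟩ := h.ndvd
  apply hx
  rw [← h.basis.linearCombination_repr x, Finsupp.linearCombination_apply, Finsupp.sum, map_sum]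
  apply Finset.dvd_sum
  intro i _
  rw [Derivation.map_smul, h.basis_apply, Algebra.smul_def]
  exact Dvd.dvd.mul_left (hc i) _

open Classical in
/-- the least degree in which `D` does not vanish modulo `p` -/
noncomputable def np (h : LocData V Λ D p) : ℕ := Nat.find (exists_np h)

theorem np_spec (h : LocData V Λ D p) : ¬ algebraMap V Λ p ∣ D (h.q (np h)) := by
  classical
  exact Nat.find_spec (exists_np h)

theorem np_min (h : LocData V Λ D p) {n : ℕ} (hn : n < np h) :
    algebraMap V Λ p ∣ D (h.q n) := by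
  classical
  have h1 := Nat.find_min (exists_np h) hn
  push Not at h1
  exact h1

/-- everything of degree `< np` is constant modulo `p` -/
theorem np_min' (h : LocData V Λ D p) {n : ℕ} (hn : n ≤ np h) {x : Λ} (hx : (⇑D)^[n] x = 0) :
    algebraMap V Λ p ∣ D x := by
  have h1 := h.mem_span n x hx
  clear hx
  induction h1 using Submodule.span_induction with
  | mem x hx =>
    obtain ⟨i, hi, rfl⟩ := hx
    exact np_min h (lt_of_lt_of_le hi hn)
  | zero => simp
  | add x y _ _ h2 h3 => rw [map_add]; exact dvd_add h2 h3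
  | smul a x _ h2 =>
    rw [Derivation.map_smul, Algebra.smul_def]
    exact Dvd.dvd.mul_left h2 _

theorem e_zero (h : LocData V Λ D p) : h.e 0 = 0 := by
  have h1 := h.e_dvd 0 1 1 (by simp)
  by_contra h2
  have h3 : p ∣ p ^ h.e 0 := dvd_pow_self p h2
  exact h.nu (isUnit_of_dvd_one (h3.trans h1))

theorem np_pos (h : LocData V Λ D p) : 0 < np h := by
  rcases Nat.eq_zero_or_pos (np h) with h0 | h0
  · exfalso
    have h1 := np_spec h
    rw [h0] at h1
    apply h1
    have h2 := h.iter_succ_q 0
    rw [zero_add, Function.iterate_one] at h2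
    rw [h2]
    exact dvd_zero _
  · exact h0

/-- superadditivity (`LNDHom.Main`) -/
theorem le_e_add (h : LocData V Λ D p) (i j : ℕ) : h.e i + h.e j ≤ h.e (i + j + 1) := by
  have h1 := h.main i j (h.q (i + j + 1)) _ (h.iter_q _)
  exact (pow_dvd_pow_iff h.ne h.nu).mp h1

/-- subadditivity -/
theorem e_add_le (h : LocData V Λ D p) (i j : ℕ) : h.e (i + j) ≤ h.e i + h.e j := by
  have h1 := (iter_mul_top D (i + j) i j (h.q i) (h.q j) rfl (h.iter_succ_q i)
    (h.iter_succ_q j)).1
  rw [h.iter_q, h.iter_q] at h1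
  have h2 := h.e_dvd (i + j) (h.q i * h.q j) (((i + j).choose i : ℕ) * (p ^ h.e i * p ^ h.e j))
    (by rw [h1]; simp)
  have h3 : IsUnit (((i + j).choose i : ℕ) : V) := h.unit _ (by
    exact (Nat.choose_pos (by omega)).ne')
  rw [h3.dvd_mul_left, ← pow_add] at h2
  exact (pow_dvd_pow_iff h.ne h.nu).mp h2

end Pool.Agent.LNDF
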