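import Mathlib
import Pool.Agent.LNDHom.LocB
import Pool.Agent.LNDF.NpDefs

set_option autoImplicit false

namespace Pool.Agent.LNDF

open Pool.Agent.LNDHom

variable {k B : Type} [Field k] [CommRing B] [IsDomain B] [Algebra k B]

/-- `c` is a greatest common divisor of the image ideal of degree `n` of `D` -/
structure IsCC (D : Derivation k B B) (n : ℕ) (c : B) : Prop where
  ne : c ≠ 0
  const : D c = 0
  dvd : ∀ x, (⇑D)^[n + 1] x = 0 → c ∣ (⇑D)^[n] x
  sharp : ∀ p : B, Prime p → ∃ x, (⇑D)^[n + 1] x = 0 ∧ ¬ c * p ∣ (⇑D)^[n] x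

/-- the number `n_p`: the least `n` such that some `x` of `D`-degree `≤ n` has `p ∤ D x`
(zero if there is none) -/
noncomputable def npB (D : Derivation k B B) (p : B) : ℕ :=
  sInf {n : ℕ | ∃ x, (⇑D)^[n + 1] x = 0 ∧ ¬ p ∣ D x}

/-- the arithmetic of the image ideals up to degree `N` -/
structure Arith (D : Derivation k B B) where
  N : ℕ
  N_pos : 0 < N
  cc : ℕ → B
  isCC : ∀ n, IsCC D n (cc n)
  npN : ∀ p : B, Prime p → D p = 0 → npB D p ∣ N
  compl : ∀ l < N, Associated (cc l * cc (N - 1 - l)) (cc N)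
  mulN : ∀ j, 0 < j → Associated (cc (j * N)) (cc N ^ j) ∧ Associated (cc (j * N - 1)) (cc N ^ j)
  sat : ∀ Q δ : B, D δ = 0 → (⇑D)^[N] Q = cc N * δ → ∀ p : B, Prime p → D p = 0 → ¬ p ∣ δ →
    ∀ s t : B, (⇑D)^[N] t = 0 → p ∣ s * Q + t → p ∣ s ∧ p ∣ t

end Pool.Agent.LNDF
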