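import Mathlib
import Pool.Agent.LNDF.ArDefs
import Pool.Agent.LNDHom.Gr

set_option autoImplicit false

namespace Pool.Agent.LNDF

open Pool.Agent.LNDHom

variable {k B : Type} [Field k] [CommRing B] [IsDomain B] [Algebra k B]

/-- the kernel of a locally nilpotent derivation of a domain of characteristic zero is factorially
closed (top terms: `iter_mul_top`, `exists_top`) -/
theorem const_of_dvd [CharZero k] (D : Derivation k B B) (hln : ∀ x, ∃ n, (⇑D)^[n] x = 0)
    {a c : B} (ha : D a = 0) (ha0 : a ≠ 0) (h : c ∣ a) : D c = 0 := by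
  obtain ⟨d, rfl⟩ := h
  exact fact_closed D hln c d ha ha0

/-- for every `n` there is an element of degree exactly `n` (power of a local slice) -/
theorem exists_deg [CharZero k] (D : Derivation k B B) (hD : ∃ x, D x ≠ 0)
    (hln : ∀ x, ∃ n, (⇑D)^[n] x = 0) (n : ℕ) : ∃ x, (⇑D)^[n] x ≠ 0 ∧ (⇑D)^[n + 1] x = 0 := by
  have hchar : CharZero B := charZero_of_injective_algebraMap (algebraMap k B).injective
  obtain ⟨x, hx⟩ := hD
  obtain ⟨m, hm1, hm2⟩ := exists_top D hx (hln (D x))
  have e1 : D ((⇑D)^[m] x) = (⇑D)^[m] (D x) := by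
    rw [← Function.iterate_succ_apply' (⇑D) m x, Function.iterate_succ_apply]
  have e2 : D (D ((⇑D)^[m] x)) = 0 := by
    rw [e1, ← Function.iterate_succ_apply' (⇑D) m (D x)]
    exact hm2
  obtain ⟨h1, h2⟩ := pow_top D e2 n
  refine ⟨((⇑D)^[m] x) ^ n, ?_, h2⟩
  rw [h1, e1]
  exact mul_ne_zero (by exact_mod_cast Nat.factorial_ne_zero n) (pow_ne_zero n hm1)

/-- greatest common divisors exist: take a common divisor `c` of all `D^n x` (`D^(n+1) x = 0`)
which is maximal for divisibility (they all divide one nonzero element, `WfDvdMonoid`) -/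
theorem exists_cc [CharZero k] [UniqueFactorizationMonoid B] (D : Derivation k B B)
    (hD : ∃ x, D x ≠ 0) (hln : ∀ x, ∃ n, (⇑D)^[n] x = 0) (n : ℕ) : ∃ c, IsCC D n c := by
  obtain ⟨x0, hx0, hx1⟩ := exists_deg D hD hln n
  have ha : D ((⇑D)^[n] x0) = 0 := by
    rw [← Function.iterate_succ_apply' (⇑D) n x0]
    exact hx1
  set a0 := (⇑D)^[n] x0 with ha0
  set T : Set B := {e | ∃ c, (∀ x, (⇑D)^[n + 1] x = 0 → c ∣ (⇑D)^[n] x) ∧ a0 = c * e} with hT
  have hne : T.Nonempty := ⟨a0, 1, fun x _ => one_dvd _, by rw [one_mul]⟩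
  obtain ⟨e, ⟨c, hc, hce⟩, hmin⟩ := (IsWellFounded.wf : WellFounded (DvdNotUnit (α := B))).has_min T hne
  have hc0 : c ≠ 0 := by
    rintro rfl
    rw [zero_mul] at hce
    exact hx0 hce
  have he0 : e ≠ 0 := by
    rintro rfl
    rw [mul_zero] at hce
    exact hx0 hce
  refine ⟨c, hc0, const_of_dvd D hln ha hx0 ⟨e, hce⟩, hc, fun p hp => ?_⟩
  by_contra hcon
  push Not at hcon
  obtain ⟨e', he'⟩ := hcon x0 hx1
  have h1 : e' ∈ T := ⟨c * p, hcon, he'⟩
  apply hmin e' h1
  have h2 : e = p * e' := by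
    apply mul_left_cancel₀ hc0
    rw [← hce, ← mul_assoc]
    exact he'
  have he'0 : e' ≠ 0 := by
    rintro rfl
    rw [mul_zero] at h2
    exact he0 h2
  exact ⟨he'0, p, hp.not_isUnit, by rw [h2, mul_comm]⟩

omit [IsDomain B] in
theorem dvd_of_primes [IsDomain B] [UniqueFactorizationMonoid B] {a b : B} (ha : a ≠ 0)
    (hb : b ≠ 0) (h : ∀ p : B, Prime p → ∀ j : ℕ, p ^ j ∣ a → p ^ j ∣ b) : a ∣ b := by
  induction a using UniqueFactorizationMonoid.induction_on_prime generalizing b with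
  | h₁ => exact absurd rfl ha
  | h₂ x hx => exact hx.dvd
  | h₃ a p ha' hp ih =>
    obtain ⟨b', rfl⟩ : p ∣ b := by
      have := h p hp 1 (by rw [pow_one]; exact dvd_mul_right p a)
      rwa [pow_one] at this
    apply mul_dvd_mul_left
    have hb' : b' ≠ 0 := right_ne_zero_of_mul hb
    apply ih ha' hb'
    intro q hq j hqa
    by_cases hqp : q ∣ p
    · obtain ⟨u, hu⟩ := hqp
      have huu : IsUnit u := (hp.irreducible.isUnit_or_isUnit hu).resolve_left hq.not_isUnit
      have h1 : q ^ (j + 1) ∣ p * a := by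
        rw [pow_succ, mul_comm (q ^ j) q]
        exact mul_dvd_mul ⟨u, hu⟩ hqa
      have h2 := h q hq (j + 1) h1
      rw [pow_succ, mul_comm (q ^ j) q, hu, mul_assoc] at h2
      have h3 := (mul_dvd_mul_iff_left hq.ne_zero).1 h2
      exact (huu.dvd_mul_left).1 h3
    · have h1 : q ^ j ∣ p * b' := h q hq j (Dvd.dvd.mul_left hqa p)
      exact hq.pow_dvd_of_dvd_mul_left j hqp h1

/-- two constants with the same prime powers as divisors are associated -/
theorem assoc_of_primes [UniqueFactorizationMonoid B] {a b : B} (ha : a ≠ 0) (hb : b ≠ 0)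
    (h : ∀ p : B, Prime p → ∀ j : ℕ, p ^ j ∣ a ↔ p ^ j ∣ b) : Associated a b := by
  exact associated_of_dvd_dvd (dvd_of_primes ha hb fun p hp j => (h p hp j).1)
    (dvd_of_primes hb ha fun p hp j => (h p hp j).2)

end Pool.Agent.LNDF
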