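import Mathlib
import Pool.Agent.LNDF.Ar1

set_option autoImplicit false

namespace Pool.Agent.LNDF

open Pool.Agent.LNDHom

variable {k B : Type} [Field k] [CommRing B] [IsDomain B] [Algebra k B]

/-- the value of the local derivation on a fraction -/
private theorem derV_iter_mk (D : Derivation k B B) {p : B} (hp : Prime p) (b : B)
    (s : locM D p hp) (n : ℕ) :
    (⇑(derV D p hp))^[n] (IsLocalization.mk' _ b s) = IsLocalization.mk' _ ((⇑D)^[n] b) s := by
  rw [derV_iter, derL_iter_mk]

/-- the exponents of the local data at `p` are the multiplicities of `p` in the `cc n`.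
(`key` in the proof of `LNDHom.loc_prime` is one half; for the other clear denominators of `h.q n`.)-/
theorem loc_e [CharZero k] [UniqueFactorizationMonoid B] (D : Derivation k B B) {p : B}
    (hp : Prime p) (hDp : D p = 0) (hln : ∀ x, ∃ n, (⇑D)^[n] x = 0) (hnd : ∃ x, ¬ p ∣ D x)
    {n : ℕ} {c : B} (hc : IsCC D n c) (j : ℕ) :
    p ^ j ∣ c ↔ j ≤ (locData D p hp hDp hln hnd).e n := by
  set hL := locData D p hp hDp hln hnd with hhL
  constructor
  · intro hj
    obtain ⟨b, σ, hb⟩ := IsLocalization.exists_mk'_eq (locM D p hp) (hL.q n)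
    have h1 := hL.iter_q n
    rw [← hb, derV_iter_mk] at h1
    have h2 : IsLocalization.mk' (Loc D p hp) ((⇑D)^[n] b) σ =
        IsLocalization.mk' (Loc D p hp) (p ^ hL.e n) (1 : locM D p hp) := by
      rw [h1, IsLocalization.mk'_one (M := locM D p hp), map_pow, map_pow]
      rfl
    rw [IsLocalization.mk'_eq_iff_eq] at h2
    have h3 := Loc.inj D p hp h2
    have h4 : (⇑D)^[n] b = (σ : B) * p ^ hL.e n := by simpa using h3
    have h5 : (⇑D)^[n + 1] b = 0 := by
      have h6 : D (p ^ hL.e n * (σ : B)) = p ^ hL.e n * D (σ : B) := D_pow_mul D hDp _ _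
      rw [Function.iterate_succ_apply', h4, mul_comm, h6, σ.2.1, mul_zero]
    have h6 : p ^ j ∣ (σ : B) * p ^ hL.e n := by
      rw [← h4]
      exact hj.trans (hc.dvd b h5)
    have h7 := hp.pow_dvd_of_dvd_mul_left _ σ.2.2 h6
    exact (pow_dvd_pow_iff hp.ne_zero hp.not_isUnit).1 h7
  · intro hj
    -- all values are divisible by `p ^ e`
    have key : ∀ x, (⇑D)^[n + 1] x = 0 → p ^ hL.e n ∣ (⇑D)^[n] x := by
      intro x hx
      have hDx : D ((⇑D)^[n] x) = 0 := by
        rw [← Function.iterate_succ_apply' (⇑D)]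
        exact hx
      obtain ⟨w, hw⟩ := hL.e_dvd n (algebraMap B _ x)
        ⟨algebraMap B _ ((⇑D)^[n] x), by rw [mem_kerAlg, derL_alg, hDx, map_zero]⟩ (by
          rw [← IsLocalization.mk'_one (M := locM D p hp), derV_iter_mk, IsLocalization.mk'_one]
          rfl)
      have h2 := congrArg Subtype.val hw
      have h3 : algebraMap B (Loc D p hp) ((⇑D)^[n] x) =
          (algebraMap B (Loc D p hp) p) ^ hL.e n * (w : Loc D p hp) := h2
      obtain ⟨c, σ, hcσ⟩ := IsLocalization.exists_mk'_eq (locM D p hp) (w : Loc D p hp)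
      rw [← hcσ, ← map_pow, ← IsLocalization.mk'_one (M := locM D p hp),
        ← IsLocalization.mk'_one (M := locM D p hp) (Loc D p hp) (p ^ hL.e n),
        ← IsLocalization.mk'_mul, one_mul, IsLocalization.mk'_eq_iff_eq] at h3
      have h4 := Loc.inj D p hp h3
      have h5 : p ^ hL.e n ∣ (σ : B) * (⇑D)^[n] x := ⟨c, by rw [h4]; simp⟩
      exact hp.pow_dvd_of_dvd_mul_left _ σ.2.2 h5
    obtain ⟨a, c', hpc', hc'⟩ := WfDvdMonoid.max_power_factor hc.ne hp.irreducible
    by_contra hcon
    have ha : a < j := by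
      by_contra h
      push Not at h
      apply hcon
      rw [hc']
      exact Dvd.dvd.mul_right (pow_dvd_pow p h) _
    obtain ⟨x, hx, hx'⟩ := hc.sharp p hp
    apply hx'
    obtain ⟨y, hy⟩ := hc.dvd x hx
    have h1 : p ^ (a + 1) ∣ (⇑D)^[n] x := (pow_dvd_pow p (by omega)).trans (key x hx)
    rw [hy, hc', mul_assoc, pow_succ] at h1
    have h2 := (mul_dvd_mul_iff_left (pow_ne_zero a hp.ne_zero)).1 h1
    rcases hp.dvd_or_dvd h2 with h3 | h3
    · exact absurd h3 hpc'
    · rw [hy]
      exact mul_dvd_mul_left c h3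

theorem np_eq [CharZero k] [UniqueFactorizationMonoid B] (D : Derivation k B B) {p : B}
    (hp : Prime p) (hDp : D p = 0) (hln : ∀ x, ∃ n, (⇑D)^[n] x = 0) (hnd : ∃ x, ¬ p ∣ D x) :
    np (locData D p hp hDp hln hnd) = npB D p := by
  set hL := locData D p hp hDp hln hnd with hhL
  have hmem : np hL ∈ {n : ℕ | ∃ x, (⇑D)^[n + 1] x = 0 ∧ ¬ p ∣ D x} := by
    obtain ⟨b, σ, hb⟩ := IsLocalization.exists_mk'_eq (locM D p hp) (hL.q (np hL))
    refine ⟨b, ?_, ?_⟩
    · have h1 := hL.iter_succ_q (np hL)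
      rw [← hb, derV_iter_mk] at h1
      exact mk_eq_zero D p hp _ _ h1
    · intro h1
      apply np_spec hL
      rw [← hb]
      have h2 : derV D p hp (IsLocalization.mk' _ b σ) = IsLocalization.mk' _ (D b) σ :=
        derL_mk D p hp b σ
      rw [h2]
      exact (dvd_mk_iff D p hp hDp _ _).2 h1
  apply le_antisymm
  · apply le_csInf ⟨_, hmem⟩
    rintro n ⟨x, hx, hpx⟩
    by_contra hcon
    push Not at hcon
    apply hpx
    have h1 := np_min' hL (n := n + 1) (by omega) (x := algebraMap B _ x) (by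
      rw [← IsLocalization.mk'_one (M := locM D p hp), derV_iter_mk, hx]
      exact IsLocalization.mk'_zero _)
    have h2 : algebraMap B (Loc D p hp) p ∣ IsLocalization.mk' _ (D x) (1 : locM D p hp) := by
      rw [IsLocalization.mk'_one, ← derL_alg]
      exact h1
    exact (dvd_mk_iff D p hp hDp _ _).1 h2
  · exact Nat.sInf_le hmem

/-- if `p` does not divide `D r` for some `r` with `D (D r) = 0` then `n_p = 1` -/
theorem npB_one [CharZero k] [UniqueFactorizationMonoid B] (D : Derivation k B B) {p : B}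
    {r : B} (hr : D (D r) = 0) (hpr : ¬ p ∣ D r) : npB D p = 1 := by
  apply le_antisymm
  · exact Nat.sInf_le ⟨r, hr, hpr⟩
  · have hS : {n : ℕ | ∃ x, (⇑D)^[n + 1] x = 0 ∧ ¬ p ∣ D x}.Nonempty := ⟨1, r, hr, hpr⟩
    apply le_csInf hS
    rintro n ⟨x, hx, hpx⟩
    rcases Nat.eq_zero_or_pos n with rfl | h
    · exfalso
      apply hpx
      have h1 : D x = 0 := hx
      rw [h1]
      exact dvd_zero _
    · exact h

end Pool.Agent.LNDF
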