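import Mathlib
import Pool.Agent.LNDF.NpDefs

set_option autoImplicit false
set_option linter.unusedSectionVars false

open TensorProduct

namespace Pool.Agent.LNDF

open Pool.Agent.LNDHom Pool.Agent.LNDHom.LocData

section general

variable {κ R : Type*} [CommRing κ] [IsDomain κ] [CommRing R] [IsDomain R] [Algebra κ R]

private theorem npa_iter (E : Derivation κ R R) {t m : R} (ht : E (E t) = 0) (hm : E m = 0)
    (j : ℕ) : (⇑E)^[j] (t ^ j * m) = (j.factorial : R) * (E t) ^ j * m ∧
      (⇑E)^[j + 1] (t ^ j * m) = 0 := by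
  have h1 := pow_top E ht j
  have h2 := iter_mul_top E j j 0 (t ^ j) m (add_zero j) h1.2 (by simpa using hm)
  refine ⟨?_, h2.2⟩
  rw [h2.1, h1.1, Nat.choose_self, Nat.cast_one, one_mul, Function.iterate_zero, id]

private theorem npa_pow_zero (E : Derivation κ R R) {x : R} {n : ℕ} (hx : (⇑E)^[n + 1] x = 0)
    (j : ℕ) : (⇑E)^[j * n + 1] (x ^ j) = 0 := by
  induction j with
  | zero => simp
  | succ j ih =>
    have h1 := (iter_mul_top E ((j + 1) * n) (j * n) n (x ^ j) x (by ring) ih hx).2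
    rw [pow_succ]
    exact h1

private theorem npa_indep [CharZero R] (E : Derivation κ R R) {t : R} (ht0 : E t ≠ 0)
    (ht : E (E t) = 0) {n : ℕ} {f : ℕ → R} (hf : ∀ i < n, E (f i) = 0)
    (hli : LinearIndependent κ f) (a : ℕ) :
    LinearIndependent κ (fun ji : Fin a × Fin n => t ^ (ji.1 : ℕ) * f ji.2) := by
  classical
  rw [Fintype.linearIndependent_iff]
  intro g hg
  by_contra hcon
  push Not at hcon
  obtain ⟨⟨j₀, i₀⟩, h0⟩ := hcon
  let S := (Finset.univ : Finset (Fin a)).filter (fun j => ∃ i, g (j, i) ≠ 0)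
  have hne : S.Nonempty := ⟨j₀, by
    rw [Finset.mem_filter]
    exact ⟨Finset.mem_univ _, i₀, h0⟩⟩
  let J := S.max' hne
  have hJ : J ∈ S := S.max'_mem hne
  obtain ⟨i₁, hi₁⟩ := (Finset.mem_filter.mp hJ).2
  rw [Fintype.sum_prod_type] at hg
  have h1 : (⇑E)^[(J : ℕ)] (∑ j : Fin a, ∑ i : Fin n, g (j, i) • (t ^ (j : ℕ) * f i)) = 0 := by
    rw [hg, iterate_map_zero]
  rw [sum_iter, Finset.sum_eq_single J] at h1
  · rw [sum_iter] at h1
    have h2 : ∀ i : Fin n, (⇑E)^[(J : ℕ)] (g (J, i) • (t ^ (J : ℕ) * f i)) =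
        (((J : ℕ).factorial : R) * (E t) ^ (J : ℕ)) * (g (J, i) • f i) := by
      intro i
      rw [smul_iter, (npa_iter E ht (hf i i.2) J).1, mul_smul_comm]
    rw [Finset.sum_congr rfl fun i _ => h2 i, ← Finset.mul_sum] at h1
    rcases mul_eq_zero.mp h1 with h3 | h3
    · rcases mul_eq_zero.mp h3 with h4 | h4
      · exact Nat.factorial_ne_zero _ (by exact_mod_cast h4)
      · exact ht0 (eq_zero_of_pow_eq_zero h4)
    · have h5 := hli.comp (fun i : Fin n => (i : ℕ)) Fin.val_injective
      rw [Fintype.linearIndependent_iff] at h5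
      exact hi₁ (h5 (fun i => g (J, i)) h3 i₁)
  · intro j _ hj
    rw [sum_iter]
    refine Finset.sum_eq_zero fun i _ => ?_
    rw [smul_iter]
    by_cases hjS : j ∈ S
    · have hle : j ≤ J := S.le_max' j hjS
      have hlt : (j : ℕ) + 1 ≤ J := by
        have : j < J := lt_of_le_of_ne hle hj
        exact this
      rw [iter_zero_of_le E (npa_iter E ht (hf i i.2) j).2 hlt, smul_zero]
    · have : g (j, i) = 0 := by
        by_contra h6
        exact hjS (Finset.mem_filter.mpr ⟨Finset.mem_univ _, i, h6⟩)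
      rw [this, zero_smul]
  · intro h2
    exact absurd (Finset.mem_univ _) h2

end general

variable {V Λ : Type*} [CommRing V] [IsDomain V] [CommRing Λ] [IsDomain Λ] [Algebra V Λ]
  {D : Derivation V Λ Λ} {p : V}

private theorem npa_mk_eq_zero (h : LocData V Λ D p) (x : Λ) :
    (Ideal.Quotient.mk _ x : h.res) = 0 ↔ algebraMap V Λ p ∣ x := by
  rw [Ideal.Quotient.eq_zero_iff_mem, mem_map_iff]

private theorem npa_dbar_low (h : LocData V Λ D p) {i : ℕ} (hi : i < np h) :
    h.dbar (Ideal.Quotient.mk _ (h.q i)) = 0 := by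
  rw [dbar_mk, npa_mk_eq_zero h]
  exact np_min h hi

private theorem npa_dbar_np (h : LocData V Λ D p) :
    h.dbar (Ideal.Quotient.mk _ (h.q (np h))) ≠ 0 := by
  rw [dbar_mk, Ne, npa_mk_eq_zero h]
  exact np_spec h

private theorem npa_dbar2_np (h : LocData V Λ D p) :
    h.dbar (h.dbar (Ideal.Quotient.mk _ (h.q (np h)))) = 0 := by
  rw [dbar_mk, dbar_mk, npa_mk_eq_zero h]
  refine np_min' h le_rfl ?_
  rw [← Function.iterate_succ_apply]
  exact h.iter_succ_q _

private theorem npa_bar (h : LocData V Λ D p) (a : ℕ) (ha : 0 < a) (x : h.res)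
    (hx : x ∈ h.F (a * np h - 1)) : (⇑h.dbar)^[a] x = 0 := by
  classical
  have hmax := h.isMax
  have hpr := h.isPrime
  have hc := h.kap_charZero
  let _ : Field h.kap := h.kapField
  have _ : IsDomain h.res := Ideal.Quotient.isDomain _
  have hcR : CharZero h.res :=
    charZero_of_injective_algebraMap (algebraMap h.kap h.res).injective
  by_contra hne
  have hn := np_pos h
  have han : 0 < a * np h := Nat.mul_pos ha hn
  let θ : ℕ → h.res := fun i => Ideal.Quotient.mk _ (h.q i)
  let v : Fin a × Fin (np h) → h.res := fun ji => θ (np h) ^ (ji.1 : ℕ) * θ ji.2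
  have hv : LinearIndependent h.kap v :=
    npa_indep h.dbar (npa_dbar_np h) (npa_dbar2_np h) (f := θ) (fun i hi => npa_dbar_low h hi)
      h.res_linInd a
  have hvF : ∀ ji, v ji ∈ h.F (a * np h - 1) := by
    rintro ⟨j, i⟩
    refine (h.mem_F _ _).2 ⟨h.q (np h) ^ (j : ℕ) * h.q i, ?_, by rw [map_mul, map_pow]⟩
    have h1 := (iter_mul_top D ((j : ℕ) * np h + i) ((j : ℕ) * np h) i (h.q (np h) ^ (j : ℕ))
      (h.q i) rfl (npa_pow_zero D (h.iter_succ_q _) j) (h.iter_succ_q i)).2
    refine iter_zero_of_le D h1 ?_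
    have h2 : ((j : ℕ) + 1) * np h ≤ a * np h := Nat.mul_le_mul_right _ j.2
    have h3 := i.2
    rw [add_mul, one_mul] at h2
    omega
  have hv0 : ∀ ji, (⇑h.dbar)^[a] (v ji) = 0 := by
    rintro ⟨j, i⟩
    exact iter_zero_of_le _ (npa_iter h.dbar (npa_dbar2_np h) (npa_dbar_low h i.2) j).2 j.2
  have hx' : x ∉ Submodule.span h.kap (Set.range v) := by
    intro hmem
    apply hne
    clear hx hne
    induction hmem using Submodule.span_induction with
    | mem y hy =>
      obtain ⟨ji, rfl⟩ := hy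
      exact hv0 ji
    | zero => rw [iterate_map_zero]
    | add y z _ _ h1 h2 => rw [iterate_map_add, h1, h2, add_zero]
    | smul c y _ h1 => rw [smul_iter, h1, smul_zero]
  have h1 := LinearIndependent.option hv hx'
  let w : Option (Fin a × Fin (np h)) → h.F (a * np h - 1) := fun o =>
    ⟨Option.casesOn' o x v, by
      cases o with
      | none => exact hx
      | some ji => exact hvF ji⟩
  have h2 : LinearIndependent h.kap w := LinearIndependent.of_comp (Submodule.subtype _) h1
  have hfin : FiniteDimensional h.kap (h.F (a * np h - 1)) := by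
    unfold F
    exact FiniteDimensional.span_finset _ _
  have h3 := h2.fintype_card_le_finrank
  have h4 : Module.finrank h.kap (h.F (a * np h - 1)) ≤ a * np h - 1 + 1 := by
    unfold F
    refine (finrank_span_finset_le_card _).trans ?_
    refine Finset.card_image_le.trans ?_
    simp
  rw [Fintype.card_option, Fintype.card_prod, Fintype.card_fin, Fintype.card_fin] at h3
  omega

/-- (F1) In the special fibre `h.res` (a domain, `dbar`), with `θ_i = q_i mod p`, `n = np h`,
`θ = θ_n`: `dbar θ_i = 0` for `i < n`, `dbar θ ≠ 0`, `dbar (dbar θ) = 0` (`D q_n` has degree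
`< n`, `np_min'`). The `a * n` elements `θ^j θ_i` (`j < a`, `i < n`) are linearly independent over
`h.kap` (apply powers of `dbar` to a relation, top `j` first: `dbar^j (θ^j m) = j! (dbar θ)^j m`)
and lie in `h.F (a n - 1)`, which is spanned by `a n` elements; so they span it and `dbar^a` is zero
on it. (`mem_F`, `dbar_iter`, `res_linInd`.) -/
theorem dvd_iter (h : LocData V Λ D p) (a : ℕ) (x : Λ) (hx : (⇑D)^[a * np h] x = 0) :
    algebraMap V Λ p ∣ (⇑D)^[a] x := by
  rcases Nat.eq_zero_or_pos a with h0 | h0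
  · subst h0
    rw [zero_mul, Function.iterate_zero, id] at hx
    rw [hx, iterate_map_zero]
    exact dvd_zero _
  · rw [← npa_mk_eq_zero h, ← dbar_iter]
    refine npa_bar h a h0 _ ((h.mem_F _ _).2 ⟨x, ?_, rfl⟩)
    have h1 : 0 < a * np h := Nat.mul_pos h0 (np_pos h)
    rw [Nat.sub_add_cancel h1]
    exact hx

/-- (F2) `x` is a unit times `q_N` plus something of degree `< N`; if `dbar^a` killed `x`, it would
kill `h.F N`, in particular `θ^a`, but `dbar^a (θ^a) = a! (dbar θ)^a ≠ 0`. -/
theorem not_dvd_iter (h : LocData V Λ D p) (a : ℕ) (x : Λ) (u : V) (hu : IsUnit u)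
    (hx : (⇑D)^[a * np h] x = algebraMap V Λ (p ^ h.e (a * np h) * u)) :
    ¬ algebraMap V Λ p ∣ (⇑D)^[a] x := by
  intro hdvd
  set N := a * np h with hN
  -- `q_N`
  have h1 : algebraMap V Λ p ∣ (⇑D)^[a] (h.q N) := by
    have h2 : (⇑D)^[N] (x - u • h.q N) = 0 := by
      rw [iterate_map_sub, smul_iter, h.iter_q, hx, Algebra.smul_def, map_mul]
      ring
    have h3 := dvd_iter h a _ h2
    rw [iterate_map_sub, smul_iter] at h3
    have h4 : algebraMap V Λ p ∣ u • (⇑D)^[a] (h.q N) := by
      have := dvd_sub hdvd h3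
      rwa [sub_sub_cancel] at this
    rw [Algebra.smul_def] at h4
    exact ((hu.map (algebraMap V Λ)).dvd_mul_left).mp h4
  -- `q_n ^ a`
  set Q := h.q (np h) with hQ
  have h2 : (⇑D)^[N + 1] (Q ^ a) = 0 := npa_pow_zero D (h.iter_succ_q _) a
  obtain ⟨v, hv⟩ := h.ker ((⇑D)^[N] (Q ^ a)) (by rw [← Function.iterate_succ_apply' (⇑D), h2])
  obtain ⟨w, hw⟩ := h.e_dvd N _ v hv.symm
  have h3 : (⇑D)^[N] (Q ^ a - w • h.q N) = 0 := by
    rw [iterate_map_sub, smul_iter, h.iter_q, ← hv, hw, Algebra.smul_def, map_mul]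
    ring
  have h4 := dvd_iter h a _ h3
  rw [iterate_map_sub, smul_iter] at h4
  have h5 : algebraMap V Λ p ∣ (⇑D)^[a] (Q ^ a) := by
    have h6 : algebraMap V Λ p ∣ w • (⇑D)^[a] (h.q N) := by
      rw [Algebra.smul_def]
      exact Dvd.dvd.mul_left h1 _
    have := dvd_add h4 h6
    rwa [sub_add_cancel] at this
  have hmax := h.isMax
  have hpr := h.isPrime
  have hc := h.kap_charZero
  let _ : Field h.kap := h.kapField
  have _ : IsDomain h.res := Ideal.Quotient.isDomain _
  have hcR : CharZero h.res :=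
    charZero_of_injective_algebraMap (algebraMap h.kap h.res).injective
  rw [← npa_mk_eq_zero h, ← dbar_iter h, map_pow, (pow_top h.dbar (npa_dbar2_np h) a).1] at h5
  rcases mul_eq_zero.mp h5 with h7 | h7
  · exact Nat.factorial_ne_zero a (by exact_mod_cast h7)
  · exact npa_dbar_np h (eq_zero_of_pow_eq_zero h7)

/-- (F3) division with remainder by `x` is saturated at `p`. In `h.res`: `s x + t = 0`; if `s ≠ 0`
let `d` be its top `dbar`-degree (`exists_top`); `dbar^(a+d) (s x) = binomial * dbar^d s * dbar^a x ≠ 0`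
(`iter_mul_top`; `dbar^(a+1) x = 0` by `dvd_iter` for `a + 1`, as `1 ≤ np h`), but
`dbar^(a+d) t = 0` by `dvd_iter`. -/
theorem div_sat (h : LocData V Λ D p) (a : ℕ) (x : Λ) (u : V) (hu : IsUnit u)
    (hx : (⇑D)^[a * np h] x = algebraMap V Λ (p ^ h.e (a * np h) * u)) (s t : Λ)
    (ht : (⇑D)^[a * np h] t = 0) (hd : algebraMap V Λ p ∣ s * x + t) :
    algebraMap V Λ p ∣ s ∧ algebraMap V Λ p ∣ t := by
  have hmax := h.isMax
  have hpr := h.isPrime
  have hc := h.kap_charZero
  let _ : Field h.kap := h.kapField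
  have _ : IsDomain h.res := Ideal.Quotient.isDomain _
  have hcR : CharZero h.res :=
    charZero_of_injective_algebraMap (algebraMap h.kap h.res).injective
  have hs : algebraMap V Λ p ∣ s := by
    by_contra hs
    rw [← npa_mk_eq_zero h] at hs hd
    obtain ⟨d, hd1, hd2⟩ := exists_top h.dbar hs (by
      obtain ⟨n, hn⟩ := h.lnd s
      exact ⟨n, by rw [dbar_iter, hn, map_zero]⟩)
    have hx1 : (⇑h.dbar)^[a] (Ideal.Quotient.mk _ x) ≠ 0 := by
      rw [dbar_iter, Ne, npa_mk_eq_zero h]
      exact not_dvd_iter h a x u hu hx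
    have hx2 : (⇑h.dbar)^[a + 1] (Ideal.Quotient.mk _ x) = 0 := by
      rw [dbar_iter, npa_mk_eq_zero h]
      refine dvd_iter h (a + 1) x ?_
      have h1 : (⇑D)^[a * np h + 1] x = 0 := by
        rw [Function.iterate_succ_apply', hx, Derivation.map_algebraMap]
      refine iter_zero_of_le D h1 ?_
      have := np_pos h
      rw [add_mul, one_mul]
      omega
    have ht1 : (⇑h.dbar)^[a] (Ideal.Quotient.mk _ t) = 0 := by
      rw [dbar_iter, npa_mk_eq_zero h]
      exact dvd_iter h a t ht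
    have h1 := (iter_mul_top h.dbar (d + a) d a _ _ rfl hd2 hx2).1
    have h2 : (⇑h.dbar)^[d + a] (Ideal.Quotient.mk _ s * Ideal.Quotient.mk _ x) = 0 := by
      have h3 : (Ideal.Quotient.mk _ s * Ideal.Quotient.mk _ x : h.res) =
          - Ideal.Quotient.mk _ t := by
        rw [map_add, map_mul] at hd
        exact eq_neg_of_add_eq_zero_left hd
      rw [h3, iterate_map_neg, iter_zero_of_le h.dbar ht1 (by omega), neg_zero]
    rw [h2] at h1
    rcases mul_eq_zero.mp h1.symm with h3 | h3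
    · have h4 : (d + a).choose d = 0 := by exact_mod_cast h3
      exact (Nat.choose_pos (by omega : d ≤ d + a)).ne' h4
    · rcases mul_eq_zero.mp h3 with h4 | h4
      · exact hd1 h4
      · exact hx1 h4
  refine ⟨hs, ?_⟩
  have h1 : t = (s * x + t) - s * x := by ring
  rw [h1]
  exact dvd_sub hd (Dvd.dvd.mul_right hs x)

end Pool.Agent.LNDF
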