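import Mathlib
import Pool.Agent.LNDF.NpDefs

set_option autoImplicit false

open TensorProduct

namespace Pool.Agent.LNDF

open Pool.Agent.LNDHom Pool.Agent.LNDHom.LocData

variable {V Λ : Type*} [CommRing V] [IsDomain V] [CommRing Λ] [IsDomain Λ] [Algebra V Λ]
  {D : Derivation V Λ Λ} {p : V}

/-- `z` is a nonzerodivisor of `Λ ⊗ Λ`: if `z t = 0`, `t ≠ 0`, let `m` be maximal with
`D1^m t ≠ 0` (`D1_lnd`, `exists_top`); `iter_const_mul (D1 D) D1_z`: `D1^(m+1) (z t) =
z D1^(m+1) t + (m+1) p^(e 1) D1^m t`, so `D1^m t = 0` by `tfree`. -/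
theorem z_cancel (h : LocData V Λ D p) (t : Λ ⊗[V] Λ) (ht : h.z * t = 0) : t = 0 := by
  by_contra hne
  obtain ⟨m, hm1, hm2⟩ := exists_top (D1 D) hne (D1_lnd D h.lnd t)
  have h1 := iter_const_mul (D1 D) h.D1_z t m
  rw [ht, iterate_map_zero, hm2, mul_zero, zero_add, smul_smul] at h1
  apply hm1
  exact h.tfree _ (mul_ne_zero (h.unit _ (by omega)).ne_zero (h.ppow_ne _)) _ h1.symm

/-- multiplication law of divided differences: `(x ⊗ 1 - 1 ⊗ x) w_y = (y ⊗ 1 - 1 ⊗ y) w_x` -/
theorem w_comm (h : LocData V Λ D p) {x y : Λ} {w v : Λ ⊗[V] Λ}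
    (hw : h.z * w = p ^ h.e 1 • (x ⊗ₜ 1 - 1 ⊗ₜ x))
    (hv : h.z * v = p ^ h.e 1 • (y ⊗ₜ 1 - 1 ⊗ₜ y)) :
    (y ⊗ₜ 1 - 1 ⊗ₜ y) * w = v * (x ⊗ₜ 1 - 1 ⊗ₜ x) := by
  rw [← sub_eq_zero]
  apply z_cancel h
  have h1 : h.z * ((y ⊗ₜ[V] (1 : Λ) - 1 ⊗ₜ y) * w) =
      (y ⊗ₜ[V] (1 : Λ) - 1 ⊗ₜ y) * (h.z * w) := by ring
  have h2 : h.z * (v * (x ⊗ₜ[V] (1 : Λ) - 1 ⊗ₜ x)) =
      (h.z * v) * (x ⊗ₜ[V] (1 : Λ) - 1 ⊗ₜ x) := by ring
  rw [mul_sub, h1, h2, hw, hv, mul_smul_comm, smul_mul_assoc, sub_self]

/-- the product map sends `w` to `D x`: `relU` with `a = 0`, then the product map kills `z` -/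
theorem w_mul (h : LocData V Λ D p) {x : Λ} {w : Λ ⊗[V] Λ}
    (hw : h.z * w = p ^ h.e 1 • (x ⊗ₜ 1 - 1 ⊗ₜ x)) :
    Algebra.TensorProduct.lmul' (S := Λ) V w = D x := by
  have h1 := congrArg (Algebra.TensorProduct.lmul' (S := Λ) V) (h.relU hw 0)
  have hz : Algebra.TensorProduct.lmul' (S := Λ) V h.z = 0 := by
    unfold z
    rw [map_sub, Algebra.TensorProduct.lmul'_apply_tmul, Algebra.TensorProduct.lmul'_apply_tmul]
    ring
  rw [map_add, map_mul, hz, zero_mul, zero_add, map_smul, map_smul, map_smul,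
    Algebra.TensorProduct.lmul'_apply_tmul, mul_one] at h1
  simp only [zero_add, Nat.cast_one, Function.iterate_one, Function.iterate_zero,
    id_eq, Algebra.smul_def, map_one, one_mul] at h1
  exact mul_left_cancel₀ (h.pne _) h1

namespace NpB

/-- the image of degree `< m` -/
noncomputable def G (h : LocData V Λ D p) (m : ℕ) : Submodule h.kap h.res :=
  Submodule.span h.kap (Set.range (fun j : Fin m => (Ideal.Quotient.mk _ (h.q j) : h.res)))

theorem mem_G (h : LocData V Λ D p) (m : ℕ) {y : Λ} (hy : (⇑D)^[m] y = 0) :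
    (Ideal.Quotient.mk _ y : h.res) ∈ G h m := by
  have h1 := h.mem_span m y hy
  clear hy
  induction h1 using Submodule.span_induction with
  | mem x hx =>
    obtain ⟨i, hi, rfl⟩ := hx
    exact Submodule.subset_span ⟨⟨i, hi⟩, rfl⟩
  | zero => rw [map_zero]; exact Submodule.zero_mem _
  | add x y _ _ hx' hy' =>
    rw [map_add]
    exact Submodule.add_mem _ hx' hy'
  | smul a x _ hx =>
    rw [Algebra.smul_def, ← Ideal.Quotient.mk_smul_mk_quotient_map_quotient]
    exact Submodule.smul_mem _ _ hx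

theorem flat (h : LocData V Λ D p) : Module.Flat V Λ :=
  have : Module.Free V Λ := Module.Free.of_basis h.basis
  inferInstance

omit [IsDomain V] [IsDomain Λ] in
theorem D2_pow (D : Derivation V Λ Λ) (m : ℕ) (t : Λ ⊗[V] Λ) :
    (⇑(D2 D))^[m] t = LinearMap.lTensor Λ ((D : Λ →ₗ[V] Λ) ^ m) t := by
  induction t using TensorProduct.induction_on with
  | zero => rw [iterate_map_zero, map_zero]
  | tmul a b =>
    rw [D2_iter_tmul, LinearMap.lTensor_tmul, Module.End.pow_apply]
    rfl
  | add x y hx hy => rw [iterate_map_add, hx, hy, map_add]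

omit [IsDomain V] [IsDomain Λ] in
theorem D1_pow (D : Derivation V Λ Λ) (m : ℕ) (t : Λ ⊗[V] Λ) :
    (⇑(D1 D))^[m] t = LinearMap.rTensor Λ ((D : Λ →ₗ[V] Λ) ^ m) t := by
  induction t using TensorProduct.induction_on with
  | zero => rw [iterate_map_zero, map_zero]
  | tmul a b =>
    rw [D1_iter_tmul, LinearMap.rTensor_tmul, Module.End.pow_apply]
    rfl
  | add x y hx hy => rw [iterate_map_add, hx, hy, map_add]

theorem ker_D2 (h : LocData V Λ D p) (m : ℕ) (t : Λ ⊗[V] Λ) (ht : (⇑(D2 D))^[m] t = 0) :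
    t ∈ Submodule.span V {s : Λ ⊗[V] Λ | ∃ x y : Λ, (⇑D)^[m] y = 0 ∧ s = x ⊗ₜ y} := by
  have := flat h
  set K := LinearMap.ker ((D : Λ →ₗ[V] Λ) ^ m) with hK
  have hex : Function.Exact K.subtype ((D : Λ →ₗ[V] Λ) ^ m) := by
    intro x
    constructor
    · intro hx
      exact ⟨⟨x, hx⟩, rfl⟩
    · rintro ⟨y, rfl⟩
      exact y.2
  rw [D2_pow] at ht
  obtain ⟨t', rfl⟩ := (Module.Flat.lTensor_exact Λ hex t).mp ht
  clear ht
  induction t' using TensorProduct.induction_on with
  | zero => rw [map_zero]; exact Submodule.zero_mem _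
  | tmul a b =>
    apply Submodule.subset_span
    refine ⟨a, b, ?_, rfl⟩
    have h1 : ((D : Λ →ₗ[V] Λ) ^ m) b.1 = 0 := b.2
    rw [Module.End.pow_apply] at h1
    exact h1
  | add x y hx hy => rw [map_add]; exact Submodule.add_mem _ hx hy

theorem ker_D1 (h : LocData V Λ D p) (m : ℕ) (t : Λ ⊗[V] Λ) (ht : (⇑(D1 D))^[m] t = 0) :
    t ∈ Submodule.span V {s : Λ ⊗[V] Λ | ∃ x y : Λ, (⇑D)^[m] x = 0 ∧ s = x ⊗ₜ y} := by
  have := flat h
  set K := LinearMap.ker ((D : Λ →ₗ[V] Λ) ^ m) with hK
  have hex : Function.Exact K.subtype ((D : Λ →ₗ[V] Λ) ^ m) := by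
    intro x
    constructor
    · intro hx
      exact ⟨⟨x, hx⟩, rfl⟩
    · rintro ⟨y, rfl⟩
      exact y.2
  rw [D1_pow] at ht
  obtain ⟨t', rfl⟩ := (Module.Flat.rTensor_exact Λ hex t).mp ht
  clear ht
  induction t' using TensorProduct.induction_on with
  | zero => rw [map_zero]; exact Submodule.zero_mem _
  | tmul a b =>
    apply Submodule.subset_span
    refine ⟨a, b, ?_, rfl⟩
    have h1 : ((D : Λ →ₗ[V] Λ) ^ m) a.1 = 0 := a.2
    rw [Module.End.pow_apply] at h1
    exact h1
  | add x y hx hy => rw [map_add]; exact Submodule.add_mem _ hx hy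

theorem redMap_smul (h : LocData V Λ D p) (a : V) (t : Λ ⊗[V] Λ) :
    h.redMap (a • t) = (Ideal.Quotient.mk _ a : h.kap) • h.redMap t := by
  induction t using TensorProduct.induction_on with
  | zero => simp
  | tmul x y =>
    rw [TensorProduct.smul_tmul', redMap_tmul, redMap_tmul, TensorProduct.smul_tmul']
    congr 1
  | add x y hx hy => rw [smul_add, map_add, hx, hy, map_add, smul_add]

/-- the functional `φ ⊗ id` -/
noncomputable def fid (h : LocData V Λ D p) (φ : h.res →ₗ[h.kap] h.kap) :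
    h.res ⊗[h.kap] h.res →ₗ[h.kap] h.res :=
  (TensorProduct.lid h.kap h.res).toLinearMap ∘ₗ LinearMap.rTensor h.res φ

theorem fid_tmul (h : LocData V Λ D p) (φ : h.res →ₗ[h.kap] h.kap) (a b : h.res) :
    fid h φ (a ⊗ₜ b) = φ a • b := by
  simp [fid]

theorem fid_mem (h : LocData V Λ D p) (m : ℕ) (t : Λ ⊗[V] Λ) (ht : (⇑(D2 D))^[m] t = 0)
    (φ : h.res →ₗ[h.kap] h.kap) : fid h φ (h.redMap t) ∈ G h m := by
  have h1 := ker_D2 h m t ht
  clear ht
  induction h1 using Submodule.span_induction with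
  | mem s hs =>
    obtain ⟨x, y, hy, rfl⟩ := hs
    rw [redMap_tmul, fid_tmul]
    exact Submodule.smul_mem _ _ (mem_G h m hy)
  | zero => rw [map_zero, map_zero]; exact Submodule.zero_mem _
  | add x y _ _ hx hy => rw [map_add, map_add]; exact Submodule.add_mem _ hx hy
  | smul a x _ hx =>
    rw [redMap_smul, map_smul]
    exact Submodule.smul_mem _ _ hx

theorem dbar_zero (h : LocData V Λ D p) {x : Λ} (hx : (⇑D)^[np h] x = 0) :
    h.dbar (Ideal.Quotient.mk _ x : h.res) = 0 := by
  rw [dbar_mk, Ideal.Quotient.eq_zero_iff_mem, mem_map_iff]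
  exact np_min' h le_rfl hx

theorem D1bar (h : LocData V Λ D p) (t : Λ ⊗[V] Λ) (ht : (⇑(D1 D))^[np h] t = 0) :
    D1 h.dbar (h.redMap t) = 0 := by
  have h1 := ker_D1 h _ t ht
  clear ht
  induction h1 using Submodule.span_induction with
  | mem s hs =>
    obtain ⟨x, y, hx, rfl⟩ := hs
    rw [redMap_tmul, D1_tmul, dbar_zero h hx, TensorProduct.zero_tmul]
  | zero => rw [map_zero, map_zero]
  | add x y _ _ hx hy => rw [map_add, map_add, hx, hy, add_zero]
  | smul a x _ hx => rw [redMap_smul, Derivation.map_smul, hx, smul_zero]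

theorem redMap_diff (h : LocData V Λ D p) (y : Λ) :
    h.redMap (y ⊗ₜ 1 - 1 ⊗ₜ y) = (Ideal.Quotient.mk _ y : h.res) ⊗ₜ (1 : h.res) -
      (1 : h.res) ⊗ₜ (Ideal.Quotient.mk _ y : h.res) := by
  rw [map_sub, redMap_tmul, redMap_tmul, map_one]

end NpB

open NpB

/-- (F5) `e (np - 1) = e (np)`. -/
theorem e_np (h : LocData V Λ D p) : h.e (np h - 1) = h.e (np h) := by
  classical
  have hmax := h.isMax
  have hpr := h.isPrime
  let _ : Field h.kap := h.kapField
  have _ : IsDomain h.res := Ideal.Quotient.isDomain _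
  have hfree : Module.Free h.kap h.res := Module.Free.of_basis h.resBasis
  have hflat : Module.Flat h.kap h.res := Module.Flat.of_free
  have hn := np_pos h
  apply le_antisymm
  · have h1 := le_e_add h (np h - 1) 0
    rw [e_zero, add_zero, show np h - 1 + 0 + 1 = np h by omega] at h1
    exact h1
  by_contra hlt
  push Not at hlt
  set n := np h with hnn
  obtain ⟨w, hw⟩ := h.exists_w (h.q n)
  have hQ : (⇑D)^[n - 1 + 1] (h.q n) = algebraMap V Λ (p ^ h.e n) := by
    rw [show n - 1 + 1 = n by omega]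
    exact h.iter_q n
  obtain ⟨-, γ, hγ, h2⟩ := h.U_prop hw hQ (n - 1) le_rfl
  rw [Nat.sub_self, Function.iterate_zero, id_eq] at h2
  -- subtract the last term
  set w' := w - (γ * p ^ (h.e n - h.e (n - 1))) • ((1 : Λ) ⊗ₜ[V] h.q (n - 1)) with hw'
  have h3 : (⇑(D2 D))^[n - 1] w' = 0 := by
    rw [hw', iterate_map_sub, h2, iter_smul2, D2_iter_tmul, h.iter_q,
      Algebra.algebraMap_eq_smul_one, TensorProduct.tmul_smul, smul_smul, mul_assoc, ← pow_add,
      show h.e n - h.e (n - 1) + h.e (n - 1) = h.e n by omega]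
    exact sub_self _
  have h4 : h.redMap w = h.redMap w' := by
    rw [hw', map_sub, redMap_smul]
    have h5 : (Ideal.Quotient.mk (Ideal.span {p}) (γ * p ^ (h.e n - h.e (n - 1))) : h.kap) = 0 := by
      rw [Ideal.Quotient.eq_zero_iff_mem, Ideal.mem_span_singleton]
      exact Dvd.dvd.mul_left (dvd_pow_self p (by omega)) _
    rw [h5, zero_smul, sub_zero]
  have h5 : ∀ φ, fid h φ (h.redMap w) ∈ G h (n - 1) := fun φ => by
    rw [h4]; exact fid_mem h (n - 1) w' h3 φ
  -- derivative
  have h6 : D1 h.dbar (h.redMap w) = 0 := by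
    apply D1bar
    exact h.U_zero hw (h.iter_succ_q n)
  -- `nu`
  set ν := h.dbar (Ideal.Quotient.mk _ (h.q n) : h.res) with hν
  have hν0 : ν ≠ 0 := by
    intro h0
    rw [hν, dbar_mk, Ideal.Quotient.eq_zero_iff_mem, mem_map_iff] at h0
    exact np_spec h h0
  have h7 : ∀ y : Λ, (⇑D)^[n] y = 0 → ((Ideal.Quotient.mk _ y : h.res) ⊗ₜ (1 : h.res) -
      (1 : h.res) ⊗ₜ (Ideal.Quotient.mk _ y : h.res)) * h.redMap w = 0 := by
    intro y hy
    obtain ⟨v, hv⟩ := h.exists_w y
    have h8 := congrArg h.redMap (w_comm h hw hv)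
    rw [map_mul, map_mul, redMap_diff, redMap_diff] at h8
    have h9 : D1 h.dbar (h.redMap v) = 0 := by
      apply D1bar
      apply h.U_zero hv
      rw [Function.iterate_succ_apply', ← hnn, hy, map_zero]
    have h10 := congrArg (D1 h.dbar) h8
    rw [Derivation.leibniz, Derivation.leibniz, h6, h9, map_sub, map_sub, D1_tmul, D1_tmul,
      D1_tmul, D1_tmul, dbar_zero h hy, Derivation.map_one_eq_zero, TensorProduct.zero_tmul,
      TensorProduct.zero_tmul, TensorProduct.zero_tmul, sub_zero, sub_zero, smul_zero, smul_zero,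
      smul_zero, zero_add, add_zero, ← hν] at h10
    have h11 : ∀ t : h.res ⊗[h.kap] h.res, t • (ν ⊗ₜ (1 : h.res)) =
        LinearMap.rTensor h.res (LinearMap.mulLeft h.kap ν) t := by
      intro t
      rw [smul_eq_mul]
      induction t using TensorProduct.induction_on with
      | zero => simp
      | tmul a b =>
        rw [Algebra.TensorProduct.tmul_mul_tmul, mul_one, LinearMap.rTensor_tmul,
          LinearMap.mulLeft_apply, mul_comm]
      | add x y hx hy => rw [add_mul, hx, hy, map_add]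
    have hinj : Function.Injective (LinearMap.rTensor h.res (LinearMap.mulLeft h.kap ν)) :=
      Module.Flat.rTensor_preserves_injective_linearMap _ (fun a b hab =>
        mul_left_cancel₀ hν0 hab)
    have h12 : h.redMap v = 0 := by
      apply hinj
      rw [← h11, map_zero]
      exact h10.symm
    rw [h8, h12, zero_mul]
  have h8 : h.redMap w ≠ 0 := by
    intro h0
    obtain ⟨w1, hw1⟩ := h.redMap_ker w h0
    have h9 := w_mul h hw
    rw [hw1, map_smul, Algebra.smul_def] at h9
    exact np_spec h ⟨_, h9.symm⟩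
  -- a functional
  obtain ⟨φ, hφ⟩ : ∃ φ, fid h φ (h.redMap w) ≠ 0 := by
    by_contra hcon
    push Not at hcon
    apply h8
    obtain ⟨b, hb⟩ := TensorProduct.eq_repr_basis_left h.resBasis (h.redMap w)
    rw [← hb]
    have hb0 : b = 0 := by
      ext i
      have h9 := hcon (h.resBasis.coord i)
      rw [← hb, Finsupp.sum, map_sum, Finset.sum_eq_single i] at h9
      · rw [fid_tmul] at h9
        simpa using h9
      · intro j _ hj
        rw [fid_tmul]
        simp [hj]
      · intro hi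
        rw [Finsupp.notMem_support_iff.mp hi, TensorProduct.tmul_zero, map_zero]
    rw [hb0, Finsupp.sum_zero_index]
  set μ := fid h φ (h.redMap w) with hμ
  have h9 : ∀ m ∈ G h n, m * μ ∈ G h (n - 1) := by
    intro m hm
    induction hm using Submodule.span_induction with
    | mem x hx =>
      obtain ⟨j, rfl⟩ := hx
      have h10 := h7 (h.q j) (iter_zero_of_le D (h.iter_succ_q j) j.2)
      rw [sub_mul, sub_eq_zero] at h10
      set θ := (Ideal.Quotient.mk _ (h.q j) : h.res) with hθ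
      have h11 : ∀ t : h.res ⊗[h.kap] h.res, fid h φ (((1 : h.res) ⊗ₜ θ) * t) =
          θ * fid h φ t := by
        intro t
        induction t using TensorProduct.induction_on with
        | zero => simp
        | tmul a b =>
          rw [Algebra.TensorProduct.tmul_mul_tmul, one_mul, fid_tmul, fid_tmul, mul_smul_comm]
        | add x y hx hy => rw [mul_add, map_add, hx, hy, map_add, mul_add]
      have h12 : ∀ t : h.res ⊗[h.kap] h.res, fid h φ ((θ ⊗ₜ (1 : h.res)) * t) =
          fid h (φ ∘ₗ LinearMap.mulLeft h.kap θ) t := by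
        intro t
        induction t using TensorProduct.induction_on with
        | zero => simp
        | tmul a b =>
          rw [Algebra.TensorProduct.tmul_mul_tmul, one_mul, fid_tmul, fid_tmul]
          rfl
        | add x y hx hy => rw [mul_add, map_add, hx, hy, map_add]
      rw [hμ, ← h11, ← h10, h12]
      exact h5 _
    | zero => rw [zero_mul]; exact Submodule.zero_mem _
    | add x y _ _ hx hy => rw [add_mul]; exact Submodule.add_mem _ hx hy
    | smul a x _ hx => rw [smul_mul_assoc]; exact Submodule.smul_mem _ _ hx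
  -- dimensions
  have hfr : ∀ m, Module.finrank h.kap (G h m) = m := by
    intro m
    unfold G
    rw [finrank_span_eq_card]
    · simp
    · exact h.res_linInd.comp _ Fin.val_injective
  have hfd : ∀ m, FiniteDimensional h.kap (G h m) := by
    intro m
    unfold G
    exact FiniteDimensional.span_of_finite _ (Set.finite_range _)
  have := hfd (n - 1)
  let L : G h n →ₗ[h.kap] G h (n - 1) :=
    ((LinearMap.mulRight h.kap μ).domRestrict (G h n)).codRestrict (G h (n - 1))
      (fun m => h9 m.1 m.2)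
  have hL : Function.Injective L := by
    intro a b hab
    have h10 := congrArg Subtype.val hab
    exact Subtype.ext (mul_right_cancel₀ hφ h10)
  have h11 := LinearMap.finrank_le_finrank_of_injective hL
  rw [hfr, hfr] at h11
  omega

end Pool.Agent.LNDF
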