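import Mathlib
import Pool.Agent.LNDF.NpB

set_option autoImplicit false

open TensorProduct

namespace Pool.Agent.LNDF

open Pool.Agent.LNDHom Pool.Agent.LNDHom.LocData

variable {V Λ : Type*} [CommRing V] [IsDomain V] [CommRing Λ] [IsDomain Λ] [Algebra V Λ]
  {D : Derivation V Λ Λ} {p : V}

/-- (F6) induction on `a` from `e_np`, `le_e_add`, `e_add_le`:
`e ((a+1) n - 1) ≥ e (a n - 1) + e (n - 1)`, `e (a n - 1) ≤ e (a n) ≤ a e n`. -/
theorem e_mul (h : LocData V Λ D p) (a : ℕ) (ha : 0 < a) :
    h.e (a * np h - 1) = a * h.e (np h) ∧ h.e (a * np h) = a * h.e (np h) := by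
  have hn := np_pos h
  have h0 := e_np h
  induction a with
  | zero => exact absurd ha (lt_irrefl 0)
  | succ a ih =>
    rcases Nat.eq_zero_or_pos a with ha0 | ha0
    · subst ha0
      simp only [zero_add, one_mul]
      exact ⟨h0, trivial⟩
    · obtain ⟨h1, h2⟩ := ih ha0
      have hpos : 0 < a * np h := Nat.mul_pos ha0 hn
      have h3 := le_e_add h (a * np h - 1) (np h - 1)
      have h4 : a * np h - 1 + (np h - 1) + 1 = (a + 1) * np h - 1 := by
        rw [add_mul, one_mul]
        omega
      rw [h4, h1, h0] at h3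
      have h5 := le_e_add h ((a + 1) * np h - 1) 0
      have h6 : (a + 1) * np h - 1 + 0 + 1 = (a + 1) * np h := by
        have : 0 < (a + 1) * np h := Nat.mul_pos ha hn
        omega
      rw [h6, e_zero h, add_zero] at h5
      have h7 := e_add_le h (a * np h) (np h)
      have h8 : a * np h + np h = (a + 1) * np h := by ring
      rw [h8, h2] at h7
      have h9 : (a + 1) * h.e (np h) = a * h.e (np h) + h.e (np h) := by ring
      rw [h9]
      constructor <;> omega

/-- (F7) -/
theorem e_compl (h : LocData V Λ D p) (a : ℕ) (ha : 0 < a) (l : ℕ) (hl : l < a * np h) :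
    h.e l + h.e (a * np h - 1 - l) = h.e (a * np h) := by
  obtain ⟨h1, h2⟩ := e_mul h a ha
  have h3 := le_e_add h l (a * np h - 1 - l)
  have h4 : l + (a * np h - 1 - l) + 1 = a * np h := by omega
  rw [h4] at h3
  have h5 := e_add_le h l (a * np h - 1 - l)
  have h6 : l + (a * np h - 1 - l) = a * np h - 1 := by omega
  rw [h6] at h5
  omega

end Pool.Agent.LNDF
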