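import Mathlib
import Pool.Agent.LNDF.Ar2
import Pool.Agent.LNDF.NpA
import Pool.Agent.LNDF.NpC

set_option autoImplicit false

namespace Pool.Agent.LNDF

open Pool.Agent.LNDHom

section Mult

variable {B : Type} [CommRing B] [IsDomain B]

/-- the exact power of `p` in `a` is `α` -/
def Mu (p a : B) (α : ℕ) : Prop := ∀ j : ℕ, p ^ j ∣ a ↔ j ≤ α

omit [IsDomain B] in
theorem Mu.fac {p a : B} {α : ℕ} (h : Mu p a α) : ∃ a', a = p ^ α * a' ∧ ¬ p ∣ a' := by
  obtain ⟨a', ha⟩ := (h α).2 le_rfl
  refine ⟨a', ha, fun hp => ?_⟩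
  obtain ⟨c, hc⟩ := hp
  have h1 : p ^ (α + 1) ∣ a := ⟨c, by rw [ha, hc, pow_succ]; ring⟩
  have h2 := (h (α + 1)).1 h1
  omega

theorem Mu.of_fac {p a' : B} (hp : Prime p) (α : ℕ) (h : ¬ p ∣ a') : Mu p (p ^ α * a') α := by
  intro j
  constructor
  · intro hj
    by_contra hcon
    push Not at hcon
    obtain ⟨d, rfl⟩ : ∃ d, j = α + (d + 1) := ⟨j - α - 1, by omega⟩
    rw [pow_add] at hj
    have h1 := (mul_dvd_mul_iff_left (pow_ne_zero α hp.ne_zero)).1 hj
    exact h ((dvd_pow_self p (Nat.succ_ne_zero d)).trans h1)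
  · intro hj
    exact (pow_dvd_pow p hj).mul_right a'

theorem Mu.mul {p a b : B} {α β : ℕ} (hp : Prime p) (ha : Mu p a α) (hb : Mu p b β) :
    Mu p (a * b) (α + β) := by
  obtain ⟨a', rfl, ha'⟩ := ha.fac
  obtain ⟨b', rfl, hb'⟩ := hb.fac
  have h1 : p ^ α * a' * (p ^ β * b') = p ^ (α + β) * (a' * b') := by
    rw [pow_add]
    ring
  rw [h1]
  apply Mu.of_fac hp
  intro h
  rcases hp.dvd_or_dvd h with h | h
  · exact ha' h
  · exact hb' h

theorem Mu.pow {p a : B} {α : ℕ} (hp : Prime p) (ha : Mu p a α) (n : ℕ) :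
    Mu p (a ^ n) (n * α) := by
  induction n with
  | zero =>
    rw [pow_zero, zero_mul]
    have h1 : ¬ p ∣ (1 : B) := fun h => hp.not_isUnit (isUnit_of_dvd_one h)
    have h2 := Mu.of_fac hp 0 h1
    rwa [pow_zero, one_mul] at h2
  | succ n ih =>
    rw [pow_succ, add_mul, one_mul]
    exact ih.mul hp ha

omit [IsDomain B] in
theorem Mu.iff {p a b : B} {α : ℕ} (ha : Mu p a α) (hb : Mu p b α) (j : ℕ) :
    p ^ j ∣ a ↔ p ^ j ∣ b := by rw [ha, hb]

end Mult

variable {k B : Type} [Field k] [CommRing B] [IsDomain B] [Algebra k B]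

omit [IsDomain B] in
theorem npB_assoc (D : Derivation k B B) {p q : B} (h : Associated p q) : npB D p = npB D q := by
  unfold npB
  simp only [h.dvd_iff_dvd_left]

/-- association of constants: only the constant primes matter -/
theorem assoc_const [CharZero k] [UniqueFactorizationMonoid B] (D : Derivation k B B)
    (hln : ∀ x, ∃ n, (⇑D)^[n] x = 0) {a b : B} (ha : a ≠ 0) (hb : b ≠ 0) (ha' : D a = 0)
    (hb' : D b = 0) (h : ∀ p : B, Prime p → D p = 0 → ∀ j : ℕ, p ^ j ∣ a ↔ p ^ j ∣ b) :
    Associated a b := by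
  apply assoc_of_primes ha hb
  intro p hp j
  by_cases hDp : D p = 0
  · exact h p hp hDp j
  · rcases Nat.eq_zero_or_pos j with rfl | hj
    · simp
    · have h1 : p ∣ p ^ j := dvd_pow_self p (by omega)
      exact iff_of_false (fun h2 => hDp (const_of_dvd D hln ha' ha (h1.trans h2)))
        (fun h2 => hDp (const_of_dvd D hln hb' hb (h1.trans h2)))

/-- a common multiple of all `npB D p`: product of the `npB D p` over the prime factors `p` of `D r`, `r` a
local slice (`npB_one` for the other primes; associated primes have the same `npB`) -/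
theorem exists_N [CharZero k] [UniqueFactorizationMonoid B] (D : Derivation k B B)
    (hD : ∃ x, D x ≠ 0) (hln : ∀ x, ∃ n, (⇑D)^[n] x = 0)
    (hirr : ∀ p : B, Prime p → D p = 0 → ∃ x, ¬ p ∣ D x) :
    ∃ N, 0 < N ∧ ∀ p : B, Prime p → D p = 0 → npB D p ∣ N := by
  classical
  -- a local slice
  obtain ⟨r, hr1, hr2⟩ := exists_deg D hD hln 1
  have hr1' : D r ≠ 0 := hr1
  have hr2' : D (D r) = 0 := hr2
  have hpos : ∀ p : B, Prime p → D p = 0 → 0 < npB D p := by
    intro p hp hDp
    rw [← np_eq D hp hDp hln (hirr p hp hDp)]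
    exact np_pos _
  refine ⟨((UniqueFactorizationMonoid.factors (D r)).map (npB D)).prod, ?_, ?_⟩
  · apply Nat.pos_of_ne_zero
    intro h0
    rw [Multiset.prod_eq_zero_iff, Multiset.mem_map] at h0
    obtain ⟨p, hp, hp0⟩ := h0
    have h1 := UniqueFactorizationMonoid.prime_of_factor p hp
    have h2 := UniqueFactorizationMonoid.dvd_of_mem_factors hp
    have h3 := hpos p h1 (const_of_dvd D hln hr2' hr1' h2)
    omega
  · intro p hp hDp
    by_cases hpf : p ∣ D r
    · obtain ⟨q, hq, hpq⟩ :=
        UniqueFactorizationMonoid.exists_mem_factors_of_dvd hr1' hp.irreducible hpf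
      rw [npB_assoc D hpq]
      exact Multiset.dvd_prod (Multiset.mem_map_of_mem _ hq)
    · rw [npB_one D hr2' hpf]
      exact one_dvd _

/-- THE ARITHMETIC, for every common multiple `N`. `compl`, `mulN`: `assoc_of_primes`, `loc_e`,
`e_compl`, `e_mul` (primes which are not constants divide neither side: `const_of_dvd`). `sat`: `div_sat`
in the localization at `p` (`dvd_mk_iff`), `x = Q`. -/
theorem arith_of [CharZero k] [UniqueFactorizationMonoid B] (D : Derivation k B B)
    (hD : ∃ x, D x ≠ 0) (hln : ∀ x, ∃ n, (⇑D)^[n] x = 0)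
    (hirr : ∀ p : B, Prime p → D p = 0 → ∃ x, ¬ p ∣ D x) (N : ℕ) (hN : 0 < N)
    (hnp : ∀ p : B, Prime p → D p = 0 → npB D p ∣ N) : ∃ A : Arith D, A.N = N := by
  classical
  choose cc hcc using exists_cc D hD hln
  have hmu : ∀ p : B, ∀ (hp : Prime p) (hDp : D p = 0) (n : ℕ),
      Mu p (cc n) ((locData D p hp hDp hln (hirr p hp hDp)).e n) := fun p hp hDp n j =>
    loc_e D hp hDp hln (hirr p hp hDp) (hcc n) j
  refine ⟨⟨N, hN, cc, hcc, hnp, ?_, ?_, ?_⟩, rfl⟩
  · intro l hl
    apply assoc_const D hln (mul_ne_zero (hcc _).ne (hcc _).ne) (hcc _).ne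
    · rw [Derivation.leibniz, (hcc _).const, (hcc _).const]
      simp
    · exact (hcc _).const
    · intro p hp hDp
      obtain ⟨a, ha⟩ := hnp p hp hDp
      have hnd := hirr p hp hDp
      have ha' : N = a * np (locData D p hp hDp hln hnd) := by
        rw [np_eq D hp hDp hln hnd, mul_comm]
        exact ha
      have ha0 : 0 < a := by
        rcases Nat.eq_zero_or_pos a with h0 | h0
        · rw [h0, mul_zero] at ha
          omega
        · exact h0
      have h1 := e_compl (locData D p hp hDp hln hnd) a ha0 l (by rw [← ha']; exact hl)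
      rw [← ha'] at h1
      have h2 := (hmu p hp hDp l).mul hp (hmu p hp hDp (N - 1 - l))
      rw [h1] at h2
      exact h2.iff (hmu p hp hDp N)
  · intro j hj
    have key : ∀ p : B, ∀ (hp : Prime p) (hDp : D p = 0),
        (locData D p hp hDp hln (hirr p hp hDp)).e (j * N) =
          j * (locData D p hp hDp hln (hirr p hp hDp)).e N ∧
        (locData D p hp hDp hln (hirr p hp hDp)).e (j * N - 1) =
          j * (locData D p hp hDp hln (hirr p hp hDp)).e N := by
      intro p hp hDp
      obtain ⟨a, ha⟩ := hnp p hp hDp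
      have hnd := hirr p hp hDp
      have ha' : N = a * np (locData D p hp hDp hln hnd) := by
        rw [np_eq D hp hDp hln hnd, mul_comm]
        exact ha
      have ha0 : 0 < a := by
        rcases Nat.eq_zero_or_pos a with h0 | h0
        · rw [h0, mul_zero] at ha
          omega
        · exact h0
      have h1 := e_mul (locData D p hp hDp hln hnd) a ha0
      have h2 := e_mul (locData D p hp hDp hln hnd) (j * a) (Nat.mul_pos hj ha0)
      rw [mul_assoc j a, ← ha'] at h2
      rw [← ha'] at h1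
      rw [h2.2, h2.1, h1.2, mul_assoc]
      exact ⟨rfl, rfl⟩
    have hcN : D (cc N ^ j) = 0 := by
      rw [Derivation.leibniz_pow, (hcc N).const]
      simp
    constructor
    · apply assoc_const D hln (hcc _).ne (pow_ne_zero _ (hcc _).ne) (hcc _).const hcN
      intro p hp hDp
      have h2 := (hmu p hp hDp N).pow hp j
      rw [← (key p hp hDp).1] at h2
      exact (hmu p hp hDp (j * N)).iff h2
    · apply assoc_const D hln (hcc _).ne (pow_ne_zero _ (hcc _).ne) (hcc _).const hcN
      intro p hp hDp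
      have h2 := (hmu p hp hDp N).pow hp j
      rw [← (key p hp hDp).2] at h2
      exact (hmu p hp hDp (j * N - 1)).iff h2
  · intro Q δ hδ hQ p hp hDp hpδ s t ht hst
    obtain ⟨a, ha⟩ := hnp p hp hDp
    have hnd := hirr p hp hDp
    have ha' : N = a * np (locData D p hp hDp hln hnd) := by
      rw [np_eq D hp hDp hln hnd, mul_comm]
      exact ha
    obtain ⟨c', hc', hpc'⟩ := (hmu p hp hDp N).fac
    have hDc' : D c' = 0 := const_of_dvd D hln (hcc N).const (hcc N).ne ⟨_, by
      rw [mul_comm]; exact hc'⟩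
    have hM : c' * δ ∈ locM D p hp := by
      refine ⟨?_, fun h => ?_⟩
      · rw [Derivation.leibniz, hDc', hδ]
        simp
      · rcases hp.dvd_or_dvd h with h | h
        · exact hpc' h
        · exact hpδ h
    have hiter : ∀ (b : B) (n : ℕ), (⇑(derV D p hp))^[n] (algebraMap B (Loc D p hp) b) =
        algebraMap B (Loc D p hp) ((⇑D)^[n] b) := by
      intro b n
      rw [derV_iter, ← IsLocalization.mk'_one (M := locM D p hp), derL_iter_mk,
        IsLocalization.mk'_one]
    -- the unit
    let u : VL D p hp := ⟨algebraMap B (Loc D p hp) (c' * δ), by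
      rw [mem_kerAlg, derL_alg, hM.1, map_zero]⟩
    have hu : IsUnit u := by
      refine IsUnit.of_mul_eq_one ⟨IsLocalization.mk' _ (1 : B) ⟨c' * δ, hM⟩, by
        rw [mem_kerAlg, derL_mk, Derivation.map_one_eq_zero]; exact IsLocalization.mk'_zero _⟩ ?_
      apply Subtype.ext
      change algebraMap B (Loc D p hp) (c' * δ) * IsLocalization.mk' _ (1 : B) ⟨c' * δ, hM⟩ = 1
      rw [← IsLocalization.mk'_one (M := locM D p hp)]
      exact IsLocalization.mk'_mul_mk'_eq_one' (M := locM D p hp) (c' * δ) 1 hM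
    have h1 := div_sat (locData D p hp hDp hln hnd) a (algebraMap B (Loc D p hp) Q) u hu (by
      rw [hiter, ← ha', hQ]
      change algebraMap B (Loc D p hp) (cc N * δ) =
        (algebraMap B (Loc D p hp) p) ^ ((locData D p hp hDp hln hnd).e N) *
          algebraMap B (Loc D p hp) (c' * δ)
      rw [← map_pow, ← map_mul]
      congr 1
      conv_lhs => rw [hc']
      ring) (algebraMap B (Loc D p hp) s) (algebraMap B (Loc D p hp) t) (by
      rw [hiter, ← ha', ht, map_zero]) (by
      rw [← map_mul, ← map_add]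
      change algebraMap B (Loc D p hp) p ∣ _
      exact map_dvd _ hst)
    have h2 : ∀ b : B, algebraMap B (Loc D p hp) p ∣ algebraMap B (Loc D p hp) b → p ∣ b := by
      intro b hb
      rw [← IsLocalization.mk'_one (M := locM D p hp) (Loc D p hp) b] at hb
      exact (dvd_mk_iff D p hp hDp b 1).1 hb
    exact ⟨h2 s h1.1, h2 t h1.2⟩

theorem exists_arith [CharZero k] [UniqueFactorizationMonoid B] (D : Derivation k B B)
    (hD : ∃ x, D x ≠ 0) (hln : ∀ x, ∃ n, (⇑D)^[n] x = 0)
    (hirr : ∀ p : B, Prime p → D p = 0 → ∃ x, ¬ p ∣ D x) : Nonempty (Arith D) := by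
  obtain ⟨N, hN, hnp⟩ := exists_N D hD hln hirr
  obtain ⟨A, _⟩ := arith_of D hD hln hirr N hN hnp
  exact ⟨A⟩

end Pool.Agent.LNDF
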