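import Mathlib
import Pool.Agent.LNDF.Ar1

set_option autoImplicit false

namespace Pool.Agent.LNDF

open Pool.Agent.LNDHom

variable {k B : Type} [Field k] [CommRing B] [IsDomain B] [Algebra k B]

omit [IsDomain B] in
private theorem iter_cmul (D : Derivation k B B) {c : B} (hc : D c = 0) (n : ℕ) (x : B) :
    (⇑D)^[n] (c * x) = c * (⇑D)^[n] x := by
  induction n generalizing x with
  | zero => rfl
  | succ n ih =>
    rw [Function.iterate_succ_apply, Derivation.leibniz, hc, smul_zero, add_zero, smul_eq_mul,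
      ih, Function.iterate_succ_apply]

/-- uniqueness of division -/
theorem div_unique [CharZero k] (D : Derivation k B B) (hln : ∀ x, ∃ n, (⇑D)^[n] x = 0)
    {N : ℕ} {Q : B} (hQ : (⇑D)^[N] Q ≠ 0) (hQ' : (⇑D)^[N + 1] Q = 0) {s t : B}
    (ht : (⇑D)^[N] t = 0) (h : s * Q + t = 0) : s = 0 ∧ t = 0 := by
  have hchar : CharZero B := charZero_of_injective_algebraMap (algebraMap k B).injective
  have hs : s = 0 := by
    by_contra hs
    obtain ⟨d, hd1, hd2⟩ := exists_top D hs (hln s)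
    have h1 := (iter_mul_top D (d + N) d N s Q rfl hd2 hQ').1
    have h2 : (⇑D)^[d + N] t = 0 := by
      rw [Function.iterate_add_apply, ht, iterate_map_zero]
    have h3 : (⇑D)^[d + N] (s * Q + t) = 0 := by rw [h, iterate_map_zero]
    rw [iterate_map_add, h2, add_zero, h1] at h3
    have h4 : (((d + N).choose d : ℕ) : B) ≠ 0 := by
      exact_mod_cast (Nat.choose_pos (by omega)).ne'
    exact mul_ne_zero h4 (mul_ne_zero hd1 hQ) h3
  refine ⟨hs, ?_⟩
  rw [hs, zero_mul, zero_add] at h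
  exact h

theorem div_denom_aux [CharZero k] (D : Derivation k B B) (hD : ∃ x, D x ≠ 0)
    (hln : ∀ x, ∃ n, (⇑D)^[n] x = 0)
    {N : ℕ} {Q : B} (hQ : (⇑D)^[N] Q ≠ 0) (hQ' : (⇑D)^[N + 1] Q = 0) (n : ℕ) :
    ∀ b : B, (⇑D)^[n] b = 0 →
    ∃ a s t : B, a ≠ 0 ∧ D a = 0 ∧ a * b = s * Q + t ∧ (⇑D)^[N] t = 0 := by
  have hchar : CharZero B := charZero_of_injective_algebraMap (algebraMap k B).injective
  induction n with
  | zero =>
    intro b hb
    rw [Function.iterate_zero, id] at hb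
    refine ⟨1, 0, b, one_ne_zero, D.map_one_eq_zero, by ring, ?_⟩
    rw [hb, iterate_map_zero]
  | succ m ih =>
    intro b hb
    by_cases hm : m + 1 ≤ N
    · exact ⟨1, 0, b, one_ne_zero, D.map_one_eq_zero, by ring, iter_zero_of_le D hb hm⟩
    · obtain ⟨x, hx1, hx2⟩ := exists_deg D hD hln (m - N)
      have h1 := iter_mul_top D m (m - N) N x Q (by omega) hx2 hQ'
      have h4 : ((m.choose (m - N) : ℕ) : B) ≠ 0 := by
        exact_mod_cast (Nat.choose_pos (by omega)).ne'
      set γ : B := (⇑D)^[m] (x * Q) with hγ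
      have hγ0 : γ ≠ 0 := by
        rw [h1.1]
        exact mul_ne_zero h4 (mul_ne_zero hx1 hQ)
      have hγD : D γ = 0 := by
        rw [hγ, ← Function.iterate_succ_apply' (⇑D)]
        exact h1.2
      have hβD : D ((⇑D)^[m] b) = 0 := by
        rw [← Function.iterate_succ_apply' (⇑D)]
        exact hb
      obtain ⟨a, s, t, ha, haD, h2, ht⟩ := ih (γ * b - (⇑D)^[m] b * (x * Q)) (by
        rw [iterate_map_sub, iter_cmul D hγD, iter_cmul D hβD, ← hγ]
        ring)
      refine ⟨a * γ, s + a * (⇑D)^[m] b * x, t, mul_ne_zero ha hγ0, ?_, ?_, ht⟩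
      · rw [Derivation.leibniz, haD, hγD, smul_zero, smul_zero, add_zero]
      · linear_combination h2

/-- division with denominators: for some constant `a ≠ 0`: `a b = s Q + t`. Induction on the degree
of `b`: if `D^(n+1) b = 0`, `n ≥ N`, subtract a multiple of `x_(n-N) Q`, with `x_(n-N)` of degree
exactly `n - N` (`exists_deg`). -/
theorem div_denom [CharZero k] (D : Derivation k B B) (hD : ∃ x, D x ≠ 0)
    (hln : ∀ x, ∃ n, (⇑D)^[n] x = 0)
    {N : ℕ} {Q : B} (hQ : (⇑D)^[N] Q ≠ 0) (hQ' : (⇑D)^[N + 1] Q = 0) (b : B) :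
    ∃ a s t : B, a ≠ 0 ∧ D a = 0 ∧ a * b = s * Q + t ∧ (⇑D)^[N] t = 0 := by
  obtain ⟨n, hn⟩ := hln b
  exact div_denom_aux D hD hln hQ hQ' n b hn

/-- DIVISION: the denominator can be taken a power of `δ`. From `div_denom` by removing the primes
`p ∤ δ` of `a` with `sat` (induction on the factorization of `a`; `a` with all prime factors dividing
`δ` divides a power of `δ`). -/
theorem Arith.div [CharZero k] [UniqueFactorizationMonoid B] {D : Derivation k B B}
    (A : Arith D) (hD : ∃ x, D x ≠ 0) (hln : ∀ x, ∃ n, (⇑D)^[n] x = 0) {Q δ : B} (hδ : D δ = 0)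
    (hδ0 : δ ≠ 0) (hQ : (⇑D)^[A.N] Q = A.cc A.N * δ) (b : B) :
    ∃ (j : ℕ) (s t : B), δ ^ j * b = s * Q + t ∧ (⇑D)^[A.N] t = 0 := by
  have hcc := A.isCC A.N
  have hQ0 : (⇑D)^[A.N] Q ≠ 0 := by
    rw [hQ]
    exact mul_ne_zero hcc.ne hδ0
  have hQ1 : (⇑D)^[A.N + 1] Q = 0 := by
    rw [Function.iterate_succ_apply', hQ, Derivation.leibniz, hcc.const, hδ, smul_zero, smul_zero,
      add_zero]
  have key : ∀ a : B, a ≠ 0 → D a = 0 → ∀ b s t : B, (⇑D)^[A.N] t = 0 → a * b = s * Q + t →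
      ∃ (j : ℕ) (s t : B), δ ^ j * b = s * Q + t ∧ (⇑D)^[A.N] t = 0 := by
    intro a
    induction a using UniqueFactorizationMonoid.induction_on_prime with
    | h₁ => exact fun h => absurd rfl h
    | h₂ x hx =>
      intro hx0 hxD b s t ht h
      obtain ⟨y, hy⟩ := hx.exists_right_inv
      have hyD : D y = 0 := const_of_dvd D hln (a := 1) D.map_one_eq_zero one_ne_zero
        ⟨x, by rw [← hy]; ring⟩
      refine ⟨0, y * s, y * t, ?_, ?_⟩
      · rw [pow_zero, one_mul]
        linear_combination y * h - b * hy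
      · rw [iter_cmul D hyD, ht, mul_zero]
    | h₃ a p ha0 hp ih =>
      intro hpa hpaD b s t ht h
      have hpD : D p = 0 := const_of_dvd D hln hpaD hpa (Dvd.intro _ rfl)
      have haD : D a = 0 := const_of_dvd D hln hpaD hpa (Dvd.intro_left _ rfl)
      by_cases hpδ : p ∣ δ
      · obtain ⟨δ', hδ'⟩ := hpδ
        have hδ'D : D δ' = 0 := const_of_dvd D hln hδ hδ0 ⟨p, by rw [hδ']; ring⟩
        obtain ⟨j, s', t', h1, h2⟩ := ih ha0 haD (δ * b) (δ' * s) (δ' * t)
          (by rw [iter_cmul D hδ'D, ht, mul_zero]) (by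
            rw [hδ']
            linear_combination δ' * h)
        refine ⟨j + 1, s', t', ?_, h2⟩
        rw [← h1]
        ring
      · obtain ⟨h1, h2⟩ := A.sat Q δ hδ hQ p hp hpD hpδ s t ht ⟨a * b, by rw [← h]; ring⟩
        obtain ⟨s1, hs1⟩ := h1
        obtain ⟨t1, ht1⟩ := h2
        apply ih ha0 haD b s1 t1
        · rw [ht1, iter_cmul D hpD] at ht
          exact (mul_eq_zero.mp ht).resolve_left hp.ne_zero
        · apply mul_left_cancel₀ hp.ne_zero
          rw [hs1, ht1] at h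
          linear_combination h
  obtain ⟨a, s, t, ha, haD, h, ht⟩ := div_denom D hD hln hQ0 hQ1 b
  exact key a ha haD b s t ht h

end Pool.Agent.LNDF
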