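import Mathlib
import Pool.Agent.LNDF.Defs

set_option autoImplicit false

open Polynomial

namespace Pool.Agent.LNDF

variable {k : Type} [Field k]

/-- The ring `k[x,y,z]` seen inside `K2[T]` (`T` a local slice), with the vector field `d/dx`, and
with the arithmetic data of the image ideals up to degree `N`. -/
structure Model (k : Type) [Field k] [CharZero k] where
  S : Subalgebra (A2 k) (K2 k)[X]
  c : A2 k
  c_ne : c ≠ 0
  X_mem : (X : (K2 k)[X]) ∈ S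
  D_mem : ∀ h ∈ S, C (al c) * derivative h ∈ S
  inter : ∀ x : K2 k, C x ∈ S → ∃ a : A2 k, al a = x
  /-- the prime `X 0` of the base stays prime with trivial intersection -/
  prime0 : ∀ (a : A2 k), ∀ h ∈ S, (∃ g ∈ S, C (al a) * h = C (al (MvPolynomial.X 0)) * g) →
    MvPolynomial.X 0 ∣ a ∨ ∃ g ∈ S, h = C (al (MvPolynomial.X 0)) * g
  xi0 : (K2 k)[X]
  xi1 : (K2 k)[X]
  xiT : (K2 k)[X]
  del_mem : ∀ u ∈ S, xi0 * mc (dK 0) u + xi1 * mc (dK 1) u + xiT * derivative u ∈ S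
  del_surj : ∀ b ∈ S, ∃ u ∈ S, xi0 * mc (dK 0) u + xi1 * mc (dK 1) u + xiT * derivative u = b
  div : C (al c) * (mc (dK 0) xi0 + mc (dK 1) xi1 + derivative xiT) =
    xi0 * C (dK 0 (al c)) + xi1 * C (dK 1 (al c))
  N : ℕ
  N_pos : 0 < N
  cc : ℕ → A2 k
  cc_ne : ∀ n, cc n ≠ 0
  cc_dvd : ∀ n ≤ N, ∀ h ∈ S, h.natDegree ≤ n →
    ∃ a : A2 k, (n.factorial : K2 k) * al c ^ n * h.coeff n = al (cc n * a)
  cc_x : ∀ (i : Fin 2) (n : ℕ), n ≤ N → ∃ h ∈ S, h.natDegree ≤ n ∧ ∃ (s : ℕ) (e : A2 k),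
    MvPolynomial.constantCoeff e ≠ 0 ∧
      (n.factorial : K2 k) * al c ^ n * h.coeff n = al (cc n * (e * MvPolynomial.X i ^ s))
  cc_mul : ∀ l < N, Associated (cc l * cc (N - 1 - l)) (cc N)
  divQ : ∀ (d : A2 k), d ≠ 0 → ∀ Q : (K2 k)[X], (∃ s : ℕ, C (al (d ^ s)) * Q ∈ S) →
    Q.natDegree ≤ N → (N.factorial : K2 k) * al c ^ N * Q.coeff N = al (cc N) →
    ∀ b : (K2 k)[X], (∃ s : ℕ, C (al (d ^ s)) * b ∈ S) →
      ∃ u t : (K2 k)[X], (∃ s : ℕ, C (al (d ^ s)) * u ∈ S) ∧ (∃ s : ℕ, C (al (d ^ s)) * t ∈ S) ∧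
        b = u * Q + t ∧ t.degree < (N : ℕ)

namespace Model

variable [CharZero k] (M : Model k)

/-- the vector field `d/dx` -/
noncomputable def del (u : (K2 k)[X]) : (K2 k)[X] :=
  M.xi0 * mc (dK 0) u + M.xi1 * mc (dK 1) u + M.xiT * derivative u

/-- `h` lies in `S[1/d]` -/
def InS (d : A2 k) (h : (K2 k)[X]) : Prop := ∃ s : ℕ, C (al (d ^ s)) * h ∈ M.S

end Model

/-- `x` lies in `A2[1/d]` -/
def InA (d : A2 k) (x : K2 k) : Prop := ∃ (s : ℕ) (a : A2 k), al (d ^ s) * x = al a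

/-- coefficient of `1/T` of `P / M` at infinity, for a monic `M`: the coefficient of degree
`deg M - 1` in the remainder of `P` modulo `M` -/
noncomputable def tau {K : Type} [Field K] (M P : K[X]) : K := (P %ₘ M).coeff (M.natDegree - 1)

/-- the trace of multiplication by `W` on `K[T]/(Q)` -/
noncomputable def TQ {K : Type} [Field K] (Q W : K[X]) : K := tau Q (W * derivative Q)

end Pool.Agent.LNDF
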