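import Mathlib
import Pool.Agent.LNDF.Model

set_option autoImplicit false

open Polynomial

namespace Pool.Agent.LNDF

/-- the polynomial ring in three variables -/
abbrev B3 (k : Type) [Field k] : Type := MvPolynomial (Fin 3) k

variable {k : Type} [Field k]

/-- substitution of `f, g` -/
noncomputable abbrev ev (f g : B3 k) : A2 k →ₐ[k] B3 k := MvPolynomial.aeval ![f, g]

/-- Jacobian determinant -/
noncomputable def jac3 (a b c : B3 k) : B3 k :=
  Matrix.det !![MvPolynomial.pderiv 0 a, MvPolynomial.pderiv 1 a, MvPolynomial.pderiv 2 a;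
    MvPolynomial.pderiv 0 b, MvPolynomial.pderiv 1 b, MvPolynomial.pderiv 2 b;
    MvPolynomial.pderiv 0 c, MvPolynomial.pderiv 1 c, MvPolynomial.pderiv 2 c]

/-- `D` is a locally nilpotent derivation of `k[x,y,z]` with kernel the polynomial ring `k[f,g]` and
with local slice `r`, `D r = c(f,g)` -/
structure Slice (D : Derivation k (B3 k) (B3 k)) (f g r : B3 k) (c : A2 k) : Prop where
  ln : ∀ x, ∃ n, (⇑D)^[n] x = 0
  ind : AlgebraicIndependent k ![f, g]
  ker : ∀ b, D b = 0 ↔ b ∈ Algebra.adjoin k {f, g}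
  cne : c ≠ 0
  Dr : D r = ev f g c

/-- `iota` embeds `k[x,y,z]` in `K2[T]`, `T` = the local slice -/
structure Iota (D : Derivation k (B3 k) (B3 k)) (f g r : B3 k) (c : A2 k)
    (ι : B3 k →ₐ[k] (K2 k)[X]) : Prop where
  inj : Function.Injective ι
  ev : ∀ a, ι (ev f g a) = C (al a)
  r : ι r = X
  D : ∀ b, ι (D b) = C (al c) * derivative (ι b)

end Pool.Agent.LNDF
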