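import Mathlib
import Pool.Agent.LNDF.GeoDefs

set_option autoImplicit false

open Polynomial

namespace Pool.Agent.LNDF

variable {k : Type} [Field k] [CharZero k]

omit [CharZero k] in
theorem Slice.ev_inj {D : Derivation k (B3 k) (B3 k)} {f g r : B3 k} {c : A2 k}
    (h : Slice D f g r c) : Function.Injective (ev f g) := h.ind

omit [CharZero k] in
theorem Slice.ker_iff {D : Derivation k (B3 k) (B3 k)} {f g r : B3 k} {c : A2 k}
    (h : Slice D f g r c) (b : B3 k) : D b = 0 ↔ ∃ a, ev f g a = b := by
  rw [h.ker]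
  have h1 : ({f, g} : Set (B3 k)) = Set.range ![f, g] := by
    simp [Matrix.range_cons, Matrix.range_empty, Set.pair_comm]
  rw [h1, Algebra.adjoin_range_eq_range_aeval]
  rfl

namespace IotaAux

omit [CharZero k] in
theorem D_ev {D : Derivation k (B3 k) (B3 k)} {f g r : B3 k} {c : A2 k}
    (h : Slice D f g r c) (a : A2 k) : D (ev f g a) = 0 := by
  have hf : D f = 0 := (h.ker f).2 (Algebra.subset_adjoin (by simp))
  have hg : D g = 0 := (h.ker g).2 (Algebra.subset_adjoin (by simp))
  induction a using MvPolynomial.induction_on with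
  | C t =>
    rw [MvPolynomial.aeval_C]
    exact D.map_algebraMap t
  | add p q hp hq => rw [map_add, map_add, hp, hq, add_zero]
  | mul_X p j hp =>
    rw [map_mul, MvPolynomial.aeval_X, Derivation.leibniz, hp, smul_zero, add_zero]
    fin_cases j
    · simp [hf]
    · simp [hg]

/-- substitution of `f, g` in the coefficients and of `r` for the variable -/
noncomputable def evr (f g r : B3 k) : (A2 k)[X] →+* B3 k :=
  Polynomial.eval₂RingHom (ev f g : A2 k →+* B3 k) r

omit [CharZero k] in
theorem evr_C (f g r : B3 k) (a : A2 k) : evr f g r (C a) = ev f g a := by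
  unfold evr
  simp

omit [CharZero k] in
theorem evr_X (f g r : B3 k) : evr f g r X = r := by
  unfold evr
  simp

omit [CharZero k] in
theorem D_evr {D : Derivation k (B3 k) (B3 k)} {f g r : B3 k} {c : A2 k}
    (h : Slice D f g r c) (P : (A2 k)[X]) :
    D (evr f g r P) = ev f g c * evr f g r (derivative P) := by
  induction P using Polynomial.induction_on' with
  | add p q hp hq => rw [map_add, map_add, hp, hq, map_add, map_add, mul_add]
  | monomial n a =>
    rw [← C_mul_X_pow_eq_monomial, map_mul, map_pow, evr_C, evr_X, Derivation.leibniz,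
      D_ev h, smul_zero, add_zero, Derivation.leibniz_pow, h.Dr, derivative_C_mul_X_pow, map_mul,
      map_pow, evr_C, evr_X, map_mul, map_natCast]
    simp only [smul_eq_mul, nsmul_eq_mul]
    ring

theorem exists_anti (P : (A2 k)[X]) : ∃ Q : (A2 k)[X], derivative Q = P := by
  induction P using Polynomial.induction_on' with
  | add p q hp hq =>
    obtain ⟨P, hP⟩ := hp
    obtain ⟨Q, hQ⟩ := hq
    exact ⟨P + Q, by rw [derivative_add, hP, hQ]⟩
  | monomial n a =>
    refine ⟨monomial (n + 1) (MvPolynomial.C (((n : k) + 1)⁻¹) * a), ?_⟩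
    rw [derivative_monomial]
    have h1 : (n : k) + 1 ≠ 0 := by exact_mod_cast Nat.succ_ne_zero n
    congr 1
    have h2 : (((n + 1 : ℕ) : A2 k)) = MvPolynomial.C ((n : k) + 1) := by
      push_cast
      rw [map_add, map_natCast, map_one]
    rw [h2, mul_right_comm, ← map_mul, inv_mul_cancel₀ h1, map_one, one_mul]

theorem evr_inj {D : Derivation k (B3 k) (B3 k)} {f g r : B3 k} {c : A2 k}
    (h : Slice D f g r c) : ∀ (n : ℕ) (P : (A2 k)[X]), P.natDegree ≤ n → evr f g r P = 0 →
      P = 0 := by
  have hc : ev f g c ≠ 0 := fun h0 => h.cne (h.ev_inj (by rw [h0, map_zero]))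
  intro n
  induction n with
  | zero =>
    intro P hP h0
    rw [Polynomial.eq_C_of_natDegree_le_zero hP] at h0 ⊢
    rw [evr_C] at h0
    have h1 : P.coeff 0 = 0 := h.ev_inj (by rw [h0, map_zero])
    rw [h1, map_zero]
  | succ n ih =>
    intro P hP h0
    have h1 : ev f g c * evr f g r (derivative P) = 0 := by
      rw [← D_evr h, h0, map_zero]
    have h2 : evr f g r (derivative P) = 0 := (mul_eq_zero.1 h1).resolve_left hc
    have h3 : derivative P = 0 :=
      ih _ (le_trans (natDegree_derivative_le P) (by omega)) h2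
    have h4 : P.natDegree = 0 := Polynomial.derivative_eq_zero.1 h3
    rw [Polynomial.eq_C_of_natDegree_eq_zero h4] at h0 ⊢
    rw [evr_C] at h0
    have h1 : P.coeff 0 = 0 := h.ev_inj (by rw [h0, map_zero])
    rw [h1, map_zero]

theorem exists_rep {D : Derivation k (B3 k) (B3 k)} {f g r : B3 k} {c : A2 k}
    (h : Slice D f g r c) (b : B3 k) :
    ∃ (a : A2 k) (P : (A2 k)[X]), a ≠ 0 ∧ ev f g a * b = evr f g r P := by
  obtain ⟨n, hn⟩ := h.ln b
  induction n generalizing b with
  | zero =>
    refine ⟨1, 0, one_ne_zero, ?_⟩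
    simp only [Function.iterate_zero, id_eq] at hn
    rw [hn, mul_zero, map_zero]
  | succ n ih =>
    rw [Function.iterate_succ, Function.comp_apply] at hn
    obtain ⟨a, P, ha, hP⟩ := ih (D b) hn
    obtain ⟨Q, hQ⟩ := exists_anti P
    have h1 : D (ev f g (c * a) * b - evr f g r Q) = 0 := by
      rw [map_sub, Derivation.leibniz, D_ev h, smul_zero, add_zero, D_evr h, hQ, ← hP, map_mul]
      simp only [smul_eq_mul]
      ring
    obtain ⟨a0, ha0⟩ := (h.ker_iff _).1 h1
    refine ⟨c * a, Q + C a0, mul_ne_zero h.cne ha, ?_⟩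
    rw [map_add, evr_C, ha0]
    ring

/-- the fraction field of `k[x,y,z]` -/
abbrev L3 (k : Type) [Field k] : Type := FractionRing (B3 k)

/-- rational functions in `f, g` -/
noncomputable def phi {f g : B3 k} (hinj : Function.Injective (ev f g)) : K2 k →ₐ[k] L3 k :=
  IsFractionRing.liftAlgHom (g := (Algebra.algHom k (B3 k) (L3 k)).comp (ev f g))
    ((IsFractionRing.injective (B3 k) (L3 k)).comp hinj)

omit [CharZero k] in
theorem phi_al {f g : B3 k} (hinj : Function.Injective (ev f g)) (a : A2 k) :
    phi hinj (al a) = algebraMap (B3 k) (L3 k) (ev f g a) := by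
  unfold phi
  rw [IsFractionRing.liftAlgHom_apply, al, IsFractionRing.lift_algebraMap]
  rfl

/-- rational functions in `f, g`, polynomials in `r` -/
noncomputable def Phi {f g : B3 k} (hinj : Function.Injective (ev f g)) (r : B3 k) :
    (K2 k)[X] →ₐ[k] L3 k :=
  Polynomial.eval₂AlgHom (phi hinj) (algebraMap (B3 k) (L3 k) r) (fun _ => Commute.all _ _)

omit [CharZero k] in
theorem Phi_C {f g : B3 k} (hinj : Function.Injective (ev f g)) (r : B3 k) (x : K2 k) :
    Phi hinj r (C x) = phi hinj x := by
  unfold Phi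
  simp [Polynomial.eval₂AlgHom]

omit [CharZero k] in
theorem Phi_X {f g : B3 k} (hinj : Function.Injective (ev f g)) (r : B3 k) :
    Phi hinj r X = algebraMap (B3 k) (L3 k) r := by
  unfold Phi
  simp [Polynomial.eval₂AlgHom]

omit [CharZero k] in
theorem Phi_map {f g : B3 k} (hinj : Function.Injective (ev f g)) (r : B3 k) (P : (A2 k)[X]) :
    Phi hinj r (P.map (algebraMap (A2 k) (K2 k))) = algebraMap (B3 k) (L3 k) (evr f g r P) := by
  induction P using Polynomial.induction_on' with
  | add p q hp hq => rw [Polynomial.map_add, map_add, hp, hq, map_add, map_add]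
  | monomial n a =>
    rw [← C_mul_X_pow_eq_monomial, Polynomial.map_mul, Polynomial.map_pow, Polynomial.map_C,
      Polynomial.map_X, map_mul, map_pow, Phi_C, Phi_X, map_mul, map_pow, evr_C, evr_X, map_mul,
      map_pow]
    congr 1
    exact phi_al hinj a

theorem Phi_inj {D : Derivation k (B3 k) (B3 k)} {f g r : B3 k} {c : A2 k}
    (h : Slice D f g r c) : Function.Injective (Phi h.ev_inj r) := by
  rw [injective_iff_map_eq_zero]
  intro P hP
  obtain ⟨b, hbm, hb⟩ := IsLocalization.integerNormalization_spec (nonZeroDivisors (A2 k)) P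
  set Q := IsLocalization.integerNormalization (nonZeroDivisors (A2 k)) P
  have hb0 : al b ≠ 0 := al_ne (nonZeroDivisors.ne_zero hbm)
  have h1 : b • P = C (al b) * P := by
    ext n
    rw [coeff_smul, coeff_C_mul, Algebra.smul_def]
  rw [h1] at hb
  have h2 := Phi_map h.ev_inj r Q
  rw [hb, map_mul, hP, mul_zero] at h2
  have h3 : evr f g r Q = 0 := IsFractionRing.injective (B3 k) (L3 k) (by rw [← h2, map_zero])
  have h4 : Q = 0 := evr_inj h _ Q le_rfl h3
  rw [h4, Polynomial.map_zero] at hb
  exact (mul_eq_zero.1 hb.symm).resolve_left (C_ne_zero.2 hb0)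

theorem Phi_range {D : Derivation k (B3 k) (B3 k)} {f g r : B3 k} {c : A2 k}
    (h : Slice D f g r c) (b : B3 k) :
    algebraMap (B3 k) (L3 k) b ∈ (Phi h.ev_inj r).range := by
  obtain ⟨a, P, ha, hP⟩ := exists_rep h b
  refine ⟨C (al a)⁻¹ * P.map (algebraMap (A2 k) (K2 k)), ?_⟩
  have h1 : algebraMap (B3 k) (L3 k) (ev f g a) ≠ 0 := by
    intro h0
    exact ha (h.ev_inj (by
      rw [map_zero]
      exact IsFractionRing.injective (B3 k) (L3 k) (by rw [h0, map_zero])))
  change Phi h.ev_inj r _ = _
  rw [map_mul, Phi_map, Phi_C, map_inv₀, phi_al, ← hP, map_mul, inv_mul_cancel_left₀ h1]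

/-- the embedding -/
noncomputable def iota {D : Derivation k (B3 k) (B3 k)} {f g r : B3 k} {c : A2 k}
    (h : Slice D f g r c) : B3 k →ₐ[k] (K2 k)[X] :=
  ((AlgEquiv.ofInjective (Phi h.ev_inj r) (Phi_inj h)).symm : _ →ₐ[k] (K2 k)[X]).comp
    ((Algebra.algHom k (B3 k) (L3 k)).codRestrict (Phi h.ev_inj r).range (Phi_range h))

theorem Phi_iota {D : Derivation k (B3 k) (B3 k)} {f g r : B3 k} {c : A2 k}
    (h : Slice D f g r c) (b : B3 k) :
    Phi h.ev_inj r (iota h b) = algebraMap (B3 k) (L3 k) b := by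
  have h1 := (AlgEquiv.ofInjective (Phi h.ev_inj r) (Phi_inj h)).apply_symm_apply
    ((Algebra.algHom k (B3 k) (L3 k)).codRestrict (Phi h.ev_inj r).range (Phi_range h) b)
  exact congrArg Subtype.val h1

end IotaAux

open IotaAux

/-- Proof: let `L = FractionRing (B3 k)`, `K2 k → L` the lift of `ev` (`IsFractionRing.lift`), and
`K2[X] → L`, `X ↦ r`. It is injective (clear denominators; if `P(r) = 0`, `P ∈ A2[X]` of degree `n` with
leading coefficient `a`, then `0 = D^n P(r) = n! a c^n`). `B3` is contained in the range: by induction on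
`n`, if `D^(n+1) b = 0` there are `a ≠ 0` and `P ∈ A2[X]` with `a b = P(r)`: `D^n b = v ∈ A`, apply the
induction to `n! c^n b - v r^n`. Define `ι` by inverting the injection; the derivation rule holds on
`P(r)`, `P ∈ A2[X]`, hence everywhere. -/
theorem Slice.exists_iota {D : Derivation k (B3 k) (B3 k)} {f g r : B3 k} {c : A2 k}
    (h : Slice D f g r c) : ∃ ι : B3 k →ₐ[k] (K2 k)[X], Iota D f g r c ι := by
  have hev : ∀ a, iota h (ev f g a) = C (al a) := by
    intro a
    apply Phi_inj h
    rw [Phi_iota, Phi_C, phi_al]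
  have hevr : ∀ P : (A2 k)[X], iota h (evr f g r P) = P.map (algebraMap (A2 k) (K2 k)) := by
    intro P
    apply Phi_inj h
    rw [Phi_iota, Phi_map]
  refine ⟨iota h, ?_, hev, ?_, ?_⟩
  · intro b b' hb
    have h1 := congrArg (Phi h.ev_inj r) hb
    rw [Phi_iota, Phi_iota] at h1
    exact IsFractionRing.injective (B3 k) (L3 k) h1
  · apply Phi_inj h
    rw [Phi_iota, Phi_X]
  · intro b
    obtain ⟨a, P, ha, hP⟩ := exists_rep h b
    have h1 := congrArg (iota h) hP
    rw [map_mul, hev, hevr] at h1
    have h2 := congrArg D hP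
    rw [Derivation.leibniz, D_ev h, smul_zero, add_zero, D_evr h, smul_eq_mul] at h2
    have h3 := congrArg (iota h) h2
    rw [map_mul, map_mul, hev, hev, hevr, ← derivative_map, ← h1, derivative_C_mul] at h3
    have h4 : (C (al a) : (K2 k)[X]) ≠ 0 := C_ne_zero.2 (al_ne ha)
    apply mul_left_cancel₀ h4
    rw [h3]
    ring

/-- two `k`-derivations of `B3` with values in `K2[T]` (a module through `ι`; here: additive maps
with the Leibniz rule) which agree on `f, g, r` are equal: `a b = P(r)` with `a ≠ 0` in `A` as above. -/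
theorem Slice.der_ext {D : Derivation k (B3 k) (B3 k)} {f g r : B3 k} {c : A2 k}
    (h : Slice D f g r c) {ι : B3 k →ₐ[k] (K2 k)[X]} (hι : Iota D f g r c ι)
    (d e : B3 k →ₗ[k] (K2 k)[X]) (hd : ∀ a b, d (a * b) = ι a * d b + ι b * d a)
    (he : ∀ a b, e (a * b) = ι a * e b + ι b * e a)
    (h1 : d f = e f) (h2 : d g = e g) (h3 : d r = e r) : d = e := by
  set δ : B3 k →ₗ[k] (K2 k)[X] := d - e with hδ
  have hl : ∀ a b, δ (a * b) = ι a * δ b + ι b * δ a := by
    intro a b
    rw [hδ, LinearMap.sub_apply, LinearMap.sub_apply, LinearMap.sub_apply, hd, he]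
    ring
  have hf : δ f = 0 := by rw [hδ, LinearMap.sub_apply, h1, sub_self]
  have hg : δ g = 0 := by rw [hδ, LinearMap.sub_apply, h2, sub_self]
  have hr : δ r = 0 := by rw [hδ, LinearMap.sub_apply, h3, sub_self]
  have hone : δ 1 = 0 := by
    have h4 := hl 1 1
    rw [map_one, one_mul, one_mul] at h4
    linear_combination -h4
  have hev : ∀ a : A2 k, δ (ev f g a) = 0 := by
    intro a
    induction a using MvPolynomial.induction_on with
    | C t =>
      rw [MvPolynomial.aeval_C, Algebra.algebraMap_eq_smul_one, map_smul, hone, smul_zero]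
    | add p q hp hq => rw [map_add, map_add, hp, hq, add_zero]
    | mul_X p j hp =>
      rw [map_mul, MvPolynomial.aeval_X, hl, hp, mul_zero, add_zero]
      fin_cases j
      · simp [hf]
      · simp [hg]
  have hpow : ∀ n : ℕ, δ (r ^ n) = 0 := by
    intro n
    induction n with
    | zero => rw [pow_zero, hone]
    | succ n ih => rw [pow_succ, hl, ih, hr, mul_zero, mul_zero, add_zero]
  have hevr : ∀ P : (A2 k)[X], δ (evr f g r P) = 0 := by
    intro P
    induction P using Polynomial.induction_on' with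
    | add p q hp hq => rw [map_add, map_add, hp, hq, add_zero]
    | monomial n a =>
      rw [← C_mul_X_pow_eq_monomial, map_mul, map_pow, evr_C, evr_X, hl, hev, hpow, mul_zero,
        mul_zero, add_zero]
  have hz : ∀ b, δ b = 0 := by
    intro b
    obtain ⟨a, P, ha, hP⟩ := exists_rep h b
    have h4 := congrArg δ hP
    rw [hl, hev, mul_zero, add_zero, hevr, hι.ev] at h4
    exact (mul_eq_zero.1 h4).resolve_left (C_ne_zero.2 (al_ne ha))
  apply LinearMap.ext
  intro b
  have h4 := hz b
  rw [hδ, LinearMap.sub_apply] at h4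
  exact sub_eq_zero.1 h4

end Pool.Agent.LNDF
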