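import Mathlib
import Pool.Agent.LNDF.GeoDefs

set_option autoImplicit false

open Polynomial

namespace Pool.Agent.LNDF

variable {k : Type} [Field k] [CharZero k]
  {D : Derivation k (B3 k) (B3 k)} {f g r : B3 k} {c : A2 k} {ι : B3 k →ₐ[k] (K2 k)[X]}

private theorem charZero_K2 (k : Type) [Field k] [CharZero k] : CharZero (K2 k) :=
  charZero_of_injective_algebraMap (algebraMap k (K2 k)).injective

theorem Iota.iter (hι : Iota D f g r c ι) (n : ℕ) (b : B3 k) :
    ι ((⇑D)^[n] b) = C (al c ^ n) * (⇑derivative)^[n] (ι b) := by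
  induction n with
  | zero => simp
  | succ n ih =>
    rw [Function.iterate_succ_apply', hι.D, ih, derivative_C_mul, Function.iterate_succ_apply',
      ← mul_assoc, ← C_mul, ← pow_succ']

private theorem iter_eq_zero_iff {K : Type} [Field K] [CharZero K] (P : K[X]) (n : ℕ) :
    (⇑derivative)^[n] P = 0 ↔ P.degree < (n : ℕ) := by
  constructor
  · intro h
    by_contra hd
    push Not at hd
    have hP : P ≠ 0 := by
      rintro rfl
      rw [degree_zero] at hd
      exact absurd hd (by simp)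
    have h1 : n ≤ P.natDegree := by
      rw [degree_eq_natDegree hP] at hd
      exact_mod_cast hd
    have h2 := congrArg (fun Q => coeff Q (P.natDegree - n)) h
    simp only [coeff_iterate_derivative, coeff_zero, Nat.sub_add_cancel h1, nsmul_eq_mul] at h2
    rcases mul_eq_zero.1 h2 with h3 | h3
    · rw [Nat.cast_eq_zero, Nat.descFactorial_eq_zero_iff_lt] at h3
      omega
    · exact hP (leadingCoeff_eq_zero.1 h3)
  · intro h
    rcases eq_or_ne P 0 with rfl | hP
    · simp
    · rw [degree_eq_natDegree hP] at h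
      exact iterate_derivative_eq_zero (by exact_mod_cast h)

theorem Iota.deg_lt_iff (hι : Iota D f g r c ι) (hc : c ≠ 0) (n : ℕ) (b : B3 k) :
    (ι b).degree < (n : ℕ) ↔ (⇑D)^[n] b = 0 := by
  have := charZero_K2 k
  rw [← iter_eq_zero_iff, ← map_eq_zero_iff ι hι.inj, hι.iter, mul_eq_zero, C_eq_zero,
    or_iff_right (pow_ne_zero n (al_ne hc))]

theorem Iota.deg_iff (hι : Iota D f g r c ι) (hc : c ≠ 0) (n : ℕ) (b : B3 k) :
    (ι b).natDegree ≤ n ↔ (⇑D)^[n + 1] b = 0 := by
  rw [← hι.deg_lt_iff hc, natDegree_le_iff_degree_le]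
  rw [show ((n + 1 : ℕ) : WithBot ℕ) = Order.succ ((n : ℕ) : WithBot ℕ) from rfl]
  exact (Order.lt_succ_iff_of_not_isMax (by simp)).symm

theorem Iota.top (hι : Iota D f g r c ι) (n : ℕ) (b : B3 k) (hb : (ι b).natDegree ≤ n) :
    ι ((⇑D)^[n] b) = C ((n.factorial : K2 k) * al c ^ n * (ι b).coeff n) := by
  rw [hι.iter]
  ext m
  rw [coeff_C_mul, coeff_iterate_derivative, coeff_C, nsmul_eq_mul]
  split_ifs with h
  · subst h
    rw [zero_add, Nat.descFactorial_self]
    ring
  · rw [coeff_eq_zero_of_natDegree_lt (by omega)]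
    ring

/-- the image of `ι` as an `A2`-subalgebra -/
noncomputable def Iota.S (hι : Iota D f g r c ι) : Subalgebra (A2 k) (K2 k)[X] where
  carrier := Set.range ι
  mul_mem' := by
    rintro _ _ ⟨a, rfl⟩ ⟨b, rfl⟩
    exact ⟨a * b, map_mul _ _ _⟩
  add_mem' := by
    rintro _ _ ⟨a, rfl⟩ ⟨b, rfl⟩
    exact ⟨a + b, map_add _ _ _⟩
  algebraMap_mem' := by
    intro a
    exact ⟨Pool.Agent.LNDF.ev f g a, by rw [hι.ev]; rfl⟩

/-- clearing denominators: `ι` is onto after multiplication by a constant -/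
theorem Iota.denom (hι : Iota D f g r c ι) (P : (K2 k)[X]) :
    ∃ (a : A2 k) (b : B3 k), a ≠ 0 ∧ ι b = C (al a) * P := by
  induction P using Polynomial.induction_on' with
  | add P Q hP hQ =>
    obtain ⟨a, b, ha, hb⟩ := hP
    obtain ⟨a', b', ha', hb'⟩ := hQ
    refine ⟨a * a', Pool.Agent.LNDF.ev f g a' * b + Pool.Agent.LNDF.ev f g a * b',
      mul_ne_zero ha ha', ?_⟩
    have h1 : al (a * a') = al a * al a' := map_mul _ _ _
    rw [map_add, map_mul, map_mul, hι.ev, hι.ev, hb, hb', h1, C_mul]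
    ring
  | monomial n x =>
    obtain ⟨p, s, hs, rfl⟩ := IsFractionRing.div_surjective (A := A2 k) x
    have hs0 : s ≠ 0 := nonZeroDivisors.ne_zero hs
    refine ⟨s, Pool.Agent.LNDF.ev f g p * r ^ n, hs0, ?_⟩
    rw [map_mul, map_pow, hι.ev, hι.r, C_mul_monomial, ← C_mul_X_pow_eq_monomial]
    congr 2
    rw [mul_div_cancel₀ _ (al_ne hs0)]

end Pool.Agent.LNDF
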