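import Mathlib
import Pool.Agent.LNDF.IotaA
import Pool.Agent.LNDF.IotaB

set_option autoImplicit false

open Polynomial

namespace Pool.Agent.LNDF

section aux

variable {k : Type} [Field k]
  {D : Derivation k (B3 k) (B3 k)} {f g r : B3 k} {c : A2 k} {ι : B3 k →ₐ[k] (K2 k)[X]}

theorem jacA_ev0 : ev f g (MvPolynomial.X 0) = f := by simp [ev]

theorem jacA_ev1 : ev f g (MvPolynomial.X 1) = g := by simp [ev]

theorem jacA_f (hι : Iota D f g r c ι) : ι f = C (al (MvPolynomial.X 0)) := by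
  rw [← hι.ev, jacA_ev0]

theorem jacA_g (hι : Iota D f g r c ι) : ι g = C (al (MvPolynomial.X 1)) := by
  rw [← hι.ev, jacA_ev1]

theorem jacA_dKX (i j : Fin 2) :
    dK i (al (MvPolynomial.X j : A2 k)) = if j = i then 1 else 0 := by
  rw [dK_al, MvPolynomial.pderiv_X, Pi.single_apply]
  split_ifs <;> simp [al]

/-- a coefficientwise derivation as a linear map composed with `ι` -/
noncomputable def jacA_mc (ι : B3 k →ₐ[k] (K2 k)[X]) (i : Fin 2) : B3 k →ₗ[k] (K2 k)[X] :=
  (mc (dK i)).toLinearMap ∘ₗ ι.toLinearMap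

theorem jacA_mc_apply (i : Fin 2) (b : B3 k) : jacA_mc ι i b = mc (dK i) (ι b) := rfl

/-- the derivative with respect to `T` as a linear map composed with `ι` -/
noncomputable def jacA_de (ι : B3 k →ₐ[k] (K2 k)[X]) : B3 k →ₗ[k] (K2 k)[X] :=
  ((derivative : (K2 k)[X] →ₗ[K2 k] (K2 k)[X]).restrictScalars k) ∘ₗ ι.toLinearMap

theorem jacA_de_apply (b : B3 k) : jacA_de ι b = derivative (ι b) := rfl

/-- a derivation of `B3 k` as a linear map composed with `ι` -/
noncomputable def jacA_pd (ι : B3 k →ₐ[k] (K2 k)[X]) (l : Fin 3) : B3 k →ₗ[k] (K2 k)[X] :=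
  ι.toLinearMap ∘ₗ (MvPolynomial.pderiv l).toLinearMap

theorem jacA_pd_apply (l : Fin 3) (b : B3 k) :
    jacA_pd ι l b = ι (MvPolynomial.pderiv l b) := rfl

/-- multiplication by a constant -/
noncomputable def jacA_mul (x : (K2 k)[X]) : (K2 k)[X] →ₗ[k] (K2 k)[X] := LinearMap.mulLeft k x

theorem jacA_mul_apply (x y : (K2 k)[X]) : jacA_mul x y = x * y := rfl

theorem jacA_mc_leib (i : Fin 2) (a b : B3 k) :
    mc (dK i) (ι (a * b)) = ι a * mc (dK i) (ι b) + ι b * mc (dK i) (ι a) := by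
  rw [map_mul, Derivation.leibniz, smul_eq_mul, smul_eq_mul]

theorem jacA_de_leib (a b : B3 k) :
    derivative (ι (a * b)) = ι a * derivative (ι b) + ι b * derivative (ι a) := by
  rw [map_mul, derivative_mul]
  ring

theorem jacA_pd_leib (l : Fin 3) (a b : B3 k) :
    MvPolynomial.pderiv l (a * b) = a * MvPolynomial.pderiv l b + b * MvPolynomial.pderiv l a := by
  rw [Derivation.leibniz, smul_eq_mul, smul_eq_mul]

theorem jacA_comm (i j : Fin 3) (b : B3 k) :
    MvPolynomial.pderiv i (MvPolynomial.pderiv j b) =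
      MvPolynomial.pderiv j (MvPolynomial.pderiv i b) := by
  have h : ⁅(MvPolynomial.pderiv i : Derivation k (B3 k) (B3 k)),
      (MvPolynomial.pderiv j : Derivation k (B3 k) (B3 k))⁆ = 0 := by
    apply MvPolynomial.derivation_ext
    intro m
    rw [Derivation.commutator_apply, MvPolynomial.pderiv_X, MvPolynomial.pderiv_X,
      Pi.single_apply, Pi.single_apply]
    split_ifs <;> simp
  have h2 := congrArg (fun d : Derivation k (B3 k) (B3 k) => d b) h
  simp only [Derivation.commutator_apply, Derivation.coe_zero, Pi.zero_apply] at h2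
  exact sub_eq_zero.mp h2

end aux

variable {k : Type} [Field k] [CharZero k]
  {D : Derivation k (B3 k) (B3 k)} {f g r : B3 k} {c : A2 k} {ι : B3 k →ₐ[k] (K2 k)[X]}

/-- CHAIN RULE: `der_ext` -/
theorem Slice.chain (h : Slice D f g r c) (hι : Iota D f g r c ι) (l : Fin 3) (b : B3 k) :
    ι (MvPolynomial.pderiv l b) = ι (MvPolynomial.pderiv l f) * mc (dK 0) (ι b) +
      ι (MvPolynomial.pderiv l g) * mc (dK 1) (ι b) +
      ι (MvPolynomial.pderiv l r) * derivative (ι b) := by
  have key := h.der_ext hι (jacA_pd ι l)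
    (jacA_mul (ι (MvPolynomial.pderiv l f)) ∘ₗ jacA_mc ι 0 +
      jacA_mul (ι (MvPolynomial.pderiv l g)) ∘ₗ jacA_mc ι 1 +
      jacA_mul (ι (MvPolynomial.pderiv l r)) ∘ₗ jacA_de ι)
    (by
      intro a b
      simp only [jacA_pd_apply, jacA_pd_leib, map_add, map_mul])
    (by
      intro a b
      simp only [LinearMap.add_apply, LinearMap.comp_apply, jacA_mul_apply, jacA_mc_apply,
        jacA_de_apply, jacA_mc_leib, jacA_de_leib]
      ring)
    (by
      simp only [LinearMap.add_apply, LinearMap.comp_apply, jacA_mul_apply, jacA_mc_apply,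
        jacA_de_apply, jacA_pd_apply, jacA_f hι, mc_C, jacA_dKX, derivative_C]
      simp)
    (by
      simp only [LinearMap.add_apply, LinearMap.comp_apply, jacA_mul_apply, jacA_mc_apply,
        jacA_de_apply, jacA_pd_apply, jacA_g hι, mc_C, jacA_dKX, derivative_C]
      simp)
    (by
      simp only [LinearMap.add_apply, LinearMap.comp_apply, jacA_mul_apply, jacA_mc_apply,
        jacA_de_apply, jacA_pd_apply, hι.r, mc_X, derivative_X]
      simp)
  have h2 := congrArg (fun d : B3 k →ₗ[k] (K2 k)[X] => d b) key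
  simpa only [LinearMap.add_apply, LinearMap.comp_apply, jacA_mul_apply, jacA_mc_apply,
        jacA_de_apply, jacA_pd_apply] using h2

/-- `Jac(f,g,r)` is a constant: by `chain` for `b = X 0, X 1, X 2` the matrix of `ι ∂(f,g,r)/∂(x,y,z)` times
the matrix of the `mc (dK 0)`, `mc (dK 1)`, `derivative` of `ι x, ι y, ι z` is the identity, so `ι (jac3 f g r)`
is a unit of `K2[X]`; then `D (jac3 f g r) = 0` (`Iota.deg_iff`). -/
theorem Slice.jac_const (h : Slice D f g r c) (hι : Iota D f g r c ι) :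
    ∃ cJ : A2 k, cJ ≠ 0 ∧ jac3 f g r = ev f g cJ := by
  have hP : (!![ι (MvPolynomial.pderiv 0 f), ι (MvPolynomial.pderiv 0 g),
        ι (MvPolynomial.pderiv 0 r);
      ι (MvPolynomial.pderiv 1 f), ι (MvPolynomial.pderiv 1 g), ι (MvPolynomial.pderiv 1 r);
      ι (MvPolynomial.pderiv 2 f), ι (MvPolynomial.pderiv 2 g), ι (MvPolynomial.pderiv 2 r)] *
      !![mc (dK 0) (ι (MvPolynomial.X 0)), mc (dK 0) (ι (MvPolynomial.X 1)),
        mc (dK 0) (ι (MvPolynomial.X 2));
      mc (dK 1) (ι (MvPolynomial.X 0)), mc (dK 1) (ι (MvPolynomial.X 1)),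
        mc (dK 1) (ι (MvPolynomial.X 2));
      derivative (ι (MvPolynomial.X 0)), derivative (ι (MvPolynomial.X 1)),
        derivative (ι (MvPolynomial.X 2))] : Matrix (Fin 3) (Fin 3) (K2 k)[X]) = 1 := by
    have hc := fun (l : Fin 3) (m : Fin 3) => (h.chain hι l (MvPolynomial.X m)).symm
    ext i j
    rw [Matrix.mul_apply, Fin.sum_univ_three]
    fin_cases i <;> fin_cases j <;> simp [hc, MvPolynomial.pderiv_X]
  have hdet := congrArg Matrix.det hP
  rw [Matrix.det_mul, Matrix.det_one] at hdet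
  have hJ : ι (jac3 f g r) = Matrix.det !![ι (MvPolynomial.pderiv 0 f),
        ι (MvPolynomial.pderiv 0 g), ι (MvPolynomial.pderiv 0 r);
      ι (MvPolynomial.pderiv 1 f), ι (MvPolynomial.pderiv 1 g), ι (MvPolynomial.pderiv 1 r);
      ι (MvPolynomial.pderiv 2 f), ι (MvPolynomial.pderiv 2 g), ι (MvPolynomial.pderiv 2 r)] := by
    rw [jac3, Matrix.det_fin_three, Matrix.det_fin_three]
    simp
    ring
  rw [← hJ] at hdet
  have hu : IsUnit (ι (jac3 f g r)) := IsUnit.of_mul_eq_one _ hdet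
  have hn : (ι (jac3 f g r)).natDegree ≤ 0 := (natDegree_eq_zero_of_isUnit hu).le
  have hD : D (jac3 f g r) = 0 := by
    have := (hι.deg_iff h.cne 0 (jac3 f g r)).mp hn
    simpa using this
  obtain ⟨a, ha⟩ := (h.ker_iff _).mp hD
  refine ⟨a, ?_, ha.symm⟩
  rintro rfl
  rw [map_zero] at ha
  rw [← ha, map_zero] at hu
  exact not_isUnit_zero hu

/-- CRAMER: both sides are derivations agreeing on `f, g, r` (`der_ext`) -/
theorem Slice.cramer (h : Slice D f g r c) (hι : Iota D f g r c ι) {cJ : A2 k}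
    (hJ : jac3 f g r = ev f g cJ) (b : B3 k) :
    ι (jac3 b g r) = C (al cJ) * mc (dK 0) (ι b) ∧ ι (jac3 f b r) = C (al cJ) * mc (dK 1) (ι b) ∧
      ι (jac3 f g b) = C (al cJ) * derivative (ι b) := by
  have e0 := h.chain hι 0 b
  have e1 := h.chain hι 1 b
  have e2 := h.chain hι 2 b
  have hC : C (al cJ) = ι (jac3 f g r) := by rw [hJ, hι.ev]
  rw [hC]
  simp only [jac3, Matrix.det_fin_three]
  simp only [Matrix.of_apply, Matrix.cons_val', Matrix.cons_val_zero, Matrix.cons_val_one,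
      Matrix.cons_val, Matrix.cons_val_fin_one, map_add, map_sub, map_mul]
  rw [e0, e1, e2]
  refine ⟨by ring, by ring, by ring⟩

/-- `D` and the Jacobian derivation are proportional -/
theorem Slice.prop (h : Slice D f g r c) (hι : Iota D f g r c ι) {cJ : A2 k}
    (hJ : jac3 f g r = ev f g cJ) (b : B3 k) : jac3 f g b * ev f g c = ev f g cJ * D b := by
  apply hι.inj
  rw [map_mul, map_mul, hι.ev, hι.ev, hι.D, (h.cramer hι hJ b).2.2]
  ring

/-- DIVERGENCE: `cramer` for `b = pderiv 0 f`, `pderiv 0 g`, `pderiv 0 r`, and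
`pderiv 0 (jac3 f g r) = jac3 (pderiv 0 f) g r + jac3 f (pderiv 0 g) r + jac3 f g (pderiv 0 r)` (expand the
determinant, partial derivatives commute), `chain` for `b = ev cJ`. -/
theorem Slice.divg (h : Slice D f g r c) (hι : Iota D f g r c ι) {cJ : A2 k}
    (hJ : jac3 f g r = ev f g cJ) :
    C (al cJ) * (mc (dK 0) (ι (MvPolynomial.pderiv 0 f)) + mc (dK 1) (ι (MvPolynomial.pderiv 0 g)) +
      derivative (ι (MvPolynomial.pderiv 0 r))) =
    ι (MvPolynomial.pderiv 0 f) * C (dK 0 (al cJ)) +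
      ι (MvPolynomial.pderiv 0 g) * C (dK 1 (al cJ)) := by
  have h1 : MvPolynomial.pderiv 0 (jac3 f g r) = jac3 (MvPolynomial.pderiv 0 f) g r +
      jac3 f (MvPolynomial.pderiv 0 g) r + jac3 f g (MvPolynomial.pderiv 0 r) := by
    simp only [jac3, Matrix.det_fin_three]
    simp only [Matrix.of_apply, Matrix.cons_val', Matrix.cons_val_zero, Matrix.cons_val_one,
      Matrix.cons_val, Matrix.cons_val_fin_one, map_add, map_sub, jacA_pd_leib]
    rw [jacA_comm 1 0 f, jacA_comm 2 0 f, jacA_comm 1 0 g, jacA_comm 2 0 g, jacA_comm 1 0 r,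
      jacA_comm 2 0 r]
    ring
  have h2 : ι (MvPolynomial.pderiv 0 (ev f g cJ)) =
      ι (MvPolynomial.pderiv 0 f) * C (dK 0 (al cJ)) +
      ι (MvPolynomial.pderiv 0 g) * C (dK 1 (al cJ)) := by
    rw [h.chain hι 0 (ev f g cJ), hι.ev, mc_C, mc_C, derivative_C]
    ring
  rw [← h2, ← hJ, h1, map_add, map_add, (h.cramer hι hJ _).1, (h.cramer hι hJ _).2.1,
    (h.cramer hι hJ _).2.2]
  ring

end Pool.Agent.LNDF
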