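import Mathlib
import Pool.Agent.LNDF.GeoDefs

set_option autoImplicit false

open Polynomial

namespace Pool.Agent.LNDF

/-- lifting of homomorphisms from a formally smooth extension of fields -/
private theorem lift_gen {F L B : Type} [Field F] [Field L] [Algebra F L]
    [Algebra.FormallySmooth F L] [CommRing B] (π : B →+* L) (hπ : Function.Surjective π)
    (hn : IsNilpotent (RingHom.ker π)) (φ : F →+* B) (hφ : π.comp φ = algebraMap F L) :
    ∃ s : L →+* B, π.comp s = RingHom.id L ∧ s.comp (algebraMap F L) = φ := by
  letI : Algebra F B := φ.toAlgebra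
  have hc : ∀ x : F, π (algebraMap F B x) = algebraMap F L x := fun x => by
    rw [← hφ]; rfl
  let g : B →ₐ[F] L := { toRingHom := π, commutes' := hc }
  have hg : Function.Surjective g := hπ
  have hk : IsNilpotent (RingHom.ker (g : B →+* L)) := hn
  let s := Algebra.FormallySmooth.liftOfSurjective (AlgHom.id F L) g hg hk
  refine ⟨s, ?_, ?_⟩
  · ext x
    exact Algebra.FormallySmooth.liftOfSurjective_apply (AlgHom.id F L) g hg hk x
  · ext x
    exact s.commutes x

/-- a transcendental element has a derivation which does not kill it, in the form of a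
homomorphism to the dual numbers -/
private theorem exists_dual {k L : Type} [Field k] [CharZero k] [Field L] [Algebra k L]
    [Algebra.EssFiniteType k L] (h : L) (ht : Transcendental k h) :
    ∃ s : L →+* DualNumber L, (∀ x, (s x).fst = x) ∧
      (∀ c : k, s (algebraMap k L c) = algebraMap k (DualNumber L) c) ∧ (s h).snd = 1 := by
  let E := k[X]
  letI a1 : Algebra k[X] L := (aeval h : k[X] →ₐ[k] L).toRingHom.toAlgebra
  haveI t1 : IsScalarTower k k[X] L := IsScalarTower.of_algebraMap_eq' (by
    ext c
    change algebraMap k L c = aeval h (algebraMap k k[X] c)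
    rw [AlgHom.commutes])
  have hinj : Function.Injective (algebraMap k[X] L) := transcendental_iff_injective.1 ht
  haveI : FaithfulSMul k[X] L := (faithfulSMul_iff_algebraMap_injective _ _).2 hinj
  letI a2 : Algebra (FractionRing k[X]) L := FractionRing.liftAlgebra k[X] L
  haveI t2 : IsScalarTower k[X] (FractionRing k[X]) L := FractionRing.isScalarTower_liftAlgebra _ _
  haveI t3 : IsScalarTower k (FractionRing k[X]) L := IsScalarTower.of_algebraMap_eq (fun c => by
    rw [IsScalarTower.algebraMap_apply k k[X] (FractionRing k[X]),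
      ← IsScalarTower.algebraMap_apply k[X] (FractionRing k[X]) L,
      ← IsScalarTower.algebraMap_apply k k[X] L])
  haveI : Algebra.EssFiniteType (FractionRing k[X]) L := Algebra.EssFiniteType.of_comp k _ L
  haveI : CharZero (FractionRing k[X]) :=
    charZero_of_injective_algebraMap (R := k) (FaithfulSMul.algebraMap_injective k _)
  haveI : Algebra.FormallySmooth (FractionRing k[X]) L := inferInstance
  let π : DualNumber L →+* L := (TrivSqZeroExt.fstHom L L L).toRingHom
  have hπ : Function.Surjective π := fun x => ⟨TrivSqZeroExt.inl x, rfl⟩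
  have hn : IsNilpotent (RingHom.ker π) := by
    refine ⟨2, ?_⟩
    have h2 : RingHom.ker π * RingHom.ker π ≤ ⊥ := ?_
    · exact (sq (RingHom.ker π)).trans (le_bot_iff.1 h2)
    rw [Ideal.mul_le]
    intro x hx y hy
    have hx' : x.fst = 0 := hx
    have hy' : y.fst = 0 := hy
    rw [Ideal.mem_bot]
    ext
    · simp [hx', hy']
    · simp [hx', hy']
  let w : DualNumber L := TrivSqZeroExt.inl h + TrivSqZeroExt.inr 1
  let g : k[X] →+* DualNumber L := (aeval w : k[X] →ₐ[k] DualNumber L).toRingHom
  have hg : ∀ P, (g P).fst = algebraMap k[X] L P := by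
    intro P
    change (TrivSqZeroExt.fstHom k L L) (aeval w P) = aeval h P
    rw [← aeval_algHom_apply]
    congr 2
    simp [w]
  have hu : ∀ y : nonZeroDivisors k[X], IsUnit (g y) := by
    intro y
    rw [TrivSqZeroExt.isUnit_iff_isUnit_fst, hg]
    refine IsUnit.mk0 _ fun h0 => nonZeroDivisors.ne_zero y.2 (hinj ?_)
    rw [h0, map_zero]
  let φ : FractionRing k[X] →+* DualNumber L := IsLocalization.lift hu
  have hφ : π.comp φ = algebraMap (FractionRing k[X]) L := by
    apply IsLocalization.ringHom_ext (nonZeroDivisors k[X])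
    refine RingHom.ext fun P => ?_
    change (φ (algebraMap k[X] (FractionRing k[X]) P)).fst =
      algebraMap (FractionRing k[X]) L (algebraMap k[X] (FractionRing k[X]) P)
    rw [IsLocalization.lift_eq, hg, IsScalarTower.algebraMap_apply k[X] (FractionRing k[X]) L]
  obtain ⟨s, hs1, hs2⟩ := lift_gen π hπ hn φ hφ
  refine ⟨s, fun x => congrArg (fun f => f x) hs1, fun c => ?_, ?_⟩
  · rw [IsScalarTower.algebraMap_apply k (FractionRing k[X]) L]
    have := congrArg (fun f => f (algebraMap k (FractionRing k[X]) c)) hs2
    change s (algebraMap (FractionRing k[X]) L _) = _ at this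
    rw [this, IsScalarTower.algebraMap_apply k k[X] (FractionRing k[X]), IsLocalization.lift_eq]
    exact (aeval w : k[X] →ₐ[k] DualNumber L).commutes c
  · have h1 : h = algebraMap (FractionRing k[X]) L (algebraMap k[X] (FractionRing k[X]) X) := by
      rw [← IsScalarTower.algebraMap_apply k[X] (FractionRing k[X]) L]
      change h = aeval h X
      rw [aeval_X]
    have := congrArg (fun f => f (algebraMap k[X] (FractionRing k[X]) X)) hs2
    change s (algebraMap (FractionRing k[X]) L _) = _ at this
    rw [h1, this, IsLocalization.lift_eq]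
    change (aeval w X : DualNumber L).snd = 1
    rw [aeval_X]
    simp [w]

variable {k : Type} [Field k] [CharZero k]

/-- a nonconstant polynomial has a nonzero derivative of smaller degree -/
private theorem exists_pderiv_ne (f : B3 k) (h : 0 < f.totalDegree) :
    ∃ i, MvPolynomial.pderiv i f ≠ 0 ∧
      (MvPolynomial.pderiv i f).totalDegree < f.totalDegree := by
  classical
  have hne : f ≠ 0 := by
    rintro rfl
    simp at h
  obtain ⟨m, hm, hdeg⟩ := Finset.exists_mem_eq_sup f.support
    (MvPolynomial.support_nonempty.2 hne) (fun s => Multiset.card (Finsupp.toMultiset s))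
  have hdeg' : f.totalDegree = Multiset.card (Finsupp.toMultiset m) := by
    rw [MvPolynomial.totalDegree_eq, hdeg]
  have hm0 : m ≠ 0 := by
    rintro rfl
    rw [hdeg'] at h
    simp at h
  obtain ⟨i, hi⟩ := Finsupp.ne_iff.1 hm0
  refine ⟨i, ?_, ?_⟩
  · have hle : Finsupp.single i 1 ≤ m := by
      rw [Finsupp.single_le_iff]
      exact Nat.one_le_iff_ne_zero.2 hi
    have hc := MvPolynomial.coeff_pderiv (i := i) f (m - Finsupp.single i 1)
    rw [tsub_add_cancel_of_le hle] at hc
    intro h0
    rw [h0, MvPolynomial.coeff_zero] at hc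
    rcases mul_eq_zero.1 hc.symm with h1 | h1
    · exact MvPolynomial.mem_support_iff.1 hm h1
    · have : (((m - Finsupp.single i 1 : Fin 3 →₀ ℕ) i + 1 : ℕ) : k) ≠ 0 :=
        Nat.cast_ne_zero.2 (Nat.succ_ne_zero _)
      exact this (by push_cast; exact h1)
  · rw [MvPolynomial.totalDegree_eq, Finset.sup_lt_iff (by simpa using h)]
    intro m' hm'
    rw [MvPolynomial.mem_support_iff, MvPolynomial.coeff_pderiv] at hm'
    have h1 : m' + Finsupp.single i 1 ∈ f.support := by
      rw [MvPolynomial.mem_support_iff]
      intro h0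
      exact hm' (by rw [h0, zero_mul])
    have h2 := MvPolynomial.le_totalDegree h1
    rw [Finsupp.card_toMultiset]
    rw [Finsupp.sum_add_index' (fun _ => rfl) (fun _ _ _ => rfl),
      Finsupp.sum_single_index rfl] at h2
    exact h2

/-- some partial derivative of a prime is not a multiple of it -/
private theorem exists_pderiv {p : B3 k} (hp : Prime p) :
    ∃ i, ¬ p ∣ MvPolynomial.pderiv i p := by
  have h0 : 0 < p.totalDegree := by
    rw [Nat.pos_iff_ne_zero]
    intro h0
    have hc := MvPolynomial.totalDegree_eq_zero_iff_eq_C.1 h0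
    rcases eq_or_ne (MvPolynomial.coeff 0 p) 0 with h1 | h1
    · rw [h1, map_zero] at hc
      exact hp.ne_zero hc
    · refine hp.not_isUnit ?_
      rw [hc]
      exact (IsUnit.mk0 _ h1).map MvPolynomial.C
  obtain ⟨i, hi, hlt⟩ := exists_pderiv_ne p h0
  refine ⟨i, ?_⟩
  rintro ⟨q, hq⟩
  have hq0 : q ≠ 0 := fun h => hi (by rw [hq, h, mul_zero])
  rw [hq, MvPolynomial.totalDegree_mul_of_isDomain hp.ne_zero hq0] at hlt
  omega

theorem alg_of_minors {p h : B3 k} (hp : Prime p)
    (hm : ∀ i j : Fin 3, p ∣ MvPolynomial.pderiv i p * MvPolynomial.pderiv j h -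
      MvPolynomial.pderiv j p * MvPolynomial.pderiv i h) :
    ∃ F : k[X], F ≠ 0 ∧ p ∣ aeval h F := by
  by_contra hno
  push Not at hno
  haveI : (Ideal.span {p}).IsPrime := (Ideal.span_singleton_prime hp.ne_zero).2 hp
  let R := B3 k ⧸ Ideal.span {p}
  let L := FractionRing R
  have hq : ∀ b : B3 k, algebraMap (B3 k) L b = 0 ↔ p ∣ b := by
    intro b
    rw [IsScalarTower.algebraMap_apply (B3 k) R L, map_eq_zero_iff _
      (IsFractionRing.injective R L)]
    change Ideal.Quotient.mk _ b = 0 ↔ _
    rw [Ideal.Quotient.eq_zero_iff_mem, Ideal.mem_span_singleton]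
  haveI : Algebra.EssFiniteType R L := Algebra.EssFiniteType.of_isLocalization _ (nonZeroDivisors R)
  haveI : Algebra.EssFiniteType k L := Algebra.EssFiniteType.comp k R L
  have ht : Transcendental k (algebraMap (B3 k) L h) := by
    rw [transcendental_iff]
    intro P hP
    by_contra hP0
    refine hno P hP0 ?_
    rw [← hq, ← hP, aeval_algebraMap_apply]
  obtain ⟨s, hs1, hs2, hs3⟩ := exists_dual _ ht
  let δ : Derivation k (B3 k) L :=
    { toFun := fun b => (s (algebraMap (B3 k) L b)).snd
      map_add' := fun a b => by simp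
      map_smul' := fun c b => by
        have e1 : (algebraMap k (DualNumber L) c).fst = algebraMap k L c := rfl
        have e2 : (algebraMap k (DualNumber L) c).snd = 0 := rfl
        rw [Algebra.smul_def, map_mul, ← IsScalarTower.algebraMap_apply k (B3 k) L, map_mul, hs2]
        simp [Algebra.smul_def, e1, e2]
      map_one_eq_zero' := by simp
      leibniz' := fun a b => by
        simp [hs1, Algebra.smul_def, mul_comm] }
  have hδ : ∀ b, δ b = ∑ i, algebraMap (B3 k) L (MvPolynomial.pderiv i b) *
      δ (MvPolynomial.X i) := by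
    intro b
    induction b using MvPolynomial.induction_on with
    | C a =>
      have h1 : δ (MvPolynomial.C a) = 0 := δ.map_algebraMap a
      rw [h1]
      simp
    | add p q hp' hq' =>
      rw [map_add, hp', hq', ← Finset.sum_add_distrib]
      refine Finset.sum_congr rfl fun i _ => ?_
      rw [map_add, map_add, add_mul]
    | mul_X p n hp' =>
      rw [Derivation.leibniz, hp', Algebra.smul_def, Algebra.smul_def, Finset.mul_sum]
      have h1 : ∀ i, algebraMap (B3 k) L (MvPolynomial.pderiv i (p * MvPolynomial.X n)) *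
          δ (MvPolynomial.X i) = algebraMap (B3 k) L (MvPolynomial.X n) *
            (algebraMap (B3 k) L (MvPolynomial.pderiv i p) * δ (MvPolynomial.X i)) +
          (if n = i then algebraMap (B3 k) L p * δ (MvPolynomial.X n) else 0) := by
        intro i
        rw [Derivation.leibniz, MvPolynomial.pderiv_X, Pi.single_apply]
        split_ifs with h2
        · subst h2
          simp only [smul_eq_mul, map_add, map_mul, mul_one]
          ring
        · simp only [smul_eq_mul, map_add, map_mul, mul_zero, map_zero]
          ring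
      rw [Finset.sum_congr rfl fun i _ => h1 i, Finset.sum_add_distrib, Finset.sum_ite_eq,
        if_pos (Finset.mem_univ _), add_comm]
  have h1 : ∑ i, algebraMap (B3 k) L (MvPolynomial.pderiv i p) * δ (MvPolynomial.X i) = 0 := by
    rw [← hδ]
    change (s (algebraMap (B3 k) L p)).snd = 0
    rw [(hq p).2 dvd_rfl, map_zero]
    rfl
  have h2 : ∑ i, algebraMap (B3 k) L (MvPolynomial.pderiv i h) * δ (MvPolynomial.X i) = 1 := by
    rw [← hδ]
    exact hs3
  obtain ⟨i, hi⟩ := exists_pderiv hp
  have hi' : algebraMap (B3 k) L (MvPolynomial.pderiv i p) ≠ 0 := fun h => hi ((hq _).1 h)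
  have h3 : algebraMap (B3 k) L (MvPolynomial.pderiv i p) * 1 = 0 := by
    rw [← h2, Finset.mul_sum]
    have h4 : ∀ j ∈ Finset.univ, algebraMap (B3 k) L (MvPolynomial.pderiv i p) *
        (algebraMap (B3 k) L (MvPolynomial.pderiv j h) * δ (MvPolynomial.X j)) =
        algebraMap (B3 k) L (MvPolynomial.pderiv i h) *
        (algebraMap (B3 k) L (MvPolynomial.pderiv j p) * δ (MvPolynomial.X j)) := by
      intro j _
      have h5 := (hq _).2 (hm i j)
      rw [map_sub, map_mul, map_mul, sub_eq_zero] at h5
      linear_combination δ (MvPolynomial.X j) * h5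
    rw [Finset.sum_congr rfl h4, ← Finset.mul_sum, h1, mul_zero]
  rw [mul_one] at h3
  exact hi' h3

end Pool.Agent.LNDF
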