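import Mathlib
import Pool.Agent.LNDF.JacA
import Pool.Agent.LNDF.JacB
import Pool.Agent.LNDF.Ar1

set_option autoImplicit false

open Polynomial

namespace Pool.Agent.LNDF

variable {k : Type} [Field k] [CharZero k]
  {D : Derivation k (B3 k) (B3 k)} {f g r : B3 k} {c : A2 k} {ι : B3 k →ₐ[k] (K2 k)[X]}

theorem Slice.dvd_ev (h : Slice D f g r c) {P Q : A2 k} : ev f g P ∣ ev f g Q ↔ P ∣ Q := by
  refine ⟨fun hd => ?_, fun hd => map_dvd (ev f g) hd⟩
  rcases eq_or_ne Q 0 with rfl | hQ
  · exact dvd_zero _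
  have hQ' : ev f g Q ≠ 0 := fun h0 => hQ (h.ev_inj (by rw [h0, map_zero]))
  obtain ⟨s, hs⟩ := hd
  have h1 : D (ev f g Q) = 0 := (h.ker_iff _).2 ⟨Q, rfl⟩
  have h2 : D s = 0 := const_of_dvd D h.ln h1 hQ' ⟨ev f g P, by rw [hs, mul_comm]⟩
  obtain ⟨S, hS⟩ := (h.ker_iff s).1 h2
  exact ⟨S, h.ev_inj (by rw [map_mul, hS, hs])⟩

/-- primes of `k[f,g]` stay prime (factorially closed: `const_of_dvd`) -/
theorem Slice.prime_ev (h : Slice D f g r c) {P : A2 k} (hP : Prime P) : Prime (ev f g P) := by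
  rw [← irreducible_iff_prime]
  have h0 : ev f g P ≠ 0 := fun h0 => hP.ne_zero (h.ev_inj (by rw [h0, map_zero]))
  have h1 : D (ev f g P) = 0 := (h.ker_iff _).2 ⟨P, rfl⟩
  refine ⟨fun hu => ?_, fun a b hab => ?_⟩
  · have h2 : ev f g P ∣ ev f g 1 := by rw [map_one]; exact hu.dvd
    exact hP.not_isUnit (isUnit_of_dvd_one (h.dvd_ev.1 h2))
  · have ha : D a = 0 := const_of_dvd D h.ln h1 h0 ⟨b, hab⟩
    have hb : D b = 0 := const_of_dvd D h.ln h1 h0 ⟨a, by rw [hab, mul_comm]⟩
    obtain ⟨a', rfl⟩ := (h.ker_iff a).1 ha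
    obtain ⟨b', rfl⟩ := (h.ker_iff b).1 hb
    have h3 : P = a' * b' := h.ev_inj (by rw [hab, map_mul])
    rcases hP.irreducible.isUnit_or_isUnit h3 with h4 | h4
    · exact Or.inl (h4.map (ev f g))
    · exact Or.inr (h4.map (ev f g))

omit [CharZero k] in
/-- a prime dividing `F(h)` divides some `h - α` -/
theorem dvd_sub_of_dvd_aeval [IsAlgClosed k] {p h : B3 k} (hp : Prime p) {F : k[X]} (hF : F ≠ 0)
    (hd : p ∣ aeval h F) : ∃ α : k, p ∣ h - MvPolynomial.C α := by
  rw [(IsAlgClosed.splits F).eq_prod_roots, map_mul, aeval_C, map_multiset_prod] at hd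
  rcases hp.dvd_or_dvd hd with h1 | h1
  · exfalso
    have h2 : IsUnit (algebraMap k (B3 k) F.leadingCoeff) :=
      (isUnit_iff_ne_zero.2 (leadingCoeff_ne_zero.2 hF)).map (algebraMap k (B3 k))
    exact hp.not_isUnit (isUnit_of_dvd_unit h1 h2)
  · obtain ⟨x, hx, hx2⟩ := hp.exists_mem_multiset_dvd h1
    rw [Multiset.mem_map] at hx
    obtain ⟨y, hy, rfl⟩ := hx
    rw [Multiset.mem_map] at hy
    obtain ⟨α, _, rfl⟩ := hy
    refine ⟨α, ?_⟩
    simpa using hx2

omit [CharZero k] in
theorem chain_ev (f g : B3 k) (P : A2 k) (i : Fin 3) :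
    MvPolynomial.pderiv i (ev f g P) = ev f g (MvPolynomial.pderiv 0 P) * MvPolynomial.pderiv i f +
      ev f g (MvPolynomial.pderiv 1 P) * MvPolynomial.pderiv i g := by
  induction P using MvPolynomial.induction_on with
  | C a => simp
  | add p q hp hq =>
    simp only [map_add, hp, hq]
    ring
  | mul_X p j hp =>
    simp only [map_mul, Derivation.leibniz, smul_eq_mul, map_add, hp]
    fin_cases j <;> simp [MvPolynomial.pderiv_X] <;> ring

omit [CharZero k] in
/-- the linear polynomials `X 0 - α` and `X 1 - β` have no common prime factor -/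
theorem not_dvd_both {P : A2 k} (hP : Prime P) {α β : k}
    (h1 : P ∣ MvPolynomial.X 0 - MvPolynomial.C α)
    (h2 : P ∣ MvPolynomial.X 1 - MvPolynomial.C β) : False := by
  have key : ∀ (i : Fin 2) (a : k), P ∣ MvPolynomial.X i - MvPolynomial.C a →
      ∃ s : k, MvPolynomial.X i - MvPolynomial.C a = P * MvPolynomial.C s ∧ s ≠ 0 := by
    intro i a hd
    obtain ⟨S, hS⟩ := hd
    have hne : (MvPolynomial.X i - MvPolynomial.C a : A2 k) ≠ 0 := by
      intro h0
      have h3 := congrArg (MvPolynomial.eval (fun _ => a + 1)) h0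
      simp at h3
    have hS0 : S ≠ 0 := by
      rintro rfl
      rw [mul_zero] at hS
      exact hne hS
    have h3 : (P * S).totalDegree = P.totalDegree + S.totalDegree :=
      MvPolynomial.totalDegree_mul_of_isDomain hP.ne_zero hS0
    have h4 : (MvPolynomial.X i - MvPolynomial.C a : A2 k).totalDegree ≤ 1 := by
      refine (MvPolynomial.totalDegree_sub _ _).trans ?_
      simp
    have h5 : P.totalDegree ≠ 0 := by
      intro h0
      rw [MvPolynomial.totalDegree_eq_zero_iff_eq_C] at h0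
      apply hP.not_isUnit
      rw [h0]
      refine (isUnit_iff_ne_zero.2 ?_).map MvPolynomial.C
      intro h6
      rw [h6, map_zero] at h0
      exact hP.ne_zero h0
    have h6 : S.totalDegree = 0 := by
      rw [← hS] at h3
      omega
    rw [MvPolynomial.totalDegree_eq_zero_iff_eq_C] at h6
    refine ⟨S.coeff 0, by rw [← h6]; exact hS, fun h7 => ?_⟩
    rw [h7, map_zero] at h6
    exact hS0 h6
  obtain ⟨s, hs, hs0⟩ := key 0 α h1
  obtain ⟨t, ht, ht0⟩ := key 1 β h2
  have h3 := congrArg (MvPolynomial.eval ![α + 1, β]) hs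
  have h4 := congrArg (MvPolynomial.eval ![α + 1, β]) ht
  simp [ht0] at h3 h4
  rw [h4, zero_mul] at h3
  exact one_ne_zero h3

/-- no prime constant divides the Jacobian derivation. Let `p = P(f,g)` divide all `jac3 f g b`, that
is, all entries of `grad f × grad g`. Then `grad p × grad g = P_f (grad f × grad g)` and
`grad p × grad f` are zero modulo `p`; by `alg_of_minors` and `k` algebraically closed (split `F`,
`p` prime) `p ∣ f - α` and `p ∣ g - β`, so (`dvd_ev`) `P` divides the coprime `X 0 - α`, `X 1 - β`. -/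
theorem Slice.jac_irr [IsAlgClosed k] (h : Slice D f g r c) {P : A2 k} (hP : Prime P) :
    ∃ b, ¬ ev f g P ∣ jac3 f g b := by
  by_contra hcon
  push Not at hcon
  have hp := h.prime_ev hP
  have m01 : ev f g P ∣ MvPolynomial.pderiv 0 f * MvPolynomial.pderiv 1 g -
      MvPolynomial.pderiv 1 f * MvPolynomial.pderiv 0 g := by
    have h1 := hcon (MvPolynomial.X 2)
    simpa [jac3, Matrix.det_fin_three, MvPolynomial.pderiv_X] using h1
  have m02 : ev f g P ∣ MvPolynomial.pderiv 0 f * MvPolynomial.pderiv 2 g -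
      MvPolynomial.pderiv 2 f * MvPolynomial.pderiv 0 g := by
    have h1 := hcon (MvPolynomial.X 1)
    have h2 : jac3 f g (MvPolynomial.X 1) = -(MvPolynomial.pderiv 0 f * MvPolynomial.pderiv 2 g -
      MvPolynomial.pderiv 2 f * MvPolynomial.pderiv 0 g) := by
      simp [jac3, Matrix.det_fin_three, MvPolynomial.pderiv_X]
      ring
    rw [h2, dvd_neg] at h1
    exact h1
  have m12 : ev f g P ∣ MvPolynomial.pderiv 1 f * MvPolynomial.pderiv 2 g -
      MvPolynomial.pderiv 2 f * MvPolynomial.pderiv 1 g := by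
    have h1 := hcon (MvPolynomial.X 0)
    simpa [jac3, Matrix.det_fin_three, MvPolynomial.pderiv_X] using h1
  have mm : ∀ i j : Fin 3, ev f g P ∣ MvPolynomial.pderiv i f * MvPolynomial.pderiv j g -
      MvPolynomial.pderiv j f * MvPolynomial.pderiv i g := by
    intro i j
    fin_cases i <;> fin_cases j
    · simp
    · exact m01
    · exact m02
    · rw [← dvd_neg, neg_sub]; exact m01
    · simp
    · exact m12
    · rw [← dvd_neg, neg_sub]; exact m02
    · rw [← dvd_neg, neg_sub]; exact m12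
    · simp
  obtain ⟨F, hF, hF2⟩ := alg_of_minors (h := f) hp (fun i j => by
    rw [chain_ev, chain_ev]
    have h1 := (mm j i).mul_left (ev f g (MvPolynomial.pderiv 1 P))
    have h2 : (ev f g (MvPolynomial.pderiv 0 P) * MvPolynomial.pderiv i f +
        ev f g (MvPolynomial.pderiv 1 P) * MvPolynomial.pderiv i g) * MvPolynomial.pderiv j f -
        (ev f g (MvPolynomial.pderiv 0 P) * MvPolynomial.pderiv j f +
        ev f g (MvPolynomial.pderiv 1 P) * MvPolynomial.pderiv j g) * MvPolynomial.pderiv i f =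
        ev f g (MvPolynomial.pderiv 1 P) * (MvPolynomial.pderiv j f * MvPolynomial.pderiv i g -
      MvPolynomial.pderiv i f * MvPolynomial.pderiv j g) := by ring
    rw [h2]
    exact h1)
  obtain ⟨G, hG, hG2⟩ := alg_of_minors (h := g) hp (fun i j => by
    rw [chain_ev, chain_ev]
    have h1 := (mm i j).mul_left (ev f g (MvPolynomial.pderiv 0 P))
    have h2 : (ev f g (MvPolynomial.pderiv 0 P) * MvPolynomial.pderiv i f +
        ev f g (MvPolynomial.pderiv 1 P) * MvPolynomial.pderiv i g) * MvPolynomial.pderiv j g -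
        (ev f g (MvPolynomial.pderiv 0 P) * MvPolynomial.pderiv j f +
        ev f g (MvPolynomial.pderiv 1 P) * MvPolynomial.pderiv j g) * MvPolynomial.pderiv i g =
        ev f g (MvPolynomial.pderiv 0 P) * (MvPolynomial.pderiv i f * MvPolynomial.pderiv j g -
      MvPolynomial.pderiv j f * MvPolynomial.pderiv i g) := by ring
    rw [h2]
    exact h1)
  obtain ⟨α, hα⟩ := dvd_sub_of_dvd_aeval hp hF hF2
  obtain ⟨β, hβ⟩ := dvd_sub_of_dvd_aeval hp hG hG2
  apply not_dvd_both hP (α := α) (β := β)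
  · apply h.dvd_ev.1
    simpa using hα
  · apply h.dvd_ev.1
    simpa using hβ

/-- so, if `D` is not divisible by a prime constant either, `Jac(f,g,r)` is `D r` up to a scalar:
compare the exponents of every prime in `prop`. -/
theorem Slice.jac_eq [IsAlgClosed k] (h : Slice D f g r c) (hι : Iota D f g r c ι)
    (hirr : ∀ p : B3 k, Prime p → D p = 0 → ∃ x, ¬ p ∣ D x) :
    ∃ u : k, u ≠ 0 ∧ jac3 f g r = ev f g (MvPolynomial.C u * c) := by
  obtain ⟨cJ, hcJ, hJ⟩ := h.jac_const hι
  have hprop := h.prop hι hJ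
  have hass : Associated c cJ := by
    apply assoc_of_primes h.cne hcJ
    intro P hP j
    have hp := h.prime_ev hP
    have hDp : D (ev f g P) = 0 := (h.ker_iff _).2 ⟨P, rfl⟩
    constructor
    · intro hd
      obtain ⟨b, hb⟩ := hirr _ hp hDp
      have h1 : ev f g P ^ j ∣ jac3 f g b * ev f g c := by
        rw [← map_pow]
        exact (map_dvd (ev f g) hd).mul_left _
      rw [hprop b] at h1
      have h2 := hp.pow_dvd_of_dvd_mul_right j hb h1
      rw [← map_pow] at h2
      exact h.dvd_ev.1 h2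
    · intro hd
      obtain ⟨b, hb⟩ := h.jac_irr hP
      have h1 : ev f g P ^ j ∣ ev f g cJ * D b := by
        rw [← map_pow]
        exact (map_dvd (ev f g) hd).mul_right _
      rw [← hprop b] at h1
      have h2 := hp.pow_dvd_of_dvd_mul_left j hb h1
      rw [← map_pow] at h2
      exact h.dvd_ev.1 h2
  obtain ⟨u, hu⟩ := hass
  obtain ⟨v, hv, hv2⟩ := MvPolynomial.isUnit_iff_eq_C_of_isReduced.1 u.isUnit
  refine ⟨v, hv.ne_zero, ?_⟩
  rw [hJ, ← hu, hv2, mul_comm]

end Pool.Agent.LNDF
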