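import Mathlib
import Pool.Agent.LNDF.JacC
import Pool.Agent.LNDF.Zero
import Pool.Agent.LNDF.Ar4
import Pool.Agent.LNDF.IotaA
import Pool.Agent.LNDF.IotaB

set_option autoImplicit false

open Polynomial

namespace Pool.Agent.LNDF

variable {k : Type} [Field k] [CharZero k]
  {D : Derivation k (B3 k) (B3 k)} {f g r : B3 k} {c : A2 k} {ι : B3 k →ₐ[k] (K2 k)[X]}

omit [CharZero k] in
theorem Slice.exD (h : Slice D f g r c) : ∃ x, D x ≠ 0 := by
  refine ⟨r, ?_⟩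
  rw [h.Dr]
  intro h0
  exact h.cne (h.ev_inj (by rw [h0, map_zero]))

omit [CharZero k] in
theorem Slice.mul_const (h : Slice D f g r c) (a : A2 k) (n : ℕ) (x : B3 k) :
    (⇑D)^[n] (ev f g a * x) = ev f g a * (⇑D)^[n] x := by
  have hDa : D (ev f g a) = 0 := (h.ker_iff _).2 ⟨a, rfl⟩
  induction n generalizing x with
  | zero => rfl
  | succ n ih =>
    rw [Function.iterate_succ', Function.comp_apply, Function.comp_apply, ih,
      Derivation.leibniz, hDa, smul_zero, add_zero, smul_eq_mul]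

theorem asm_x (h : Slice D f g r c) (A : Arith D) (hι : Iota D f g r c ι) (cc : ℕ → A2 k)
    (hcc : ∀ n, ev f g (cc n) = A.cc n) (i : Fin 2) (n : ℕ) :
    ∃ w ∈ hι.S, w.natDegree ≤ n ∧ ∃ (s : ℕ) (e : A2 k),
        MvPolynomial.constantCoeff e ≠ 0 ∧
          (n.factorial : K2 k) * al c ^ n * w.coeff n =
            al (cc n * (e * MvPolynomial.X i ^ s)) := by
  have hccne : cc n ≠ 0 := by
    intro h0
    apply (A.isCC n).ne
    rw [← hcc n, h0, map_zero]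
  let J : Ideal (A2 k) :=
    { carrier := {a | ∃ x, (⇑D)^[n + 1] x = 0 ∧ (⇑D)^[n] x = ev f g (cc n * a)}
      add_mem' := by
        rintro a b ⟨x, hx0, hx⟩ ⟨y, hy0, hy⟩
        refine ⟨x + y, ?_, ?_⟩
        · rw [iterate_map_add, hx0, hy0, add_zero]
        · rw [iterate_map_add, hx, hy, mul_add, map_add]
      zero_mem' := ⟨0, by rw [iterate_map_zero], by rw [iterate_map_zero, mul_zero, map_zero]⟩
      smul_mem' := by
        rintro a b ⟨x, hx0, hx⟩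
        refine ⟨ev f g a * x, ?_, ?_⟩
        · rw [h.mul_const, hx0, mul_zero]
        · rw [h.mul_const, hx, ← map_mul, smul_eq_mul]
          congr 1
          ring }
  have hJ : ∀ P : A2 k, Prime P → ∃ a ∈ J, ¬ P ∣ a := by
    intro P hP
    obtain ⟨x, hx0, hx⟩ := (A.isCC n).sharp (ev f g P) (h.prime_ev hP)
    obtain ⟨b, hb⟩ := (A.isCC n).dvd x hx0
    have hDn : D ((⇑D)^[n] x) = 0 := by
      rw [← Function.iterate_succ_apply' (f := ⇑D)]
      exact hx0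
    have hDb : D b = 0 := by
      rw [hb, Derivation.leibniz, (A.isCC n).const, smul_zero, add_zero, smul_eq_mul] at hDn
      rcases mul_eq_zero.1 hDn with h1 | h1
      · exact absurd h1 (A.isCC n).ne
      · exact h1
    obtain ⟨a, ha⟩ := (h.ker_iff b).1 hDb
    refine ⟨a, ⟨x, hx0, ?_⟩, ?_⟩
    · rw [hb, map_mul, hcc n, ha]
    · rintro ⟨a', ha'⟩
      apply hx
      rw [hb, ← ha, ha', map_mul, ← mul_assoc]
      exact dvd_mul_right _ _
  have hne : J ≠ ⊥ := by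
    intro h0
    obtain ⟨a, ha, h1⟩ := hJ (MvPolynomial.X 0) MvPolynomial.X_prime
    rw [h0, Ideal.mem_bot] at ha
    rw [ha] at h1
    exact h1 (dvd_zero _)
  obtain ⟨s, e, he, x, hx0, hx⟩ := exists_pow_mem J hJ hne i
  have hdeg : (ι x).natDegree ≤ n := (hι.deg_iff h.cne n x).2 hx0
  refine ⟨ι x, ⟨x, rfl⟩, hdeg, s, e, he, ?_⟩
  have h1 := hι.top n x hdeg
  rw [hx, hι.ev] at h1
  exact (C_injective h1).symm

theorem asm_dvd (h : Slice D f g r c) (A : Arith D) (hι : Iota D f g r c ι) (cc : ℕ → A2 k)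
    (hcc : ∀ n, ev f g (cc n) = A.cc n) (n : ℕ) (w : (K2 k)[X]) (hw : w ∈ hι.S)
    (hdeg : w.natDegree ≤ n) :
    ∃ a : A2 k, (n.factorial : K2 k) * al c ^ n * w.coeff n = al (cc n * a) := by
  obtain ⟨x, rfl⟩ := hw
  have hdeg' : (ι x).natDegree ≤ n := hdeg
  have hx0 := (hι.deg_iff h.cne n x).1 hdeg'
  obtain ⟨b, hb⟩ := (A.isCC n).dvd x hx0
  have hDn : D ((⇑D)^[n] x) = 0 := by
    rw [← Function.iterate_succ_apply' (f := ⇑D)]
    exact hx0
  have hDb : D b = 0 := by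
    rw [hb, Derivation.leibniz, (A.isCC n).const, smul_zero, add_zero, smul_eq_mul] at hDn
    rcases mul_eq_zero.1 hDn with h1 | h1
    · exact absurd h1 (A.isCC n).ne
    · exact h1
  obtain ⟨a, ha⟩ := (h.ker_iff b).1 hDb
  refine ⟨a, ?_⟩
  have h1 := hι.top n x hdeg'
  rw [hb, ← ha, ← hcc n, ← map_mul, hι.ev] at h1
  exact (C_injective h1).symm

theorem asm_mul (h : Slice D f g r c) (A : Arith D) (cc : ℕ → A2 k)
    (hcc : ∀ n, ev f g (cc n) = A.cc n) (l : ℕ) (hl : l < A.N) :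
    Associated (cc l * cc (A.N - 1 - l)) (cc A.N) := by
  have h1 := A.compl l hl
  rw [← hcc, ← hcc, ← hcc, ← map_mul] at h1
  exact associated_of_dvd_dvd (h.dvd_ev.1 h1.dvd) (h.dvd_ev.1 h1.symm.dvd)

theorem asm_div (h : Slice D f g r c) (A : Arith D) (hι : Iota D f g r c ι) (cc : ℕ → A2 k)
    (hcc : ∀ n, ev f g (cc n) = A.cc n) (d : A2 k) (hd : d ≠ 0) (Q : (K2 k)[X])
    (hQ : ∃ s : ℕ, C (al (d ^ s)) * Q ∈ hι.S) (hdeg : Q.natDegree ≤ A.N)
    (hlead : (A.N.factorial : K2 k) * al c ^ A.N * Q.coeff A.N = al (cc A.N))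
    (b : (K2 k)[X]) (hb : ∃ s : ℕ, C (al (d ^ s)) * b ∈ hι.S) :
    ∃ u t : (K2 k)[X], (∃ s : ℕ, C (al (d ^ s)) * u ∈ hι.S) ∧
      (∃ s : ℕ, C (al (d ^ s)) * t ∈ hι.S) ∧ b = u * Q + t ∧ t.degree < (A.N : ℕ) := by
  obtain ⟨s, q, hq⟩ := hQ
  obtain ⟨s', b', hb'⟩ := hb
  have hq' : ι q = C (al (d ^ s)) * Q := hq
  have hb'' : ι b' = C (al (d ^ s')) * b := hb'
  have hdq : (ι q).natDegree ≤ A.N := by
    rw [hq']
    exact (natDegree_C_mul_le _ _).trans hdeg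
  have hDq : (⇑D)^[A.N] q = A.cc A.N * ev f g (d ^ s) := by
    apply hι.inj
    rw [hι.top A.N q hdq, hq', coeff_C_mul, ← hcc, ← map_mul, hι.ev]
    congr 1
    have hmul : al (cc A.N * d ^ s) = al (cc A.N) * al (d ^ s) := map_mul _ _ _
    rw [hmul, ← hlead]
    ring
  have hδ0 : ev f g (d ^ s) ≠ 0 := by
    intro h0
    exact pow_ne_zero s hd (h.ev_inj (by rw [h0, map_zero]))
  obtain ⟨j, s1, t1, h1, ht1⟩ := A.div h.exD h.ln ((h.ker_iff _).2 ⟨d ^ s, rfl⟩) hδ0 hDq b'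
  have h2 := congrArg ι h1
  rw [map_mul, map_add, map_mul, hq', hb'', map_pow, hι.ev] at h2
  have hal : ∀ m, al (d ^ m) ≠ 0 := fun m => al_ne (pow_ne_zero m hd)
  have hC : ∀ m, C (al (d ^ m)) ≠ 0 := fun m => by rw [Ne, C_eq_zero]; exact hal m
  set m := s * j + s' with hm
  have hm1 : C (al (d ^ m)) = C (al (d ^ s)) ^ j * C (al (d ^ s')) := by
    rw [hm, pow_add, pow_mul, ← map_pow, ← map_mul, al, map_mul, map_pow]
  have hinv : C (al (d ^ m)) * C ((al (d ^ m))⁻¹) = 1 := by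
    rw [← map_mul, mul_inv_cancel₀ (hal m), map_one]
  refine ⟨C ((al (d ^ m))⁻¹) * (C (al (d ^ s)) * ι s1), C ((al (d ^ m))⁻¹) * ι t1,
    ⟨m, ?_⟩, ⟨m, ?_⟩, ?_, ?_⟩
  · refine ⟨ev f g (d ^ s) * s1, ?_⟩
    rw [← mul_assoc, hinv, one_mul]
    rw [map_mul, hι.ev]
  · refine ⟨t1, ?_⟩
    rw [← mul_assoc, hinv, one_mul]
  · apply mul_left_cancel₀ (hC m)
    have h3 : C (al (d ^ m)) * b = ι s1 * (C (al (d ^ s)) * Q) + ι t1 := by
      rw [hm1, ← h2]
      ring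
    rw [h3]
    linear_combination (-(C (al (d ^ s)) * ι s1 * Q + ι t1)) * hinv
  · have h4 : (ι t1).degree < (A.N : ℕ) := (hι.deg_lt_iff h.cne A.N t1).2 ht1
    rw [degree_C_mul (inv_ne_zero (hal m))]
    exact h4

/-- the arithmetic fields of the model -/
theorem asm_arith {D : Derivation k (B3 k) (B3 k)} {f g r : B3 k} {c : A2 k}
    (h : Slice D f g r c) (A : Arith D) {ι : B3 k →ₐ[k] (K2 k)[X]} (hι : Iota D f g r c ι) :
    ∃ cc : ℕ → A2 k, (∀ n, ev f g (cc n) = A.cc n) ∧ (∀ n, cc n ≠ 0) ∧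
      (∀ n ≤ A.N, ∀ h ∈ hι.S, h.natDegree ≤ n →
        ∃ a : A2 k, (n.factorial : K2 k) * al c ^ n * h.coeff n = al (cc n * a)) ∧
      (∀ (i : Fin 2) (n : ℕ), n ≤ A.N → ∃ h ∈ hι.S, h.natDegree ≤ n ∧ ∃ (s : ℕ) (e : A2 k),
        MvPolynomial.constantCoeff e ≠ 0 ∧
          (n.factorial : K2 k) * al c ^ n * h.coeff n =
            al (cc n * (e * MvPolynomial.X i ^ s))) ∧
      (∀ l < A.N, Associated (cc l * cc (A.N - 1 - l)) (cc A.N)) ∧
      (∀ (d : A2 k), d ≠ 0 → ∀ Q : (K2 k)[X], (∃ s : ℕ, C (al (d ^ s)) * Q ∈ hι.S) →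
        Q.natDegree ≤ A.N →
        (A.N.factorial : K2 k) * al c ^ A.N * Q.coeff A.N = al (cc A.N) →
        ∀ b : (K2 k)[X], (∃ s : ℕ, C (al (d ^ s)) * b ∈ hι.S) →
          ∃ u t : (K2 k)[X], (∃ s : ℕ, C (al (d ^ s)) * u ∈ hι.S) ∧
            (∃ s : ℕ, C (al (d ^ s)) * t ∈ hι.S) ∧ b = u * Q + t ∧ t.degree < (A.N : ℕ)) := by
  choose cc hcc using fun n => (h.ker_iff (A.cc n)).1 (A.isCC n).const
  refine ⟨cc, hcc, ?_, ?_, ?_, ?_, ?_⟩
  · intro n h0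
    apply (A.isCC n).ne
    rw [← hcc n, h0, map_zero]
  · intro n _ w hw hdeg
    exact asm_dvd h A hι cc hcc n w hw hdeg
  · intro i n _
    exact asm_x h A hι cc hcc i n
  · exact asm_mul h A cc hcc
  · exact asm_div h A hι cc hcc

end Pool.Agent.LNDF
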