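import Mathlib
import Pool.Agent.LNDF.JacC
import Pool.Agent.LNDF.Zero
import Pool.Agent.LNDF.Ar4
import Pool.Agent.LNDF.AsmA

set_option autoImplicit false

open Polynomial

namespace Pool.Agent.LNDF

variable {k : Type} [Field k] [CharZero k]

/-- every polynomial is a derivative in the first variable -/
theorem pderiv_surj (b : B3 k) : ∃ u : B3 k, MvPolynomial.pderiv 0 u = b := by
  induction b using MvPolynomial.induction_on' with
  | monomial m a =>
    refine ⟨MvPolynomial.monomial (m + Finsupp.single 0 1) (a / ((m 0 : k) + 1)), ?_⟩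
    rw [MvPolynomial.pderiv_monomial]
    have h0 : ((m 0 : k) + 1) ≠ 0 := by exact_mod_cast Nat.succ_ne_zero (m 0)
    congr 1
    · ext i
      simp
    · simp [h0]
  | add p q hp hq =>
    obtain ⟨u, hu⟩ := hp
    obtain ⟨v, hv⟩ := hq
    exact ⟨u + v, by rw [map_add, hu, hv]⟩

/-- ASSEMBLY of the model at the point `(f,g) = (0,0)`. `S = hι.S`, `xi0 = ι (pderiv 0 f)` etc.,
`del_mem`, `del_surj`: `chain` for `l = 0` and every polynomial is a `pderiv 0`; `div`: `divg`, `jac_eq`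
(the scalar cancels); `cc n` = the element of `A2` with `ev = A.cc n`; `cc_x`: `exists_pow_mem` for the
ideal `{a | ∃ x, D^(n+1) x = 0 ∧ D^n x = ev (cc n * a)}` (`IsCC.sharp`); `divQ`: `Arith.div` with
`δ = ev (d ^ s)`; `prime0`: `prime_ev` for `X 0`; `inter`: `ker_iff`. -/
theorem exists_model [IsAlgClosed k] {D : Derivation k (B3 k) (B3 k)} {f g r : B3 k} {c : A2 k}
    (h : Slice D f g r c) (hirr : ∀ p : B3 k, Prime p → D p = 0 → ∃ x, ¬ p ∣ D x)
    (A : Arith D) {ι : B3 k →ₐ[k] (K2 k)[X]} (hι : Iota D f g r c ι) :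
    ∃ M : Model k, M.N = A.N ∧ M.c = c ∧ (∀ x, x ∈ M.S ↔ ∃ b, ι b = x) ∧
      ev f g (M.cc M.N) = A.cc A.N := by
  obtain ⟨cc, hcc, hne, hdvd, hx, hmul, hdiv⟩ := asm_arith h A hι
  have hS : ∀ x, x ∈ hι.S ↔ ∃ b, ι b = x := fun x => Iff.rfl
  obtain ⟨u, hu, hJ⟩ := h.jac_eq hι hirr
  refine ⟨{
    S := hι.S
    c := c
    c_ne := h.cne
    X_mem := ⟨r, hι.r⟩
    D_mem := ?_
    inter := ?_
    prime0 := ?_
    xi0 := ι (MvPolynomial.pderiv 0 f)
    xi1 := ι (MvPolynomial.pderiv 0 g)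
    xiT := ι (MvPolynomial.pderiv 0 r)
    del_mem := ?_
    del_surj := ?_
    div := ?_
    N := A.N
    N_pos := A.N_pos
    cc := cc
    cc_ne := hne
    cc_dvd := hdvd
    cc_x := hx
    cc_mul := hmul
    divQ := hdiv }, rfl, rfl, hS, hcc A.N⟩
  · rintro _ ⟨b, rfl⟩
    exact ⟨D b, hι.D b⟩
  · rintro x ⟨b, hb⟩
    have h1 : ι (D b) = 0 := by
      rw [hι.D b, hb, derivative_C, mul_zero]
    have h2 : D b = 0 := hι.inj (by rw [h1, map_zero])
    obtain ⟨a, ha⟩ := (h.ker_iff b).1 h2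
    refine ⟨a, ?_⟩
    have h3 : C (al a) = C x := by
      rw [← hι.ev a, ha, hb]
    exact C_injective h3
  · rintro a _ ⟨b, rfl⟩ ⟨_, ⟨b', rfl⟩, hb⟩
    rw [← hι.ev, ← hι.ev, ← map_mul, ← map_mul] at hb
    have h1 := hι.inj hb
    have h2 : Prime (ev f g (MvPolynomial.X 0 : A2 k)) :=
      h.prime_ev MvPolynomial.X_prime
    have h3 : ev f g (MvPolynomial.X 0 : A2 k) ∣ ev f g a * b := ⟨b', h1⟩
    rcases h2.dvd_or_dvd h3 with h4 | ⟨b'', h4⟩
    · exact Or.inl (h.dvd_ev.1 h4)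
    · refine Or.inr ⟨ι b'', ⟨b'', rfl⟩, ?_⟩
      rw [h4, map_mul, hι.ev]
  · rintro _ ⟨b, rfl⟩
    exact ⟨MvPolynomial.pderiv 0 b, h.chain hι 0 b⟩
  · rintro _ ⟨b, rfl⟩
    obtain ⟨v, rfl⟩ := pderiv_surj b
    exact ⟨ι v, ⟨v, rfl⟩, (h.chain hι 0 v).symm⟩
  · have h1 := h.divg hι hJ
    have h2 : al (MvPolynomial.C u * c) = algebraMap k (K2 k) u * al c := by
      rw [al, map_mul, ← MvPolynomial.algebraMap_eq, ← IsScalarTower.algebraMap_apply]
    have h3 : ∀ i, dK i (al (MvPolynomial.C u * c)) = algebraMap k (K2 k) u * dK i (al c) := by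
      intro i
      rw [h2, ← Algebra.smul_def, Derivation.map_smul, Algebra.smul_def]
    rw [h3, h3, h2] at h1
    have hu' : C (algebraMap k (K2 k) u) ≠ 0 := by
      rw [Ne, C_eq_zero]
      exact fun h0 => hu ((map_eq_zero (algebraMap k (K2 k))).1 h0)
    apply mul_left_cancel₀ hu'
    rw [map_mul] at h1
    rw [map_mul, map_mul] at h1
    linear_combination h1

end Pool.Agent.LNDF
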