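import Mathlib
import Pool.Agent.LNDF.NpDefs

set_option autoImplicit false

open TensorProduct

namespace Pool.Agent.LNDF

open Pool.Agent.LNDHom Pool.Agent.LNDHom.LocData

variable {V Λ : Type*} [CommRing V] [IsDomain V] [CommRing Λ] [IsDomain Λ] [Algebra V Λ]
  {D : Derivation V Λ Λ} {p : V}

/-- `n` is a block: the image of the elements of degree `< n` in the special fibre is a ring -/
def Blk (h : LocData V Λ D p) (n : ℕ) : Prop :=
  0 < n ∧ ∀ x ∈ h.F (n - 1), ∀ y ∈ h.F (n - 1), x * y ∈ h.F (n - 1)

/-- the adapted elements `q_n^j q_i`, `l = j n + i`, of the ring `Lam h n` -/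
noncomputable def wl (h : LocData V Λ D p) (n l : ℕ) : Λ := h.q n ^ (l / n) * h.q (l % n)

/-- the ring (for a block `n`) generated over the elements of degree `< n` by `q_n` -/
noncomputable def Lam (h : LocData V Λ D p) (n : ℕ) : Submodule V Λ :=
  Submodule.span V (Set.range (wl h n))

/-- `x` has degree `l` and the same leading coefficient as `a`, up to a unit of `V` -/
def Lead (D : Derivation V Λ Λ) (l : ℕ) (a : V) (x : Λ) : Prop :=
  ∃ u : V, IsUnit u ∧ (⇑D)^[l] x = algebraMap V Λ (a * u)

end Pool.Agent.LNDF
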