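import Mathlib
import Pool.Agent.LNDF.ChDefs
import Pool.Agent.LNDF.NpDefs

set_option autoImplicit false

open TensorProduct

namespace Pool.Agent.LNDF

open Pool.Agent.LNDHom Pool.Agent.LNDHom.LocData

variable {V Λ : Type*} [CommRing V] [IsDomain V] [CommRing Λ] [IsDomain Λ] [Algebra V Λ]
  {D : Derivation V Λ Λ} {p : V}

/-- the adapted elements modulo `p` -/
private noncomputable def th (h : LocData V Λ D p) (i : ℕ) : h.res :=
  Ideal.Quotient.mk _ (h.q i)

/-- the image in the special fibre of the elements of degree `< m` -/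
private noncomputable def G (h : LocData V Λ D p) (m : ℕ) : Submodule h.kap h.res :=
  Submodule.span h.kap (th h '' {i | i < m})

private theorem G_mono (h : LocData V Λ D p) {a b : ℕ} (hab : a ≤ b) : G h a ≤ G h b :=
  Submodule.span_mono (Set.image_mono fun _ hi => lt_of_lt_of_le hi hab)

private theorem mk_smul (h : LocData V Λ D p) (a : V) (x : Λ) :
    (Ideal.Quotient.mk _ (a • x) : h.res) =
      (Ideal.Quotient.mk (Ideal.span {p}) a : h.kap) • (Ideal.Quotient.mk _ x : h.res) := by
  rw [Ideal.Quotient.mk_smul_mk_quotient_map_quotient, Algebra.smul_def]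

private theorem mem_G (h : LocData V Λ D p) (m : ℕ) (x : h.res) :
    x ∈ G h m ↔ ∃ y : Λ, (⇑D)^[m] y = 0 ∧ Ideal.Quotient.mk _ y = x := by
  constructor
  · intro hx
    unfold G at hx
    induction hx using Submodule.span_induction with
    | mem x hx =>
      obtain ⟨i, hi, rfl⟩ := hx
      have hi' : i < m := hi
      exact ⟨h.q i, iter_zero_of_le D (h.iter_succ_q i) (by omega), rfl⟩
    | zero => exact ⟨0, by rw [iterate_map_zero], map_zero _⟩
    | add x y _ _ hx hy =>
      obtain ⟨x', hx', rfl⟩ := hx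
      obtain ⟨y', hy', rfl⟩ := hy
      exact ⟨x' + y', by rw [iterate_map_add, hx', hy', add_zero], map_add _ _ _⟩
    | smul a x _ hx =>
      obtain ⟨x', hx', rfl⟩ := hx
      obtain ⟨a, rfl⟩ := Ideal.Quotient.mk_surjective a
      exact ⟨a • x', by rw [smul_iter, hx', smul_zero], mk_smul h a x'⟩
  · rintro ⟨y, hy, rfl⟩
    have h1 := h.mem_span m y hy
    clear hy
    induction h1 using Submodule.span_induction with
    | mem x hx =>
      obtain ⟨i, hi, rfl⟩ := hx
      exact Submodule.subset_span ⟨i, hi, rfl⟩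
    | zero => rw [map_zero]; exact Submodule.zero_mem _
    | add x y hx hy hx' hy' =>
      rw [map_add]
      exact Submodule.add_mem _ hx' hy'
    | smul a x _ hx =>
      rw [mk_smul h]
      exact Submodule.smul_mem _ _ hx

private theorem F_eq_G (h : LocData V Λ D p) {n : ℕ} (hn : 0 < n) : h.F (n - 1) = G h n := by
  ext x
  rw [mem_F, mem_G, Nat.sub_add_cancel hn]

private theorem th_notMem (h : LocData V Λ D p) (m : ℕ) : th h m ∉ G h m := by
  have := h.isMax
  let _ : Field h.kap := h.kapField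
  have h1 := h.res_linInd.notMem_span_image (s := {i | i < m}) (x := m) (by simp)
  exact h1

private theorem th_zero (h : LocData V Λ D p) : th h 0 = 1 := by
  have h1 := h.iter_q 0
  rw [e_zero, pow_zero, map_one, Function.iterate_zero, id] at h1
  rw [th, h1, map_one]

private theorem one_mem (h : LocData V Λ D p) {n : ℕ} (hn : 0 < n) : (1 : h.res) ∈ G h n := by
  rw [← th_zero h]
  exact Submodule.subset_span ⟨0, hn, rfl⟩

/-- an element of degree `≤ m` whose image is not in `G h m` has minimal leading coefficient -/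
private theorem lead_of (h : LocData V Λ D p) {m : ℕ} {x : Λ} {v : V}
    (hx : (⇑D)^[m] x = algebraMap V Λ v)
    (hn : (Ideal.Quotient.mk _ x : h.res) ∉ G h m) : ∃ u : V, IsUnit u ∧ v = p ^ h.e m * u := by
  obtain ⟨w, hw⟩ := h.e_dvd m x v hx
  refine ⟨w, ?_, hw⟩
  by_contra hu
  apply hn
  have h1 : (⇑D)^[m] (x - w • h.q m) = 0 := by
    rw [iterate_map_sub, smul_iter, h.iter_q, hx, hw, Algebra.smul_def, map_mul]
    ring
  refine (mem_G h m _).mpr ⟨_, h1, ?_⟩
  have h2 : p ∣ w := by
    by_cases hw0 : w = 0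
    · rw [hw0]; exact dvd_zero _
    · obtain ⟨n, u, hu', hn'⟩ := h.val w hw0
      rcases Nat.eq_zero_or_pos n with h0 | h0
      · subst h0
        rw [pow_zero, one_mul] at hn'
        exact absurd (hn' ▸ hu') hu
      · rw [hn']
        exact Dvd.dvd.mul_right (dvd_pow_self p (by omega)) u
  obtain ⟨w', rfl⟩ := h2
  have h3 : (Ideal.Quotient.mk _ ((p * w') • h.q m) : h.res) = 0 := by
    rw [Ideal.Quotient.eq_zero_iff_mem, mem_map_iff, Algebra.smul_def, map_mul, mul_assoc]
    exact Dvd.intro _ rfl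
  rw [map_sub, h3, sub_zero]

/-- the top of `q_n^a q_i` -/
private theorem top_w (h : LocData V Λ D p) (n i : ℕ) (a : ℕ) :
    (∃ u : V, IsUnit u ∧ (⇑D)^[a * n + i] (h.q n ^ a * h.q i) =
      algebraMap V Λ (p ^ (a * h.e n + h.e i) * u)) ∧
    (⇑D)^[a * n + i + 1] (h.q n ^ a * h.q i) = 0 := by
  induction a with
  | zero =>
    refine ⟨⟨1, isUnit_one, ?_⟩, ?_⟩
    · rw [pow_zero, one_mul, zero_mul, zero_add, h.iter_q, zero_mul, zero_add, mul_one]
    · rw [pow_zero, one_mul, zero_mul, zero_add, h.iter_succ_q]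
  | succ a ih =>
    obtain ⟨⟨u, hu, h1⟩, h2⟩ := ih
    have h3 := iter_mul_top D ((a + 1) * n + i) n (a * n + i) (h.q n) (h.q n ^ a * h.q i)
      (by ring) (h.iter_succ_q n) h2
    have h4 : h.q n ^ (a + 1) * h.q i = h.q n * (h.q n ^ a * h.q i) := by ring
    rw [h4]
    refine ⟨⟨(((a + 1) * n + i).choose n : ℕ) * u, ?_, ?_⟩, h3.2⟩
    · refine (h.unit _ ?_).mul hu
      have : 0 < ((a + 1) * n + i).choose n := Nat.choose_pos (by nlinarith)
      omega
    · rw [h3.1, h.iter_q, h1]
      simp only [map_mul, map_pow, map_natCast]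
      ring

/-- the images of the adapted elements `wl` -/
private noncomputable def w (h : LocData V Λ D p) (n l : ℕ) : h.res :=
  th h n ^ (l / n) * th h (l % n)

private theorem w_eq (h : LocData V Λ D p) {n i : ℕ} (hi : i < n) (j : ℕ) :
    w h n (j * n + i) = th h n ^ j * th h i := by
  have hn : 0 < n := by omega
  have h1 : (j * n + i) / n = j := by
    rw [mul_comm, Nat.mul_add_div hn, Nat.div_eq_of_lt hi, add_zero]
  have h2 : (j * n + i) % n = i := by
    rw [mul_comm, Nat.mul_add_mod, Nat.mod_eq_of_lt hi]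
  rw [w, h1, h2]

private theorem w_mk (h : LocData V Λ D p) {n i : ℕ} (hi : i < n) (j : ℕ) :
    w h n (j * n + i) = Ideal.Quotient.mk _ (h.q n ^ j * h.q i) := by
  rw [w_eq h hi, map_mul, map_pow]
  rfl

private theorem split (n l : ℕ) (hn : 0 < n) : ∃ j i, i < n ∧ l = j * n + i :=
  ⟨l / n, l % n, Nat.mod_lt _ hn, by rw [mul_comm]; exact (Nat.div_add_mod l n).symm⟩

/-- the span of the first `m` of the `w` -/
private noncomputable def W (h : LocData V Λ D p) (n m : ℕ) : Submodule h.kap h.res :=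
  Submodule.span h.kap (w h n '' {l | l < m})

private theorem W_mono (h : LocData V Λ D p) (n : ℕ) {a b : ℕ} (hab : a ≤ b) :
    W h n a ≤ W h n b :=
  Submodule.span_mono (Set.image_mono fun _ hi => lt_of_lt_of_le hi hab)

private theorem le_W (h : LocData V Λ D p) {n : ℕ} (hn : 0 < n) (m : ℕ)
    (hm : ∀ l < m, w h n l ∉ G h l) : G h m ≤ W h n m := by
  induction m with
  | zero =>
    unfold G W
    rw [Submodule.span_le]
    rintro _ ⟨i, hi, _⟩
    exact absurd hi (Nat.not_lt_zero i)
  | succ m ih =>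
    have h1 := ih fun l hl => hm l (by omega)
    have h2 := hm m (by omega)
    have key : th h m ∈ W h n (m + 1) := by
      obtain ⟨j, i, hi, hji⟩ := split n m hn
      obtain ⟨⟨u, hu, h3⟩, h4⟩ := top_w h n i j
      rw [hji, w_mk h hi] at h2
      obtain ⟨u', hu', h5⟩ := lead_of h h3 h2
      rw [h5, ← hji] at h3
      have h6 : (⇑D)^[m] (h.q n ^ j * h.q i - u' • h.q m) = 0 := by
        rw [iterate_map_sub, smul_iter, h.iter_q, h3, Algebra.smul_def, map_mul]
        ring
      have h7 := h1 ((mem_G h m _).mpr ⟨_, h6, rfl⟩)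
      rw [map_sub, ← w_mk h hi, ← hji, mk_smul h] at h7
      have h8 : w h n m ∈ W h n (m + 1) := Submodule.subset_span ⟨m, Nat.lt_succ_self m, rfl⟩
      have h9 : (Ideal.Quotient.mk (Ideal.span {p}) u' : h.kap) • th h m ∈ W h n (m + 1) := by
        have h10 := Submodule.sub_mem _ h8 (W_mono h n (Nat.le_succ m) h7)
        rwa [sub_sub_cancel] at h10
      obtain ⟨u'', rfl⟩ := hu'
      have h11 := Submodule.smul_mem _
        (Ideal.Quotient.mk (Ideal.span {p}) (↑(u''⁻¹) : V) : h.kap) h9
      rwa [smul_smul, ← map_mul, Units.inv_mul, map_one, one_smul] at h11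
    unfold G
    rw [Submodule.span_le]
    rintro _ ⟨i, hi, rfl⟩
    have hi' : i < m + 1 := hi
    rcases Nat.lt_succ_iff_lt_or_eq.mp hi' with h3 | h3
    · exact W_mono h n (Nat.le_succ m) (h1 (Submodule.subset_span ⟨i, h3, rfl⟩))
    · rw [h3]; exact key

/-- decomposition of the span of the first `j n + i` of the `w` -/
private theorem W_decomp (h : LocData V Λ D p) {n : ℕ} (j i : ℕ) (hi : i ≤ n) :
    ∀ z ∈ W h n (j * n + i), ∃ v ∈ W h n (j * n), ∃ κ ∈ G h i, z = v + th h n ^ j * κ := by
  intro z hz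
  unfold W at hz
  induction hz using Submodule.span_induction with
  | mem z hz =>
    obtain ⟨l, hl, rfl⟩ := hz
    have hl' : l < j * n + i := hl
    rcases Nat.lt_or_ge l (j * n) with h3 | h3
    · exact ⟨_, Submodule.subset_span ⟨l, h3, rfl⟩, 0, Submodule.zero_mem _, by simp⟩
    · obtain ⟨i', rfl⟩ := Nat.exists_eq_add_of_le h3
      have hi' : i' < i := by omega
      refine ⟨0, Submodule.zero_mem _, th h i', Submodule.subset_span ⟨i', hi', rfl⟩, ?_⟩
      rw [w_eq h (by omega), zero_add]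
  | zero => exact ⟨0, Submodule.zero_mem _, 0, Submodule.zero_mem _, by simp⟩
  | add a b _ _ ha hb =>
    obtain ⟨v, hv, κ, hκ, rfl⟩ := ha
    obtain ⟨v', hv', κ', hκ', rfl⟩ := hb
    exact ⟨v + v', Submodule.add_mem _ hv hv', κ + κ', Submodule.add_mem _ hκ hκ', by ring⟩
  | smul c a _ ha =>
    obtain ⟨v, hv, κ, hκ, rfl⟩ := ha
    exact ⟨c • v, Submodule.smul_mem _ _ hv, c • κ, Submodule.smul_mem _ _ hκ, by
      rw [smul_add, mul_smul_comm]⟩

private theorem dbar_G (h : LocData V Λ D p) {κ : h.res} (hκ : κ ∈ G h (np h)) :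
    h.dbar κ = 0 := by
  obtain ⟨y, hy, rfl⟩ := (mem_G h _ _).mp hκ
  rw [dbar_mk, Ideal.Quotient.eq_zero_iff_mem, mem_map_iff]
  exact np_min' h le_rfl hy

private theorem dbar_th (h : LocData V Λ D p) : h.dbar (th h (np h)) ≠ 0 := by
  rw [th, dbar_mk]
  intro h0
  rw [Ideal.Quotient.eq_zero_iff_mem, mem_map_iff] at h0
  exact np_spec h h0

private theorem dbar_dbar_th (h : LocData V Λ D p) : h.dbar (h.dbar (th h (np h))) = 0 := by
  rw [th, dbar_mk]
  refine dbar_G h ((mem_G h _ _).mpr ⟨_, ?_, rfl⟩)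
  rw [← Function.iterate_succ_apply]
  exact h.iter_succ_q _

private theorem iter_top (h : LocData V Λ D p) {κ : h.res} (hκ : κ ∈ G h (np h)) (j : ℕ) :
    (⇑h.dbar)^[j] (th h (np h) ^ j * κ) =
      κ * ((j.factorial : h.res) * h.dbar (th h (np h)) ^ j) ∧
    (⇑h.dbar)^[j + 1] (th h (np h) ^ j * κ) = 0 := by
  rw [mul_comm (th h (np h) ^ j) κ]
  exact ker_mul_pow h.dbar (dbar_dbar_th h) (dbar_G h hκ) j

private theorem iter_ne (h : LocData V Λ D p) {κ : h.res} (hκ : κ ∈ G h (np h)) (hκ0 : κ ≠ 0)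
    (j : ℕ) : (⇑h.dbar)^[j] (th h (np h) ^ j * κ) ≠ 0 := by
  have hpr := h.isPrime
  have _ : IsDomain h.res := Ideal.Quotient.isDomain _
  have hc := h.kap_charZero
  have hmax := h.isMax
  let _ : Field h.kap := h.kapField
  have hc' : CharZero h.res := charZero_of_injective_algebraMap
    (FaithfulSMul.algebraMap_injective h.kap h.res)
  rw [(iter_top h hκ j).1]
  exact mul_ne_zero hκ0 (mul_ne_zero (by exact_mod_cast Nat.factorial_ne_zero j)
    (pow_ne_zero _ (dbar_th h)))

private theorem iter_W (h : LocData V Λ D p) (j : ℕ) {v : h.res} (hv : v ∈ W h (np h) (j * np h)) :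
    (⇑h.dbar)^[j] v = 0 := by
  have h0 := np_pos h
  unfold W at hv
  induction hv using Submodule.span_induction with
  | mem v hv =>
    obtain ⟨l, hl, rfl⟩ := hv
    obtain ⟨j', i', hi', rfl⟩ := split (np h) l h0
    have hl' : j' * np h + i' < j * np h := hl
    have hj' : j' < j := by
      by_contra hc
      have := Nat.mul_le_mul_right (np h) (not_lt.mp hc)
      omega
    rw [w_eq h hi']
    exact iter_zero_of_le _ (iter_top h (Submodule.subset_span ⟨i', hi', rfl⟩) j').2 hj'
  | zero => rw [iterate_map_zero]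
  | add a b _ _ ha hb => rw [iterate_map_add, ha, hb, add_zero]
  | smul c a _ ha =>
    have h1 : ∀ (m : ℕ) (z : h.res), (⇑h.dbar)^[m] (c • z) = c • (⇑h.dbar)^[m] z := by
      intro m
      induction m with
      | zero => intro z; rfl
      | succ m ih => intro z; rw [Function.iterate_succ_apply, Function.iterate_succ_apply,
          Derivation.map_smul, ih]
    rw [h1, ha, smul_zero]

private theorem w_np (h : LocData V Λ D p) (m : ℕ) : w h (np h) m ∉ G h m := by
  induction m using Nat.strong_induction_on with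
  | _ m ih =>
    intro hw
    obtain ⟨j, i, hi, rfl⟩ := split (np h) m (np_pos h)
    obtain ⟨v, hv, κ, hκ, h3⟩ := W_decomp h j i hi.le _ (le_W h (np_pos h) _ ih hw)
    rw [w_eq h hi] at h3
    have h4 : th h (np h) ^ j * (th h i - κ) = v := by linear_combination h3
    have h5 : th h i - κ ≠ 0 := by
      intro h0
      apply th_notMem h i
      rw [sub_eq_zero.mp h0]
      exact hκ
    have h6 : th h i - κ ∈ G h (np h) :=
      Submodule.sub_mem _ (Submodule.subset_span ⟨i, hi, rfl⟩) (G_mono h hi.le hκ)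
    have h7 := iter_ne h h6 h5 j
    rw [h4, iter_W h j hv] at h7
    exact h7 rfl

private theorem ker_le (h : LocData V Λ D p) {x : h.res} (hx : h.dbar x = 0) : x ∈ G h (np h) := by
  have key : ∀ a, x ∈ W h (np h) ((a + 1) * np h) → x ∈ W h (np h) (0 + np h) := by
    intro a
    induction a with
    | zero => intro h1; simpa using h1
    | succ a ih =>
      intro h1
      have h2 : (a + 1 + 1) * np h = (a + 1) * np h + np h := by ring
      rw [h2] at h1
      obtain ⟨v, hv, κ, hκ, h3⟩ := W_decomp h (a + 1) (np h) le_rfl _ h1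
      by_cases hκ0 : κ = 0
      · rw [hκ0, mul_zero, add_zero] at h3
        rw [h3]
        rw [h3] at ih
        exact ih hv
      · exfalso
        apply iter_ne h hκ hκ0 (a + 1)
        have h4 : th h (np h) ^ (a + 1) * κ = x - v := by linear_combination -h3
        rw [h4, iterate_map_sub, iter_W h (a + 1) hv, sub_zero, Function.iterate_succ_apply, hx,
          iterate_map_zero]
  obtain ⟨y, rfl⟩ := Ideal.Quotient.mk_surjective x
  obtain ⟨m, hm⟩ := h.lnd y
  have h0 := np_pos h
  have h1 : (Ideal.Quotient.mk _ y : h.res) ∈ G h ((m + 1) * np h) :=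
    (mem_G h _ _).mpr ⟨y, iter_zero_of_le D hm (by nlinarith), rfl⟩
  have h2 := key m (le_W h h0 _ (fun l _ => w_np h l) h1)
  have h3 : W h (np h) (0 + np h) ≤ G h (np h) := by
    unfold W
    rw [Submodule.span_le]
    rintro _ ⟨l, hl, rfl⟩
    have hl' : l < np h := by simpa using hl
    have h4 := w_eq h hl' 0
    rw [zero_mul, zero_add, pow_zero, one_mul] at h4
    rw [h4]
    exact Submodule.subset_span ⟨l, hl', rfl⟩
  exact h3 h2

theorem blk_one (h : LocData V Λ D p) : Blk h 1 := by
  refine ⟨one_pos, ?_⟩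
  intro x hx y hy
  rw [mem_F] at hx hy ⊢
  obtain ⟨x', hx', rfl⟩ := hx
  obtain ⟨y', hy', rfl⟩ := hy
  exact ⟨x' * y', (iter_mul_top D 0 0 0 x' y' rfl (by simpa using hx') (by simpa using hy')).2,
    map_mul _ _ _⟩

/-- `h.F (np - 1)` is the kernel of `dbar`: one inclusion is `np_min'`; if `dbar x = 0` write
`x = ∑ θ^j m_j` (`m_j` in the span of `θ_i`, `i < np`, see the proof of `dvd_iter`), top `j` is `0`. -/
theorem blk_np (h : LocData V Λ D p) : Blk h (np h) := by
  refine ⟨np_pos h, ?_⟩
  intro x hx y hy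
  rw [F_eq_G h (np_pos h)] at hx hy ⊢
  apply ker_le
  rw [Derivation.leibniz, dbar_G h hx, dbar_G h hy, smul_zero, smul_zero, add_zero]

/-- a block ring is a field: finite-dimensional domain over `h.kap` -/
theorem Blk.inv {h : LocData V Λ D p} {n : ℕ} (hn : Blk h n) (x : h.res) (hx : x ∈ h.F (n - 1))
    (hx0 : x ≠ 0) : ∃ y ∈ h.F (n - 1), x * y = 1 := by
  classical
  have hpr := h.isPrime
  have _ : IsDomain h.res := Ideal.Quotient.isDomain _
  have hmax := h.isMax
  let _ : Field h.kap := h.kapField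
  have hfd : FiniteDimensional h.kap (h.F (n - 1)) := by
    unfold LocData.F
    exact FiniteDimensional.span_finset _ _
  let φ : h.F (n - 1) →ₗ[h.kap] h.F (n - 1) :=
    (LinearMap.mulLeft h.kap x).restrict (fun y hy => hn.2 x hx y hy)
  have hinj : Function.Injective φ := by
    intro a b hab
    have h1 : x * (a : h.res) = x * b := congrArg Subtype.val hab
    exact Subtype.ext (mul_left_cancel₀ hx0 h1)
  have h1 : (1 : h.res) ∈ h.F (n - 1) := by
    rw [F_eq_G h hn.1]; exact one_mem h hn.1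
  obtain ⟨y, hy⟩ := (LinearMap.injective_iff_surjective.mp hinj) ⟨1, h1⟩
  exact ⟨y, y.2, congrArg Subtype.val hy⟩

/-- blocks are at most `np`: `θ_(np)` has `dbar θ ≠ 0`, its powers are independent -/
theorem Blk.le_np {h : LocData V Λ D p} {n : ℕ} (hn : Blk h n) : n ≤ np h := by
  by_contra hc
  have hc' : np h < n := not_le.mp hc
  have h1 : th h (np h) ∈ h.F (n - 1) := by
    rw [F_eq_G h hn.1]; exact Submodule.subset_span ⟨np h, hc', rfl⟩
  have h2 : ∀ a, th h (np h) ^ a ∈ h.F (n - 1) := by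
    intro a
    induction a with
    | zero => rw [pow_zero, F_eq_G h hn.1]; exact one_mem h hn.1
    | succ a ih => rw [pow_succ]; exact hn.2 _ ih _ h1
  have h3 := h2 n
  rw [F_eq_G h hn.1, mem_G] at h3
  obtain ⟨y, hy, hy'⟩ := h3
  have hpr := h.isPrime
  have _ : IsDomain h.res := Ideal.Quotient.isDomain _
  apply iter_ne h (one_mem h (np_pos h)) one_ne_zero n
  rw [mul_one, ← hy', dbar_iter, hy, map_zero]

/-- L2. (`θ_n ∉ h.F (n-1)` and `Blk.inv`) -/
theorem Blk.e_add {h : LocData V Λ D p} {n : ℕ} (hn : Blk h n) (i : ℕ) (hi : i < n) :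
    h.e (n + i) = h.e n + h.e i := by
  have hn0 := hn.1
  have key : ∀ i < n, w h n (1 * n + i) ∉ G h (1 * n + i) := by
    intro i
    induction i using Nat.strong_induction_on with
    | _ i ih =>
      intro hi hw
      have hall : ∀ l < 1 * n + i, w h n l ∉ G h l := by
        intro l hl
        rcases Nat.lt_or_ge l n with h1 | h1
        · have h4 := w_eq h h1 0
          rw [zero_mul, zero_add, pow_zero, one_mul] at h4
          rw [h4]
          exact th_notMem h l
        · obtain ⟨i', rfl⟩ := Nat.exists_eq_add_of_le h1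
          have := ih i' (by omega) (by omega)
          rwa [one_mul] at this
      obtain ⟨v, hv, κ, hκ, h3⟩ := W_decomp h 1 i hi.le _ (le_W h hn0 _ hall hw)
      rw [w_eq h hi, pow_one] at h3
      have hv' : v ∈ G h n := by
        have h5 : W h n (1 * n) ≤ G h n := by
          unfold W
          rw [Submodule.span_le]
          rintro _ ⟨l, hl, rfl⟩
          have hl' : l < n := by simpa using hl
          have h4 := w_eq h hl' 0
          rw [zero_mul, zero_add, pow_zero, one_mul] at h4
          rw [h4]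
          exact Submodule.subset_span ⟨l, hl', rfl⟩
        exact h5 hv
      have h4 : (th h i - κ) * th h n = v := by linear_combination h3
      have h5 : th h i - κ ≠ 0 := by
        intro h0
        apply th_notMem h i
        rw [sub_eq_zero.mp h0]
        exact hκ
      have h6 : th h i - κ ∈ h.F (n - 1) := by
        rw [F_eq_G h hn0]
        exact Submodule.sub_mem _ (Submodule.subset_span ⟨i, hi, rfl⟩) (G_mono h hi.le hκ)
      obtain ⟨y, hy, hy1⟩ := Blk.inv hn _ h6 h5
      have h7 : th h n = y * v := by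
        rw [← h4, ← mul_assoc, mul_comm y, hy1, one_mul]
      apply th_notMem h n
      rw [h7, ← F_eq_G h hn0]
      exact hn.2 _ hy _ (by rw [F_eq_G h hn0]; exact hv')
  have h1 := key i hi
  obtain ⟨⟨u, hu, h2⟩, -⟩ := top_w h n i 1
  rw [w_mk h hi] at h1
  obtain ⟨u', hu', h3⟩ := lead_of h h2 h1
  rw [one_mul, one_mul] at h3
  have h4 : p ^ (h.e n + h.e i) ∣ p ^ h.e (n + i) := by
    have : p ^ (h.e n + h.e i) ∣ p ^ h.e (n + i) * u' := ⟨u, h3.symm⟩
    exact (hu'.dvd_mul_right).mp this
  have h5 : p ^ h.e (n + i) ∣ p ^ (h.e n + h.e i) := by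
    have : p ^ h.e (n + i) ∣ p ^ (h.e n + h.e i) * u := ⟨u', h3⟩
    exact (hu.dvd_mul_right).mp this
  have h6 := (pow_dvd_pow_iff h.ne h.nu).mp h4
  have h7 := (pow_dvd_pow_iff h.ne h.nu).mp h5
  omega

/-- L3 for the last block -/
theorem e_np_mul (h : LocData V Λ D p) (j i : ℕ) (hi : i < np h) :
    h.e (j * np h + i) = j * h.e (np h) + h.e i := by
  obtain ⟨⟨u, hu, h1⟩, -⟩ := top_w h (np h) i j
  have h2 := w_np h (j * np h + i)
  rw [w_mk h hi] at h2
  obtain ⟨u', hu', h3⟩ := lead_of h h1 h2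
  have h4 : p ^ (j * h.e (np h) + h.e i) ∣ p ^ h.e (j * np h + i) := by
    have : p ^ (j * h.e (np h) + h.e i) ∣ p ^ h.e (j * np h + i) * u' := ⟨u, h3.symm⟩
    exact (hu'.dvd_mul_right).mp this
  have h5 : p ^ h.e (j * np h + i) ∣ p ^ (j * h.e (np h) + h.e i) := by
    have : p ^ h.e (j * np h + i) ∣ p ^ (j * h.e (np h) + h.e i) * u := ⟨u', h3⟩
    exact (hu.dvd_mul_right).mp this
  have h6 := (pow_dvd_pow_iff h.ne h.nu).mp h4
  have h7 := (pow_dvd_pow_iff h.ne h.nu).mp h5
  omega

end Pool.Agent.LNDF
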