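import Mathlib
import Pool.Agent.LNDF.ChA1

set_option autoImplicit false

open TensorProduct

namespace Pool.Agent.LNDF

open Pool.Agent.LNDHom Pool.Agent.LNDHom.LocData

variable {V Λ : Type*} [CommRing V] [IsDomain V] [CommRing Λ] [IsDomain Λ] [Algebra V Λ]
  {D : Derivation V Λ Λ} {p : V}

/-- the adapted elements modulo `p` -/
private noncomputable def th (h : LocData V Λ D p) (i : ℕ) : h.res :=
  Ideal.Quotient.mk _ (h.q i)

/-- the image in the special fibre of the elements of degree `< m` -/
private noncomputable def G (h : LocData V Λ D p) (m : ℕ) : Submodule h.kap h.res :=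
  Submodule.span h.kap (th h '' {i | i < m})

private theorem G_mono (h : LocData V Λ D p) {a b : ℕ} (hab : a ≤ b) : G h a ≤ G h b :=
  Submodule.span_mono (Set.image_mono fun _ hi => lt_of_lt_of_le hi hab)

private theorem mk_smul (h : LocData V Λ D p) (a : V) (x : Λ) :
    (Ideal.Quotient.mk _ (a • x) : h.res) =
      (Ideal.Quotient.mk (Ideal.span {p}) a : h.kap) • (Ideal.Quotient.mk _ x : h.res) := by
  rw [Ideal.Quotient.mk_smul_mk_quotient_map_quotient, Algebra.smul_def]

private theorem mem_G (h : LocData V Λ D p) (m : ℕ) (x : h.res) :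
    x ∈ G h m ↔ ∃ y : Λ, (⇑D)^[m] y = 0 ∧ Ideal.Quotient.mk _ y = x := by
  constructor
  · intro hx
    unfold G at hx
    induction hx using Submodule.span_induction with
    | mem x hx =>
      obtain ⟨i, hi, rfl⟩ := hx
      have hi' : i < m := hi
      exact ⟨h.q i, iter_zero_of_le D (h.iter_succ_q i) (by omega), rfl⟩
    | zero => exact ⟨0, by rw [iterate_map_zero], map_zero _⟩
    | add x y _ _ hx hy =>
      obtain ⟨x', hx', rfl⟩ := hx
      obtain ⟨y', hy', rfl⟩ := hy
      exact ⟨x' + y', by rw [iterate_map_add, hx', hy', add_zero], map_add _ _ _⟩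
    | smul a x _ hx =>
      obtain ⟨x', hx', rfl⟩ := hx
      obtain ⟨a, rfl⟩ := Ideal.Quotient.mk_surjective a
      exact ⟨a • x', by rw [smul_iter, hx', smul_zero], mk_smul h a x'⟩
  · rintro ⟨y, hy, rfl⟩
    have h1 := h.mem_span m y hy
    clear hy
    induction h1 using Submodule.span_induction with
    | mem x hx =>
      obtain ⟨i, hi, rfl⟩ := hx
      exact Submodule.subset_span ⟨i, hi, rfl⟩
    | zero => rw [map_zero]; exact Submodule.zero_mem _
    | add x y hx hy hx' hy' =>
      rw [map_add]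
      exact Submodule.add_mem _ hx' hy'
    | smul a x _ hx =>
      rw [mk_smul h]
      exact Submodule.smul_mem _ _ hx

private theorem F_eq_G (h : LocData V Λ D p) {n : ℕ} (hn : 0 < n) : h.F (n - 1) = G h n := by
  ext x
  rw [mem_F, mem_G, Nat.sub_add_cancel hn]

private theorem th_notMem (h : LocData V Λ D p) (m : ℕ) : th h m ∉ G h m := by
  have := h.isMax
  let _ : Field h.kap := h.kapField
  have h1 := h.res_linInd.notMem_span_image (s := {i | i < m}) (x := m) (by simp)
  exact h1

private theorem th_zero (h : LocData V Λ D p) : th h 0 = 1 := by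
  have h1 := h.iter_q 0
  rw [e_zero, pow_zero, map_one, Function.iterate_zero, id] at h1
  rw [th, h1, map_one]

/-- an element of degree `≤ m` whose image is not in `G h m` has minimal leading coefficient -/
private theorem lead_of (h : LocData V Λ D p) {m : ℕ} {x : Λ} {v : V}
    (hx : (⇑D)^[m] x = algebraMap V Λ v)
    (hn : (Ideal.Quotient.mk _ x : h.res) ∉ G h m) : ∃ u : V, IsUnit u ∧ v = p ^ h.e m * u := by
  obtain ⟨w, hw⟩ := h.e_dvd m x v hx
  refine ⟨w, ?_, hw⟩
  by_contra hu
  apply hn
  have h1 : (⇑D)^[m] (x - w • h.q m) = 0 := by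
    rw [iterate_map_sub, smul_iter, h.iter_q, hx, hw, Algebra.smul_def, map_mul]
    ring
  refine (mem_G h m _).mpr ⟨_, h1, ?_⟩
  have h2 : p ∣ w := by
    by_cases hw0 : w = 0
    · rw [hw0]; exact dvd_zero _
    · obtain ⟨n, u, hu', hn'⟩ := h.val w hw0
      rcases Nat.eq_zero_or_pos n with h0 | h0
      · subst h0
        rw [pow_zero, one_mul] at hn'
        exact absurd (hn' ▸ hu') hu
      · rw [hn']
        exact Dvd.dvd.mul_right (dvd_pow_self p (by omega)) u
  obtain ⟨w', rfl⟩ := h2
  have h3 : (Ideal.Quotient.mk _ ((p * w') • h.q m) : h.res) = 0 := by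
    rw [Ideal.Quotient.eq_zero_iff_mem, mem_map_iff, Algebra.smul_def, map_mul, mul_assoc]
    exact Dvd.intro _ rfl
  rw [map_sub, h3, sub_zero]

/-- the top of `q_n^a q_i` -/
private theorem top_w (h : LocData V Λ D p) (n i : ℕ) (a : ℕ) :
    (∃ u : V, IsUnit u ∧ (⇑D)^[a * n + i] (h.q n ^ a * h.q i) =
      algebraMap V Λ (p ^ (a * h.e n + h.e i) * u)) ∧
    (⇑D)^[a * n + i + 1] (h.q n ^ a * h.q i) = 0 := by
  induction a with
  | zero =>
    refine ⟨⟨1, isUnit_one, ?_⟩, ?_⟩
    · rw [pow_zero, one_mul, zero_mul, zero_add, h.iter_q, zero_mul, zero_add, mul_one]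
    · rw [pow_zero, one_mul, zero_mul, zero_add, h.iter_succ_q]
  | succ a ih =>
    obtain ⟨⟨u, hu, h1⟩, h2⟩ := ih
    have h3 := iter_mul_top D ((a + 1) * n + i) n (a * n + i) (h.q n) (h.q n ^ a * h.q i)
      (by ring) (h.iter_succ_q n) h2
    have h4 : h.q n ^ (a + 1) * h.q i = h.q n * (h.q n ^ a * h.q i) := by ring
    rw [h4]
    refine ⟨⟨(((a + 1) * n + i).choose n : ℕ) * u, ?_, ?_⟩, h3.2⟩
    · refine (h.unit _ ?_).mul hu
      have : 0 < ((a + 1) * n + i).choose n := Nat.choose_pos (by nlinarith)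
      omega
    · rw [h3.1, h.iter_q, h1]
      simp only [map_mul, map_pow, map_natCast]
      ring

/-- the images of the adapted elements `wl` -/
private noncomputable def w (h : LocData V Λ D p) (n l : ℕ) : h.res :=
  th h n ^ (l / n) * th h (l % n)

private theorem w_eq (h : LocData V Λ D p) {n i : ℕ} (hi : i < n) (j : ℕ) :
    w h n (j * n + i) = th h n ^ j * th h i := by
  have hn : 0 < n := by omega
  have h1 : (j * n + i) / n = j := by
    rw [mul_comm, Nat.mul_add_div hn, Nat.div_eq_of_lt hi, add_zero]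
  have h2 : (j * n + i) % n = i := by
    rw [mul_comm, Nat.mul_add_mod, Nat.mod_eq_of_lt hi]
  rw [w, h1, h2]

private theorem w_mk (h : LocData V Λ D p) {n i : ℕ} (hi : i < n) (j : ℕ) :
    w h n (j * n + i) = Ideal.Quotient.mk _ (h.q n ^ j * h.q i) := by
  rw [w_eq h hi, map_mul, map_pow]
  rfl

private theorem split (n l : ℕ) (hn : 0 < n) : ∃ j i, i < n ∧ l = j * n + i :=
  ⟨l / n, l % n, Nat.mod_lt _ hn, by rw [mul_comm]; exact (Nat.div_add_mod l n).symm⟩

private theorem w_mem (h : LocData V Λ D p) {n : ℕ} (hn : 0 < n) (l : ℕ) :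
    w h n l ∈ G h (l + 1) := by
  obtain ⟨j, i, hi, rfl⟩ := split n l hn
  rw [w_mk h hi, mem_G]
  exact ⟨_, (top_w h n i j).2, rfl⟩

/-- the span of the first `m` of the `w` -/
private noncomputable def W (h : LocData V Λ D p) (n m : ℕ) : Submodule h.kap h.res :=
  Submodule.span h.kap (w h n '' {l | l < m})

private theorem W_le (h : LocData V Λ D p) {n : ℕ} (hn : 0 < n) (m : ℕ) : W h n m ≤ G h m := by
  unfold W
  rw [Submodule.span_le]
  rintro _ ⟨l, hl, rfl⟩
  exact G_mono h (Nat.succ_le_of_lt hl) (w_mem h hn l)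

private theorem W_mono (h : LocData V Λ D p) (n : ℕ) {a b : ℕ} (hab : a ≤ b) :
    W h n a ≤ W h n b :=
  Submodule.span_mono (Set.image_mono fun _ hi => lt_of_lt_of_le hi hab)

private theorem le_W (h : LocData V Λ D p) {n : ℕ} (hn : 0 < n) (m : ℕ)
    (hm : ∀ l < m, w h n l ∉ G h l) : G h m ≤ W h n m := by
  induction m with
  | zero =>
    unfold G W
    rw [Submodule.span_le]
    rintro _ ⟨i, hi, _⟩
    exact absurd hi (Nat.not_lt_zero i)
  | succ m ih =>
    have h1 := ih fun l hl => hm l (by omega)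
    have h2 := hm m (by omega)
    have key : th h m ∈ W h n (m + 1) := by
      obtain ⟨j, i, hi, hji⟩ := split n m hn
      obtain ⟨⟨u, hu, h3⟩, h4⟩ := top_w h n i j
      rw [hji, w_mk h hi] at h2
      obtain ⟨u', hu', h5⟩ := lead_of h h3 h2
      rw [h5, ← hji] at h3
      have h6 : (⇑D)^[m] (h.q n ^ j * h.q i - u' • h.q m) = 0 := by
        rw [iterate_map_sub, smul_iter, h.iter_q, h3, Algebra.smul_def, map_mul]
        ring
      have h7 := h1 ((mem_G h m _).mpr ⟨_, h6, rfl⟩)
      rw [map_sub, ← w_mk h hi, ← hji, mk_smul h] at h7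
      have h8 : w h n m ∈ W h n (m + 1) := Submodule.subset_span ⟨m, Nat.lt_succ_self m, rfl⟩
      have h9 : (Ideal.Quotient.mk (Ideal.span {p}) u' : h.kap) • th h m ∈ W h n (m + 1) := by
        have h10 := Submodule.sub_mem _ h8 (W_mono h n (Nat.le_succ m) h7)
        rwa [sub_sub_cancel] at h10
      obtain ⟨u'', rfl⟩ := hu'
      have h11 := Submodule.smul_mem _
        (Ideal.Quotient.mk (Ideal.span {p}) (↑(u''⁻¹) : V) : h.kap) h9
      rwa [smul_smul, ← map_mul, Units.inv_mul, map_one, one_smul] at h11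
    unfold G
    rw [Submodule.span_le]
    rintro _ ⟨i, hi, rfl⟩
    have hi' : i < m + 1 := hi
    rcases Nat.lt_succ_iff_lt_or_eq.mp hi' with h3 | h3
    · exact W_mono h n (Nat.le_succ m) (h1 (Submodule.subset_span ⟨i, h3, rfl⟩))
    · rw [h3]; exact key

private theorem W_kap (h : LocData V Λ D p) {n : ℕ} (hn : Blk h n) (j : ℕ) {x y : h.res}
    (hx : x ∈ G h n) (hy : y ∈ W h n (j * n)) : x * y ∈ W h n (j * n) := by
  unfold W at hy
  induction hy using Submodule.span_induction with
  | mem y hy =>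
    obtain ⟨l, hl, rfl⟩ := hy
    obtain ⟨j', i', hi', rfl⟩ := split n l hn.1
    have hj' : j' < j := by
      have hl' : j' * n + i' < j * n := hl
      by_contra hc
      have := Nat.mul_le_mul_right n (not_lt.mp hc)
      omega
    rw [w_eq h hi']
    have h1 : x * th h i' ∈ G h n := by
      rw [← F_eq_G h hn.1] at hx ⊢
      refine hn.2 x hx _ ?_
      rw [F_eq_G h hn.1]
      exact Submodule.subset_span ⟨i', hi', rfl⟩
    have h2 : x * (th h n ^ j' * th h i') = th h n ^ j' * (x * th h i') := by ring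
    rw [h2]
    generalize x * th h i' = z at h1
    unfold G at h1
    induction h1 using Submodule.span_induction with
    | mem z hz =>
      obtain ⟨i, hi, rfl⟩ := hz
      rw [← w_eq h hi]
      refine Submodule.subset_span ⟨_, ?_, rfl⟩
      have hi'' : i < n := hi
      have := Nat.mul_le_mul_right n (Nat.succ_le_of_lt hj')
      have h3 : (j' + 1) * n = j' * n + n := by ring
      change j' * n + i < j * n
      rw [Nat.succ_eq_add_one, h3] at this
      omega
    | zero => rw [mul_zero]; exact Submodule.zero_mem _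
    | add a b _ _ ha hb => rw [mul_add]; exact Submodule.add_mem _ ha hb
    | smul c a _ ha => rw [mul_smul_comm]; exact Submodule.smul_mem _ _ ha
  | zero => rw [mul_zero]; exact Submodule.zero_mem _
  | add a b _ _ ha hb => rw [mul_add]; exact Submodule.add_mem _ ha hb
  | smul c a _ ha => rw [mul_smul_comm]; exact Submodule.smul_mem _ _ ha

/-- If the `w_l` are independent below `m` but not at `m = j n + i`, then `j n` is a block. -/
private theorem key (h : LocData V Λ D p) {n : ℕ} (hn : Blk h n) (j i : ℕ) (hi : i < n)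
    (hm : ∀ l < j * n + i, w h n l ∉ G h l) (hw : w h n (j * n + i) ∈ G h (j * n + i)) :
    Blk h (j * n) ∧ n < j * n := by
  classical
  have hpr := h.isPrime
  have _ : IsDomain h.res := Ideal.Quotient.isDomain _
  -- `θ ^ j` is a combination of the smaller ones
  have h1 : th h n ^ j ∈ W h n (j * n) := by
    have h2 : ∀ z ∈ W h n (j * n + i), ∃ v ∈ W h n (j * n), ∃ κ ∈ G h i,
        z = v + th h n ^ j * κ := by
      intro z hz
      unfold W at hz
      induction hz using Submodule.span_induction with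
      | mem z hz =>
        obtain ⟨l, hl, rfl⟩ := hz
        have hl' : l < j * n + i := hl
        rcases Nat.lt_or_ge l (j * n) with h3 | h3
        · exact ⟨_, Submodule.subset_span ⟨l, h3, rfl⟩, 0, Submodule.zero_mem _, by simp⟩
        · obtain ⟨i', rfl⟩ := Nat.exists_eq_add_of_le h3
          have hi' : i' < i := by omega
          refine ⟨0, Submodule.zero_mem _, th h i', Submodule.subset_span ⟨i', hi', rfl⟩, ?_⟩
          rw [w_eq h (by omega), zero_add]
      | zero => exact ⟨0, Submodule.zero_mem _, 0, Submodule.zero_mem _, by simp⟩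
      | add a b _ _ ha hb =>
        obtain ⟨v, hv, κ, hκ, rfl⟩ := ha
        obtain ⟨v', hv', κ', hκ', rfl⟩ := hb
        exact ⟨v + v', Submodule.add_mem _ hv hv', κ + κ', Submodule.add_mem _ hκ hκ', by ring⟩
      | smul c a _ ha =>
        obtain ⟨v, hv, κ, hκ, rfl⟩ := ha
        exact ⟨c • v, Submodule.smul_mem _ _ hv, c • κ, Submodule.smul_mem _ _ hκ, by
          rw [smul_add, mul_smul_comm]⟩
    obtain ⟨v, hv, κ, hκ, h3⟩ := h2 _ (le_W h hn.1 _ hm hw)
    rw [w_eq h hi] at h3
    have h4 : (th h i - κ) * th h n ^ j = v := by linear_combination h3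
    have h5 : th h i - κ ≠ 0 := by
      intro h0
      apply th_notMem h i
      rw [sub_eq_zero.mp h0]
      exact hκ
    have h6 : th h i - κ ∈ h.F (n - 1) := by
      rw [F_eq_G h hn.1]
      exact Submodule.sub_mem _ (Submodule.subset_span ⟨i, hi, rfl⟩) (G_mono h hi.le hκ)
    obtain ⟨y, hy, hy1⟩ := Blk.inv hn _ h6 h5
    rw [F_eq_G h hn.1] at hy
    have h7 := W_kap h hn j hy hv
    rw [← h4, ← mul_assoc, mul_comm y, hy1, one_mul] at h7
    exact h7
  have hj : 2 ≤ j := by
    by_contra hc
    have hj' : j = 0 ∨ j = 1 := by omega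
    rcases hj' with rfl | rfl
    · rw [pow_zero, zero_mul] at h1
      have h2 := W_le h hn.1 0 h1
      rw [← th_zero h] at h2
      exact th_notMem h 0 h2
    · rw [pow_one, one_mul] at h1
      exact th_notMem h n (W_le h hn.1 n h1)
  have hn0 := hn.1
  have hlt : n < j * n := by nlinarith
  have heq : G h (j * n) = W h n (j * n) :=
    le_antisymm (le_W h hn.1 _ fun l hl => hm l (by omega)) (W_le h hn.1 _)
  -- closed under `θ`
  have hθ : ∀ y ∈ W h n (j * n), th h n * y ∈ W h n (j * n) := by
    intro y hy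
    unfold W at hy
    induction hy using Submodule.span_induction with
    | mem y hy =>
      obtain ⟨l, hl, rfl⟩ := hy
      obtain ⟨j', i', hi', rfl⟩ := split n l hn.1
      have hl' : j' * n + i' < j * n := hl
      have hj' : j' < j := by
        by_contra hc
        have := Nat.mul_le_mul_right n (not_lt.mp hc)
        omega
      rw [w_eq h hi']
      rcases Nat.lt_or_ge (j' + 1) j with h2 | h2
      · have h3 : th h n * (th h n ^ j' * th h i') = w h n ((j' + 1) * n + i') := by
          rw [w_eq h hi']; ring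
        rw [h3]
        refine Submodule.subset_span ⟨_, ?_, rfl⟩
        change (j' + 1) * n + i' < j * n
        have := Nat.mul_le_mul_right n (Nat.succ_le_of_lt h2)
        have h4 : (j' + 1 + 1) * n = (j' + 1) * n + n := by ring
        rw [Nat.succ_eq_add_one, h4] at this
        omega
      · have h3 : j' + 1 = j := by omega
        have h4 : th h n * (th h n ^ j' * th h i') = th h i' * th h n ^ j := by
          rw [← h3]; ring
        rw [h4]
        exact W_kap h hn j (Submodule.subset_span ⟨i', hi', rfl⟩) h1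
    | zero => rw [mul_zero]; exact Submodule.zero_mem _
    | add a b _ _ ha hb => rw [mul_add]; exact Submodule.add_mem _ ha hb
    | smul c a _ ha => rw [mul_smul_comm]; exact Submodule.smul_mem _ _ ha
  have hθ' : ∀ a, ∀ y ∈ W h n (j * n), th h n ^ a * y ∈ W h n (j * n) := by
    intro a
    induction a with
    | zero => intro y hy; rwa [pow_zero, one_mul]
    | succ a ih =>
      intro y hy
      rw [pow_succ', mul_assoc]
      exact hθ _ (ih y hy)
  refine ⟨⟨by omega, ?_⟩, hlt⟩
  intro x hx y hy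
  rw [F_eq_G h (by omega), heq] at hx hy ⊢
  unfold W at hx
  induction hx using Submodule.span_induction with
  | mem x hx =>
    obtain ⟨l, hl, rfl⟩ := hx
    obtain ⟨j', i', hi', rfl⟩ := split n l hn.1
    rw [w_eq h hi', mul_assoc]
    exact hθ' _ _ (W_kap h hn j (Submodule.subset_span ⟨i', hi', rfl⟩) hy)
  | zero => rw [zero_mul]; exact Submodule.zero_mem _
  | add a b _ _ ha hb => rw [add_mul]; exact Submodule.add_mem _ ha hb
  | smul c a _ ha => rw [smul_mul_assoc]; exact Submodule.smul_mem _ _ ha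

/-- L3 with the least block above `n` -/
private theorem next' (h : LocData V Λ D p) {n : ℕ} (hn : Blk h n) (hlt : n < np h) :
    ∃ n', Blk h n' ∧ n < n' ∧ n' ≤ np h ∧ n ∣ n' ∧ (∀ b, Blk h b → n < b → n' ≤ b) ∧
      ∀ j i, i < n → j * n + i < n' → h.e (j * n + i) = j * h.e n + h.e i := by
  classical
  have hex : ∃ n', Blk h n' ∧ n < n' := ⟨np h, blk_np h, hlt⟩
  obtain ⟨n', hb, hlt', hmin⟩ : ∃ n', Blk h n' ∧ n < n' ∧ ∀ b, Blk h b → n < b → n' ≤ b :=
    ⟨Nat.find hex, (Nat.find_spec hex).1, (Nat.find_spec hex).2,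
      fun b h1 h2 => Nat.find_min' hex ⟨h1, h2⟩⟩
  have hind : ∀ m < n', w h n m ∉ G h m := by
    intro m
    induction m using Nat.strong_induction_on with
    | _ m ih =>
      intro hm hw
      obtain ⟨j, i, hi, rfl⟩ := split n m hn.1
      obtain ⟨h1, h2⟩ := key h hn j i hi (fun l hl => ih l hl (by omega)) hw
      have := hmin _ h1 h2
      omega
  refine ⟨n', hb, hlt', hmin _ (blk_np h) hlt, ?_, hmin, ?_⟩
  · obtain ⟨j, i, hi, hji⟩ := split n n' hn.1
    have hw : w h n (j * n + i) ∈ G h (j * n + i) := by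
      rw [← hji, ← F_eq_G h hb.1]
      have hθ : th h n ∈ h.F (n' - 1) := by
        rw [F_eq_G h hb.1]; exact Submodule.subset_span ⟨n, hlt', rfl⟩
      have hi' : th h i ∈ h.F (n' - 1) := by
        rw [F_eq_G h hb.1]; exact Submodule.subset_span ⟨i, show i < n' by omega, rfl⟩
      have hp : ∀ a, th h n ^ a * th h i ∈ h.F (n' - 1) := by
        intro a
        induction a with
        | zero => rwa [pow_zero, one_mul]
        | succ a ih =>
          rw [pow_succ', mul_assoc]
          exact hb.2 _ hθ _ ih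
      have h8 : w h n n' = th h n ^ j * th h i := by rw [hji, w_eq h hi]
      rw [h8]
      exact hp j
    obtain ⟨h1, h2⟩ := key h hn j i hi (fun l hl => hind l (by omega)) hw
    have h3 := hmin _ h1 h2
    have h4 : n' = j * n := by omega
    rw [h4]
    exact Dvd.intro_left j rfl
  · intro j i hi hji
    obtain ⟨⟨u, hu, h1⟩, -⟩ := top_w h n i j
    have h2 := hind _ hji
    rw [w_mk h hi] at h2
    obtain ⟨u', hu', h3⟩ := lead_of h h1 h2
    have h4 : p ^ (j * h.e n + h.e i) ∣ p ^ h.e (j * n + i) := by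
      have : p ^ (j * h.e n + h.e i) ∣ p ^ h.e (j * n + i) * u' := ⟨u, h3.symm⟩
      exact (hu'.dvd_mul_right).mp this
    have h5 : p ^ h.e (j * n + i) ∣ p ^ (j * h.e n + h.e i) := by
      have : p ^ h.e (j * n + i) ∣ p ^ (j * h.e n + h.e i) * u := ⟨u', h3⟩
      exact (hu.dvd_mul_right).mp this
    have h6 := (pow_dvd_pow_iff h.ne h.nu).mp h4
    have h7 := (pow_dvd_pow_iff h.ne h.nu).mp h5
    omega

/-- L3: the next block. `κ = h.F (n-1)` is a field, `θ = θ_n ∈ ker dbar` (`n < np`), algebraic over `κ`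
(`finite_ker`) of degree `δ ≥ 2`; the `θ^j θ_i`, `j < δ`, `i < n`, are a basis of `h.F (n δ - 1) = κ(θ)`
adapted to the filtration; `n' = n δ`. -/
theorem Blk.next {h : LocData V Λ D p} {n : ℕ} (hn : Blk h n) (hlt : n < np h) :
    ∃ n', Blk h n' ∧ n < n' ∧ n' ≤ np h ∧ n ∣ n' ∧
      ∀ j i, i < n → j * n + i < n' → h.e (j * n + i) = j * h.e n + h.e i := by
  obtain ⟨n', h1, h2, h3, h4, -, h5⟩ := next' h hn hlt
  exact ⟨n', h1, h2, h3, h4, h5⟩

/-- blocks divide each other: the smaller one is a subfield of the larger one -/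
theorem Blk.dvd {h : LocData V Λ D p} {n n' : ℕ} (hn : Blk h n) (hn' : Blk h n') (hle : n ≤ n') :
    n ∣ n' := by
  obtain ⟨d, hd⟩ : ∃ d, d = n' - n := ⟨_, rfl⟩
  induction d using Nat.strong_induction_on generalizing n with
  | _ d ih =>
    rcases hle.lt_or_eq with h1 | h1
    · obtain ⟨n₁, h2, h3, -, h4, h5, -⟩ := next' h hn (lt_of_lt_of_le h1 hn'.le_np)
      have h6 := h5 _ hn' h1
      exact h4.trans (ih (n' - n₁) (by omega) h2 h6 rfl)
    · rw [h1]

/-- between a block `n` and the next block -/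
theorem Blk.base {h : LocData V Λ D p} {n : ℕ} (hn : Blk h n) (L : ℕ)
    (hL : ∀ n', Blk h n' → n < n' → L ≤ n') (j i : ℕ) (hi : i < n) (hji : j * n + i < L) :
    h.e (j * n + i) = j * h.e n + h.e i := by
  rcases hn.le_np.lt_or_eq with h1 | h1
  · obtain ⟨n₁, h2, h3, -, -, -, h4⟩ := next' h hn h1
    exact h4 j i hi (lt_of_lt_of_le hji (hL _ h2 h3))
  · rw [h1] at hi ⊢
    exact e_np_mul h j i hi

/-- MIX -/
theorem Blk.mix {h : LocData V Λ D p} {b : ℕ} (hb : Blk h b) (m L : ℕ) (hbm : b ∣ m)
    (hm : 0 < m) (hL : ∀ b', Blk h b' → b < b' → L ≤ b') :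
    (m < L → h.e m = (m / b) * h.e b) ∧
    ∀ j i, i < m → j * m + i < L → h.e (j * m + i) = j * h.e m + h.e i := by
  obtain ⟨c, rfl⟩ := hbm
  have hb0 := hb.1
  have h0 : b * c < L → h.e (b * c) = c * h.e b := by
    intro h1
    have h2 := hb.base L hL c 0 hb0 (by rw [add_zero, mul_comm]; exact h1)
    rwa [add_zero, e_zero, add_zero, mul_comm] at h2
  refine ⟨fun h1 => by rw [h0 h1, Nat.mul_div_cancel_left c hb0], ?_⟩
  intro j i hi hji
  rcases Nat.eq_zero_or_pos j with hj | hj
  · subst hj; simp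
  · obtain ⟨a, r, hr, rfl⟩ := split b i hb0
    have h1 : b * c < L := by nlinarith
    have h2 := hb.base L hL a r hr (by omega)
    have h3 := hb.base L hL (j * c + a) r hr (by
      have : (j * c + a) * b + r = j * (b * c) + (a * b + r) := by ring
      omega)
    have h4 : j * (b * c) + (a * b + r) = (j * c + a) * b + r := by ring
    rw [h4, h3, h2, h0 h1]
    ring

end Pool.Agent.LNDF
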