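import Mathlib
import Pool.Agent.LNDF.ChA1

set_option autoImplicit false
set_option linter.unusedSectionVars false
set_option linter.unusedVariables false

open TensorProduct

namespace Pool.Agent.LNDF

open Pool.Agent.LNDHom Pool.Agent.LNDHom.LocData

variable {V Λ : Type*} [CommRing V] [IsDomain V] [CommRing Λ] [IsDomain Λ] [Algebra V Λ]
  {D : Derivation V Λ Λ} {p : V}

/-- an element with a leading coefficient in degree `l` has degree at most `l` -/
private theorem b1_succ {l : ℕ} {a : V} {x : Λ} (hx : Lead D l a x) : (⇑D)^[l + 1] x = 0 := by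
  obtain ⟨u, _, hu⟩ := hx
  rw [Function.iterate_succ_apply', hu, Derivation.map_algebraMap]

private theorem b1_mul (h : LocData V Λ D p) {l m : ℕ} {a b : V} {x y : Λ} (hx : Lead D l a x)
    (hy : Lead D m b y) : Lead D (l + m) (a * b) (x * y) := by
  have h1 := (iter_mul_top D (l + m) l m x y rfl (b1_succ hx) (b1_succ hy)).1
  obtain ⟨u, hu, hxu⟩ := hx
  obtain ⟨v, hv, hyv⟩ := hy
  have h2 : IsUnit (((l + m).choose l : ℕ) : V) :=
    h.unit _ (Nat.choose_pos (by omega)).ne'
  refine ⟨((l + m).choose l : ℕ) * (u * v), h2.mul (hu.mul hv), ?_⟩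
  rw [h1, hxu, hyv, ← map_mul, ← map_natCast (algebraMap V Λ), ← map_mul]
  congr 1
  ring

private theorem b1_q (h : LocData V Λ D p) (i : ℕ) : Lead D i (p ^ h.e i) (h.q i) :=
  ⟨1, isUnit_one, by rw [mul_one, h.iter_q]⟩

private theorem b1_one : Lead D 0 1 (1 : Λ) := ⟨1, isUnit_one, by simp⟩

private theorem b1_q_pow (h : LocData V Λ D p) (n j : ℕ) :
    Lead D (j * n) (p ^ (j * h.e n)) (h.q n ^ j) := by
  induction j with
  | zero => simpa using (b1_one (D := D))
  | succ j ih =>
    have h1 := b1_mul h ih (b1_q h n)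
    rw [← pow_add] at h1
    rw [add_one_mul, add_one_mul, pow_succ]
    exact h1

private theorem b1_ne_zero (h : LocData V Λ D p) {l s : ℕ} {x : Λ} (hx : Lead D l (p ^ s) x) :
    (⇑D)^[l] x ≠ 0 := by
  obtain ⟨u, hu, hx⟩ := hx
  rw [hx, map_mul]
  refine mul_ne_zero (h.pne s) ?_
  exact (hu.map (algebraMap V Λ)).ne_zero

theorem wl_lead (h : LocData V Λ D p) {n : ℕ} (hn : 0 < n) (l : ℕ) :
    Lead D l (p ^ ((l / n) * h.e n + h.e (l % n))) (wl h n l) := by
  have h1 := b1_mul h (b1_q_pow h n (l / n)) (b1_q h (l % n))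
  rw [← pow_add] at h1
  have h2 : l / n * n + l % n = l := by
    rw [mul_comm]; exact Nat.div_add_mod l n
  rw [h2] at h1
  exact h1

private theorem b1_wl_mem (h : LocData V Λ D p) (n l : ℕ) : wl h n l ∈ Lam h n :=
  Submodule.subset_span ⟨l, rfl⟩

private theorem b1_wl_add_mul (h : LocData V Λ D p) {n : ℕ} (hn : 0 < n) (l j : ℕ) :
    wl h n (l + n * j) = h.q n ^ j * wl h n l := by
  unfold wl
  rw [Nat.add_mul_div_left _ _ hn, Nat.add_mul_mod_self_left, pow_add]
  ring

/-- killing the top coefficient of a combination of the `wl` -/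
private theorem b1_wl_top (h : LocData V Λ D p) {n : ℕ} (hn : 0 < n) (m : ℕ) (a : ℕ → V)
    (ha : (⇑D)^[m] (∑ l ∈ Finset.range (m + 1), a l • wl h n l) = 0) : a m = 0 := by
  rw [Finset.sum_range_succ, iterate_map_add, sum_iter, Finset.sum_eq_zero, zero_add,
    smul_iter, Algebra.smul_def] at ha
  · rcases mul_eq_zero.mp ha with h2 | h2
    · exact h.inj (by rw [h2, map_zero])
    · exact absurd h2 (b1_ne_zero h (wl_lead h hn m))
  · intro l hl
    rw [smul_iter, iter_zero_of_le D (b1_succ (wl_lead h hn l)) (by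
      have := Finset.mem_range.mp hl
      omega), smul_zero]

private theorem b1_exists_sum (h : LocData V Λ D p) (n : ℕ) {x : Λ} (hx : x ∈ Lam h n) :
    ∃ (N : ℕ) (a : ℕ → V), x = ∑ l ∈ Finset.range N, a l • wl h n l := by
  classical
  unfold Lam at hx
  obtain ⟨c, hc⟩ := (Finsupp.mem_span_range_iff_exists_finsupp).mp hx
  obtain ⟨N, hN⟩ := c.support.exists_nat_subset_range
  refine ⟨N, c, ?_⟩
  rw [← hc, Finsupp.sum]
  apply Finset.sum_subset hN
  intro l _ hl
  rw [Finsupp.notMem_support_iff.mp hl, zero_smul]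

/-- the `w_l` are linearly independent and adapted to the degree: an element of `Lam` of degree `< m` is a
combination of the `w_l`, `l < m` -/
theorem Lam.repr (h : LocData V Λ D p) {n : ℕ} (hn : 0 < n) {x : Λ} (hx : x ∈ Lam h n) (m : ℕ)
    (hm : (⇑D)^[m] x = 0) : ∃ a : ℕ → V, x = ∑ l ∈ Finset.range m, a l • wl h n l := by
  classical
  obtain ⟨N, a, rfl⟩ := b1_exists_sum h n hx
  clear hx
  induction N with
  | zero =>
    refine ⟨fun _ => 0, ?_⟩
    simp
  | succ N ih =>
    by_cases hNm : m ≤ N
    · have h1 : a N = 0 := b1_wl_top h hn N a (iter_zero_of_le D hm hNm)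
      have h2 : ∑ l ∈ Finset.range (N + 1), a l • wl h n l
          = ∑ l ∈ Finset.range N, a l • wl h n l := by
        rw [Finset.sum_range_succ, h1, zero_smul, add_zero]
      rw [h2] at hm ⊢
      exact ih hm
    · refine ⟨fun l => if l < N + 1 then a l else 0, ?_⟩
      have h1 : Finset.range (N + 1) ⊆ Finset.range m :=
        Finset.range_subset_range.mpr (by omega)
      rw [← Finset.sum_subset h1]
      · apply Finset.sum_congr rfl
        intro l hl
        simp only []
        rw [if_pos (Finset.mem_range.mp hl)]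
      · intro l _ hl
        simp only []
        rw [if_neg (fun h2 => hl (Finset.mem_range.mpr h2)), zero_smul]

theorem Lam.indep (h : LocData V Λ D p) {n : ℕ} (hn : 0 < n) (m : ℕ) (a : ℕ → V)
    (ha : ∑ l ∈ Finset.range m, a l • wl h n l = 0) : ∀ l < m, a l = 0 := by
  induction m with
  | zero =>
    intro l hl
    omega
  | succ m ih =>
    have h1 : a m = 0 := b1_wl_top h hn m a (by rw [ha, iterate_map_zero])
    rw [Finset.sum_range_succ, h1, zero_smul, add_zero] at ha
    intro l hl
    by_cases hlm : l = m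
    · rw [hlm, h1]
    · exact ih ha l (by omega)

/-- cancelling the top degree against an element of `Lam` with the right leading coefficient -/
private theorem b1_cancel (h : LocData V Λ D p) {l : ℕ} {s : ℕ} {x y : Λ}
    (hy : Lead D l (p ^ s) y) (v : V) (hx : (⇑D)^[l] x = algebraMap V Λ v) (hv : p ^ s ∣ v) :
    ∃ c : V, (⇑D)^[l] (x - c • y) = 0 := by
  obtain ⟨u, hu, hy⟩ := hy
  obtain ⟨w, rfl⟩ := hv
  obtain ⟨u', rfl⟩ := hu
  refine ⟨w * (↑(u'⁻¹) : V), ?_⟩
  have h1 : w * (↑(u'⁻¹) : V) * (p ^ s * (u' : V)) = p ^ s * w := by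
    calc w * (↑(u'⁻¹) : V) * (p ^ s * (u' : V))
        = p ^ s * w * ((↑(u'⁻¹) : V) * (u' : V)) := by ring
      _ = p ^ s * w := by rw [Units.inv_mul, mul_one]
  rw [iterate_map_sub, smul_iter, hx, hy, Algebra.smul_def, ← map_mul, h1, sub_self]

/-- everything of degree `< 2 n` is in `Lam h n` (`n` a block): L2 -/
theorem Blk.mem_two {h : LocData V Λ D p} {n : ℕ} (hn : Blk h n) {x : Λ}
    (hx : (⇑D)^[2 * n] x = 0) : x ∈ Lam h n := by
  have key : ∀ m ≤ 2 * n, ∀ x : Λ, (⇑D)^[m] x = 0 → x ∈ Lam h n := by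
    intro m
    induction m with
    | zero =>
      intro _ x hx
      simp only [Function.iterate_zero, id] at hx
      rw [hx]
      exact Submodule.zero_mem _
    | succ m ih =>
      intro hm x hx
      obtain ⟨v, hv⟩ := h.ker ((⇑D)^[m] x) (by rw [← Function.iterate_succ_apply' (⇑D), hx])
      have h1 := h.e_dvd m x v hv.symm
      have h2 : m / n * h.e n + h.e (m % n) = h.e m := by
        by_cases hmn : m < n
        · rw [Nat.div_eq_of_lt hmn, Nat.mod_eq_of_lt hmn]
          simp
        · have h3 : m / n = 1 := by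
            apply Nat.div_eq_of_lt_le
            · omega
            · omega
          have h4 : m % n = m - n := by
            rw [Nat.mod_eq_sub_mod (by omega)]
            exact Nat.mod_eq_of_lt (by omega)
          rw [h3, h4, one_mul, ← hn.e_add (m - n) (by omega)]
          congr 1
          omega
      have h5 := wl_lead h hn.1 m
      rw [h2] at h5
      obtain ⟨c, hc⟩ := b1_cancel h h5 v hv.symm h1
      have h6 := ih (by omega) _ hc
      have h7 : x = (x - c • wl h n m) + c • wl h n m := by ring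
      rw [h7]
      exact Submodule.add_mem _ h6 (Submodule.smul_mem _ _ (b1_wl_mem h n m))
  exact key _ le_rfl x hx

private theorem b1_q_pow_mul_mem (h : LocData V Λ D p) {n : ℕ} (hn : 0 < n) (j : ℕ) {x : Λ}
    (hx : x ∈ Lam h n) : h.q n ^ j * x ∈ Lam h n := by
  unfold Lam at hx
  induction hx using Submodule.span_induction with
  | mem x hx =>
    obtain ⟨l, rfl⟩ := hx
    rw [← b1_wl_add_mul h hn]
    exact b1_wl_mem h n _
  | zero => rw [mul_zero]; exact Submodule.zero_mem _
  | add x y _ _ h2 h3 => rw [mul_add]; exact Submodule.add_mem _ h2 h3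
  | smul a x _ h2 => rw [mul_smul_comm]; exact Submodule.smul_mem _ _ h2

theorem Blk.mul_mem {h : LocData V Λ D p} {n : ℕ} (hn : Blk h n) {x y : Λ} (hx : x ∈ Lam h n)
    (hy : y ∈ Lam h n) : x * y ∈ Lam h n := by
  have key : ∀ l m : ℕ, wl h n l * wl h n m ∈ Lam h n := by
    intro l m
    have hl : l % n < n := Nat.mod_lt _ hn.1
    have hm : m % n < n := Nat.mod_lt _ hn.1
    have h1 : h.q (l % n) * h.q (m % n) ∈ Lam h n := by
      apply hn.mem_two
      have h2 := (iter_mul_top D (l % n + m % n) (l % n) (m % n) (h.q (l % n)) (h.q (m % n)) rfl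
        (h.iter_succ_q _) (h.iter_succ_q _)).2
      exact iter_zero_of_le D h2 (by omega)
    have h3 : wl h n l * wl h n m
        = h.q n ^ (l / n + m / n) * (h.q (l % n) * h.q (m % n)) := by
      unfold wl
      rw [pow_add]
      ring
    rw [h3]
    exact b1_q_pow_mul_mem h hn.1 _ h1
  unfold Lam at hx
  induction hx using Submodule.span_induction with
  | mem x hx =>
    obtain ⟨l, rfl⟩ := hx
    unfold Lam at hy
    induction hy using Submodule.span_induction with
    | mem y hy =>
      obtain ⟨m, rfl⟩ := hy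
      exact key l m
    | zero => rw [mul_zero]; exact Submodule.zero_mem _
    | add x y _ _ h2 h3 => rw [mul_add]; exact Submodule.add_mem _ h2 h3
    | smul a x _ h2 => rw [mul_smul_comm]; exact Submodule.smul_mem _ _ h2
  | zero => rw [zero_mul]; exact Submodule.zero_mem _
  | add x y _ _ h2 h3 => rw [add_mul]; exact Submodule.add_mem _ h2 h3
  | smul a x _ h2 => rw [smul_mul_assoc]; exact Submodule.smul_mem _ _ h2

theorem Blk.one_mem {h : LocData V Λ D p} {n : ℕ} (hn : Blk h n) : (1 : Λ) ∈ Lam h n := by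
  apply hn.mem_two
  have h0 := hn.1
  exact iter_zero_of_le D (m := 1) (by simp) (by omega)

/-- DIVISION in `Lam h n` by an element `Y` of degree `m n` with the leading coefficient of `q_n^m` -/
theorem Blk.div {h : LocData V Λ D p} {n : ℕ} (hn : Blk h n) (m : ℕ) {Y : Λ}
    (hY : Y ∈ Lam h n) (hlead : Lead D (m * n) (p ^ (m * h.e n)) Y) {x : Λ} (hx : x ∈ Lam h n) :
    ∃ u ∈ Lam h n, ∃ ρ ∈ Lam h n, x = u * Y + ρ ∧ (⇑D)^[m * n] ρ = 0 := by
  have key : ∀ N : ℕ, ∀ x ∈ Lam h n, (⇑D)^[N] x = 0 →
      ∃ u ∈ Lam h n, ∃ ρ ∈ Lam h n, x = u * Y + ρ ∧ (⇑D)^[m * n] ρ = 0 := by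
    intro N
    induction N with
    | zero =>
      intro x hx hx0
      exact ⟨0, Submodule.zero_mem _, x, hx, by ring, iter_zero_of_le D hx0 (Nat.zero_le _)⟩
    | succ N ih =>
      intro x hx hx0
      by_cases hN : N + 1 ≤ m * n
      · exact ⟨0, Submodule.zero_mem _, x, hx, by ring, iter_zero_of_le D hx0 hN⟩
      · obtain ⟨r, hr⟩ := Nat.exists_eq_add_of_le (show m * n ≤ N by omega)
        obtain ⟨a, ha⟩ := Lam.repr h hn.1 hx (N + 1) hx0
        have h1 : Lead D N (p ^ ((N / n) * h.e n + h.e (N % n))) (wl h n r * Y) := by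
          have h2 := b1_mul h (wl_lead h hn.1 r) hlead
          rw [← pow_add] at h2
          have h3 : N / n = m + r / n := by
            rw [hr, mul_comm m n, Nat.mul_add_div hn.1]
          have h4 : N % n = r % n := by
            rw [hr, mul_comm m n, Nat.mul_add_mod]
          rw [h3, h4]
          have h5 : N = r + m * n := by omega
          rw [h5]
          have h6 : (m + r / n) * h.e n + h.e (r % n)
              = r / n * h.e n + h.e (r % n) + m * h.e n := by ring
          rw [h6]
          exact h2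
        obtain ⟨v, hv⟩ := h.ker ((⇑D)^[N] x) (by rw [← Function.iterate_succ_apply' (⇑D), hx0])
        have h7 : p ^ ((N / n) * h.e n + h.e (N % n)) ∣ v := by
          rw [ha, Finset.sum_range_succ, iterate_map_add, sum_iter, Finset.sum_eq_zero, zero_add,
            smul_iter] at hv
          · obtain ⟨u, _, hu⟩ := wl_lead h hn.1 N
            rw [hu, Algebra.smul_def, ← map_mul] at hv
            rw [h.inj hv]
            exact ⟨a N * u, by ring⟩
          · intro l hl
            rw [smul_iter, iter_zero_of_le D (b1_succ (wl_lead h hn.1 l)) (by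
              have := Finset.mem_range.mp hl
              omega), smul_zero]
        obtain ⟨c, hc⟩ := b1_cancel h h1 v hv.symm h7
        have h8 : wl h n r * Y ∈ Lam h n := hn.mul_mem (b1_wl_mem h n r) hY
        obtain ⟨u, hu, ρ, hρ, h9, h10⟩ := ih (x - c • (wl h n r * Y))
          (Submodule.sub_mem _ hx (Submodule.smul_mem _ _ h8)) hc
        refine ⟨u + c • wl h n r, Submodule.add_mem _ hu (Submodule.smul_mem _ _ (b1_wl_mem h n r)),
          ρ, hρ, ?_, h10⟩
        rw [add_mul, smul_mul_assoc]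
        linear_combination h9
  obtain ⟨N, hN⟩ := h.lnd x
  exact key N x hx hN

end Pool.Agent.LNDF
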