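import Mathlib
import Pool.Agent.LNDF.ChB1

set_option autoImplicit false

open TensorProduct

namespace Pool.Agent.LNDF

open Pool.Agent.LNDHom Pool.Agent.LNDHom.LocData

variable {V Λ : Type*} [CommRing V] [IsDomain V] [CommRing Λ] [IsDomain Λ] [Algebra V Λ]
  {D : Derivation V Λ Λ} {p : V}

private theorem b2_smul_inj (h : LocData V Λ D p) {x y : Λ} (hxy : p • x = p • y) : x = y := by
  rw [Algebra.smul_def, Algebra.smul_def] at hxy
  exact mul_left_cancel₀ h.prime.ne_zero hxy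

private theorem b2_deg_pow (h : LocData V Λ D p) (n : ℕ) (j : ℕ) :
    (⇑D)^[j * n + 1] (h.q n ^ j) = 0 := by
  induction j with
  | zero => simp
  | succ j ih =>
    rw [pow_succ]
    have h1 := (iter_mul_top D (j * n + n) (j * n) n (h.q n ^ j) (h.q n) rfl ih
      (h.iter_succ_q n)).2
    rwa [show (j + 1) * n + 1 = j * n + n + 1 by ring]

private theorem b2_deg_mul (h : LocData V Λ D p) (n j b : ℕ) (hb : 0 < b) {x : Λ}
    (hx : (⇑D)^[b] x = 0) : (⇑D)^[j * n + b] (h.q n ^ j * x) = 0 := by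
  obtain ⟨b', rfl⟩ : ∃ b', b = b' + 1 := ⟨b - 1, by omega⟩
  exact (iter_mul_top D (j * n + b') (j * n) b' _ _ rfl (b2_deg_pow h n j) hx).2

private theorem b2_q_zero (h : LocData V Λ D p) : h.q 0 = 1 := by
  have h1 := h.iter_q 0
  rw [e_zero, pow_zero, map_one] at h1
  exact h1

private theorem b2_wl (h : LocData V Λ D p) {n : ℕ} (hn : 0 < n) (k i : ℕ) (hi : i < n) :
    wl h n (k * n + i) = h.q n ^ k * h.q i := by
  have h1 : (k * n + i) / n = k := by
    rw [add_comm, Nat.add_mul_div_right _ _ hn, Nat.div_eq_of_lt hi, zero_add]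
  have h2 : (k * n + i) % n = i := by
    rw [add_comm, Nat.add_mul_mod_self_right, Nat.mod_eq_of_lt hi]
  unfold wl
  rw [h1, h2]

private theorem b2_deg_wl (h : LocData V Λ D p) {n : ℕ} (hn : 0 < n) (l : ℕ) :
    (⇑D)^[l + 1] (wl h n l) = 0 := by
  have h1 : l = (l / n) * n + l % n := by rw [mul_comm]; exact (Nat.div_add_mod l n).symm
  have h2 := b2_deg_mul h n (l / n) (l % n + 1) (by omega) (h.iter_succ_q (l % n))
  rw [← add_assoc, ← h1] at h2
  exact h2

private theorem b2_blocks (h : LocData V Λ D p) {n : ℕ} (hn : 0 < n) (a : ℕ → V) (k : ℕ) :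
    ∑ l ∈ Finset.range (k * n), a l • wl h n l =
      ∑ j ∈ Finset.range k, h.q n ^ j * ∑ i ∈ Finset.range n, a (j * n + i) • h.q i := by
  induction k with
  | zero => simp
  | succ k ih =>
    rw [show (k + 1) * n = k * n + n by ring, Finset.sum_range_add, ih, Finset.sum_range_succ]
    congr 1
    rw [Finset.mul_sum]
    refine Finset.sum_congr rfl fun i hi => ?_
    rw [b2_wl h hn k i (Finset.mem_range.1 hi), mul_smul_comm]

private theorem b2_deg_comb (h : LocData V Λ D p) (n : ℕ) (a : ℕ → V) :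
    (⇑D)^[n] (∑ i ∈ Finset.range n, a i • h.q i) = 0 := by
  rw [sum_iter]
  refine Finset.sum_eq_zero fun i hi => ?_
  rw [smul_iter, iter_zero_of_le D (h.iter_succ_q i) (by have := Finset.mem_range.1 hi; omega),
    smul_zero]

private theorem b2_ndvd_comb (h : LocData V Λ D p) (n i0 : ℕ) (hi0 : i0 < n) (a : ℕ → V)
    (h0 : ¬ p ∣ a i0) : ¬ algebraMap V Λ p ∣ ∑ i ∈ Finset.range n, a i • h.q i := by
  classical
  rintro ⟨y, hy⟩
  rw [← Algebra.smul_def] at hy
  apply h0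
  have h2 : h.basis.repr (∑ i ∈ Finset.range n, a i • h.q i) i0 = a i0 := by
    rw [map_sum, Finsupp.finsetSum_apply, Finset.sum_eq_single i0]
    · rw [map_smul, ← h.basis_apply, Module.Basis.repr_self]
      simp
    · intro j _ hj
      rw [map_smul, ← h.basis_apply, Module.Basis.repr_self]
      simp [hj]
    · intro h3
      exact absurd (Finset.mem_range.2 hi0) h3
  rw [hy, map_smul] at h2
  rw [← h2]
  exact ⟨_, rfl⟩

private theorem b2_lift {h : LocData V Λ D p} {n : ℕ} (hn : Blk h n) {x r : Λ}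
    (hx : (⇑D)^[2 * n] x = 0) (hr : (⇑D)^[n] r = 0)
    (hxr : (Ideal.Quotient.mk _ x : h.res) = Ideal.Quotient.mk _ r) :
    ∃ s ∈ Lam h n, x = r + p • s := by
  rw [Ideal.Quotient.eq, mem_map_iff] at hxr
  obtain ⟨s, hs⟩ := hxr
  rw [← Algebra.smul_def] at hs
  refine ⟨s, ?_, by rw [← hs]; ring⟩
  apply hn.mem_two
  have h1 : p • (⇑D)^[2 * n] s = p • (0 : Λ) := by
    rw [← smul_iter, ← hs, iterate_map_sub, hx, iter_zero_of_le D hr (by omega), sub_zero,
      smul_zero]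
  exact b2_smul_inj h h1

private theorem b2_mem_F {h : LocData V Λ D p} {n : ℕ} (hn : Blk h n) {a : Λ}
    (ha : (⇑D)^[n] a = 0) : (Ideal.Quotient.mk _ a : h.res) ∈ h.F (n - 1) := by
  have h0 := hn.1
  exact (h.mem_F (n - 1) _).2 ⟨a, by rwa [Nat.sub_add_cancel h0], rfl⟩

private theorem b2_deg_ab {h : LocData V Λ D p} {n : ℕ} (hn : Blk h n) {a b : Λ}
    (ha : (⇑D)^[n] a = 0) (hb : (⇑D)^[n] b = 0) : (⇑D)^[2 * n] (a * b) = 0 := by
  obtain ⟨n', rfl⟩ : ∃ n', n = n' + 1 := ⟨n - 1, by have := hn.1; omega⟩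
  exact iter_zero_of_le D (iter_mul_top D (n' + n') n' n' a b rfl ha hb).2 (by omega)

private theorem b2_kmul {h : LocData V Λ D p} {n : ℕ} (hn : Blk h n) {a b : Λ}
    (ha : (⇑D)^[n] a = 0) (hb : (⇑D)^[n] b = 0) :
    ∃ r : Λ, (⇑D)^[n] r = 0 ∧ ∃ s ∈ Lam h n, a * b = r + p • s := by
  have h1 := hn.2 _ (b2_mem_F hn ha) _ (b2_mem_F hn hb)
  rw [← map_mul] at h1
  obtain ⟨r, hr, hmk⟩ := (h.mem_F (n - 1) _).1 h1
  rw [Nat.sub_add_cancel hn.1] at hr
  obtain ⟨s, hs, he⟩ := b2_lift hn (b2_deg_ab hn ha hb) hr hmk.symm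
  exact ⟨r, hr, s, hs, he⟩

private theorem b2_kinv {h : LocData V Λ D p} {n : ℕ} (hn : Blk h n) {c : Λ}
    (hc : (⇑D)^[n] c = 0) (hp : ¬ algebraMap V Λ p ∣ c) :
    ∃ c' : Λ, (⇑D)^[n] c' = 0 ∧ ∃ s ∈ Lam h n, c' * c = 1 + p • s := by
  have h0 : (Ideal.Quotient.mk _ c : h.res) ≠ 0 := by
    intro h1
    rw [Ideal.Quotient.eq_zero_iff_mem, mem_map_iff] at h1
    exact hp h1
  obtain ⟨y, hy, hy1⟩ := hn.inv _ (b2_mem_F hn hc) h0
  obtain ⟨c', hc', rfl⟩ := (h.mem_F (n - 1) _).1 hy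
  rw [Nat.sub_add_cancel hn.1] at hc'
  have h1 : (⇑D)^[n] (1 : Λ) = 0 := by
    obtain ⟨n', rfl⟩ : ∃ n', n = n' + 1 := ⟨n - 1, by have := hn.1; omega⟩
    rw [Function.iterate_succ_apply, Derivation.map_one_eq_zero, iterate_map_zero]
  obtain ⟨s, hs, he⟩ := b2_lift hn (b2_deg_ab hn hc' hc) h1 (by
    rw [map_mul, mul_comm, hy1, map_one])
  exact ⟨c', hc', s, hs, he⟩

private theorem b2_pow_mem {h : LocData V Λ D p} {n : ℕ} (hn : Blk h n) (j : ℕ) :
    h.q n ^ j ∈ Lam h n := by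
  induction j with
  | zero => rw [pow_zero]; exact hn.one_mem
  | succ j ih =>
    rw [pow_succ]
    have := hn.1
    exact hn.mul_mem ih (hn.mem_two (iter_zero_of_le D (h.iter_succ_q n) (by omega)))

/-- the first step -/
private theorem b2_one {h : LocData V Λ D p} {n : ℕ} (hn : Blk h n) (d : ℕ) {y : Λ}
    (hy : y ∈ Lam h n) (hdeg : (⇑D)^[d * n + 1] y = 0)
    (htop : ∃ a : V, (⇑D)^[d * n] y = algebraMap V Λ (p ^ (d * h.e n + 1) * a))
    (hnot : ¬ ∃ y' ∈ Lam h n, y = p • y') :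
    ∃ m, m < d ∧ ∃ hh ∈ Lam h n, ∃ z ∈ Lam h n, ∃ Y ∈ Lam h n,
      Lead D (m * n) (p ^ (m * h.e n)) Y ∧ hh * y = Y + p • z := by
  classical
  have hn0 := hn.1
  obtain ⟨a, ha⟩ := Lam.repr h hn0 hy _ hdeg
  obtain ⟨v, hv⟩ := htop
  -- the top coefficient is divisible by `p`
  have htp : p ∣ a (d * n) := by
    obtain ⟨u, hu, hw⟩ := wl_lead h hn0 (d * n)
    have h1 : d * n / n = d := Nat.mul_div_cancel _ hn0
    have h2 : d * n % n = 0 := Nat.mul_mod_left _ _
    rw [h1, h2, e_zero, add_zero] at hw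
    have h3 : (⇑D)^[d * n] y = a (d * n) • (⇑D)^[d * n] (wl h n (d * n)) := by
      rw [ha, sum_iter, Finset.sum_range_succ, Finset.sum_eq_zero, zero_add, smul_iter]
      intro l hl
      rw [smul_iter, iter_zero_of_le D (b2_deg_wl h hn0 l) (Finset.mem_range.1 hl), smul_zero]
    rw [hv, hw, Algebra.smul_def, ← map_mul] at h3
    have h4 := h.inj h3
    have h5 : p * v = a (d * n) * u := by
      apply mul_left_cancel₀ (pow_ne_zero (d * h.e n) h.ne)
      rw [← mul_assoc, ← pow_succ, h4]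
      ring
    exact (hu.dvd_mul_right).1 ⟨v, h5.symm⟩
  -- the largest index with a coefficient prime to `p`
  have hex : ((Finset.range (d * n + 1)).filter fun l => ¬ p ∣ a l).Nonempty := by
    by_contra hcon
    rw [Finset.not_nonempty_iff_eq_empty, Finset.filter_eq_empty_iff] at hcon
    apply hnot
    have h1 : ∀ l ∈ Finset.range (d * n + 1), ∃ b, a l = p * b := fun l hl => by
      have := hcon hl
      push Not at this
      exact this
    choose! b hb using h1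
    refine ⟨∑ l ∈ Finset.range (d * n + 1), b l • wl h n l, ?_, ?_⟩
    · exact Submodule.sum_mem _ fun l _ => Submodule.smul_mem _ _ (Submodule.subset_span ⟨l, rfl⟩)
    · rw [ha, Finset.smul_sum]
      exact Finset.sum_congr rfl fun l hl => by rw [hb l hl, mul_smul]
  obtain ⟨l0, hl0, hmax⟩ : ∃ l0 ∈ (Finset.range (d * n + 1)).filter fun l => ¬ p ∣ a l,
      ∀ l ∈ (Finset.range (d * n + 1)).filter (fun l => ¬ p ∣ a l), l ≤ l0 :=
    Finset.exists_max_image _ id hex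
  rw [Finset.mem_filter, Finset.mem_range] at hl0
  have hl0d : l0 < d * n := by
    rcases Nat.lt_or_ge l0 (d * n) with h1 | h1
    · exact h1
    · exfalso
      have : l0 = d * n := by omega
      rw [this] at hl0
      exact hl0.2 htp
  obtain ⟨m, hm⟩ : ∃ m, m = l0 / n := ⟨_, rfl⟩
  have hmd : m < d := by rw [hm]; exact (Nat.div_lt_iff_lt_mul hn0).2 hl0d
  have hl0m : l0 = m * n + l0 % n := by
    rw [hm, mul_comm]; exact (Nat.div_add_mod l0 n).symm
  have hmod : l0 % n < n := Nat.mod_lt _ hn0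
  have hle : (m + 1) * n ≤ d * n + 1 := (Nat.mul_le_mul_right n hmd).trans (Nat.le_succ _)
  -- the part above the block of `l0`
  have hB : ∃ U ∈ Lam h n, ∑ l ∈ Finset.Ico ((m + 1) * n) (d * n + 1), a l • wl h n l = p • U := by
    have h1 : ∀ l ∈ Finset.Ico ((m + 1) * n) (d * n + 1), ∃ b, a l = p * b := fun l hl => by
      rw [Finset.mem_Ico] at hl
      by_contra h2
      have h3 := hmax l (Finset.mem_filter.2 ⟨Finset.mem_range.2 hl.2, h2⟩)
      have h4 : (m + 1) * n = m * n + n := by ring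
      omega
    choose! b hb using h1
    refine ⟨∑ l ∈ Finset.Ico ((m + 1) * n) (d * n + 1), b l • wl h n l, ?_, ?_⟩
    · exact Submodule.sum_mem _ fun l _ => Submodule.smul_mem _ _ (Submodule.subset_span ⟨l, rfl⟩)
    · rw [Finset.smul_sum]
      exact Finset.sum_congr rfl fun l hl => by rw [hb l hl, mul_smul]
  obtain ⟨U, hU, hB⟩ := hB
  obtain ⟨c, hc⟩ : ∃ c : ℕ → Λ, c = fun j => ∑ i ∈ Finset.range n, a (j * n + i) • h.q i :=
    ⟨_, rfl⟩
  have hcd : ∀ j, (⇑D)^[n] (c j) = 0 := fun j => by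
    rw [hc]; exact b2_deg_comb h n fun i => a (j * n + i)
  have hy2 : y = ∑ j ∈ Finset.range m, h.q n ^ j * c j + h.q n ^ m * c m + p • U := by
    rw [ha, Finset.range_eq_Ico, ← Finset.sum_Ico_consecutive _ (Nat.zero_le _) hle, hB,
      ← Finset.range_eq_Ico, b2_blocks h hn0, Finset.sum_range_succ, hc]
  have hcm : ¬ algebraMap V Λ p ∣ c m := by
    rw [hc]
    refine b2_ndvd_comb h n (l0 % n) hmod (fun i => a (m * n + i)) ?_
    change ¬ p ∣ a (m * n + l0 % n)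
    rw [← hl0m]
    exact hl0.2
  obtain ⟨c', hc', s, hs, hcc⟩ := b2_kinv hn (hcd m) hcm
  have hk : ∀ j, ∃ r : Λ, (⇑D)^[n] r = 0 ∧ ∃ s ∈ Lam h n, c' * c j = r + p • s := fun j =>
    b2_kmul hn hc' (hcd j)
  choose r hr t ht hrt using hk
  have hc'm : c' ∈ Lam h n := hn.mem_two (iter_zero_of_le D hc' (by omega))
  refine ⟨m, hmd, c', hc'm,
    ∑ j ∈ Finset.range m, h.q n ^ j * t j + h.q n ^ m * s + c' * U, ?_,
    h.q n ^ m + ∑ j ∈ Finset.range m, h.q n ^ j * r j, ?_, ?_, ?_⟩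
  · exact Submodule.add_mem _ (Submodule.add_mem _ (Submodule.sum_mem _ fun j _ =>
      hn.mul_mem (b2_pow_mem hn j) (ht j)) (hn.mul_mem (b2_pow_mem hn m) hs)) (hn.mul_mem hc'm hU)
  · exact Submodule.add_mem _ (b2_pow_mem hn m) (Submodule.sum_mem _ fun j _ =>
      hn.mul_mem (b2_pow_mem hn j) (hn.mem_two (iter_zero_of_le D (hr j) (by omega))))
  · obtain ⟨u, hu, hw⟩ := wl_lead h hn0 (m * n)
    have h1 : m * n / n = m := Nat.mul_div_cancel _ hn0
    have h2 : m * n % n = 0 := Nat.mul_mod_left _ _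
    have h3 : wl h n (m * n) = h.q n ^ m := by
      unfold wl
      rw [h1, h2, b2_q_zero, mul_one]
    rw [h1, h2, e_zero, add_zero, h3] at hw
    refine ⟨u, hu, ?_⟩
    rw [iterate_map_add, hw, sum_iter, Finset.sum_eq_zero, add_zero]
    intro j hj
    have hj' := Finset.mem_range.1 hj
    refine iter_zero_of_le D (b2_deg_mul h n j n hn0 (hr j)) ?_
    calc j * n + n = (j + 1) * n := by ring
      _ ≤ m * n := Nat.mul_le_mul_right n hj'
  · rw [hy2, mul_add, mul_add, Finset.mul_sum]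
    have h1 : ∀ j, c' * (h.q n ^ j * c j) = h.q n ^ j * r j + p • (h.q n ^ j * t j) := by
      intro j
      rw [mul_left_comm, hrt j, mul_add, mul_smul_comm]
    rw [Finset.sum_congr rfl fun j _ => h1 j, Finset.sum_add_distrib, mul_left_comm, hcc,
      mul_smul_comm, ← Finset.smul_sum]
    simp only [mul_add, mul_one, mul_smul_comm, smul_add]
    abel

/-- WEIERSTRASS: `y ∈ Lam`, not in `p Lam`, of degree `< N + 1` (`N = d n`) and with top coefficient (at
`q_n^d`) divisible by `p`. Then for every `j` there are `m < d`, `hh, z ∈ Lam` and `Y ∈ Lam` of degree `m n`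
with the leading coefficient of `q_n^m`, `hh * y = Y + p^j z`. -/
theorem Blk.weier {h : LocData V Λ D p} {n : ℕ} (hn : Blk h n) (d : ℕ) {y : Λ}
    (hy : y ∈ Lam h n) (hdeg : (⇑D)^[d * n + 1] y = 0)
    (htop : ∃ a : V, (⇑D)^[d * n] y = algebraMap V Λ (p ^ (d * h.e n + 1) * a))
    (hnot : ¬ ∃ y' ∈ Lam h n, y = p • y') (j : ℕ) (hj : 0 < j) :
    ∃ m, m < d ∧ ∃ hh ∈ Lam h n, ∃ z ∈ Lam h n, ∃ Y ∈ Lam h n,
      Lead D (m * n) (p ^ (m * h.e n)) Y ∧ hh * y = Y + p ^ j • z := by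
  obtain ⟨m, hm, h1⟩ := b2_one hn d hy hdeg htop hnot
  refine ⟨m, hm, ?_⟩
  clear hnot htop hdeg
  induction j, hj using Nat.le_induction with
  | base =>
    obtain ⟨hh, hhh, z, hz, Y, hY, hL, he⟩ := h1
    exact ⟨hh, hhh, z, hz, Y, hY, hL, by rw [pow_one]; exact he⟩
  | succ j hj ih =>
    obtain ⟨hh, hhh, z, hz, Y, hY, hL, he⟩ := ih
    obtain ⟨u, hu, ρ, hρ, hzd, hρd⟩ := hn.div m hY hL hz
    refine ⟨(1 - p ^ j • u) * hh, hn.mul_mem (Submodule.sub_mem _ hn.one_mem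
      (Submodule.smul_mem _ _ hu)) hhh, -(p ^ (j - 1) • (u * z)), ?_, Y + p ^ j • ρ, ?_, ?_, ?_⟩
    · exact Submodule.neg_mem _ (Submodule.smul_mem _ _ (hn.mul_mem hu hz))
    · exact Submodule.add_mem _ hY (Submodule.smul_mem _ _ hρ)
    · obtain ⟨w, hw, hYw⟩ := hL
      exact ⟨w, hw, by rw [iterate_map_add, hYw, smul_iter, hρd, smul_zero, add_zero]⟩
    · have h2 : (1 - p ^ j • u) * hh * y = Y + p ^ j • z - p ^ j • (u * (Y + p ^ j • z)) := by
        rw [mul_assoc, he, sub_mul, one_mul, smul_mul_assoc]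
      have h3 : p ^ j • z = p ^ j • (u * Y) + p ^ j • ρ := by
        conv_lhs => rw [hzd, smul_add]
      have h4 : p ^ (j + 1) • (p ^ (j - 1) • (u * z)) = p ^ j • (p ^ j • (u * z)) := by
        rw [smul_smul, smul_smul, ← pow_add, ← pow_add]
        congr 2
        omega
      rw [h2, mul_add, smul_add, smul_neg, h4, mul_smul_comm, h3]
      abel

private theorem b2_e_mul (h : LocData V Λ D p) (n d : ℕ) : h.e (d * n) ≤ d * h.e n := by
  induction d with
  | zero => simp [e_zero]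
  | succ d ih =>
    have h1 := e_add_le h (d * n) n
    rw [show (d + 1) * n = d * n + n by ring, show (d + 1) * h.e n = d * h.e n + h.e n by ring]
    omega

private theorem b2_exists_pow (h : LocData V Λ D p) {n : ℕ} (hn : 0 < n) (m : ℕ) :
    ∀ z : Λ, (⇑D)^[m] z = 0 → ∃ t : ℕ, p ^ t • z ∈ Lam h n := by
  induction m with
  | zero =>
    intro z hz
    rw [Function.iterate_zero, id] at hz
    exact ⟨0, by rw [hz, smul_zero]; exact Submodule.zero_mem _⟩
  | succ m ih =>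
    intro z hz
    rw [Function.iterate_succ_apply'] at hz
    obtain ⟨v, hv⟩ := h.ker _ hz
    obtain ⟨u, hu, hw⟩ := wl_lead h hn m
    obtain ⟨u', rfl⟩ := hu
    obtain ⟨a, ha⟩ : ∃ a, a = (m / n) * h.e n + h.e (m % n) := ⟨_, rfl⟩
    rw [← ha] at hw
    have h1 : (⇑D)^[m] (p ^ a • z - (v * (↑(u'⁻¹) : V)) • wl h n m) = 0 := by
      rw [iterate_map_sub, smul_iter, smul_iter, ← hv, hw, Algebra.smul_def, Algebra.smul_def,
        ← map_mul, ← map_mul, ← map_sub]
      have h2 : p ^ a * v - v * (↑(u'⁻¹) : V) * (p ^ a * (u' : V)) = 0 := by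
        have h3 : (↑(u'⁻¹) : V) * (u' : V) = 1 := u'.inv_mul
        linear_combination (-(v * p ^ a)) * h3
      rw [h2, map_zero]
    obtain ⟨t, ht⟩ := ih _ h1
    refine ⟨t + a, ?_⟩
    have h4 : p ^ (t + a) • z = p ^ t • (p ^ a • z - (v * (↑(u'⁻¹) : V)) • wl h n m) +
        (p ^ t * (v * (↑(u'⁻¹) : V))) • wl h n m := by
      rw [smul_sub, smul_smul, smul_smul, pow_add]
      abel
    rw [h4]
    exact Submodule.add_mem _ ht (Submodule.smul_mem _ _ (Submodule.subset_span ⟨m, rfl⟩))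

/-- KEY (K1) -/
theorem Blk.key {h : LocData V Λ D p} {n : ℕ} (hn : Blk h n) (d : ℕ) {x : Λ}
    (hx : Lead D (d * n) (p ^ h.e (d * n)) x) :
    h.e (d * n) ≤ d * h.e n ∧ p ^ (d * h.e n - h.e (d * n)) • x ∈ Lam h n := by
  classical
  have hle := b2_e_mul h n d
  refine ⟨hle, ?_⟩
  obtain ⟨u, hu, hxu⟩ := hx
  have hx1 : (⇑D)^[d * n + 1] x = 0 := by
    rw [Function.iterate_succ_apply', hxu, Derivation.map_algebraMap]
  have hex := b2_exists_pow h hn.1 _ x hx1
  obtain ⟨t, htm, hmin⟩ : ∃ t, p ^ t • x ∈ Lam h n ∧ ∀ s, p ^ s • x ∈ Lam h n → t ≤ s :=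
    ⟨Nat.find hex, Nat.find_spec hex, fun s hs => Nat.find_min' hex hs⟩
  suffices hts : t ≤ d * h.e n - h.e (d * n) by
    obtain ⟨r, hr⟩ := Nat.exists_eq_add_of_le hts
    rw [hr, add_comm, pow_add, mul_smul]
    exact Submodule.smul_mem _ _ htm
  by_contra hcon
  push Not at hcon
  obtain ⟨s, hs⟩ : ∃ s, t = d * h.e n - h.e (d * n) + (s + 1) :=
    ⟨t - (d * h.e n - h.e (d * n)) - 1, by omega⟩
  have ht0 : 0 < t := by omega
  have htop : (⇑D)^[d * n] (p ^ t • x) =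
      algebraMap V Λ (p ^ (d * h.e n + 1) * (p ^ s * u)) := by
    rw [smul_iter, hxu, Algebra.smul_def, ← map_mul]
    congr 1
    have h1 : t + h.e (d * n) = d * h.e n + 1 + s := by omega
    rw [← mul_assoc, ← pow_add, h1, pow_add, mul_assoc]
  have hnot : ¬ ∃ y' ∈ Lam h n, p ^ t • x = p • y' := by
    rintro ⟨y', hy', he⟩
    have h1 : p • (p ^ (t - 1) • x) = p • y' := by
      rw [← he, smul_smul, ← pow_succ', Nat.sub_add_cancel ht0]
    have h2 := b2_smul_inj h h1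
    rw [← h2] at hy'
    have := hmin _ hy'
    omega
  obtain ⟨m, hm, hh, hhh, z, hz, Y, hY, ⟨w, hw, hYw⟩, he⟩ := hn.weier d htm
    (by rw [smul_iter, hx1, smul_zero]) ⟨_, htop⟩ hnot t ht0
  -- `Y = p ^ t • Y'`
  have hY' : Y = p ^ t • (hh * x - z) := by
    rw [smul_sub, ← mul_smul_comm, he]
    ring
  have h3 : p ^ t • D ((⇑D)^[m * n] (hh * x - z)) = 0 := by
    rw [← Derivation.map_smul, ← smul_iter, ← hY', hYw, Derivation.map_algebraMap]
  have h4 : D ((⇑D)^[m * n] (hh * x - z)) = 0 := by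
    rw [Algebra.smul_def] at h3
    exact (mul_eq_zero.1 h3).resolve_left (h.pne t)
  obtain ⟨v, hv⟩ := h.ker _ h4
  have h5 : p ^ t * v = p ^ (m * h.e n) * w := by
    apply h.inj
    rw [map_mul, hv, ← hYw, hY', smul_iter, Algebra.smul_def]
  obtain ⟨v', hv'⟩ := h.e_dvd _ _ _ hv.symm
  have h6 : p ^ (t + h.e (m * n)) ∣ p ^ (m * h.e n) := by
    rw [← hw.dvd_mul_right, ← h5, hv', pow_add]
    exact ⟨v', by ring⟩
  have h7 := (pow_dvd_pow_iff h.ne h.nu).mp h6
  obtain ⟨r, rfl⟩ := Nat.exists_eq_add_of_lt hm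
  have h8 := e_add_le h (m * n) ((r + 1) * n)
  have h9 := b2_e_mul h n (r + 1)
  have h10 : m * n + (r + 1) * n = (m + r + 1) * n := by ring
  rw [h10] at h8
  have h11 : (m + r + 1) * h.e n = m * h.e n + (r + 1) * h.e n := by ring
  omega

end Pool.Agent.LNDF
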