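import Mathlib
import Pool.Agent.LNDF.ChB1

set_option autoImplicit false

open TensorProduct

namespace Pool.Agent.LNDF

open Pool.Agent.LNDHom Pool.Agent.LNDHom.LocData

variable {V Λ : Type*} [CommRing V] [IsDomain V] [CommRing Λ] [IsDomain Λ] [Algebra V Λ]
  {D : Derivation V Λ Λ} {p : V}

namespace ChB3

/-- degree of a product -/
theorem iter_mul_zero (D : Derivation V Λ Λ) {a b c : ℕ} {x y : Λ} (hx : (⇑D)^[a] x = 0)
    (hy : (⇑D)^[b] y = 0) (hc : a + b ≤ c + 1) : (⇑D)^[c] (x * y) = 0 := by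
  rcases Nat.eq_zero_or_pos a with ha | ha
  · subst ha
    have : x = 0 := hx
    rw [this, zero_mul, iterate_map_zero]
  rcases Nat.eq_zero_or_pos b with hb | hb
  · subst hb
    have : y = 0 := hy
    rw [this, mul_zero, iterate_map_zero]
  obtain ⟨a, rfl⟩ : ∃ a', a = a' + 1 := ⟨a - 1, by omega⟩
  obtain ⟨b, rfl⟩ : ∃ b', b = b' + 1 := ⟨b - 1, by omega⟩
  exact iter_zero_of_le D (iter_mul_top D (a + b) a b x y rfl hx hy).2 (by omega)

theorem Lead.succ {l : ℕ} {a : V} {x : Λ} (h : Lead D l a x) : (⇑D)^[l + 1] x = 0 := by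
  obtain ⟨u, _, hu⟩ := h
  rw [Function.iterate_succ_apply', hu, Derivation.map_algebraMap]

theorem Lead.mul (h : LocData V Λ D p) {i j : ℕ} {a b : V} {x y : Λ} (hx : Lead D i a x)
    (hy : Lead D j b y) : Lead D (i + j) (a * b) (x * y) := by
  have h1 := (iter_mul_top D (i + j) i j x y rfl (Lead.succ hx) (Lead.succ hy)).1
  obtain ⟨u, hu, hx⟩ := hx
  obtain ⟨v, hv, hy⟩ := hy
  refine ⟨((i + j).choose i : ℕ) * (u * v), (h.unit _ (Nat.choose_pos (by omega)).ne').mul
    (hu.mul hv), ?_⟩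
  rw [h1, hx, hy]
  simp only [map_mul, map_natCast]
  ring

theorem Lead.one : Lead D 0 (1 : V) (1 : Λ) := ⟨1, isUnit_one, by simp⟩

theorem Lead.pow (h : LocData V Λ D p) {i : ℕ} {a : V} {x : Λ} (hx : Lead D i a x) (k : ℕ) :
    Lead D (k * i) (a ^ k) (x ^ k) := by
  induction k with
  | zero => simpa using Lead.one
  | succ k ih =>
    have h1 := Lead.mul h ih hx
    rw [pow_succ, pow_succ, Nat.succ_mul]
    exact h1

/-- the binomial expansion up to lower terms -/
theorem pow_add (D : Derivation V Λ Λ) {m t : ℕ} (ht : 1 ≤ t) (htm : t ≤ m) {y z : Λ}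
    (hy : (⇑D)^[m + 1] y = 0) (hz : (⇑D)^[m - t + 1] z = 0) (k : ℕ) :
    (⇑D)^[k * m + 1] (y ^ k) = 0 ∧
    (⇑D)^[(k + 1) * m - t] ((y + z) ^ (k + 1) - y ^ (k + 1) -
      ((k + 1 : ℕ) : V) • (y ^ k * z)) = 0 := by
  induction k with
  | zero => simp
  | succ k ih =>
    obtain ⟨ih1, ih2⟩ := ih
    have hkm : m ≤ (k + 1) * m := Nat.le_mul_of_pos_left m (by omega)
    have e1 : (k + 1) * m = k * m + m := by ring
    have e2 : (k + 1 + 1) * m = k * m + m + m := by ring
    have h1 : (⇑D)^[(k + 1) * m + 1] (y ^ (k + 1)) = 0 := by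
      rw [pow_succ]
      exact iter_mul_zero D ih1 hy (by omega)
    refine ⟨h1, ?_⟩
    set R := (y + z) ^ (k + 1) - y ^ (k + 1) - ((k + 1 : ℕ) : V) • (y ^ k * z) with hR
    have h2 : (y + z) ^ (k + 1 + 1) - y ^ (k + 1 + 1) - ((k + 1 + 1 : ℕ) : V) • (y ^ (k + 1) * z) =
        ((k + 1 : ℕ) : V) • ((y ^ k * z) * z) + R * (y + z) := by
      rw [hR]
      simp only [Algebra.smul_def, map_natCast]
      push_cast
      ring
    rw [h2, iterate_map_add, smul_iter]
    have h3 : (⇑D)^[(k + 1 + 1) * m - t] ((y ^ k * z) * z) = 0 := by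
      have h4 : (⇑D)^[k * m + (m - t) + 1] (y ^ k * z) = 0 := iter_mul_zero D ih1 hz (by omega)
      exact iter_mul_zero D h4 hz (by omega)
    have h5 : (⇑D)^[m + 1] (y + z) = 0 := by
      rw [iterate_map_add, hy, iter_zero_of_le D hz (by omega), add_zero]
    have h6 : (⇑D)^[(k + 1 + 1) * m - t] (R * (y + z)) = 0 :=
      iter_mul_zero D ih2 h5 (by omega)
    rw [h3, h6, smul_zero, add_zero]

theorem pow_mem {h : LocData V Λ D p} {n : ℕ} (hn : Blk h n) {x : Λ} (hx : x ∈ Lam h n) (k : ℕ) :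
    x ^ k ∈ Lam h n := by
  induction k with
  | zero => simpa using hn.one_mem
  | succ k ih => rw [pow_succ]; exact hn.mul_mem ih hx

end ChB3

open ChB3 in
/-- ROOT -/
theorem Blk.root {h : LocData V Λ D p} {n : ℕ} (hn : Blk h n) (d' d'' : ℕ) (h' : 0 < d')
    (h'' : 0 < d'') {g : Λ} (hg : g ∈ Lam h n)
    (hlead : Lead D (d' * d'' * n) (p ^ (d' * d'' * h.e n)) g) :
    ∃ y ∈ Lam h n, Lead D (d' * n) (p ^ (d' * h.e n)) y ∧ ∃ u : V, IsUnit u ∧
      (⇑D)^[d' * d'' * n - d' * n] (u • g - y ^ d'') = 0 := by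
  have hn0 : 0 < n := hn.1
  have hw : ∀ l, wl h n l ∈ Lam h n := fun l => Submodule.subset_span ⟨l, rfl⟩
  set m := d' * n with hm
  have hm0 : 0 < m := Nat.mul_pos h' hn0
  obtain ⟨d, rfl⟩ : ∃ d, d'' = d + 1 := ⟨d'' - 1, by omega⟩
  set N := d' * (d + 1) * n with hN
  have hNm : N = d * m + m := by rw [hN, hm]; ring
  -- the unit
  have hlead0 : Lead D m (p ^ (d' * h.e n)) (wl h n m) := by
    have h1 := wl_lead h hn0 m
    rw [hm, Nat.mul_div_cancel _ hn0, Nat.mul_mod_left, e_zero, add_zero] at h1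
    exact h1
  have hpw : Lead D N (p ^ (d' * (d + 1) * h.e n)) (wl h n m ^ (d + 1)) := by
    have h1 := Lead.pow h hlead0 (d + 1)
    rw [show (d + 1) * m = N by rw [hNm]; ring, ← pow_mul,
      show d' * h.e n * (d + 1) = d' * (d + 1) * h.e n by ring] at h1
    exact h1
  obtain ⟨u1, hu1, hg1⟩ := hlead
  obtain ⟨u2, hu2, hg2⟩ := hpw
  obtain ⟨u1, rfl⟩ := hu1
  set u : V := u2 * (↑(u1⁻¹) : V) with hu
  have huu : IsUnit u := hu2.mul (Units.isUnit _)
  have main : ∀ s, s ≤ m → ∃ y ∈ Lam h n, Lead D m (p ^ (d' * h.e n)) y ∧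
      (⇑D)^[N - s] (u • g - y ^ (d + 1)) = 0 := by
    intro s
    induction s with
    | zero =>
      intro _
      refine ⟨wl h n m, hw m, hlead0, ?_⟩
      rw [Nat.sub_zero, iterate_map_sub, smul_iter, hg1, hg2, Algebra.smul_def, ← map_mul,
        ← map_sub, hu]
      rw [show u2 * (↑(u1⁻¹) : V) * (p ^ (d' * (d + 1) * h.e n) * (u1 : V)) -
        p ^ (d' * (d + 1) * h.e n) * u2 =
        (u2 * p ^ (d' * (d + 1) * h.e n)) * ((↑(u1⁻¹) : V) * u1 - 1) by ring,
        Units.inv_mul, sub_self, mul_zero, map_zero]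
    | succ s ih =>
      intro hs
      obtain ⟨y, hy, hyl, hy0⟩ := ih (by omega)
      set t := s + 1 with ht
      have hNt : N - s = (N - t) + 1 := by omega
      -- the error
      have herr : u • g - y ^ (d + 1) ∈ Lam h n :=
        Submodule.sub_mem _ (Submodule.smul_mem _ _ hg) (pow_mem hn hy _)
      obtain ⟨a, ha⟩ := Lam.repr h hn0 herr _ hy0
      have hNl : N - t = (m - t) + n * (d * d') := by
        rw [hNm, show d * m = n * (d * d') by rw [hm]; ring]; omega
      have hexp : (N - t) / n * h.e n + h.e ((N - t) % n) =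
          d' * h.e n * d + ((m - t) / n * h.e n + h.e ((m - t) % n)) := by
        rw [hNl, Nat.add_mul_div_left _ _ hn0, Nat.add_mul_mod_self_left]
        ring
      have hD1 : ∃ v1 : V, IsUnit v1 ∧ (⇑D)^[N - t] (u • g - y ^ (d + 1)) =
          algebraMap V Λ (a (N - t) * (p ^ (d' * h.e n * d + ((m - t) / n * h.e n +
            h.e ((m - t) % n))) * v1)) := by
        obtain ⟨v1, hv1, hw1⟩ := wl_lead h hn0 (N - t)
        refine ⟨v1, hv1, ?_⟩
        rw [hexp] at hw1
        rw [ha, sum_iter, hNt, Finset.sum_range_succ, Finset.sum_eq_zero, zero_add, smul_iter, hw1,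
          Algebra.smul_def, ← map_mul]
        intro l hl
        rw [Finset.mem_range] at hl
        rw [smul_iter, iter_zero_of_le D (Lead.succ (wl_lead h hn0 l)) (by omega), smul_zero]
      obtain ⟨v1, hv1, hD1⟩ := hD1
      have hwl := wl_lead h hn0 (m - t)
      obtain ⟨v3, hv3, hD3⟩ := Lead.mul h (Lead.pow h hyl d) hwl
      obtain ⟨v4, hv4⟩ := (h.unit (d + 1) (by omega)).mul hv3
      set b : V := a (N - t) * v1 * (↑(v4⁻¹) : V) with hb
      have hzd : (⇑D)^[m - t + 1] (b • wl h n (m - t)) = 0 := by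
        rw [smul_iter, Lead.succ hwl, smul_zero]
      refine ⟨y + b • wl h n (m - t), Submodule.add_mem _ hy (Submodule.smul_mem _ _ (hw _)), ?_,
        ?_⟩
      · obtain ⟨c, hc, hyc⟩ := hyl
        exact ⟨c, hc, by rw [iterate_map_add, hyc, iter_zero_of_le D hzd (by omega), add_zero]⟩
      · have hP := (ChB3.pow_add D (by omega) hs (Lead.succ hyl) hzd d).2
        rw [show (d + 1) * m - t = N - t by rw [hNm]; congr 1; ring] at hP
        have h5 : u • g - (y + b • wl h n (m - t)) ^ (d + 1) = (u • g - y ^ (d + 1)) -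
            ((y + b • wl h n (m - t)) ^ (d + 1) - y ^ (d + 1) -
              ((d + 1 : ℕ) : V) • (y ^ d * (b • wl h n (m - t)))) -
            ((d + 1 : ℕ) : V) • (y ^ d * (b • wl h n (m - t))) := by ring
        rw [h5, iterate_map_sub, iterate_map_sub, hP, hD1, sub_zero, smul_iter, mul_smul_comm,
          smul_iter]
        rw [show d * m + (m - t) = N - t by rw [hNm]; omega] at hD3
        rw [hD3, Algebra.smul_def, Algebra.smul_def, ← map_mul, ← map_mul, ← map_sub]
        have h6 : a (N - t) * (p ^ (d' * h.e n * d + ((m - t) / n * h.e n +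
            h.e ((m - t) % n))) * v1) - ((d + 1 : ℕ) : V) * (b * ((p ^ (d' * h.e n)) ^ d *
            p ^ ((m - t) / n * h.e n + h.e ((m - t) % n)) * v3)) = 0 := by
          have h7 : ((d + 1 : ℕ) : V) * (b * ((p ^ (d' * h.e n)) ^ d *
            p ^ ((m - t) / n * h.e n + h.e ((m - t) % n)) * v3)) =
            a (N - t) * v1 * ((p ^ (d' * h.e n)) ^ d *
            p ^ ((m - t) / n * h.e n + h.e ((m - t) % n))) * ((↑(v4⁻¹) : V) * v4) := by
            rw [hb, hv4]; ring
          rw [h7, Units.inv_mul, ← pow_mul, _root_.pow_add]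
          ring
        rw [h6, map_zero]
  obtain ⟨y, hy, hyl, hy0⟩ := main m le_rfl
  exact ⟨y, hy, hyl, u, huu, hy0⟩

end Pool.Agent.LNDF
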