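import Mathlib

set_option autoImplicit false

open Polynomial

namespace Pool.Agent.LNDF

private theorem gsum_deg {A : Type*} [CommRing A] [Nontrivial A] {Y Z : A[X]} {m : ℕ}
    (hY : Y.Monic) (hZ : Z.Monic) (hYm : Y.natDegree = m) (hZm : Z.natDegree = m) (d : ℕ) :
    (∑ k ∈ Finset.range d, Y ^ k * Z ^ (d - 1 - k)).natDegree ≤ m * (d - 1) ∧
      (∑ k ∈ Finset.range d, Y ^ k * Z ^ (d - 1 - k)).coeff (m * (d - 1)) = d := by
  have h1 : ∀ k ∈ Finset.range d, (Y ^ k * Z ^ (d - 1 - k)).Monic ∧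
      (Y ^ k * Z ^ (d - 1 - k)).natDegree = m * (d - 1) := by
    intro k hk
    have hk' := Finset.mem_range.1 hk
    refine ⟨(hY.pow k).mul (hZ.pow _), ?_⟩
    rw [(hY.pow k).natDegree_mul (hZ.pow _), hY.natDegree_pow, hZ.natDegree_pow, hYm, hZm, ← add_mul,
      mul_comm]
    congr 1
    omega
  constructor
  · exact natDegree_sum_le_of_forall_le _ _ fun k hk => (h1 k hk).2.le
  · have h2 : ∀ k ∈ Finset.range d, (Y ^ k * Z ^ (d - 1 - k)).coeff (m * (d - 1)) = 1 := by
      intro k hk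
      have := (h1 k hk).1
      rw [Monic, leadingCoeff, (h1 k hk).2] at this
      exact this
    rw [finsetSum_coeff, Finset.sum_congr rfl h2, Finset.sum_const, Finset.card_range, nsmul_eq_mul,
      mul_one]

private theorem gsum_mul {A : Type*} [CommRing A] (Y Z : A) (d : ℕ) :
    (Y - Z) * ∑ k ∈ Finset.range d, Y ^ k * Z ^ (d - 1 - k) = Y ^ d - Z ^ d := by
  rw [mul_comm]
  exact (Commute.all Y Z).geom_sum₂_mul d

private theorem ar1 {m d j i : ℕ} (h1 : m * (d - 1) = m * d - m) (hle : m ≤ m * d) (hj : j + 1 ≤ m)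
    (h : m * d - (j + 1) < i) : m * (d - 1) < i - (m - (j + 1)) := by omega

private theorem ar2 {m d j i : ℕ} (h1 : m * (d - 1) = m * d - m) (hle : m ≤ m * d) (hj : j + 1 ≤ m)
    (h : m * d - (j + 1) = i) : i - (m - (j + 1)) = m * (d - 1) := by omega

/-- APPROXIMATE ROOT of a monic polynomial over a ring containing the rationals -/
theorem approx_root {A : Type*} [CommRing A] [Nontrivial A] [Algebra ℚ A] (P : A[X])
    (hP : P.Monic) (m d : ℕ) (hm : 0 < m) (hd : 0 < d) (hdeg : P.natDegree = m * d) :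
    ∃ Y : A[X], Y.Monic ∧ Y.natDegree = m ∧ (P - Y ^ d).degree < (m * d - m : ℕ) := by
  have hmd : m * (d - 1) = m * d - m := by rw [Nat.mul_sub, mul_one]
  have hle : m ≤ m * d := Nat.le_mul_of_pos_right m hd
  have key : ∀ j ≤ m, ∃ Y : A[X], Y.Monic ∧ Y.natDegree = m ∧
      ∀ i, m * d - j ≤ i → (P - Y ^ d).coeff i = 0 := by
    intro j
    induction j with
    | zero =>
      intro _
      refine ⟨X ^ m, monic_X_pow m, natDegree_X_pow m, fun i hi => ?_⟩
      have h2 : ((X : A[X]) ^ m) ^ d = X ^ (m * d) := by rw [← pow_mul]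
      rw [h2, coeff_sub, coeff_X_pow]
      rcases (Nat.sub_zero (m * d) ▸ hi : m * d ≤ i).lt_or_eq with h | h
      · rw [if_neg h.ne', sub_zero]
        exact coeff_eq_zero_of_natDegree_lt (hdeg ▸ h)
      · rw [if_pos h.symm, ← h, ← hdeg]
        rw [Monic, leadingCoeff] at hP
        rw [hP, sub_self]
    | succ j ih =>
      intro hj
      obtain ⟨Y, hY, hYm, hc⟩ := ih (by omega)
      set c : A := (P - Y ^ d).coeff (m * d - (j + 1)) with hcdef
      set a : A := algebraMap ℚ A (1 / d) * c with hadef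
      have had : (d : A) * a = c := by
        have : (d : A) = algebraMap ℚ A d := by simp
        rw [hadef, ← mul_assoc, this, ← map_mul, mul_one_div_cancel (by exact_mod_cast hd.ne'), map_one,
          one_mul]
      have hlt : (C a * X ^ (m - (j + 1)) : A[X]).degree < Y.degree := by
        refine (degree_C_mul_X_pow_le _ _).trans_lt ?_
        rw [degree_eq_natDegree hY.ne_zero, hYm]
        exact_mod_cast (by omega : m - (j + 1) < m)
      have hY' : (Y + C a * X ^ (m - (j + 1))).Monic := hY.add_of_left hlt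
      have hYm' : (Y + C a * X ^ (m - (j + 1))).natDegree = m := by
        rw [natDegree_add_eq_left_of_degree_lt hlt, hYm]
      refine ⟨Y + C a * X ^ (m - (j + 1)), hY', hYm', fun i hi => ?_⟩
      obtain ⟨hT1, hT2⟩ := gsum_deg hY' hY hYm' hYm d
      have hm1 := gsum_mul (Y + C a * X ^ (m - (j + 1))) Y d
      rw [add_sub_cancel_left] at hm1
      have hsplit : P - (Y + C a * X ^ (m - (j + 1))) ^ d = (P - Y ^ d) -
          C a * (X ^ (m - (j + 1)) * ∑ k ∈ Finset.range d,
            (Y + C a * X ^ (m - (j + 1))) ^ k * Y ^ (d - 1 - k)) := by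
        rw [← mul_assoc, hm1]
        ring
      rw [hsplit, coeff_sub, coeff_C_mul, coeff_X_pow_mul']
      have hi2 : m - (j + 1) ≤ i := by omega
      rw [if_pos hi2]
      rcases hi.lt_or_eq with h | h
      · rw [hc i (by omega), coeff_eq_zero_of_natDegree_lt (lt_of_le_of_lt hT1 (ar1 hmd hle hj h)), mul_zero,
          sub_zero]
      · have e : i - (m - (j + 1)) = m * (d - 1) := ar2 hmd hle hj h
        rw [e, hT2, ← h, ← hcdef, mul_comm, had, sub_self]
  obtain ⟨Y, hY, hYm, hc⟩ := key m le_rfl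
  exact ⟨Y, hY, hYm, (degree_lt_iff_coeff_zero _ _).2 fun i hi => hc i hi⟩

/-- uniqueness in a domain of characteristic zero -/
theorem approx_unique {K : Type*} [Field K] [CharZero K] (P Y Z : K[X]) (m d : ℕ) (hm : 0 < m)
    (hd : 0 < d) (hY : Y.Monic) (hZ : Z.Monic) (hYm : Y.natDegree = m) (hZm : Z.natDegree = m)
    (h1 : (P - Y ^ d).degree < (m * d - m : ℕ)) (h2 : (P - Z ^ d).degree < (m * d - m : ℕ)) :
    Y = Z := by
  by_contra hne
  have hmd : m * (d - 1) = m * d - m := by rw [Nat.mul_sub, mul_one]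
  obtain ⟨hT1, hT2⟩ := gsum_deg hY hZ hYm hZm d
  have hT0 : (m * (d - 1) : ℕ) ≤ (∑ k ∈ Finset.range d, Y ^ k * Z ^ (d - 1 - k)).degree := by
    refine le_degree_of_ne_zero ?_
    rw [hT2]
    exact_mod_cast hd.ne'
  have h3 : (Y ^ d - Z ^ d).degree < (m * d - m : ℕ) := by
    have e : Y ^ d - Z ^ d = (P - Z ^ d) - (P - Y ^ d) := by ring
    rw [e]
    exact (degree_sub_le _ _).trans_lt (max_lt h2 h1)
  rw [← gsum_mul Y Z d, degree_mul, ← hmd] at h3
  have h4 : (0 : WithBot ℕ) ≤ (Y - Z).degree := zero_le_degree_iff.2 (sub_ne_zero.2 hne)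
  have h5 : ((m * (d - 1) : ℕ) : WithBot ℕ) ≤ (Y - Z).degree +
      (∑ k ∈ Finset.range d, Y ^ k * Z ^ (d - 1 - k)).degree := by
    calc ((m * (d - 1) : ℕ) : WithBot ℕ) = 0 + ((m * (d - 1) : ℕ) : WithBot ℕ) := (zero_add _).symm
      _ ≤ _ := add_le_add h4 hT0
  exact absurd h3 (not_lt.2 h5)

private theorem iter_leib {k B : Type*} [CommRing k] [CommRing B] [Algebra k B]
    (D : Derivation k B B) (n : ℕ) : ∀ a b : ℕ, a + b = n → ∀ u w : B,
      (⇑D)^[a + 1] u = 0 → (⇑D)^[b + 1] w = 0 →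
      (⇑D)^[a + b] (u * w) = (a + b).choose a * ((⇑D)^[a] u * (⇑D)^[b] w) ∧
        (⇑D)^[a + b + 1] (u * w) = 0 := by
  have hadd : ∀ (n : ℕ) (x y : B), (⇑D)^[n] (x + y) = (⇑D)^[n] x + (⇑D)^[n] y := fun n x y =>
    iterate_map_add D n x y
  induction n with
  | zero =>
    intro a b hab u w hu hw
    obtain rfl : a = 0 := by omega
    obtain rfl : b = 0 := by omega
    simp only [zero_add, Function.iterate_one] at hu hw
    refine ⟨by simp, ?_⟩
    simp only [add_zero, zero_add, Function.iterate_one, Derivation.leibniz, hu, hw, smul_zero]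
  | succ n ih =>
    intro a b hab u w hu hw
    have hD : D (u * w) = u * D w + D u * w := by
      rw [Derivation.leibniz, smul_eq_mul, smul_eq_mul, mul_comm w]
    rcases a with _ | a
    · obtain ⟨b, rfl⟩ : ∃ b', b = b' + 1 := ⟨b - 1, by omega⟩
      have hu' : D u = 0 := by simpa using hu
      rw [hu', zero_mul, add_zero] at hD
      obtain ⟨h1, h2⟩ := ih 0 b (by omega) u (D w) hu (by rw [← Function.iterate_succ_apply]; exact hw)
      constructor
      · rw [show 0 + (b + 1) = (0 + b) + 1 by omega, Function.iterate_succ_apply, hD, h1]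
        simp only [zero_add, Nat.choose_zero_right, Function.iterate_zero, id, Function.iterate_succ_apply]
      · rw [show 0 + (b + 1) + 1 = (0 + b + 1) + 1 by omega, Function.iterate_succ_apply, hD, h2]
    · rcases b with _ | b
      · have hw' : D w = 0 := by simpa using hw
        rw [hw', mul_zero, zero_add] at hD
        obtain ⟨h1, h2⟩ := ih a 0 (by omega) (D u) w (by rw [← Function.iterate_succ_apply]; exact hu) hw
        rw [add_zero] at h1 h2
        rw [add_zero]
        constructor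
        · rw [Function.iterate_succ_apply, hD, h1]
          simp only [Nat.choose_self, Function.iterate_zero, id, Function.iterate_succ_apply]
        · rw [Function.iterate_succ_apply, hD, h2]
      · obtain ⟨h1, h2⟩ := ih (a + 1) b (by omega) u (D w) hu (by rw [← Function.iterate_succ_apply]; exact hw)
        obtain ⟨h3, h4⟩ := ih a (b + 1) (by omega) (D u) w (by rw [← Function.iterate_succ_apply]; exact hu) hw
        constructor
        · rw [show a + 1 + (b + 1) = (a + 1 + b) + 1 by omega, Function.iterate_succ_apply, hD, hadd, h1,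
            show a + 1 + b = a + (b + 1) by omega, h3, ← Function.iterate_succ_apply,
            ← Function.iterate_succ_apply]
          have hc : ((a + (b + 1) + 1).choose (a + 1) : B) = (a + (b + 1)).choose a +
              (a + (b + 1)).choose (a + 1) := by
            rw [Nat.choose_succ_succ]
            push_cast
            ring
          rw [hc]
          ring
        · rw [show a + 1 + (b + 1) + 1 = (a + 1 + b + 1) + 1 by omega, Function.iterate_succ_apply, hD, hadd,
            h2, show a + 1 + b + 1 = a + (b + 1) + 1 by omega, h4, add_zero]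

private theorem iter_pow {k B : Type*} [Field k] [CharZero k] [CommRing B] [Algebra k B]
    (D : Derivation k B B) (m : ℕ) (r : ℕ) : ∃ c : ℕ, c ≠ 0 ∧ ∀ y : B, (⇑D)^[m + 1] y = 0 →
      (⇑D)^[m * r] (y ^ r) = c * ((⇑D)^[m] y) ^ r ∧ (⇑D)^[m * r + 1] (y ^ r) = 0 := by
  induction r with
  | zero =>
    refine ⟨1, one_ne_zero, fun y _ => ?_⟩
    simp
  | succ r ih =>
    obtain ⟨c, hc, h⟩ := ih
    refine ⟨(m * r + m).choose (m * r) * c, mul_ne_zero (Nat.choose_pos (by omega)).ne' hc, fun y hy => ?_⟩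
    obtain ⟨h1, h2⟩ := h y hy
    obtain ⟨h3, h4⟩ := iter_leib D _ (m * r) m rfl (y ^ r) y h2 hy
    rw [mul_add_one, pow_succ, h3, h1, h4]
    refine ⟨?_, rfl⟩
    push_cast
    ring

/-- the same uniqueness for a locally nilpotent derivation of a domain: two elements of degree `m` with the
same leading coefficient whose `d`-th powers agree in degrees `≥ m d - m` are equal. Factor
`y^d - z^d = (y - z) ∑ y^i z^(d-1-i)`, the sum has degree exactly `m (d-1)`. -/
theorem lnd_root_unique {k B : Type*} [Field k] [CharZero k] [CommRing B] [IsDomain B] [Algebra k B]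
    (D : Derivation k B B) (hln : ∀ x, ∃ n, (⇑D)^[n] x = 0) (m d : ℕ) (hm : 0 < m) (hd : 0 < d)
    {y z : B} (hy0 : (⇑D)^[m] y ≠ 0) (hyz : (⇑D)^[m] y = (⇑D)^[m] z) (hy : (⇑D)^[m + 1] y = 0)
    (h : (⇑D)^[m * d - m] (y ^ d - z ^ d) = 0) : y = z := by
  classical
  have : CharZero B := charZero_of_injective_algebraMap (algebraMap k B).injective
  by_contra hne
  have hmd : m * (d - 1) = m * d - m := by rw [Nat.mul_sub, mul_one]
  have hz : (⇑D)^[m + 1] z = 0 := by
    rw [Function.iterate_succ_apply'] at hy ⊢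
    rw [← hyz]
    exact hy
  -- the terms of the sum
  have hterm : ∀ i ∈ Finset.range d, ∃ c : ℕ, c ≠ 0 ∧
      (⇑D)^[m * (d - 1)] (y ^ i * z ^ (d - 1 - i)) = c * ((⇑D)^[m] y) ^ (d - 1) ∧
      (⇑D)^[m * (d - 1) + 1] (y ^ i * z ^ (d - 1 - i)) = 0 := by
    intro i hi
    have hi' := Finset.mem_range.1 hi
    obtain ⟨c1, hc1, h1⟩ := iter_pow D m i
    obtain ⟨c2, hc2, h2⟩ := iter_pow D m (d - 1 - i)
    obtain ⟨a1, a2⟩ := h1 y hy
    obtain ⟨b1, b2⟩ := h2 z hz
    obtain ⟨h3, h4⟩ := iter_leib D _ (m * i) (m * (d - 1 - i)) rfl _ _ a2 b2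
    have e : m * i + m * (d - 1 - i) = m * (d - 1) := by
      rw [← mul_add]
      congr 1
      omega
    rw [e] at h3 h4
    refine ⟨(m * (d - 1)).choose (m * i) * (c1 * c2), ?_, ?_, h4⟩
    · exact mul_ne_zero (Nat.choose_pos (Nat.mul_le_mul_left m (by omega))).ne' (mul_ne_zero hc1 hc2)
    · rw [h3, a1, b1, ← hyz]
      have e2 : ((⇑D)^[m] y) ^ (d - 1) = ((⇑D)^[m] y) ^ i * ((⇑D)^[m] y) ^ (d - 1 - i) := by
        rw [← pow_add]
        congr 1
        omega
      rw [e2]
      push_cast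
      ring
  choose! c hc0 hc1 hc2 using hterm
  have hsum : ∀ n (s : Finset ℕ) (f : ℕ → B), (⇑D)^[n] (∑ i ∈ s, f i) = ∑ i ∈ s, (⇑D)^[n] (f i) := by
    intro n s f
    induction s using Finset.induction_on with
    | empty => simp
    | insert i s hi ih => rw [Finset.sum_insert hi, Finset.sum_insert hi, iterate_map_add, ih]
  have hS1 : (⇑D)^[m * (d - 1)] (∑ i ∈ Finset.range d, y ^ i * z ^ (d - 1 - i)) =
      ((∑ i ∈ Finset.range d, c i : ℕ) : B) * ((⇑D)^[m] y) ^ (d - 1) := by
    rw [hsum, Finset.sum_congr rfl hc1, ← Finset.sum_mul]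
    push_cast
    rfl
  have hS2 : (⇑D)^[m * (d - 1) + 1] (∑ i ∈ Finset.range d, y ^ i * z ^ (d - 1 - i)) = 0 := by
    rw [hsum]
    exact Finset.sum_eq_zero hc2
  have hS0 : (⇑D)^[m * (d - 1)] (∑ i ∈ Finset.range d, y ^ i * z ^ (d - 1 - i)) ≠ 0 := by
    rw [hS1]
    refine mul_ne_zero ?_ (pow_ne_zero _ hy0)
    have : 0 < ∑ i ∈ Finset.range d, c i :=
      Finset.sum_pos (fun i hi => Nat.pos_of_ne_zero (hc0 i hi)) (Finset.nonempty_range_iff.2 hd.ne')
    exact_mod_cast this.ne'
  -- the degree of the difference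
  have hw : y - z ≠ 0 := sub_ne_zero.2 hne
  have hex := hln (y - z)
  obtain ⟨e, he⟩ : ∃ e, Nat.find hex = e + 1 := by
    refine ⟨Nat.find hex - 1, ?_⟩
    have : Nat.find hex ≠ 0 := by
      intro h0
      have := Nat.find_spec hex
      rw [h0] at this
      exact hw this
    omega
  have he1 : (⇑D)^[e + 1] (y - z) = 0 := he ▸ Nat.find_spec hex
  have he0 : (⇑D)^[e] (y - z) ≠ 0 := Nat.find_min hex (by omega)
  obtain ⟨h3, -⟩ := iter_leib D _ e (m * (d - 1)) rfl _ _ he1 hS2
  rw [gsum_mul, hmd] at h3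
  have h5 : (⇑D)^[e + (m * d - m)] (y ^ d - z ^ d) = 0 := by
    rw [Function.iterate_add_apply, h]
    exact iterate_map_zero D e
  rw [h5, ← hmd] at h3
  have h6 : (((e + m * (d - 1)).choose e : ℕ) : B) ≠ 0 := by
    exact_mod_cast (Nat.choose_pos (by omega)).ne'
  exact mul_ne_zero h6 (mul_ne_zero he0 hS0) h3.symm

end Pool.Agent.LNDF
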