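import Mathlib
import Pool.Agent.LNDF.ChB2
import Pool.Agent.LNDF.ChB3
import Pool.Agent.LNDF.ChD
import Pool.Agent.LNDF.Ar2
import Pool.Agent.LNDHom.Induct

set_option autoImplicit false

open Polynomial

namespace Pool.Agent.LNDF

open Pool.Agent.LNDHom

variable {k B : Type} [Field k] [CharZero k] [CommRing B] [IsDomain B] [Algebra k B]
  [UniqueFactorizationMonoid B]

omit [UniqueFactorizationMonoid B] [IsDomain B] [CharZero k] in
theorem E1_aeval_C {D : Derivation k B B} (r : B) (a : kerAlg D) :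
    aeval r (C a : (kerAlg D)[X]) = (a : B) := by
  rw [aeval_C]; rfl

omit [UniqueFactorizationMonoid B] in
/-- every element is, up to a constant, a polynomial in a local slice -/
theorem E1_repr {D : Derivation k B B} {r c : B} (hr : D r = c) (hDc : D c = 0) (hc0 : c ≠ 0)
    (n : ℕ) : ∀ x : B, (⇑D)^[n] x = 0 → ∃ a : kerAlg D, (a : B) ≠ 0 ∧
      ∃ R : (kerAlg D)[X], R.degree < n ∧ (a : B) * x = aeval r R := by
  have hchar : CharZero B := charZero_of_injective_algebraMap (algebraMap k B).injective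
  induction n with
  | zero =>
    intro x hx
    have hx' : x = 0 := hx
    exact ⟨1, by simp, 0, by simp, by rw [hx']; simp⟩
  | succ n ih =>
    intro x hx
    set v := (⇑D)^[n] x with hv
    have hDv : D v = 0 := by rw [hv, ← Function.iterate_succ_apply' (⇑D)]; exact hx
    have hD1 : D ((n.factorial : B) * c ^ n) = 0 := by
      rw [Derivation.leibniz, Derivation.leibniz_pow, hDc, Derivation.map_natCast]; simp
    have hrr : D (D r) = 0 := by rw [hr, hDc]
    have h1 : (⇑D)^[n] ((n.factorial : B) * c ^ n * x - v * r ^ n) = 0 := by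
      rw [iterate_map_sub, iter_const D hD1, (ker_mul_pow D hrr hDv n).1, ← hv, hr]
      ring
    obtain ⟨a, ha, R, hR, hRe⟩ := ih _ h1
    refine ⟨a * ⟨(n.factorial : B) * c ^ n, hD1⟩, ?_, C (a * ⟨v, hDv⟩) * X ^ n + R, ?_, ?_⟩
    · push_cast
      refine mul_ne_zero ha (mul_ne_zero ?_ (pow_ne_zero n hc0))
      exact_mod_cast Nat.factorial_ne_zero n
    · refine (degree_add_le _ _).trans_lt (max_lt ?_ ?_)
      · refine (degree_C_mul_X_pow_le n _).trans_lt ?_
        exact_mod_cast Nat.lt_succ_self n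
      · refine hR.trans ?_
        exact_mod_cast Nat.lt_succ_self n
    · rw [map_add, map_mul, E1_aeval_C, map_pow, aeval_X, ← hRe]
      push_cast
      ring

omit [UniqueFactorizationMonoid B] in
/-- the first form of the relation -/
theorem E1_start {D : Derivation k B B} {r c : B} (hr : D r = c) (hDc : D c = 0) (hc0 : c ≠ 0)
    {N : ℕ} {cN G : B} (hcN0 : cN ≠ 0) (hDcN : D cN = 0) (hG : (⇑D)^[N] G = cN) :
    ∃ R : (kerAlg D)[X], R.natDegree ≤ N ∧ ((R.coeff N : kerAlg D) : B) ≠ 0 ∧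
      ((R.coeff N : kerAlg D) : B) * ((N.factorial : B) * c ^ N * G) = cN * aeval r R := by
  have hD1 : D ((N.factorial : B) * c ^ N) = 0 := by
    rw [Derivation.leibniz, Derivation.leibniz_pow, hDc, Derivation.map_natCast]; simp
  have hrr : D (D r) = 0 := by rw [hr, hDc]
  have h1 : (⇑D)^[N] ((N.factorial : B) * c ^ N * G - cN * r ^ N) = 0 := by
    rw [iterate_map_sub, iter_const D hD1, (ker_mul_pow D hrr hDcN N).1, hG, hr]
    ring
  obtain ⟨a, ha, R, hR, hRe⟩ := E1_repr hr hDc hc0 N _ h1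
  have hco : (C (a * ⟨cN, hDcN⟩) * X ^ N + R : (kerAlg D)[X]).coeff N = a * ⟨cN, hDcN⟩ := by
    rw [coeff_add, coeff_C_mul, coeff_X_pow, coeff_eq_zero_of_degree_lt hR]
    simp
  refine ⟨C (a * ⟨cN, hDcN⟩) * X ^ N + R, ?_, ?_, ?_⟩
  · refine natDegree_add_le_of_degree_le (natDegree_C_mul_X_pow_le _ _) ?_
    exact natDegree_le_of_degree_le hR.le
  · rw [hco]
    push_cast
    exact mul_ne_zero ha hcN0
  · rw [hco, map_add, map_mul, E1_aeval_C, map_pow, aeval_X, ← hRe]
    push_cast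
    ring

/-- a local slice is transcendental over the constants -/
theorem E1_transc {V L : Type*} [CommRing V] [IsDomain V] [CharZero V] [CommRing L] [IsDomain L]
    [Algebra V L] (hinj : Function.Injective (algebraMap V L)) (E : Derivation V L L) {r : L}
    (hr : E r ≠ 0) : ∀ (n : ℕ) (T : V[X]), T.natDegree ≤ n → aeval r T = 0 → T = 0 := by
  intro n
  induction n with
  | zero =>
    intro T hT h0
    rw [eq_C_of_natDegree_le_zero hT] at h0 ⊢
    rw [aeval_C] at h0
    have : T.coeff 0 = 0 := hinj (by rw [h0, map_zero])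
    rw [this, C_0]
  | succ n ih =>
    intro T hT h0
    have h1 : E (aeval r T) = 0 := by rw [h0, map_zero]
    rw [Derivation.map_aeval, smul_eq_mul] at h1
    have h2 : aeval r (derivative T) = 0 := (mul_eq_zero.mp h1).resolve_right hr
    have h3 : derivative T = 0 := by
      refine ih _ ?_ h2
      have := natDegree_derivative_le T
      omega
    have h4 : T.natDegree = 0 := derivative_eq_zero.mp h3
    rw [eq_C_of_natDegree_le_zero h4.le] at h0 ⊢
    rw [aeval_C] at h0
    have : T.coeff 0 = 0 := hinj (by rw [h0, map_zero])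
    rw [this, C_0]

section Local

open Pool.Agent.LNDHom.LocData

variable {V Λ : Type*} [CommRing V] [IsDomain V] [CommRing Λ] [IsDomain Λ] [Algebra V Λ]
  {D : Derivation V Λ Λ} {p : V}

theorem E1_blk (h : LocData V Λ D p) : Blk h 1 := by
  refine ⟨one_pos, fun x hx y hy => ?_⟩
  rw [show (1 - 1 : ℕ) = 0 from rfl] at hx hy ⊢
  rw [h.mem_F] at hx hy ⊢
  obtain ⟨x', hx', rfl⟩ := hx
  obtain ⟨y', hy', rfl⟩ := hy
  exact ⟨x' * y', (iter_mul_top D 0 0 0 x' y' rfl hx' hy').2, map_mul _ _ _⟩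

theorem E1_q0 (h : LocData V Λ D p) : h.q 0 = 1 := by
  have h1 := h.iter_q 0
  rw [e_zero h, pow_zero, map_one] at h1
  exact h1

theorem E1_lam (h : LocData V Λ D p) {ρ : Λ} {w : V} (hw : IsUnit w)
    (hρ : D ρ = algebraMap V Λ (p ^ h.e 1 * w)) {x : Λ} (hx : x ∈ Lam h 1) :
    ∃ S : V[X], x = aeval ρ S := by
  obtain ⟨u, rfl⟩ := hw
  have h1 : D (h.q 1 - (↑(u⁻¹) : V) • ρ) = 0 := by
    have h2 := h.iter_q 1
    rw [Function.iterate_one] at h2
    rw [map_sub, Derivation.map_smul, h2, hρ, Algebra.smul_def, ← map_mul, ← map_sub]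
    have : (p ^ h.e 1 - (↑(u⁻¹) : V) * (p ^ h.e 1 * u)) = 0 := by
      have h3 : (↑(u⁻¹) : V) * u = 1 := Units.inv_mul u
      linear_combination (-(p ^ h.e 1)) * h3
    rw [this, map_zero]
  obtain ⟨v, hv⟩ := h.ker _ h1
  have hq : h.q 1 = aeval ρ (C (↑(u⁻¹) : V) * X + C v : V[X]) := by
    rw [map_add, map_mul, aeval_C, aeval_C, aeval_X, hv, Algebra.smul_def]
    ring
  have h2 : Lam h 1 ≤ LinearMap.range (aeval ρ : V[X] →ₐ[V] Λ).toLinearMap := by
    unfold Lam
    rw [Submodule.span_le]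
    rintro _ ⟨l, rfl⟩
    refine ⟨(C (↑(u⁻¹) : V) * X + C v) ^ l, ?_⟩
    unfold wl
    rw [Nat.div_one, Nat.mod_one, E1_q0, mul_one, hq]
    change aeval ρ ((C (↑(u⁻¹) : V) * X + C v) ^ l : V[X]) = _
    rw [map_pow]
  obtain ⟨S, hS⟩ := h2 hx
  exact ⟨S, hS.symm⟩

theorem E1_core (h : LocData V Λ D p) {ρ x : Λ} {N : ℕ} {w w' : V} (hw : IsUnit w)
    (hρ : D ρ = algebraMap V Λ (p ^ h.e 1 * w)) (hw' : IsUnit w')
    (hx : (⇑D)^[N] x = algebraMap V Λ (p ^ h.e N * w')) :
    h.e N ≤ N * h.e 1 ∧ ∃ S : V[X], algebraMap V Λ (p ^ (N * h.e 1 - h.e N)) * x = aeval ρ S := by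
  have h1 := Blk.key (E1_blk h) N (x := x) ⟨w', hw', by rw [mul_one]; exact hx⟩
  rw [mul_one] at h1
  refine ⟨h1.1, ?_⟩
  obtain ⟨S, hS⟩ := E1_lam h hw hρ h1.2
  exact ⟨S, by rw [← hS, Algebra.smul_def]⟩

end Local

/-- prime divisors of the leading coefficient divide all coefficients -/
theorem E1_dvd {D : Derivation k B B} (hln : ∀ x, ∃ n, (⇑D)^[n] x = 0) {p : B} (hp : Prime p)
    (hDp : D p = 0) (hnd : ∃ x, ¬ p ∣ D x) {r c : B} (hr : D r = c)
    (hc : IsCC D 1 c) {N : ℕ} {cN G : B} (hcN : IsCC D N cN) (hG : (⇑D)^[N] G = cN)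
    {R : (kerAlg D)[X]}
    (heq : ((R.coeff N : kerAlg D) : B) * ((N.factorial : B) * c ^ N * G) = cN * aeval r R)
    (hpa : p ∣ ((R.coeff N : kerAlg D) : B)) (i : ℕ) : p ∣ ((R.coeff i : kerAlg D) : B) := by
  have hchar : CharZero B := charZero_of_injective_algebraMap (algebraMap k B).injective
  have h := locData D p hp hDp hln hnd
  set P : VL D p hp := ⟨algebraMap B (Loc D p hp) p, by rw [mem_kerAlg, derL_alg, hDp, map_zero]⟩
    with hP
  have hVchar := h.charZero
  -- constants of `B` give constants of the localization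
  let φ : kerAlg D →+* VL D p hp :=
    { toFun := fun a => ⟨algebraMap B (Loc D p hp) (a : B), by
        rw [mem_kerAlg, derL_alg, show D (a : B) = 0 from a.2, map_zero]⟩
      map_one' := Subtype.ext (map_one _)
      map_mul' := fun a b => Subtype.ext (map_mul _ _ _)
      map_zero' := Subtype.ext (map_zero _)
      map_add' := fun a b => Subtype.ext (map_add _ _ _) }
  have hφ : ∀ a : kerAlg D, algebraMap (VL D p hp) (Loc D p hp) (φ a) =
      algebraMap B (Loc D p hp) (a : B) := fun a => rfl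
  -- units
  have hunit : ∀ a : kerAlg D, ¬ p ∣ (a : B) → IsUnit (φ a) := by
    intro a ha
    have haM : (a : B) ∈ locM D p hp := ⟨a.2, ha⟩
    refine IsUnit.of_mul_eq_one ⟨IsLocalization.mk' (Loc D p hp) (1 : B) ⟨(a : B), haM⟩, by
      rw [mem_kerAlg, derL_mk, Derivation.map_one_eq_zero]; exact IsLocalization.mk'_zero _⟩ ?_
    apply Subtype.ext
    change algebraMap B (Loc D p hp) (a : B) *
      IsLocalization.mk' (Loc D p hp) (1 : B) ⟨(a : B), haM⟩ = 1
    rw [IsLocalization.mul_mk'_eq_mk'_of_mul, mul_one]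
    exact IsLocalization.mk'_self (Loc D p hp) haM
  -- the factorizations of `c` and `cN`
  have hfac : ∀ (n : ℕ) (d : B), IsCC D n d → ∃ a : kerAlg D, ¬ p ∣ (a : B) ∧
      d = p ^ h.e n * (a : B) := by
    intro n d hd
    obtain ⟨a, ha⟩ := (loc_e D hp hDp hln hnd hd (h.e n)).mpr le_rfl
    have hDa : D a = 0 := by
      have h1 := hd.const
      rw [ha, D_pow_mul D hDp] at h1
      exact (mul_eq_zero.mp h1).resolve_left (pow_ne_zero _ hp.ne_zero)
    refine ⟨⟨a, hDa⟩, ?_, ha⟩
    rintro ⟨b, hb⟩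
    have h2 : p ^ (h.e n + 1) ∣ d := ⟨b, by
      rw [ha]
      rw [show a = p * b from hb]; ring⟩
    have h3 := (loc_e D hp hDp hln hnd hd (h.e n + 1)).mp h2
    exact absurd h3 (by exact Nat.not_succ_le_self _)
  obtain ⟨c', hc', hcc⟩ := hfac 1 c hc
  obtain ⟨cN', hcN', hcNN⟩ := hfac N cN hcN
  set ρ := algebraMap B (Loc D p hp) r with hρ
  have hDρ : derV D p hp ρ = algebraMap (VL D p hp) (Loc D p hp) (P ^ h.e 1 * φ c') := by
    rw [derV_apply, hρ, derL_alg, hr, hcc]
    change _ = (algebraMap B (Loc D p hp) p) ^ h.e 1 * algebraMap B (Loc D p hp) (c' : B)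
    rw [map_mul, map_pow]
  have hDG : (⇑(derV D p hp))^[N] (algebraMap B (Loc D p hp) G) =
      algebraMap (VL D p hp) (Loc D p hp) (P ^ h.e N * φ cN') := by
    rw [derV_iter, ← IsLocalization.mk'_one (M := locM D p hp), derL_iter_mk,
      IsLocalization.mk'_one, hG, hcNN]
    change _ = (algebraMap B (Loc D p hp) p) ^ h.e N * algebraMap B (Loc D p hp) (cN' : B)
    rw [map_mul, map_pow]
  obtain ⟨hle, S, hS⟩ := E1_core h (hunit c' hc') hDρ (hunit cN' hcN') hDG
  -- the relation in the localization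
  have hR : algebraMap B (Loc D p hp) (aeval r R) = aeval ρ (R.map φ) := by
    rw [aeval_def, aeval_def, eval₂_map, hom_eval₂]
    rfl
  have heq2 := congrArg (algebraMap B (Loc D p hp)) heq
  rw [map_mul, map_mul, map_mul, map_mul, hR, map_pow, hcc, hcNN, map_mul, map_pow, map_mul,
    map_pow, map_natCast] at heq2
  have hpow : (algebraMap B (Loc D p hp) p) ^ (h.e 1 * N) =
      (algebraMap B (Loc D p hp) p) ^ h.e N *
        (algebraMap B (Loc D p hp) p) ^ (N * h.e 1 - h.e N) := by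
    rw [← pow_add, Nat.add_sub_cancel' hle, mul_comm]
  have hS' : (algebraMap B (Loc D p hp) p) ^ (N * h.e 1 - h.e N) *
      algebraMap B (Loc D p hp) G = aeval ρ S := hS
  have hpne : (algebraMap B (Loc D p hp) p) ^ h.e N ≠ 0 := by
    apply pow_ne_zero
    intro h1
    exact hp.ne_zero (Loc.inj D p hp (by rw [map_zero]; exact h1))
  have heq3 : algebraMap B (Loc D p hp) ((R.coeff N : kerAlg D) : B) * ((N.factorial : Loc D p hp) *
      (algebraMap B (Loc D p hp) (c' : B)) ^ N) * aeval ρ S =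
      algebraMap B (Loc D p hp) (cN' : B) * aeval ρ (R.map φ) := by
    apply mul_left_cancel₀ hpne
    rw [mul_pow, ← pow_mul, hpow] at heq2
    rw [← hS']
    linear_combination heq2
  have hpoly : C (φ (R.coeff N) * ((N.factorial : VL D p hp) * φ c' ^ N)) * S -
      C (φ cN') * R.map φ = 0 := by
    have hD0 : derV D p hp ρ ≠ 0 := by
      rw [hDρ]
      intro h1
      have h2 := h.inj (h1.trans (map_zero _).symm)
      rcases mul_eq_zero.mp h2 with h3 | h3
      · exact pow_ne_zero _ h.ne h3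
      · exact (hunit c' hc').ne_zero h3
    refine E1_transc h.inj (derV D p hp) hD0 _ _ le_rfl ?_
    simp only [map_sub, map_mul, aeval_C, map_pow, map_natCast, hφ]
    rw [sub_eq_zero]
    exact heq3
  have hcoef : coeff (C (φ (R.coeff N) * ((N.factorial : VL D p hp) * φ c' ^ N)) * S) i =
      coeff (C (φ cN') * R.map φ) i := by
    rw [← sub_eq_zero, ← coeff_sub, hpoly, coeff_zero]
  rw [coeff_C_mul, coeff_C_mul, coeff_map] at hcoef
  have hdv : algebraMap B (Loc D p hp) p ∣
      IsLocalization.mk' _ ((cN' : B) * ((R.coeff i : kerAlg D) : B)) (1 : locM D p hp) := by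
    rw [IsLocalization.mk'_one, map_mul]
    have h1 := congrArg (algebraMap (VL D p hp) (Loc D p hp)) hcoef
    rw [map_mul, map_mul (algebraMap (VL D p hp) (Loc D p hp)) (φ cN'), hφ, hφ] at h1
    rw [← h1]
    apply Dvd.dvd.mul_right
    rw [map_mul, hφ]
    apply Dvd.dvd.mul_right
    exact map_dvd _ hpa
  rw [dvd_mk_iff D p hp hDp] at hdv
  exact (hp.dvd_or_dvd hdv).resolve_left hcN'

theorem E1_main {D : Derivation k B B} (hln : ∀ x, ∃ n, (⇑D)^[n] x = 0)
    (hirr : ∀ p : B, Prime p → D p = 0 → ∃ x, ¬ p ∣ D x) {r c : B} (hr : D r = c)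
    (hc : IsCC D 1 c) {N : ℕ} {cN G : B} (hcN : IsCC D N cN) (hG : (⇑D)^[N] G = cN) (a : B) :
    a ≠ 0 → ∀ R : (kerAlg D)[X], R.natDegree ≤ N → ((R.coeff N : kerAlg D) : B) = a →
      ((R.coeff N : kerAlg D) : B) * ((N.factorial : B) * c ^ N * G) = cN * aeval r R →
      ∃ P : (kerAlg D)[X], P.Monic ∧ P.natDegree = N ∧
        (N.factorial : B) * c ^ N * G = cN * aeval r P := by
  have hchar : CharZero B := charZero_of_injective_algebraMap (algebraMap k B).injective
  induction a using UniqueFactorizationMonoid.induction_on_prime with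
  | h₁ => intro h; exact absurd rfl h
  | h₂ u hu =>
    intro _ R hR hRu heq
    obtain ⟨u, rfl⟩ := hu
    have hDu : D (u : B) = 0 := by rw [← hRu]; exact (R.coeff N).2
    have hDw : D (↑(u⁻¹) : B) = 0 := by
      have h1 : D ((u : B) * (↑(u⁻¹) : B)) = 0 := by rw [Units.mul_inv]; exact D.map_one_eq_zero
      rw [Derivation.leibniz, hDu, smul_zero, add_zero, smul_eq_mul] at h1
      exact (mul_eq_zero.mp h1).resolve_left u.ne_zero
    obtain ⟨w, hw⟩ : ∃ w : kerAlg D, (w : B) = (↑(u⁻¹) : B) := ⟨⟨_, hDw⟩, rfl⟩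
    have h2 : (↑(u⁻¹) : B) * u = 1 := Units.inv_mul u
    have hco : (C w * R).coeff N = 1 := by
      rw [coeff_C_mul]
      apply Subtype.ext
      change (w : B) * ((R.coeff N : kerAlg D) : B) = 1
      rw [hRu, hw, h2]
    have hdeg : (C w * R).natDegree ≤ N := (natDegree_C_mul_le _ _).trans hR
    have hco' : (C w * R).coeff N ≠ 0 := by rw [hco]; exact one_ne_zero
    refine ⟨C w * R, monic_of_natDegree_le_of_coeff_eq_one N hdeg hco,
      natDegree_eq_of_le_of_coeff_ne_zero hdeg hco', ?_⟩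
    rw [map_mul, E1_aeval_C, hw]
    rw [hRu] at heq
    linear_combination (↑(u⁻¹) : B) * heq - ((N.factorial : B) * c ^ N * G) * h2
  | h₃ b p hb hp ih =>
    intro hne R hR hRpb heq
    have hDpb : D (p * b) = 0 := by rw [← hRpb]; exact (R.coeff N).2
    have hDp : D p = 0 := fact_closed D hln p b hDpb hne
    have hall := fun i => E1_dvd hln hp hDp (hirr p hp hDp) hr hc hcN hG heq
      (by rw [hRpb]; exact dvd_mul_right _ _) i
    obtain ⟨R', hR'⟩ : C (⟨p, hDp⟩ : kerAlg D) ∣ R := by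
      rw [C_dvd_iff_dvd_coeff]
      intro i
      obtain ⟨s, hs⟩ := hall i
      have hDs : D s = 0 := by
        have h1 : D ((R.coeff i : kerAlg D) : B) = 0 := (R.coeff i).2
        rw [hs, Derivation.leibniz, hDp, smul_zero, add_zero, smul_eq_mul] at h1
        exact (mul_eq_zero.mp h1).resolve_left hp.ne_zero
      exact ⟨⟨s, hDs⟩, Subtype.ext hs⟩
    have hp0 : (⟨p, hDp⟩ : kerAlg D) ≠ 0 := fun h => hp.ne_zero (congrArg Subtype.val h)
    have hco : p * ((R'.coeff N : kerAlg D) : B) = ((R.coeff N : kerAlg D) : B) := by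
      rw [hR', coeff_C_mul]; rfl
    have hco2 : ((R'.coeff N : kerAlg D) : B) = b := by
      apply mul_left_cancel₀ hp.ne_zero
      rw [hco, hRpb]
    refine ih hb R' ?_ hco2 ?_
    · rw [hR', natDegree_C_mul hp0] at hR
      exact hR
    · apply mul_left_cancel₀ hp.ne_zero
      rw [← mul_assoc, hco, heq, hR', map_mul, E1_aeval_C]
      change cN * (p * aeval r R') = _
      ring

/-- GLOBAL INTEGRALITY: `N! c^N G = c_N P(r)` with `P` monic over `ker D`. There is a constant `a ≠ 0`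
and `R ∈ (ker D)[X]` of degree `N` with leading coefficient `a` with `a N! c^N G = c_N R(r)`
(degree induction). If a prime `p` divides `a` it divides all coefficients of `R`: in the
localization at `p`, `Blk.key` for the block `1`. Cancel `p`; induction. -/
theorem int_poly {D : Derivation k B B} (hln : ∀ x, ∃ n, (⇑D)^[n] x = 0)
    (hirr : ∀ p : B, Prime p → D p = 0 → ∃ x, ¬ p ∣ D x) {r c : B} (hr : D r = c)
    (hc : IsCC D 1 c) {N : ℕ} {cN G : B} (hcN : IsCC D N cN) (hG : (⇑D)^[N] G = cN) :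
    ∃ P : (kerAlg D)[X], P.Monic ∧ P.natDegree = N ∧
      (N.factorial : B) * c ^ N * G = cN * aeval r P := by
  obtain ⟨R, h1, h2, h3⟩ := E1_start hr hc.const hc.ne hcN.ne hcN.const hG
  exact E1_main hln hirr hr hc hcN hG _ h2 R h1 rfl h3

end Pool.Agent.LNDF
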