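import Mathlib
import Pool.Agent.LNDF.ChB2
import Pool.Agent.LNDF.ChB3
import Pool.Agent.LNDF.ChD
import Pool.Agent.LNDF.Ar2

set_option autoImplicit false

open Polynomial

namespace Pool.Agent.LNDF

open Pool.Agent.LNDHom

namespace ChE2

/-- the degree of a product -/
theorem mul_zero_of {k S : Type*} [CommRing k] [CommRing S] [Algebra k S] (E : Derivation k S S)
    {a b : ℕ} {x y : S} (hx : (⇑E)^[a] x = 0) (hy : (⇑E)^[b + 1] y = 0) :
    (⇑E)^[a + b] (x * y) = 0 := by
  rcases Nat.eq_zero_or_pos a with rfl | ha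
  · rw [Function.iterate_zero, id] at hx
    rw [hx, zero_mul, iterate_map_zero]
  · obtain ⟨a, rfl⟩ : ∃ a', a = a' + 1 := ⟨a - 1, by omega⟩
    have h := (iter_mul_top E (a + b) a b x y rfl hx hy).2
    rwa [show a + b + 1 = a + 1 + b by omega] at h

/-- the degree of a power -/
theorem pow_zero_of {k S : Type*} [CommRing k] [CommRing S] [Algebra k S] (E : Derivation k S S)
    {m : ℕ} {x : S} (hx : (⇑E)^[m + 1] x = 0) (i : ℕ) : (⇑E)^[m * i + 1] (x ^ i) = 0 := by
  induction i with
  | zero => simp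
  | succ i ih =>
    have h := mul_zero_of E ih hx
    rw [pow_succ]
    rwa [show m * (i + 1) + 1 = m * i + 1 + m by ring]

/-- elements with the same leading term have powers with the same leading term -/
theorem sub_pow_zero {k S : Type*} [CommRing k] [CommRing S] [Algebra k S] (E : Derivation k S S)
    {m : ℕ} {x z : S} (hx : (⇑E)^[m + 1] x = 0) (hz : (⇑E)^[m + 1] z = 0)
    (h : (⇑E)^[m] x = (⇑E)^[m] z) (i : ℕ) : (⇑E)^[m * i] (x ^ i - z ^ i) = 0 := by
  induction i with
  | zero => simp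
  | succ i ih =>
    have h0 : (⇑E)^[m] (x - z) = 0 := by rw [iterate_map_sub, h, sub_self]
    have h1 := mul_zero_of E h0 (pow_zero_of E hx i)
    have h2 := mul_zero_of E ih hz
    have e : x ^ (i + 1) - z ^ (i + 1) = (x - z) * x ^ i + (x ^ i - z ^ i) * z := by ring
    rw [e, iterate_map_add, show m * (i + 1) = m + m * i by ring, h1, zero_add, add_comm m, h2]

variable {k B : Type} [Field k] [CommRing B] [IsDomain B] [Algebra k B]

omit [IsDomain B] in
theorem iter_sum_zero {D : Derivation k B B} {n : ℕ} (s : Finset ℕ) (f : ℕ → B)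
    (hf : ∀ i ∈ s, (⇑D)^[n] (f i) = 0) : (⇑D)^[n] (∑ i ∈ s, f i) = 0 := by
  induction s using Finset.induction_on with
  | empty => simp
  | insert a s ha ih =>
    rw [Finset.sum_insert ha, iterate_map_add, hf a (Finset.mem_insert_self _ _),
      ih fun i hi => hf i (Finset.mem_insert_of_mem hi), add_zero]

omit [IsDomain B] in
/-- the value of a polynomial of small degree -/
theorem aeval_zero_of {D : Derivation k B B} {r : B} (hr : D (D r) = 0) {n : ℕ}
    (Q : (kerAlg D)[X]) (hQ : Q.degree < n) : (⇑D)^[n] (aeval r Q) = 0 := by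
  rcases eq_or_ne Q 0 with rfl | h0
  · rw [map_zero, iterate_map_zero]
  rw [aeval_eq_sum_range' ((natDegree_lt_iff_degree_lt h0).2 hQ)]
  refine iter_sum_zero _ _ fun i hi => ?_
  have h1 := (ker_mul_pow D hr (c := ((Q.coeff i : kerAlg D) : B)) (Q.coeff i).2 i).2
  exact iter_zero_of_le D h1 (Finset.mem_range.1 hi)

/-- the value of a monic polynomial -/
theorem aeval_monic {D : Derivation k B B} {r : B} (hr : D (D r) = 0) {n : ℕ}
    (Q : (kerAlg D)[X]) (hQ : Q.Monic) (hn : Q.natDegree = n) :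
    (⇑D)^[n] (aeval r Q) = (n.factorial : B) * D r ^ n := by
  have h1 : (⇑D)^[n] (aeval r (Q - X ^ n)) = 0 := by
    refine aeval_zero_of hr _ ?_
    subst hn
    have h2 := degree_sub_lt_left (p := Q) (q := X ^ Q.natDegree) (by
      rw [degree_X_pow, degree_eq_natDegree hQ.ne_zero]) hQ.ne_zero (by
      rw [hQ.leadingCoeff, (monic_X_pow Q.natDegree).leadingCoeff])
    rwa [degree_eq_natDegree hQ.ne_zero] at h2
  have h2 : aeval r Q = aeval r (Q - X ^ n) + r ^ n := by
    rw [map_sub, map_pow, aeval_X]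
    ring
  rw [h2, iterate_map_add, h1, zero_add, (pow_top D hr n).1]

omit [IsDomain B] in
/-- the value of a polynomial is of the right degree -/
theorem aeval_monic' {D : Derivation k B B} {r : B} (hr : D (D r) = 0) {n : ℕ}
    (Q : (kerAlg D)[X]) (hn : Q.natDegree = n) : (⇑D)^[n + 1] (aeval r Q) = 0 := by
  refine aeval_zero_of hr _ ?_
  subst hn
  exact (degree_le_natDegree).trans_lt (by exact_mod_cast Nat.lt_succ_self _)

section

variable (D : Derivation k B B) {p : B} (hp : Prime p)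

theorem derV_iter_alg (x : B) (n : ℕ) :
    (⇑(derV D p hp))^[n] (algebraMap B (Loc D p hp) x) =
      algebraMap B (Loc D p hp) ((⇑D)^[n] x) := by
  rw [derV_iter, ← IsLocalization.mk'_one (M := locM D p hp), derL_iter_mk,
    IsLocalization.mk'_one]

/-- a divisibility in the localization -/
theorem pow_dvd_of_loc (t : ℕ) (b : B)
    (h : algebraMap B (Loc D p hp) p ^ t ∣ algebraMap B (Loc D p hp) b) : p ^ t ∣ b := by
  obtain ⟨w, hw⟩ := h
  obtain ⟨c, σ, hcσ⟩ := IsLocalization.exists_mk'_eq (locM D p hp) w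
  rw [← hcσ, ← map_pow, ← IsLocalization.mk'_one (M := locM D p hp),
    ← IsLocalization.mk'_one (M := locM D p hp) (Loc D p hp) (p ^ t),
    ← IsLocalization.mk'_mul, one_mul, IsLocalization.mk'_eq_iff_eq] at hw
  have h4 := Loc.inj D p hp hw
  have h5 : p ^ t ∣ (σ : B) * b := ⟨c, by rw [h4]; simp⟩
  exact hp.pow_dvd_of_dvd_mul_left _ σ.2.2 h5

/-- constants in the localization -/
theorem const_eq (hDp : D p = 0) {c : B} (hc : D c = 0) (e : ℕ)
    (h1 : p ^ e ∣ c) (h2 : ¬ p ^ (e + 1) ∣ c) :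
    ∃ u : VL D p hp, IsUnit u ∧ algebraMap B (Loc D p hp) c = algebraMap (VL D p hp) (Loc D p hp)
      ((⟨algebraMap B (Loc D p hp) p, by rw [mem_kerAlg, derL_alg, hDp, map_zero]⟩ :
        VL D p hp) ^ e * u) := by
  obtain ⟨b, rfl⟩ := h1
  have hpb : ¬ p ∣ b := by
    rintro ⟨a, rfl⟩
    exact h2 ⟨a, by ring⟩
  have hDb : D b = 0 := by
    rw [D_pow_mul D hDp] at hc
    rcases mul_eq_zero.mp hc with h1 | h1
    · exact absurd h1 (pow_ne_zero e hp.ne_zero)
    · exact h1
  have hbM : b ∈ locM D p hp := ⟨hDb, hpb⟩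
  refine ⟨⟨algebraMap B (Loc D p hp) b, by rw [mem_kerAlg, derL_alg, hDb, map_zero]⟩, ?_, ?_⟩
  · refine IsUnit.of_mul_eq_one ⟨IsLocalization.mk' _ (1 : B) ⟨b, hbM⟩, by
      rw [mem_kerAlg, derL_mk, Derivation.map_one_eq_zero]; exact IsLocalization.mk'_zero _⟩ ?_
    apply Subtype.ext
    change algebraMap B (Loc D p hp) b * IsLocalization.mk' _ (1 : B) ⟨b, hbM⟩ = 1
    rw [IsLocalization.mul_mk'_eq_mk'_of_mul, mul_one]
    exact (IsLocalization.mk'_self' (M := locM D p hp) (Loc D p hp) :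
      IsLocalization.mk' (Loc D p hp) ((⟨b, hbM⟩ : locM D p hp) : B) ⟨b, hbM⟩ = 1)
  · rw [map_mul, map_pow]
    rfl

end

/-- the exponent of a degree is at most the multiple of the exponent of degree one -/
theorem e_le_mul {V Λ : Type*} [CommRing V] [IsDomain V] [CommRing Λ] [IsDomain Λ] [Algebra V Λ]
    {E : Derivation V Λ Λ} {π : V} (h : LocData V Λ E π) (b : ℕ) : h.e b ≤ b * h.e 1 := by
  induction b with
  | zero => rw [zero_mul, e_zero]
  | succ b ih =>
    have := e_add_le h b 1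
    rw [add_mul, one_mul]
    omega

/-- the local statement -/
theorem local_root {V Λ : Type*} [CommRing V] [IsDomain V] [CommRing Λ] [IsDomain Λ] [Algebra V Λ]
    {E : Derivation V Λ Λ} {π : V} (h : LocData V Λ E π) {b j d : ℕ} (hb : Blk h b) (hj : 0 < j)
    (hd : 0 < d) {G xP x : Λ} {u1 uN : V} (huN : IsUnit uN)
    (hG : (⇑E)^[j * d * b] G = algebraMap V Λ (π ^ h.e (j * d * b) * uN))
    (hP : (((j * d * b).factorial : ℕ) : Λ) * algebraMap V Λ (π ^ h.e 1 * u1) ^ (j * d * b) * G =
      algebraMap V Λ (π ^ h.e (j * d * b) * uN) * xP)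
    (hx : (⇑E)^[j * b] x = (((j * b).factorial : ℕ) : Λ) *
      algebraMap V Λ (π ^ h.e 1 * u1) ^ (j * b))
    (hx' : (⇑E)^[j * b + 1] x = 0)
    (hdiff : (⇑E)^[j * d * b - j * b] (xP - x ^ d) = 0) :
    ∃ z : Λ, algebraMap V Λ π ^ (j * (b * h.e 1 - h.e b)) ∣ z ∧ (⇑E)^[j * b] x = (⇑E)^[j * b] z ∧
      (⇑E)^[j * d * b - j * b] (x ^ d - z ^ d) = 0 := by
  have := h.charZero
  have := h.charZero'
  set al := algebraMap V Λ with hal
  obtain ⟨hle, hmem⟩ := hb.key (j * d) (x := G) ⟨uN, huN, hG⟩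
  set s := j * d * h.e b - h.e (j * d * b) with hs
  have hgi : (⇑E)^[j * d * b] (π ^ s • G) = al (π ^ (j * d * h.e b) * uN) := by
    rw [LocData.smul_iter, hG, Algebra.smul_def, ← map_mul, ← mul_assoc, ← pow_add, hs,
      Nat.sub_add_cancel hle]
  obtain ⟨y, hy, ⟨uy, huy, hyi⟩, u, hu, hroot⟩ := hb.root j d hj hd hmem ⟨uN, huN, hgi⟩
  have hEb : h.e b ≤ b * h.e 1 := e_le_mul h b
  set t := b * h.e 1 - h.e b with ht
  have het : b * h.e 1 = t + h.e b := by omega
  obtain ⟨uy', rfl⟩ := huy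
  obtain ⟨uN', rfl⟩ := huN
  have hpi : π ≠ 0 := h.ne
  have halpi : al π ≠ 0 := by
    intro h0
    rw [← map_zero al] at h0
    exact hpi (h.inj h0)
  -- the multiple of `y`
  set v : V := ((j * b).factorial : V) * u1 ^ (j * b) * ↑(uy'⁻¹) with hv
  set w : V := ((j * d * b).factorial : V) * u1 ^ (j * d * b) * ↑(uN'⁻¹) with hw
  have hvy : v * uy' = ((j * b).factorial : V) * u1 ^ (j * b) := by
    rw [hv, mul_assoc, Units.inv_mul, mul_one]
  have hwN : w * uN' = ((j * d * b).factorial : V) * u1 ^ (j * d * b) := by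
    rw [hw, mul_assoc, Units.inv_mul, mul_one]
  set z : Λ := al (v * π ^ (j * t)) * y with hz
  have hzi : (⇑E)^[j * b] x = (⇑E)^[j * b] z := by
    rw [hz, hal, ← Algebra.smul_def, LocData.smul_iter, hyi, Algebra.smul_def, hx, ← map_mul,
      ← map_pow, ← map_natCast (algebraMap V Λ), ← map_mul]
    congr 1
    have e1 : v * π ^ (j * t) * (π ^ (j * h.e b) * (uy' : V)) =
        (v * uy') * (π ^ (j * t) * π ^ (j * h.e b)) := by ring
    have e2 : π ^ (j * t) * π ^ (j * h.e b) = (π ^ h.e 1) ^ (j * b) := by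
      rw [← pow_add, ← mul_add, ← het, ← pow_mul]
      congr 1
      ring
    rw [e1, e2, hvy]
    ring
  have hzi' : (⇑E)^[j * b + 1] z = 0 := by
    rw [Function.iterate_succ_apply', ← hzi, ← Function.iterate_succ_apply' (⇑E), hx']
  -- the value of `P`
  have hxP : xP = al (w * π ^ (j * d * t)) * (π ^ s • G) := by
    have h1 : al (π ^ (j * d * h.e b) * uN') ≠ 0 := by
      intro h0
      rw [← map_zero al] at h0
      have h2 := h.inj h0
      rcases mul_eq_zero.1 h2 with h3 | h3
      · exact pow_ne_zero _ hpi h3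
      · exact uN'.ne_zero h3
    have e0 : al (π ^ (j * d * h.e b) * uN') = al (π ^ s) * al (π ^ h.e (j * d * b) * uN') := by
      rw [← map_mul, ← mul_assoc, ← pow_add, hs, Nat.sub_add_cancel hle]
    have e2 : (π ^ h.e 1) ^ (j * d * b) = π ^ (j * d * t) * π ^ (j * d * h.e b) := by
      rw [← pow_add, ← mul_add, ← het, ← pow_mul]
      congr 1
      ring
    apply mul_left_cancel₀ h1
    rw [e0, mul_assoc, ← hP, Algebra.smul_def, ← map_pow, ← map_natCast al]
    have e3 : al (π ^ s) * al (π ^ h.e (j * d * b) * uN') *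
        (al (w * π ^ (j * d * t)) * (al (π ^ s) * G)) =
        al (π ^ s * (w * uN') * (π ^ s * π ^ h.e (j * d * b) * π ^ (j * d * t))) * G := by
      simp only [map_mul]
      ring
    have e4 : π ^ s * π ^ h.e (j * d * b) = π ^ (j * d * h.e b) := by
      rw [← pow_add, hs, Nat.sub_add_cancel hle]
    have e5 : al (π ^ s) * (al (((j * d * b).factorial : ℕ) : V) *
        al ((π ^ h.e 1 * u1) ^ (j * d * b)) * G) =
        al (π ^ s * (((j * d * b).factorial : V) * u1 ^ (j * d * b)) *
          ((π ^ h.e 1) ^ (j * d * b))) * G := by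
      simp only [map_mul, map_pow]
      ring
    rw [e3, e5, e4, hwN, e2]
    congr 2
    ring
  set g : Λ := π ^ s • G with hg
  -- the difference
  have hzd : z ^ d = al (v ^ d * π ^ (j * d * t)) * y ^ d := by
    rw [hz, mul_pow, ← map_pow, mul_pow, ← pow_mul]
    congr 3
    ring
  have hjb : j * b * d = j * d * b := by ring
  have hle2 : j * d * b - j * b ≤ j * d * b := Nat.sub_le _ _
  have key : x ^ d - z ^ d = -(xP - x ^ d) + (v ^ d * π ^ (j * d * t)) • (u • g - y ^ d) +
      ((w - v ^ d * u) * π ^ (j * d * t)) • g := by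
    rw [hzd, hxP]
    simp only [Algebra.smul_def, map_mul, map_sub, map_pow]
    ring
  have htop := sub_pow_zero E hx' hzi' hzi d
  have hwv : w - v ^ d * u = 0 := by
    rw [hjb, key, iterate_map_add, iterate_map_add, iterate_map_neg,
      iter_zero_of_le E hdiff hle2, LocData.smul_iter, iter_zero_of_le E hroot (Nat.sub_le _ _),
      LocData.smul_iter, hgi, smul_zero, neg_zero, zero_add, zero_add, Algebra.smul_def,
      ← map_mul, ← map_zero (algebraMap V Λ)] at htop
    have h2 := h.inj htop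
    rcases mul_eq_zero.1 h2 with h3 | h3
    · rcases mul_eq_zero.1 h3 with h4 | h4
      · exact h4
      · exact absurd h4 (pow_ne_zero _ hpi)
    · rcases mul_eq_zero.1 h3 with h4 | h4
      · exact absurd h4 (pow_ne_zero _ hpi)
      · exact absurd h4 uN'.ne_zero
  refine ⟨z, ⟨al v * y, ?_⟩, hzi, ?_⟩
  · rw [hz, map_mul, map_pow]
    ring
  · rw [key, hwv, zero_mul, zero_smul, add_zero, iterate_map_add, iterate_map_neg, hdiff,
      LocData.smul_iter, hroot, smul_zero, neg_zero, zero_add]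

end ChE2

open ChE2

variable {k B : Type} [Field k] [CharZero k] [CommRing B] [IsDomain B] [Algebra k B]
  [UniqueFactorizationMonoid B]

/-- the approximate roots are divisible by the right powers of `p`. -/
theorem root_dvd {D : Derivation k B B} (hln : ∀ x, ∃ n, (⇑D)^[n] x = 0)
    {p : B} (hp : Prime p) (hDp : D p = 0) (hnd : ∃ x, ¬ p ∣ D x) {r c : B} (hr : D r = c)
    (hc : IsCC D 1 c) {N m d : ℕ} (hm : 0 < m) (hd : 0 < d) (hN : N = m * d) {cN G : B}
    (hcN : IsCC D N cN) (hG : (⇑D)^[N] G = cN)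
    {P : (kerAlg D)[X]} (hP : P.Monic) (hPN : P.natDegree = N)
    (hPG : (N.factorial : B) * c ^ N * G = cN * aeval r P)
    {Y : (kerAlg D)[X]} (hY : Y.Monic) (hYm : Y.natDegree = m)
    (hPY : (P - Y ^ d).degree < (m * d - m : ℕ))
    (b : ℕ) (hb : Blk (locData D p hp hDp hln hnd) b) (hbm : b ∣ m) :
    p ^ ((m / b) * (b * (locData D p hp hDp hln hnd).e 1 - (locData D p hp hDp hln hnd).e b)) ∣
      aeval r Y := by
  have hb0 : 0 < b := hb.1
  obtain ⟨j, hj'⟩ := hbm
  have hmj : m = j * b := by rw [hj']; ring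
  subst hmj
  rw [Nat.mul_div_cancel j hb0]
  have hj : 0 < j := by
    rcases Nat.eq_zero_or_pos j with h0 | h0
    · rw [h0, zero_mul] at hm; exact absurd hm (lt_irrefl _)
    · exact h0
  have hNj : N = j * d * b := by rw [hN]; ring
  subst hNj
  -- the constants
  have hDc : D c = 0 := hc.const
  have hDr : D (D r) = 0 := by rw [hr, hDc]
  obtain ⟨u1, hu1, e1⟩ := const_eq D hp hDp hDc ((locData D p hp hDp hln hnd).e 1)
    ((loc_e D hp hDp hln hnd hc _).2 le_rfl) (fun h' => by
      have := (loc_e D hp hDp hln hnd hc _).1 h'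
      omega)
  obtain ⟨uN, huN, eN⟩ := const_eq D hp hDp hcN.const ((locData D p hp hDp hln hnd).e (j * d * b))
    ((loc_e D hp hDp hln hnd hcN _).2 le_rfl) (fun h' => by
      have := (loc_e D hp hDp hln hnd hcN _).1 h'
      omega)
  have hYi := aeval_monic hDr Y hY hYm
  have hYi' := aeval_monic' hDr Y hYm
  have hPi : (⇑D)^[j * d * b - j * b] (aeval r P - (aeval r Y) ^ d) = 0 := by
    have h1 := aeval_zero_of hDr _ hPY
    rwa [map_sub, map_pow, show j * b * d = j * d * b by ring] at h1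
  obtain ⟨z, hz1, hz2, hz3⟩ := local_root (locData D p hp hDp hln hnd) hb hj hd huN
    (G := algebraMap B (Loc D p hp) G) (xP := algebraMap B (Loc D p hp) (aeval r P))
    (x := algebraMap B (Loc D p hp) (aeval r Y))
    (by rw [derV_iter_alg, hG, eN])
    (by
      rw [← e1, ← eN, ← map_natCast (algebraMap B (Loc D p hp)), ← map_pow, ← map_mul, ← map_mul,
        ← map_mul, hPG])
    (by
      rw [derV_iter_alg, hYi, hr, ← e1, ← map_natCast (algebraMap B (Loc D p hp)), ← map_pow,
        ← map_mul])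
    (by rw [derV_iter_alg, hYi', map_zero])
    (by rw [← map_pow, ← map_sub, derV_iter_alg, hPi, map_zero])
  have hxz : algebraMap B (Loc D p hp) (aeval r Y) = z := by
    refine lnd_root_unique (derL D p hp) (fun x => ?_) (j * b) d hm hd ?_ ?_ ?_ ?_
    · obtain ⟨n, hn⟩ := (locData D p hp hDp hln hnd).lnd x
      exact ⟨n, hn⟩
    · rw [← derV_iter, derV_iter_alg, hYi]
      intro h0
      rw [← map_zero (algebraMap B (Loc D p hp))] at h0
      have h1 := Loc.inj D p hp h0
      have hch : CharZero B := charZero_of_injective_algebraMap (algebraMap k B).injective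
      rw [hr] at h1
      rcases mul_eq_zero.1 h1 with h2 | h2
      · exact Nat.factorial_ne_zero _ (by exact_mod_cast h2)
      · exact hc.ne (eq_zero_of_pow_eq_zero h2)
    · exact hz2
    · rw [← derV_iter, derV_iter_alg, hYi', map_zero]
    · rw [show j * b * d = j * d * b by ring]
      exact hz3
  apply pow_dvd_of_loc D hp
  rw [hxz]
  exact hz1

end Pool.Agent.LNDF
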