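import Mathlib
import Pool.Agent.LNDF.ChE1
import Pool.Agent.LNDF.ChE2
import Pool.Agent.LNDF.ChA2
import Pool.Agent.LNDF.Ar1

set_option autoImplicit false

open Polynomial

namespace Pool.Agent.LNDF

open Pool.Agent.LNDHom

variable {k B : Type} [Field k] [CharZero k] [CommRing B] [IsDomain B] [Algebra k B]
  [UniqueFactorizationMonoid B]

/-- the blocks of a prime constant `p` -/
def IsBlock (D : Derivation k B B) (hln : ∀ x, ∃ n, (⇑D)^[n] x = 0) (p : B) (b : ℕ) : Prop :=
  ∃ (hp : Prime p) (hDp : D p = 0) (hnd : ∃ x, ¬ p ∣ D x), Blk (locData D p hp hDp hln hnd) b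

omit [CharZero k] [IsDomain B] [UniqueFactorizationMonoid B] in
private theorem D_aeval (D : Derivation k B B) {r c : B} (hr : D r = c) (Q : (kerAlg D)[X]) :
    D (aeval r Q) = c * aeval r (derivative Q) := by
  induction Q using Polynomial.induction_on' with
  | add p q hp hq => rw [map_add, map_add, hp, hq, derivative_add, map_add, mul_add]
  | monomial n a =>
    have ha : D (algebraMap (kerAlg D) B a) = 0 := a.2
    rw [aeval_monomial, derivative_monomial, aeval_monomial, Derivation.leibniz,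
      Derivation.leibniz_pow, ha, hr, smul_zero, add_zero, map_mul, map_natCast]
    simp only [smul_eq_mul, nsmul_eq_mul]
    ring

omit [CharZero k] [UniqueFactorizationMonoid B] in
private theorem D_iter_aeval (D : Derivation k B B) {r c : B} (hr : D r = c) (hc : D c = 0)
    (Q : (kerAlg D)[X]) (j : ℕ) :
    (⇑D)^[j] (aeval r Q) = c ^ j * aeval r (derivative^[j] Q) := by
  induction j with
  | zero => simp
  | succ j ih =>
    rw [Function.iterate_succ_apply', ih, D_pow_mul D hc, D_aeval D hr,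
      Function.iterate_succ_apply', pow_succ]
    ring

omit [CharZero k] [UniqueFactorizationMonoid B] in
private theorem D_top_aeval (D : Derivation k B B) {r c : B} (hr : D r = c) (hc : D c = 0)
    (Q : (kerAlg D)[X]) (m : ℕ) (hQ : Q.Monic) (hQm : Q.natDegree = m) :
    (⇑D)^[m] (aeval r Q) = (m.factorial : B) * c ^ m ∧ (⇑D)^[m + 1] (aeval r Q) = 0 := by
  constructor
  · have h1 : derivative^[m] Q = C (m.factorial : kerAlg D) := by
      ext n
      rw [coeff_iterate_derivative, coeff_C]
      split_ifs with hn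
      · subst hn
        rw [zero_add, Nat.descFactorial_self]
        have : Q.coeff m = 1 := by rw [← hQm]; exact hQ
        rw [this]
        simp
      · rw [coeff_eq_zero_of_natDegree_lt (by omega), smul_zero]
    rw [D_iter_aeval D hr hc, h1, aeval_C, map_natCast]
    ring
  · rw [D_iter_aeval D hr hc, iterate_derivative_eq_zero (by omega)]
    simp

omit [CharZero k] [IsDomain B] in
private theorem exists_prim (D : Derivation k B B) {y : B} (hy : y ≠ 0) :
    ∃ a w : B, D a = 0 ∧ a * w = y ∧ ∀ p : B, Prime p → D p = 0 → ¬ p ∣ w := by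
  obtain ⟨w, ⟨a, ha, haw⟩, hmin⟩ := (inferInstance : WfDvdMonoid B).wf.has_min
    {w | ∃ a, D a = 0 ∧ a * w = y} ⟨y, 1, by simp, by simp⟩
  refine ⟨a, w, ha, haw, fun p hp hDp ⟨w', hw'⟩ => ?_⟩
  apply hmin w' ⟨a * p, by simp [ha, hDp], by rw [← haw, hw']; ring⟩
  refine ⟨?_, p, hp.not_isUnit, by rw [hw']; ring⟩
  rintro rfl
  apply hy
  rw [← haw, hw']
  ring

private theorem pow_dvd_mul_iff' {M : Type} [CommRing M] [IsDomain M] {p : M} (hp : Prime p)
    {a b : M} {e f : ℕ} (ha : ∀ s : ℕ, p ^ s ∣ a ↔ s ≤ e) (hb : ∀ s : ℕ, p ^ s ∣ b ↔ s ≤ f)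
    (s : ℕ) : p ^ s ∣ a * b ↔ s ≤ e + f := by
  have h1 : emultiplicity p a = e :=
    emultiplicity_eq_coe.2 ⟨(ha e).2 le_rfl, fun h => by have := (ha (e + 1)).1 h; omega⟩
  have h2 : emultiplicity p b = f :=
    emultiplicity_eq_coe.2 ⟨(hb f).2 le_rfl, fun h => by have := (hb (f + 1)).1 h; omega⟩
  rw [pow_dvd_iff_le_emultiplicity, emultiplicity_mul hp, h1, h2]
  exact_mod_cast Iff.rfl

private theorem pow_dvd_pow_iff' {M : Type} [CommRing M] [IsDomain M] {p : M} (hp : Prime p)
    {a : M} {e : ℕ} (ha : ∀ s : ℕ, p ^ s ∣ a ↔ s ≤ e) (m : ℕ) (s : ℕ) :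
    p ^ s ∣ a ^ m ↔ s ≤ m * e := by
  induction m generalizing s with
  | zero =>
    rw [pow_zero, zero_mul]
    constructor
    · intro h
      by_contra hs
      exact hp.not_isUnit (isUnit_of_dvd_one ((dvd_pow_self p (by omega : s ≠ 0)).trans h))
    · intro h
      obtain rfl : s = 0 := by omega
      simp
  | succ m ih =>
    rw [pow_succ, pow_dvd_mul_iff' hp ih ha, Nat.succ_mul]

omit [IsDomain B] [UniqueFactorizationMonoid B] in
private theorem natCast_isUnit (k : Type) [Field k] [CharZero k] [Algebra k B] (n : ℕ)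
    (hn : n ≠ 0) : IsUnit (n : B) := by
  have h1 : IsUnit (n : k) := IsUnit.mk0 _ (by exact_mod_cast hn)
  have h2 := h1.map (algebraMap k B)
  rwa [map_natCast] at h2

private theorem step_arith (f : ℕ → ℕ) (m L n : ℕ) (hm : 0 < m) (hmn : m ≤ n) (hnL : n < L)
    (h : ∀ j l, l < m → j * m + l < L → f (j * m + l) = j * f m + f l) :
    f n = f m + f (n - m) := by
  have hdm : n / m * m + n % m = n := Nat.div_add_mod' n m
  have hq : 1 ≤ n / m := (Nat.one_le_div_iff hm).2 hmn
  have hmod := Nat.mod_lt n hm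
  obtain ⟨q, hq'⟩ : ∃ q, n / m = q + 1 := ⟨n / m - 1, by omega⟩
  rw [hq'] at hdm
  have h1 : (q + 1) * m = q * m + m := Nat.succ_mul q m
  have e1 := h (q + 1) (n % m) hmod (by omega)
  have e2 := h q (n % m) hmod (by omega)
  rw [hdm] at e1
  have e3 : q * m + n % m = n - m := by omega
  rw [e3] at e2
  rw [e1, e2, Nat.succ_mul]
  omega

/-- AT ONE MAXIMAL IDEAL, given as a set `Z` of prime constants (those in the maximal ideal). `ch` is a
chain of divisors of `N`: `ch 0 = 1`, `ch t = N`, `ch i ∣ ch (i+1)`, which contains all blocks `≤ M` of all primes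
in `Z`. Conclusion: in every degree `n ≤ M` there is an `x` such that `D^n x` has at all primes of `Z` the minimal
multiplicity. Proof: doc H/821812_CHAIN, last paragraph (`int_poly`, `approx_root`, `root_dvd`,
`Blk.mix`, `loc_e`). `Z` may be infinite, but only finitely many of its primes (up to associates) divide
`c`; the others have `npB = 1` and multiplicity zero everywhere. -/
theorem chain_local {D : Derivation k B B} (hln : ∀ x, ∃ n, (⇑D)^[n] x = 0)
    (hirr : ∀ p : B, Prime p → D p = 0 → ∃ x, ¬ p ∣ D x) {r c : B} (hr : D r = c)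
    (hc : IsCC D 1 c) {N : ℕ} (hN : 0 < N) {cN G : B} (hcN : IsCC D N cN) (hG : (⇑D)^[N] G = cN)
    (cc : ℕ → B) (hcc : ∀ n, IsCC D n (cc n))
    (Z : Set B) (hZ : ∀ p ∈ Z, Prime p ∧ D p = 0)
    (t : ℕ) (ch : ℕ → ℕ) (h0 : ch 0 = 1) (ht : ch t = N) (hdvd : ∀ i < t, ch i ∣ ch (i + 1))
    (hlt : ∀ i < t, ch i < ch (i + 1))
    (M : ℕ) (hblk : ∀ p ∈ Z, ∀ b, IsBlock D hln p b → b ≤ M → ∃ i ≤ t, ch i = b) (n : ℕ)
    (hnM : n ≤ M) :
    ∃ x, (⇑D)^[n + 1] x = 0 ∧ (⇑D)^[n] x ≠ 0 ∧
      ∀ p ∈ Z, ∀ s : ℕ, p ^ s ∣ (⇑D)^[n] x ↔ p ^ s ∣ cc n := by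
  classical
  -- the chain is monotone
  have hmono : ∀ i j, i ≤ j → j ≤ t → ch i ≤ ch j := by
    intro i j hij
    induction j, hij using Nat.le_induction with
    | base => intro _; exact le_rfl
    | succ j hij ih => intro hj; exact (ih (by omega)).trans (hlt j (by omega)).le
  have hdiv : ∀ i j, i ≤ j → j ≤ t → ch i ∣ ch j := by
    intro i j hij
    induction j, hij using Nat.le_induction with
    | base => intro _; exact dvd_rfl
    | succ j hij ih => intro hj; exact (ih (by omega)).trans (hdvd j (by omega))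
  have hpos : ∀ i ≤ t, 0 < ch i := by
    intro i hi
    have := hmono 0 i (Nat.zero_le _) hi
    omega
  -- local data
  have hnd : ∀ p ∈ Z, ∃ x, ¬ p ∣ D x := fun p hp => hirr p (hZ p hp).1 (hZ p hp).2
  -- consecutive members
  have hmix : ∀ p (hp : p ∈ Z), ∀ i ≤ t, ch i ≤ M → ∀ L : ℕ, L ≤ M + 1 →
      (i < t → L ≤ ch (i + 1)) →
      ∃ b, Blk (locData D p (hZ p hp).1 (hZ p hp).2 hln (hnd p hp)) b ∧ b ∣ ch i ∧
      (ch i < L → (locData D p (hZ p hp).1 (hZ p hp).2 hln (hnd p hp)).e (ch i) =
        (ch i / b) * (locData D p (hZ p hp).1 (hZ p hp).2 hln (hnd p hp)).e b) ∧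
      ∀ j l, l < ch i → j * ch i + l < L →
        (locData D p (hZ p hp).1 (hZ p hp).2 hln (hnd p hp)).e (j * ch i + l) =
        j * (locData D p (hZ p hp).1 (hZ p hp).2 hln (hnd p hp)).e (ch i) +
          (locData D p (hZ p hp).1 (hZ p hp).2 hln (hnd p hp)).e l := by
    intro p hp i hi hiM L hLM hL
    set H := locData D p (hZ p hp).1 (hZ p hp).2 hln (hnd p hp) with hH
    have hex : ∃ b, b ≤ ch i ∧ Blk H b := ⟨1, hpos i hi, blk_one H⟩
    set b := Nat.findGreatest (fun b => Blk H b) (ch i) with hb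
    have hb1 : Blk H b := Nat.findGreatest_spec (P := fun b => Blk H b) (hpos i hi) (blk_one H)
    have hb2 : b ≤ ch i := Nat.findGreatest_le _
    have hb3 : ∀ b', Blk H b' → b < b' → ch i < b' := by
      intro b' hb' hlt'
      by_contra hcon
      exact Nat.findGreatest_is_greatest hlt' (not_lt.1 hcon) hb'
    have hbb : ∀ b', Blk H b' → b' ≤ M → ∃ j ≤ t, ch j = b' := fun b' hb' hb'M =>
      hblk p hp b' ⟨(hZ p hp).1, (hZ p hp).2, hnd p hp, hb'⟩ hb'M
    have hbdvd : b ∣ ch i := by
      obtain ⟨j, hj, hjb⟩ := hbb b hb1 (hb2.trans hiM)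
      rw [← hjb]
      by_cases hji : j ≤ i
      · exact hdiv j i hji hi
      · have := hmono (i + 1) j (by omega) hj
        have := hlt i (by omega)
        omega
    have hL' : ∀ b', Blk H b' → b < b' → L ≤ b' := by
      intro b' hb' hlt'
      have h1 := hb3 b' hb' hlt'
      rcases Nat.lt_or_ge M b' with hMb | hMb
      · omega
      obtain ⟨j, hj, hjb⟩ := hbb b' hb' hMb
      have h2 : i < j := by
        by_contra hcon
        have := hmono j i (not_lt.1 hcon) hi
        omega
      have h3 := hmono (i + 1) j (by omega) hj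
      have h4 := hL (by omega)
      omega
    obtain ⟨h1, h2⟩ := hb1.mix (ch i) L hbdvd (hpos i hi) hL'
    exact ⟨b, hb1, hbdvd, h1, h2⟩
  -- the polynomials
  obtain ⟨P, hP, hPN, hPG⟩ := int_poly hln hirr hr hc hcN hG
  let _ : Algebra ℚ (kerAlg D) := ((algebraMap k (kerAlg D)).comp (algebraMap ℚ k)).toAlgebra
  have hW : ∀ i ≤ t, ch i ≤ M → ∃ w, (⇑D)^[ch i + 1] w = 0 ∧ (⇑D)^[ch i] w ≠ 0 ∧
      ∀ p ∈ Z, ∀ s : ℕ, p ^ s ∣ (⇑D)^[ch i] w ↔ p ^ s ∣ cc (ch i) := by
    intro i hi hiM
    have hiN : ch i ∣ N := by rw [← ht]; exact hdiv i t hi le_rfl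
    obtain ⟨d, hd⟩ := hiN
    have hd0 : 0 < d := by
      rcases Nat.eq_zero_or_pos d with h | h
      · rw [h] at hd; omega
      · exact h
    obtain ⟨Y, hY, hYm, hPY⟩ := approx_root P hP (ch i) d (hpos i hi) hd0 (by rw [hPN, hd])
    obtain ⟨hy1, hy2⟩ := D_top_aeval D hr hc.const Y (ch i) hY hYm
    have hfac : IsUnit (((ch i).factorial : ℕ) : B) :=
      natCast_isUnit k _ (Nat.factorial_ne_zero _)
    have hy1' : (⇑D)^[ch i] (aeval r Y) ≠ 0 := by
      rw [hy1]
      exact mul_ne_zero hfac.ne_zero (pow_ne_zero _ hc.ne)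
    have hy0 : aeval r Y ≠ 0 := by
      intro h
      apply hy1'
      rw [h]
      exact Function.iterate_fixed (map_zero D) _
    obtain ⟨a, w, ha, haw, hprim⟩ := exists_prim D hy0
    have hiter : ∀ j, (⇑D)^[j] (aeval r Y) = a * (⇑D)^[j] w := by
      intro j
      rw [← haw]
      induction j with
      | zero => rfl
      | succ j ih =>
        rw [Function.iterate_succ_apply', ih, Function.iterate_succ_apply', Derivation.leibniz, ha]
        simp
    have ha0 : a ≠ 0 := by
      rintro rfl
      apply hy0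
      rw [← haw, zero_mul]
    have hw1 : (⇑D)^[ch i + 1] w = 0 := by
      have := hiter (ch i + 1)
      rw [hy2] at this
      exact (mul_eq_zero.1 this.symm).resolve_left ha0
    have hw0 : (⇑D)^[ch i] w ≠ 0 := by
      intro h
      apply hy1'
      rw [hiter, h, mul_zero]
    refine ⟨w, hw1, hw0, fun p hp s => ⟨fun hs => ?_, fun hs => ?_⟩⟩
    · have hprime := (hZ p hp).1
      obtain ⟨b, hb1, hb2, hb3, -⟩ := hmix p hp i hi hiM
        (if i < t then min (ch (i + 1)) (M + 1) else M + 1)
        (by split_ifs; exacts [min_le_right _ _, le_rfl])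
        (by intro h; rw [if_pos h]; exact min_le_left _ _)
      have hb4 := hb3 (by
        split_ifs with h
        · exact lt_min (hlt i h) (by omega)
        · omega)
      set H := locData D p (hZ p hp).1 (hZ p hp).2 hln (hnd p hp) with hH
      have hbpos : 0 < b := hb1.1
      have hroot := root_dvd hln hprime (hZ p hp).2 (hnd p hp) hr hc (hpos i hi) hd0 hd hcN hG hP hPN
        hPG hY hYm hPY b hb1 hb2
      rw [← hH] at hroot
      have hE : (ch i / b) * (b * H.e 1 - H.e b) = ch i * H.e 1 - H.e (ch i) := by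
        rw [Nat.mul_sub, ← mul_assoc, Nat.div_mul_cancel hb2, ← hb4]
      rw [hE, ← haw] at hroot
      have hsub : H.e (ch i) ≤ ch i * H.e 1 := by
        have : ∀ j, H.e j ≤ j * H.e 1 := by
          intro j
          induction j with
          | zero => rw [e_zero]; omega
          | succ j ih =>
            have := e_add_le H j 1
            rw [Nat.succ_mul]
            omega
        exact this _
      have ha' : p ^ (ch i * H.e 1 - H.e (ch i)) ∣ a :=
        hprime.pow_dvd_of_dvd_mul_right _ (hprim p hprime (hZ p hp).2) hroot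
      have h5 : p ^ ((ch i * H.e 1 - H.e (ch i)) + s) ∣ c ^ (ch i) := by
        rw [pow_add]
        have := mul_dvd_mul ha' hs
        rw [← hiter, hy1, hfac.dvd_mul_left] at this
        exact this
      rw [pow_dvd_pow_iff' hprime (fun s => loc_e D hprime (hZ p hp).2 hln (hnd p hp) hc s)] at h5
      rw [loc_e D hprime (hZ p hp).2 hln (hnd p hp) (hcc (ch i)) s]
      rw [← hH] at h5 ⊢
      omega
    · exact hs.trans ((hcc (ch i)).dvd w hw1)
  -- induction
  induction n using Nat.strong_induction_on with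
  | _ n ih =>
    rcases Nat.eq_zero_or_pos n with hn | hn
    · subst hn
      refine ⟨1, by simp, by simp, fun p hp s => ?_⟩
      have h1 : IsUnit (cc 0) := isUnit_of_dvd_one (by simpa using (hcc 0).dvd 1 (by simp))
      simp only [Function.iterate_zero, id]
      constructor
      · intro h
        exact h.trans (one_dvd _)
      · intro h
        exact h.trans h1.dvd
    · set i := Nat.findGreatest (fun i => ch i ≤ n) t with hi
      have hi1 : ch i ≤ n := Nat.findGreatest_spec (P := fun i => ch i ≤ n) (Nat.zero_le t)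
        (by rw [h0]; exact hn)
      have hit : i ≤ t := Nat.findGreatest_le _
      have hi2 : i < t → n < ch (i + 1) := by
        intro h
        by_contra hcon
        exact Nat.findGreatest_is_greatest (P := fun i => ch i ≤ n) (n := t) (k := i + 1)
          (by omega) (by omega) (not_lt.1 hcon)
      obtain ⟨w, hw1, hw2, hw3⟩ := hW i hit (hi1.trans hnM)
      have hchpos := hpos i hit
      obtain ⟨x, hx1, hx2, hx3⟩ := ih (n - ch i) (by omega) (by omega)
      obtain ⟨hm1, hm2⟩ := iter_mul_top D n (ch i) (n - ch i) w x (by omega) hw1 hx1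
      have hch : IsUnit ((n.choose (ch i) : ℕ) : B) :=
        natCast_isUnit k _ (Nat.choose_pos hi1).ne'
      refine ⟨w * x, hm2, ?_, fun p hp s => ?_⟩
      · rw [hm1]
        exact mul_ne_zero hch.ne_zero (mul_ne_zero hw2 hx2)
      · have hprime := (hZ p hp).1
        obtain ⟨b, -, -, -, hb⟩ := hmix p hp i hit (hi1.trans hnM)
          (if i < t then min (ch (i + 1)) (M + 1) else M + 1)
          (by split_ifs; exacts [min_le_right _ _, le_rfl])
          (by intro h; rw [if_pos h]; exact min_le_left _ _)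
        rw [hm1, hch.dvd_mul_left]
        rw [pow_dvd_mul_iff' hprime
          (fun s => (hw3 p hp s).trans (loc_e D hprime (hZ p hp).2 hln (hnd p hp) (hcc (ch i)) s))
          (fun s => (hx3 p hp s).trans
            (loc_e D hprime (hZ p hp).2 hln (hnd p hp) (hcc (n - ch i)) s)),
          loc_e D hprime (hZ p hp).2 hln (hnd p hp) (hcc n) s]
        have hL : n < (if i < t then min (ch (i + 1)) (M + 1) else M + 1) := by
          split_ifs with h
          · exact lt_min (hi2 h) (by omega)
          · omega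
        rw [step_arith _ _ _ n hchpos hi1 hL hb]

end Pool.Agent.LNDF
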