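import Mathlib

set_option autoImplicit false

namespace Pool.Agent.LNDF

variable {k B : Type} [Field k] [CommRing B] [Algebra k B]

/-- the image ideal of degree `n` is principal -/
def Princ (D : Derivation k B B) (n : ℕ) : Prop :=
  ∃ a : B, D a = 0 ∧ ∀ v : B, (∃ x, (⇑D)^[n + 1] x = 0 ∧ (⇑D)^[n] x = v) ↔
    ∃ c, D c = 0 ∧ v = a * c

/-- the module `ker D^N` over `ker D` has a finite dual basis (it is finitely generated and
projective) -/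
def DualB (D : Derivation k B B) (N : ℕ) : Prop :=
  ∃ (m : ℕ) (b : Fin m → B) (lam : Fin m → B → B), (∀ i, (⇑D)^[N] (b i) = 0) ∧
    (∀ i t, (⇑D)^[N] t = 0 → D (lam i t) = 0) ∧
    (∀ i t t', (⇑D)^[N] t = 0 → (⇑D)^[N] t' = 0 → lam i (t + t') = lam i t + lam i t') ∧
    (∀ i a t, D a = 0 → (⇑D)^[N] t = 0 → lam i (a * t) = a * lam i t) ∧
    ∀ t, (⇑D)^[N] t = 0 → t = ∑ i, lam i t * b i

/-- the package of the main theorem -/
structure Pkg (D : Derivation k B B) (N : ℕ) (G : B) : Prop where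
  pos : 0 < N
  ne : (⇑D)^[N] G ≠ 0
  top : (⇑D)^[N + 1] G = 0
  gen : ∀ x, (⇑D)^[N + 1] x = 0 → (⇑D)^[N] G ∣ (⇑D)^[N] x
  div : ∀ b, ∃ s t, b = s * G + t ∧ (⇑D)^[N] t = 0
  princ : ∀ n, N ∣ n ∨ N ∣ n + 1 → Princ D n
  dual : ∀ n, 0 < n → DualB D n

end Pool.Agent.LNDF
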