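import Mathlib
import Pool.Agent.LNDF.ChF
import Pool.Agent.LNDF.Ar3
import Pool.Agent.LNDF.FinDefs

set_option autoImplicit false

open Polynomial

namespace Pool.Agent.LNDF

open Pool.Agent.LNDHom

/-- a set of divisors of `N`, which divide each other, as a chain -/
theorem chG_chain_of_set {N : ℕ} (hN : 0 < N) {S : Set ℕ} (h1 : 1 ∈ S) (hNS : N ∈ S)
    (hdvd : ∀ b ∈ S, b ∣ N) (hcmp : ∀ a ∈ S, ∀ b ∈ S, a ≤ b → a ∣ b) :
    ∃ (t : ℕ) (ch : ℕ → ℕ), ch 0 = 1 ∧ ch t = N ∧ (∀ i < t, ch i ∣ ch (i + 1)) ∧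
      (∀ i < t, ch i < ch (i + 1)) ∧ ∀ b ∈ S, ∃ i ≤ t, ch i = b := by
  classical
  set T : Finset ℕ := (Nat.divisors N).filter (· ∈ S) with hT
  have hmem : ∀ b, b ∈ T ↔ b ∈ S := by
    intro b
    rw [hT, Finset.mem_filter, Nat.mem_divisors]
    exact ⟨fun h => h.2, fun h => ⟨⟨hdvd b h, hN.ne'⟩, h⟩⟩
  obtain ⟨k, hk⟩ : ∃ k, T.card = k + 1 :=
    ⟨T.card - 1, (Nat.succ_pred_eq_of_pos (Finset.card_pos.2 ⟨1, (hmem 1).2 h1⟩)).symm⟩
  set f := T.orderEmbOfFin hk with hf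
  have hfT : ∀ i, f i ∈ S := fun i => (hmem _).1 (T.orderEmbOfFin_mem hk i)
  have hfr : ∀ b ∈ S, ∃ i, f i = b := by
    intro b hb
    have h2 : b ∈ Set.range f := by
      rw [hf, Finset.range_orderEmbOfFin]
      exact (hmem b).2 hb
    exact h2
  have hpos : ∀ i, 0 < f i := fun i => Nat.pos_of_dvd_of_pos (hdvd _ (hfT i)) hN
  have hch : ∀ (i : ℕ) (h : i < k + 1),
      (if h : i < k + 1 then f ⟨i, h⟩ else 0) = f ⟨i, h⟩ := fun i h => dif_pos h
  refine ⟨k, fun i => if h : i < k + 1 then f ⟨i, h⟩ else 0, ?_, ?_, ?_, ?_, ?_⟩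
  · show (if h : 0 < k + 1 then f ⟨0, h⟩ else 0) = 1
    rw [hch 0 (by omega)]
    obtain ⟨j, hj⟩ := hfr 1 h1
    have h2 : f ⟨0, by omega⟩ ≤ f j := f.monotone (Fin.mk_le_of_le_val (Nat.zero_le _))
    have h3 := hpos ⟨0, by omega⟩
    omega
  · show (if h : k < k + 1 then f ⟨k, h⟩ else 0) = N
    rw [hch k (by omega)]
    obtain ⟨j, hj⟩ := hfr N hNS
    have h2 : f j ≤ f ⟨k, by omega⟩ := f.monotone (Fin.mk_le_mk.2 (by have := j.2; omega) : (⟨j.1, j.2⟩ : Fin (k + 1)) ≤ _)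
    have h3 := Nat.le_of_dvd hN (hdvd _ (hfT ⟨k, by omega⟩))
    omega
  · intro i hi
    show (if h : i < k + 1 then f ⟨i, h⟩ else 0) ∣ (if h : i + 1 < k + 1 then f ⟨i + 1, h⟩ else 0)
    rw [hch i (by omega), hch (i + 1) (by omega)]
    exact hcmp _ (hfT _) _ (hfT _) (f.monotone (Fin.mk_le_mk.2 (by omega)))
  · intro i hi
    show (if h : i < k + 1 then f ⟨i, h⟩ else 0) < (if h : i + 1 < k + 1 then f ⟨i + 1, h⟩ else 0)
    rw [hch i (by omega), hch (i + 1) (by omega)]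
    exact f.strictMono (Fin.mk_lt_mk.2 (by omega))
  · intro b hb
    obtain ⟨⟨j, hj⟩, hjb⟩ := hfr b hb
    refine ⟨j, by omega, ?_⟩
    show (if h : j < k + 1 then f ⟨j, h⟩ else 0) = b
    rw [hch j hj, hjb]

variable {k B : Type} [Field k] [CharZero k] [CommRing B] [IsDomain B] [Algebra k B]
  [UniqueFactorizationMonoid B]

omit [CharZero k] [IsDomain B] [UniqueFactorizationMonoid B] in
theorem chG_iter_mul (D : Derivation k B B) {a : B} (ha : D a = 0) (x : B) (n : ℕ) :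
    (⇑D)^[n] (a * x) = a * (⇑D)^[n] x := by
  induction n with
  | zero => rfl
  | succ m ih =>
    rw [Function.iterate_succ_apply', Function.iterate_succ_apply', ih, Derivation.leibniz, ha,
      smul_zero, add_zero, smul_eq_mul]

omit [CharZero k] [IsDomain B] [UniqueFactorizationMonoid B] in
theorem chG_iter_add (D : Derivation k B B) (n : ℕ) (x y : B) :
    (⇑D)^[n] (x + y) = (⇑D)^[n] x + (⇑D)^[n] y := by
  induction n with
  | zero => rfl
  | succ m ih => rw [Function.iterate_succ_apply', Function.iterate_succ_apply',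
      Function.iterate_succ_apply', ih, map_add]

/-- every block of `p` divides `npB D p` -/
theorem IsBlock.dvd_npB {D : Derivation k B B} {hln : ∀ x, ∃ n, (⇑D)^[n] x = 0} {p : B} {b : ℕ}
    (h : IsBlock D hln p b) : b ∣ npB D p ∧ 0 < b := by
  obtain ⟨hp, hDp, hnd, hb⟩ := h
  refine ⟨?_, hb.1⟩
  rw [← np_eq D hp hDp hln hnd]
  exact hb.dvd (blk_np _) hb.le_np

/-- CHAIN OF DIVISORS. If for any two primes in `Z` all divisors `a ≤ M` of `npB D p` and `b ≤ M` of `npB D q`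
divide one another, there is a chain of divisors of `N` which contains `1`, `N` and all blocks `≤ M` of
all primes in `Z`. -/
theorem exists_chain {D : Derivation k B B} (hln : ∀ x, ∃ n, (⇑D)^[n] x = 0)
    (N : ℕ) (hN : 0 < N) (hnp : ∀ p : B, Prime p → D p = 0 → npB D p ∣ N)
    (hirr : ∀ p : B, Prime p → D p = 0 → ∃ x, ¬ p ∣ D x)
    (Z : Set B) (hZ : ∀ p ∈ Z, Prime p ∧ D p = 0) (M : ℕ)
    (hyp : ∀ p ∈ Z, ∀ q ∈ Z, p ≠ q → ∀ a b : ℕ, a ∣ npB D p → b ∣ npB D q → a ≤ M → b ≤ M →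
      a ∣ b ∨ b ∣ a) :
    ∃ (t : ℕ) (ch : ℕ → ℕ), ch 0 = 1 ∧ ch t = N ∧ (∀ i < t, ch i ∣ ch (i + 1)) ∧
      (∀ i < t, ch i < ch (i + 1)) ∧
      ∀ p ∈ Z, ∀ b, IsBlock D hln p b → b ≤ M → ∃ i ≤ t, ch i = b := by
  have hbN : ∀ p ∈ Z, ∀ b, IsBlock D hln p b → b ∣ N := fun p hp b hb =>
    hb.dvd_npB.1.trans (hnp p (hZ p hp).1 (hZ p hp).2)
  have key := chG_chain_of_set hN (S := {b | b = 1 ∨ b = N ∨ ∃ p ∈ Z, IsBlock D hln p b ∧ b ≤ M})
    (Or.inl rfl) (Or.inr (Or.inl rfl)) ?_ ?_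
  · obtain ⟨t, ch, h0, ht, hd, hl, hb⟩ := key
    exact ⟨t, ch, h0, ht, hd, hl, fun p hp b hpb hbM =>
      hb b (Or.inr (Or.inr ⟨p, hp, hpb, hbM⟩))⟩
  · rintro b (rfl | rfl | ⟨p, hp, hb, -⟩)
    · exact one_dvd _
    · exact dvd_rfl
    · exact hbN p hp b hb
  · rintro a ha b hb hab
    have haN : a ∣ N ∧ 0 < a := by
      rcases ha with rfl | rfl | ⟨p, hp, hb, -⟩
      · exact ⟨one_dvd _, one_pos⟩
      · exact ⟨dvd_rfl, hN⟩
      · exact ⟨hbN p hp a hb, hb.dvd_npB.2⟩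
    rcases hb with rfl | rfl | ⟨q, hq, hb, hbM⟩
    · have : a = 1 := by omega
      rw [this]
    · exact haN.1
    · rcases ha with rfl | rfl | ⟨p, hp, ha, haM⟩
      · exact one_dvd _
      · have h1 := Nat.le_of_dvd hN (hbN q hq b hb)
        have h2 : a = b := by omega
        rw [h2]
      · by_cases hpq : p = q
        · subst hpq
          obtain ⟨h1, h2, h3, h4⟩ := ha
          obtain ⟨_, _, _, h8⟩ := hb
          exact h4.dvd h8 hab
        · rcases hyp p hp q hq hpq a b ha.dvd_npB.1 hb.dvd_npB.1 haM hbM with h | h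
          · exact h
          · rw [hab.antisymm (Nat.le_of_dvd haN.2 h)]

/-- CHAIN. For a maximal ideal `m` of `kerAlg D` let `Z` be a set of representatives, up to associates, of the
prime constants in `m` (for example those `p` with `Quot.out (Associates.mk p) = p`). The ideal
`{a | ∃ x, D^n x = a c_n}` is in no `m` (`chain_local`), so it contains `1`. -/
theorem chain_main {D : Derivation k B B} (hD : ∃ x, D x ≠ 0) (hln : ∀ x, ∃ n, (⇑D)^[n] x = 0)
    (hirr : ∀ p : B, Prime p → D p = 0 → ∃ x, ¬ p ∣ D x) (A : Arith D) {G : B}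
    (hG : (⇑D)^[A.N] G = A.cc A.N) {r : B} (hr : D r = A.cc 1)
    (n : ℕ)
    (hyp : ∀ p q : B, Prime p → Prime q → D p = 0 → D q = 0 → ¬ Associated p q →
      (∃ a b, D a = 0 ∧ D b = 0 ∧ a * p + b * q = 1) ∨
        ∀ a b : ℕ, a ∣ npB D p → b ∣ npB D q → a ≤ n → b ≤ n → a ∣ b ∨ b ∣ a) :
    ∃ x, (⇑D)^[n] x = A.cc n := by
  have hconst : ∀ a x : B, D a = 0 → (⇑D)^[n] (a * x) = a * (⇑D)^[n] x := fun a x ha =>
    chG_iter_mul D ha x n
  have hadd : ∀ x y : B, (⇑D)^[n] (x + y) = (⇑D)^[n] x + (⇑D)^[n] y := chG_iter_add D n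
  have hc0 : A.cc n ≠ 0 := (A.isCC n).ne
  -- the ideal
  let I : Ideal (kerAlg D) :=
    { carrier := {a | ∃ x, (⇑D)^[n] x = (a : B) * A.cc n}
      add_mem' := by
        rintro a b ⟨x, hx⟩ ⟨y, hy⟩
        refine ⟨x + y, ?_⟩
        rw [hadd, hx, hy, Subalgebra.coe_add, add_mul]
      zero_mem' := ⟨0, by
        rw [Subalgebra.coe_zero, zero_mul]
        have := hconst 0 0 (map_zero _)
        rw [zero_mul, zero_mul] at this
        exact this⟩
      smul_mem' := by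
        rintro c a ⟨x, hx⟩
        refine ⟨(c : B) * x, ?_⟩
        rw [hconst _ _ c.2, hx, smul_eq_mul, Subalgebra.coe_mul, mul_assoc] }
  have hI : I = ⊤ := by
    by_contra hne
    obtain ⟨m, hm, hIm⟩ := Ideal.exists_le_maximal I hne
    have hmp := hm.isPrime
    -- the primes in `m`
    let Z : Set B := {p | Prime p ∧ ∃ h : D p = 0, (⟨p, h⟩ : kerAlg D) ∈ m ∧
      Quot.out (Associates.mk p) = p}
    have hZ : ∀ p ∈ Z, Prime p ∧ D p = 0 := fun p hp => ⟨hp.1, hp.2.choose⟩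
    have hunit : ∀ u : B, IsUnit u → D u = 0 := fun u hu =>
      const_of_dvd D hln D.map_one_eq_zero one_ne_zero (isUnit_iff_dvd_one.1 hu)
    have hrep : ∀ p : B, Prime p → ∀ h : D p = 0, (⟨p, h⟩ : kerAlg D) ∈ m →
        ∃ q ∈ Z, Associated p q := by
      intro p hp h hpm
      have h1 : Associates.mk (Quot.out (Associates.mk p)) = Associates.mk p := Quot.out_eq _
      have h2 : Associated p (Quot.out (Associates.mk p)) :=
        (Associates.mk_eq_mk_iff_associated.1 h1).symm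
      obtain ⟨u, hu⟩ := h2
      have h3 : D (Quot.out (Associates.mk p)) = 0 := by
        rw [← hu, Derivation.leibniz, h, hunit _ u.isUnit, smul_zero, smul_zero, add_zero]
      refine ⟨Quot.out (Associates.mk p), ⟨(Associated.prime_iff ⟨u, hu⟩).1 hp, h3, ?_, ?_⟩, ⟨u, hu⟩⟩
      · have : (⟨Quot.out (Associates.mk p), h3⟩ : kerAlg D) =
            ⟨(u : B), hunit _ u.isUnit⟩ * ⟨p, h⟩ := Subtype.ext (by
          show Quot.out (Associates.mk p) = (u : B) * p
          rw [mul_comm]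
          exact hu.symm)
        rw [this]
        exact m.mul_mem_left _ hpm
      · rw [h1]
    have hyp' : ∀ p ∈ Z, ∀ q ∈ Z, p ≠ q → ∀ a b : ℕ, a ∣ npB D p → b ∣ npB D q → a ≤ n → b ≤ n →
        a ∣ b ∨ b ∣ a := by
      rintro p ⟨hp1, hp2, hp3, hp4⟩ q ⟨hq1, hq2, hq3, hq4⟩ hpq
      have hna : ¬ Associated p q := by
        intro h
        apply hpq
        rw [← hp4, ← hq4, Associates.mk_eq_mk_iff_associated.2 h]
      rcases hyp p q hp1 hq1 hp2 hq2 hna with ⟨a, b, ha, hb, hab⟩ | h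
      · exfalso
        apply hmp.ne_top
        rw [Ideal.eq_top_iff_one]
        have : (1 : kerAlg D) = ⟨a, ha⟩ * ⟨p, hp2⟩ + ⟨b, hb⟩ * ⟨q, hq2⟩ :=
          Subtype.ext hab.symm
        rw [this]
        exact m.add_mem (m.mul_mem_left _ hp3) (m.mul_mem_left _ hq3)
      · exact h
    obtain ⟨t, ch, h0, ht, hdvd, hlt, hblk⟩ := exists_chain hln A.N A.N_pos A.npN hirr Z hZ n hyp'
    obtain ⟨x, hx1, hx2, hx3⟩ := chain_local hln hirr hr (A.isCC 1) A.N_pos (A.isCC A.N) hG A.cc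
      A.isCC Z hZ t ch h0 ht hdvd hlt n hblk n le_rfl
    obtain ⟨a, ha⟩ := (A.isCC n).dvd x hx1
    have ha0 : a ≠ 0 := by
      rintro rfl
      exact hx2 (by rw [ha, mul_zero])
    have hDx : D ((⇑D)^[n] x) = 0 := by
      rw [← Function.iterate_succ_apply' (⇑D) n x]
      exact hx1
    have hDa : D a = 0 := const_of_dvd D hln hDx hx2 ⟨A.cc n, by rw [ha, mul_comm]⟩
    have ham : (⟨a, hDa⟩ : kerAlg D) ∈ m := hIm ⟨x, by rw [ha, mul_comm]⟩
    -- a prime factor of `a` in `m`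
    have hfac : ∀ a : B, a ≠ 0 → ∀ h : D a = 0, (⟨a, h⟩ : kerAlg D) ∈ m →
        ∃ p : B, Prime p ∧ p ∣ a ∧ ∃ h : D p = 0, (⟨p, h⟩ : kerAlg D) ∈ m := by
      intro a
      induction a using UniqueFactorizationMonoid.induction_on_prime with
      | h₁ => exact fun h => absurd rfl h
      | h₂ u hu =>
        intro _ h hum
        exfalso
        obtain ⟨w, hw⟩ := hu.exists_right_inv
        apply hmp.ne_top
        rw [Ideal.eq_top_iff_one]
        have : (1 : kerAlg D) = ⟨w, hunit w (IsUnit.of_mul_eq_one u (by rw [mul_comm]; exact hw))⟩ *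
            ⟨u, h⟩ := Subtype.ext (by
          show (1 : B) = w * u
          rw [mul_comm, hw])
        rw [this]
        exact m.mul_mem_left _ hum
      | h₃ a p ha' hp ih =>
        intro hpa h hm'
        have hDp : D p = 0 := const_of_dvd D hln h hpa (dvd_mul_right p a)
        have hDa : D a = 0 := const_of_dvd D hln h hpa (dvd_mul_left a p)
        have : (⟨p * a, h⟩ : kerAlg D) = ⟨p, hDp⟩ * ⟨a, hDa⟩ := rfl
        rw [this] at hm'
        rcases hmp.mem_or_mem hm' with h1 | h1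
        · exact ⟨p, hp, dvd_mul_right p a, hDp, h1⟩
        · obtain ⟨q, hq, hqa, hDq, hqm⟩ := ih ha' hDa h1
          exact ⟨q, hq, hqa.mul_left p, hDq, hqm⟩
    obtain ⟨p, hp, hpa, hDp, hpm⟩ := hfac a ha0 hDa ham
    obtain ⟨q, hqZ, hpq⟩ := hrep p hp hDp hpm
    have hqa : q ∣ a := hpq.symm.dvd.trans hpa
    have hqp : Prime q := hqZ.1
    have hall : ∀ s : ℕ, q ^ s ∣ A.cc n := by
      intro s
      induction s with
      | zero => rw [pow_zero]; exact one_dvd _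
      | succ s ih =>
        rw [← hx3 q hqZ (s + 1), ha, pow_succ]
        exact mul_dvd_mul ih hqa
    obtain ⟨s, hs⟩ := FiniteMultiplicity.of_not_isUnit hqp.not_isUnit hc0
    exact hs (hall (s + 1))
  have h1 : (1 : kerAlg D) ∈ I := by rw [hI]; exact Submodule.mem_top
  obtain ⟨x, hx⟩ := h1
  exact ⟨x, by rw [hx, Subalgebra.coe_one, one_mul]⟩

end Pool.Agent.LNDF
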