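import Mathlib

/-!
# Local freeness at a prime element with principal residue ring (abstract form)
-/

set_option autoImplicit false

namespace Pool.Agent.LNDF

theorem loc_free_abs {R N : Type} [CommRing R] [IsDomain R] [WfDvdMonoid R] [AddCommGroup N] [Module R N] [Module.Finite R N]
    (p : R) (hp : Prime p) [IsPrincipalIdealRing (R ⧸ Ideal.span {p})]
    (H : ∀ (a : R) (x y : N), a • x = p • y → p ∣ a ∨ ∃ z, x = p • z)
    (hinj : ∀ x : N, p • x = 0 → x = 0) :
    ∃ (ν : ℕ) (b : Fin ν → N) (e : R), e - 1 ∈ Ideal.span {p} ∧ LinearIndependent R b ∧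
      ∀ x : N, ∃ a : Fin ν → R, e • x = ∑ j, a j • b j := by
  have hprime : (Ideal.span {p}).IsPrime := (Ideal.span_singleton_prime hp.ne_zero).2 hp
  set I : Ideal R := Ideal.span {p} with hI
  have : IsDomain (R ⧸ I) := Ideal.Quotient.isDomain _
  have memI : ∀ x : N, x ∈ I • (⊤ : Submodule R N) ↔ ∃ z, x = p • z := by
    intro x
    rw [hI, Submodule.ideal_span_singleton_smul, Submodule.mem_smul_pointwise_iff_exists]
    exact ⟨fun ⟨z, _, hz⟩ => ⟨z, hz.symm⟩, fun ⟨z, hz⟩ => ⟨z, Submodule.mem_top, hz.symm⟩⟩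
  have hsm : ∀ (a : R) (x : N), (Ideal.Quotient.mk I a) • (Submodule.Quotient.mk x : N ⧸ (I • (⊤ : Submodule R N))) =
      Submodule.Quotient.mk (a • x) := fun a x => rfl
  have htf : Module.IsTorsionFree (R ⧸ I) (N ⧸ (I • (⊤ : Submodule R N))) := by
    refine Module.IsTorsionFree.of_smul_eq_zero fun r m h => ?_
    obtain ⟨a, rfl⟩ := Ideal.Quotient.mk_surjective r
    obtain ⟨x, rfl⟩ := Submodule.Quotient.mk_surjective _ m
    rw [hsm, Submodule.Quotient.mk_eq_zero, memI] at h
    obtain ⟨y, hy⟩ := h
    rcases H a x y hy with h1 | h1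
    · left
      exact Ideal.Quotient.eq_zero_iff_mem.2 (Ideal.mem_span_singleton.2 h1)
    · right
      rw [Submodule.Quotient.mk_eq_zero, memI]
      exact h1
  have hfin : Module.Finite (R ⧸ I) (N ⧸ (I • (⊤ : Submodule R N))) := inferInstance
  have hfree : Module.Free (R ⧸ I) (N ⧸ (I • (⊤ : Submodule R N))) := Module.free_of_finite_type_torsion_free'
  let B := Module.finBasis (R ⧸ I) (N ⧸ (I • (⊤ : Submodule R N)))
  set ν := Module.finrank (R ⧸ I) (N ⧸ (I • (⊤ : Submodule R N))) with hν
  have hb : ∀ j : Fin ν, ∃ x : N, Submodule.Quotient.mk x = B j := fun j => Submodule.Quotient.mk_surjective _ (B j)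
  choose b hb using hb
  have hfg : (⊤ : Submodule R N).FG := Module.Finite.fg_top
  have hle : (⊤ : Submodule R N) ≤ Submodule.span R (Set.range b) ⊔ I • ⊤ := by
    intro x _
    have h1 := B.sum_repr (Submodule.Quotient.mk x)
    have h2 : ∀ j, ∃ a : R, Ideal.Quotient.mk I a = B.repr (Submodule.Quotient.mk x) j := fun j => Ideal.Quotient.mk_surjective _
    choose a ha using h2
    have h3 : Submodule.Quotient.mk x = (Submodule.Quotient.mk (∑ j, a j • b j) : N ⧸ (I • (⊤ : Submodule R N))) := by
      rw [← h1]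
      have h4 : (Submodule.Quotient.mk (∑ j, a j • b j) : N ⧸ (I • (⊤ : Submodule R N))) =
          ∑ j, (Submodule.Quotient.mk (a j • b j) : N ⧸ (I • (⊤ : Submodule R N))) :=
        map_sum (Submodule.mkQ (I • (⊤ : Submodule R N))) _ _
      rw [h4]
      exact Finset.sum_congr rfl fun j _ => by rw [← ha j, ← hb j, hsm]
    rw [Submodule.Quotient.eq] at h3
    have h5 : x = ∑ j, a j • b j + (x - ∑ j, a j • b j) := by abel
    rw [h5]
    exact Submodule.add_mem_sup (Submodule.sum_mem _ fun j _ => Submodule.smul_mem _ _ (Submodule.subset_span ⟨j, rfl⟩)) h3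
  obtain ⟨e, he, hsub⟩ := Submodule.exists_sub_one_mem_and_smul_le_of_fg_of_le_sup hfg le_top hle
  refine ⟨ν, b, e, he, ?_, ?_⟩
  · rw [Fintype.linearIndependent_iff]
    intro g hg
    -- all coefficients are divisible by all powers of `p`
    have key : ∀ (m : ℕ) (g : Fin ν → R), ∑ j, g j • b j = 0 → ∀ j, p ^ m ∣ g j := by
      intro m
      induction m with
      | zero => exact fun g _ j => by rw [pow_zero]; exact one_dvd _
      | succ m ih =>
        intro g hg j
        have h1 : ∀ j, p ∣ g j := by
          have h2 : ∑ j, (Ideal.Quotient.mk I (g j)) • B j = 0 := by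
            have h3 := congrArg (Submodule.mkQ (I • (⊤ : Submodule R N))) hg
            rw [map_sum, map_zero] at h3
            rw [← h3]
            exact Finset.sum_congr rfl fun j _ => by
              rw [← hb j, hsm]
              rfl
          intro j
          have h3 := (Fintype.linearIndependent_iff.1 B.linearIndependent) _ h2 j
          exact Ideal.mem_span_singleton.1 (Ideal.Quotient.eq_zero_iff_mem.1 h3)
        choose g' hg' using h1
        have h2 : ∑ j, g' j • b j = 0 := by
          apply hinj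
          rw [Finset.smul_sum, ← hg]
          exact Finset.sum_congr rfl fun j _ => by rw [smul_smul, ← hg' j]
        rw [hg' j, pow_succ']
        exact mul_dvd_mul_left p (ih g' h2 j)
    intro j
    by_contra h0
    obtain ⟨m, hm⟩ := FiniteMultiplicity.of_prime_left hp h0
    exact hm (key (m + 1) g hg j)
  · intro x
    have h1 : e • x ∈ Submodule.span R (Set.range b) := hsub (Submodule.smul_mem_pointwise_smul x e ⊤ Submodule.mem_top)
    obtain ⟨a, ha⟩ := (Submodule.mem_span_range_iff_exists_fun R).1 h1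
    exact ⟨a, ha.symm⟩

end Pool.Agent.LNDF
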