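import Mathlib
import Pool.Agent.LNDF.Model
import Pool.Agent.LNDF.LocAbs

set_option autoImplicit false

open Polynomial

namespace Pool.Agent.LNDF

variable {k : Type} [Field k] [CharZero k]

theorem al_add' (a b : A2 k) : al (a + b) = al a + al b := map_add _ a b

theorem al_mul' (a b : A2 k) : al (a * b) = al a * al b := map_mul _ a b

theorem smul_eq' (a : A2 k) (h : (K2 k)[X]) : a • h = C (al a) * h := by
  rw [Algebra.smul_def, Polynomial.algebraMap_apply]

theorem Model.al_mul_mem (M : Model k) (a : A2 k) {h : (K2 k)[X]} (hh : h ∈ M.S) : C (al a) * h ∈ M.S := by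
  rw [← smul_eq']
  exact M.S.smul_mem hh a

theorem Model.iter_mem (M : Model k) {h : (K2 k)[X]} (hh : h ∈ M.S) (m : ℕ) : C (al M.c ^ m) * derivative^[m] h ∈ M.S := by
  induction m with
  | zero => simpa using hh
  | succ m ih =>
    have h1 := M.D_mem _ ih
    rw [derivative_C_mul, ← Function.iterate_succ_apply' derivative m h, ← mul_assoc, ← C_mul, ← pow_succ'] at h1
    exact h1

/-- the top coefficient -/
theorem Model.top_mem (M : Model k) {h : (K2 k)[X]} (hh : h ∈ M.S) {m : ℕ} (hd : h.natDegree ≤ m) :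
    ∃ a : A2 k, al a = (m.factorial : K2 k) * al M.c ^ m * h.coeff m := by
  have h1 := M.iter_mem hh m
  have h2 : derivative^[m] h = C ((m.factorial : K2 k) * h.coeff m) := by
    ext j
    rw [coeff_iterate_derivative, coeff_C, nsmul_eq_mul]
    split_ifs with hj
    · rw [hj, zero_add, Nat.descFactorial_self]
    · rw [coeff_eq_zero_of_natDegree_lt (by omega), mul_zero]
  rw [h2, ← C_mul] at h1
  obtain ⟨a, ha⟩ := M.inter _ h1
  exact ⟨a, by rw [ha]; ring⟩

theorem Model.X_pow_mem (M : Model k) (m : ℕ) : (X : (K2 k)[X]) ^ m ∈ M.S := pow_mem M.X_mem m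

/-- a common denominator for the coefficients of the elements of `S` of degree `≤ n`: by
induction on `n` (`D_mem` `n` times gives `n! c^n h_n ∈ A2` by `inter`; subtract the top term) -/
theorem Model.denom (M : Model k) (n : ℕ) : ∃ q : A2 k, q ≠ 0 ∧
    ∀ h ∈ M.S, h.natDegree ≤ n → ∀ j, ∃ a : A2 k, al q * h.coeff j = al a := by
  induction n with
  | zero =>
    refine ⟨1, one_ne_zero, fun h hh hd j => ?_⟩
    obtain ⟨a, ha⟩ := M.top_mem hh hd
    rcases Nat.eq_zero_or_pos j with hj | hj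
    · refine ⟨a, ?_⟩
      rw [hj, ha, al, map_one]
      simp
    · refine ⟨0, ?_⟩
      rw [coeff_eq_zero_of_natDegree_lt (by omega), mul_zero, al, map_zero]
  | succ n ih =>
    obtain ⟨q, hq, hall⟩ := ih
    set q' : A2 k := ((n + 1).factorial : A2 k) * M.c ^ (n + 1) with hq'
    have hq'0 : q' ≠ 0 := mul_ne_zero (Nat.cast_ne_zero.2 (Nat.factorial_ne_zero _)) (pow_ne_zero _ M.c_ne)
    have hal : al q' = ((n + 1).factorial : K2 k) * al M.c ^ (n + 1) := by
      rw [hq', al, map_mul, map_pow, map_natCast]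
    refine ⟨q * q', mul_ne_zero hq hq'0, fun h hh hd j => ?_⟩
    obtain ⟨a, ha⟩ := M.top_mem hh hd
    rw [← hal] at ha
    have hsub : C (al q') * h - C (al a) * X ^ (n + 1) ∈ M.S :=
      M.S.sub_mem (M.al_mul_mem q' hh) (M.al_mul_mem a (M.X_pow_mem _))
    have hdeg : (C (al q') * h - C (al a) * X ^ (n + 1)).natDegree ≤ n := by
      rw [natDegree_le_iff_coeff_eq_zero]
      intro N hN
      rw [coeff_sub, coeff_C_mul, coeff_C_mul, coeff_X_pow]
      split_ifs with h1
      · rw [h1, ha, mul_one, sub_self]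
      · rw [coeff_eq_zero_of_natDegree_lt (by omega), mul_zero, mul_zero, sub_zero]
    have hmul : al (q * q') = al q * al q' := by rw [al, map_mul]
    rcases eq_or_ne j (n + 1) with hj | hj
    · refine ⟨q * a, ?_⟩
      rw [hj, hmul, mul_assoc, ← ha]
      simp only [al, map_mul]
    · obtain ⟨b, hb⟩ := hall _ hsub hdeg j
      refine ⟨b, ?_⟩
      rw [coeff_sub, coeff_C_mul, coeff_C_mul, coeff_X_pow, if_neg hj, mul_zero, sub_zero, ← mul_assoc, ← hmul] at hb
      exact hb

/-- the degree module -/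
def Model.F (M : Model k) (n : ℕ) : Submodule (A2 k) (K2 k)[X] where
  carrier := {h | h ∈ M.S ∧ h.natDegree ≤ n}
  add_mem' := fun {a b} ha hb => ⟨M.S.add_mem ha.1 hb.1, (natDegree_add_le _ _).trans (max_le ha.2 hb.2)⟩
  zero_mem' := ⟨M.S.zero_mem, by simp⟩
  smul_mem' := fun a h hh => ⟨M.S.smul_mem hh.1 a, by
    rw [smul_eq']
    exact (natDegree_C_mul_le _ _).trans hh.2⟩

theorem Model.F_fg (M : Model k) (n : ℕ) : (M.F n).FG := by
  obtain ⟨q, hq, hall⟩ := M.denom n
  -- the coefficients of `q h`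
  have hex : ∀ h : M.F n, ∀ j : Fin (n + 1), ∃ a : A2 k, al q * (h : (K2 k)[X]).coeff j = al a := fun h j => hall _ h.2.1 h.2.2 j
  choose φ hφ using hex
  let Φ : M.F n →ₗ[A2 k] (Fin (n + 1) → A2 k) :=
    { toFun := φ
      map_add' := fun g h => by
        funext j
        apply al_inj
        rw [Pi.add_apply, al_add', ← hφ, ← hφ, ← hφ, Submodule.coe_add, coeff_add, mul_add]
      map_smul' := fun a h => by
        funext j
        apply al_inj
        rw [Pi.smul_apply, smul_eq_mul, RingHom.id_apply, al_mul', ← hφ, ← hφ, Submodule.coe_smul, smul_eq', coeff_C_mul]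
        ring }
  have hinj : Function.Injective Φ := by
    intro g h hgh
    apply Subtype.ext
    ext j
    by_cases hj : j < n + 1
    · have h1 := congrFun hgh ⟨j, hj⟩
      change φ g ⟨j, hj⟩ = φ h ⟨j, hj⟩ at h1
      have h2 := hφ g ⟨j, hj⟩
      rw [h1, ← hφ h ⟨j, hj⟩] at h2
      exact mul_left_cancel₀ (al_ne hq) h2
    · rw [coeff_eq_zero_of_natDegree_lt (by have := g.2.2; omega), coeff_eq_zero_of_natDegree_lt (by have := h.2.2; omega)]
  have : IsNoetherian (A2 k) (M.F n) := isNoetherian_of_injective Φ hinj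
  exact (Submodule.fg_top _).1 (IsNoetherian.noetherian ⊤)

/-- `A2 / (X0)` is a principal ideal ring -/
theorem pid0 : IsPrincipalIdealRing (A2 k ⧸ Ideal.span {(MvPolynomial.X 0 : A2 k)}) := by
  let f : k[X] →ₐ[k] (A2 k ⧸ Ideal.span {(MvPolynomial.X 0 : A2 k)}) := aeval (Ideal.Quotient.mk _ (MvPolynomial.X 1))
  refine IsPrincipalIdealRing.of_surjective f fun y => ?_
  obtain ⟨a, rfl⟩ := Ideal.Quotient.mk_surjective y
  induction a using MvPolynomial.induction_on with
  | C r => exact ⟨C r, by simp [f]; rfl⟩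
  | add p q hp hq =>
    obtain ⟨x, hx⟩ := hp
    obtain ⟨y, hy⟩ := hq
    exact ⟨x + y, by rw [map_add, hx, hy, map_add]⟩
  | mul_X p i hp =>
    obtain ⟨x, hx⟩ := hp
    fin_cases i
    · refine ⟨0, ?_⟩
      rw [map_zero, map_mul]
      have : Ideal.Quotient.mk (Ideal.span {(MvPolynomial.X 0 : A2 k)}) (MvPolynomial.X 0) = 0 :=
        Ideal.Quotient.eq_zero_iff_mem.2 (Ideal.mem_span_singleton_self _)
      change 0 = _ * Ideal.Quotient.mk (Ideal.span {(MvPolynomial.X 0 : A2 k)}) (MvPolynomial.X 0)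
      rw [this, mul_zero]
    · refine ⟨x * X, ?_⟩
      rw [map_mul, hx, map_mul]
      congr 1
      simp [f]

/-- LOCAL FREENESS of the degree modules at the origin. Proof. `F = {h ∈ S | natDegree h ≤ n}` is
an `A2`-submodule of `(1/q) (A2 ⊕ A2 T ⊕ .. ⊕ A2 T^n)` (`denom`), so it is finitely generated
(`A2` noetherian). `F / X0 F` is a finitely generated module over `A2 / (X0) = k[X1]` without
torsion (`prime0`; if `X0 g ∈ F` with `g ∈ S` then `g ∈ F`), hence free; lift a basis to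
`b_0, .., b_(ν-1)` in `F`. Nakayama: `F = ∑ A2 b_j + X0 F` gives `e ≡ 1 mod X0` with
`e F ⊆ ∑ A2 b_j` (so `constantCoeff e = 1`). Independence over `A2` (hence over `K2`): a relation
has all coefficients divisible by `X0`, divide, infinite descent. -/
theorem Model.loc_free (M : Model k) (n : ℕ) : ∃ (ν : ℕ) (b : Fin ν → (K2 k)[X]) (e : A2 k),
    MvPolynomial.constantCoeff e ≠ 0 ∧ (∀ j, b j ∈ M.S ∧ (b j).natDegree ≤ n) ∧
    LinearIndependent (K2 k) b ∧
    ∀ h ∈ M.S, h.natDegree ≤ n → ∃ a : Fin ν → A2 k, C (al e) * h = ∑ j, C (al (a j)) * b j := by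
  have hfin : Module.Finite (A2 k) (M.F n) := Module.Finite.iff_fg.2 (M.F_fg n)
  have hpid := pid0 (k := k)
  have hX0 : (C (al (MvPolynomial.X 0 : A2 k)) : (K2 k)[X]) ≠ 0 := by
    rw [Ne, C_eq_zero]
    exact al_ne (MvPolynomial.X_ne_zero 0)
  obtain ⟨ν, b, e, he, hli, hsp⟩ := loc_free_abs (N := M.F n) (MvPolynomial.X 0 : A2 k) MvPolynomial.X_prime
    (fun a x y hxy => by
      have h1 : C (al a) * (x : (K2 k)[X]) = C (al (MvPolynomial.X 0)) * (y : (K2 k)[X]) := by
        rw [← smul_eq', ← smul_eq']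
        exact congrArg Subtype.val hxy
      rcases M.prime0 a x x.2.1 ⟨y, y.2.1, h1⟩ with h2 | ⟨g, hg, h2⟩
      · exact Or.inl h2
      · right
        refine ⟨⟨g, hg, ?_⟩, ?_⟩
        · have h3 := x.2.2
          rw [h2, natDegree_C_mul (al_ne (MvPolynomial.X_ne_zero 0))] at h3
          exact h3
        · exact Subtype.ext (h2.trans (smul_eq' _ _).symm))
    (fun x hx => by
      apply Subtype.ext
      have h1 : C (al (MvPolynomial.X 0)) * (x : (K2 k)[X]) = 0 := by
        rw [← smul_eq']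
        exact congrArg Subtype.val hx
      exact (mul_eq_zero.1 h1).resolve_left hX0)
  refine ⟨ν, fun j => b j, e, ?_, fun j => (b j).2, ?_, fun h hh hd => ?_⟩
  · obtain ⟨a, ha⟩ := Ideal.mem_span_singleton.1 he
    have h1 : e = 1 + MvPolynomial.X 0 * a := by rw [← ha]; ring
    rw [h1, map_add, map_mul, map_one, MvPolynomial.constantCoeff_X, zero_mul, add_zero]
    exact one_ne_zero
  · have h1 : LinearIndependent (A2 k) (fun j => ((b j : M.F n) : (K2 k)[X])) :=
      hli.map' (M.F n).subtype (Submodule.ker_subtype _)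
    exact (LinearIndependent.iff_fractionRing (A2 k) (K2 k)).1 h1
  · obtain ⟨a, ha⟩ := hsp ⟨h, hh, hd⟩
    refine ⟨a, ?_⟩
    rw [← smul_eq']
    have h1 := congrArg Subtype.val ha
    rw [Submodule.coe_smul, Submodule.coe_sum] at h1
    rw [h1]
    exact Finset.sum_congr rfl fun j _ => by rw [Submodule.coe_smul, smul_eq']

theorem X0_prime : Prime (MvPolynomial.X 0 : A2 k) := MvPolynomial.X_prime

theorem X0_not_dvd_X1 (t : ℕ) : ¬ (MvPolynomial.X 0 : A2 k) ∣ (MvPolynomial.X 1 : A2 k) ^ t := by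
  intro h
  have h1 := X0_prime.dvd_of_dvd_pow h
  obtain ⟨a, ha⟩ := h1
  have h2 := congrArg (MvPolynomial.eval (fun i : Fin 2 => if i = 0 then (0 : k) else 1)) ha
  simp at h2

/-- `S[1/(e X0)] ∩ S[1/(e X1)] = S[1/e]`: from `prime0`. -/
theorem Model.inter_loc (M : Model k) (e : A2 k) (he : MvPolynomial.constantCoeff e ≠ 0)
    (h : (K2 k)[X]) (h0 : M.InS (e * MvPolynomial.X 0) h) (h1 : M.InS (e * MvPolynomial.X 1) h) :
    M.InS e h := by
  obtain ⟨s, hs⟩ := h0
  obtain ⟨t, ht⟩ := h1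
  have key : ∀ (s : ℕ) (g : (K2 k)[X]), C (al (MvPolynomial.X 0 ^ s)) * g ∈ M.S → C (al (MvPolynomial.X 1 ^ t)) * g ∈ M.S → g ∈ M.S := by
    intro s
    induction s with
    | zero =>
      intro g hg _
      rw [pow_zero, al, map_one, C_1, one_mul] at hg
      exact hg
    | succ s ih =>
      intro g hg hg1
      refine ih g ?_ hg1
      rcases M.prime0 (MvPolynomial.X 1 ^ t) _ hg ⟨_, M.al_mul_mem (MvPolynomial.X 0 ^ s) hg1, by
        rw [pow_succ', al_mul', C_mul]
        ring⟩ with h2 | ⟨g', hg', h2⟩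
      · exact absurd h2 (X0_not_dvd_X1 t)
      · rw [pow_succ', al_mul', C_mul, mul_assoc] at h2
        have h3 : (C (al (MvPolynomial.X 0 : A2 k)) : (K2 k)[X]) ≠ 0 := by
          rw [Ne, C_eq_zero]
          exact al_ne (MvPolynomial.X_ne_zero 0)
        rw [mul_left_cancel₀ h3 h2]
        exact hg'
  refine ⟨s + t, key s _ ?_ ?_⟩
  · rw [← mul_assoc, ← C_mul, ← al_mul']
    have e1 : (MvPolynomial.X 0 : A2 k) ^ s * e ^ (s + t) = e ^ t * (e * MvPolynomial.X 0) ^ s := by
      rw [mul_pow, pow_add]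
      ring
    rw [e1, al_mul', C_mul, mul_assoc]
    exact M.al_mul_mem _ hs
  · rw [← mul_assoc, ← C_mul, ← al_mul']
    have e1 : (MvPolynomial.X 1 : A2 k) ^ t * e ^ (s + t) = e ^ s * (e * MvPolynomial.X 1) ^ t := by
      rw [mul_pow, pow_add]
      ring
    rw [e1, al_mul', C_mul, mul_assoc]
    exact M.al_mul_mem _ ht

end Pool.Agent.LNDF
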