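import Mathlib
import Pool.Agent.LNDF.Model

set_option autoImplicit false

open Polynomial

namespace Pool.Agent.LNDF

variable {K : Type} [Field K]

theorem tau_add {M : K[X]} (hM : M.Monic) (P Q : K[X]) : tau M (P + Q) = tau M P + tau M Q := by
  have _ := hM
  unfold tau
  rw [add_modByMonic, coeff_add]

theorem tau_sub {M : K[X]} (hM : M.Monic) (P Q : K[X]) : tau M (P - Q) = tau M P - tau M Q := by
  have _ := hM
  unfold tau
  rw [sub_modByMonic, coeff_sub]

theorem tau_C_mul {M : K[X]} (hM : M.Monic) (a : K) (P : K[X]) :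
    tau M (C a * P) = a * tau M P := by
  have _ := hM
  unfold tau
  rw [← smul_eq_C_mul, smul_modByMonic, coeff_smul, smul_eq_mul]

theorem tau_mul_self {M : K[X]} (hM : M.Monic) (P : K[X]) : tau M (P * M) = 0 := by
  unfold tau
  rw [(modByMonic_eq_zero_iff_dvd hM).2 (Dvd.intro_left P rfl), coeff_zero]

theorem tau_lt {M : K[X]} (hM : M.Monic) (P : K[X]) (h : P.degree < M.degree) :
    tau M P = P.coeff (M.natDegree - 1) := by
  unfold tau
  rw [(modByMonic_eq_self_iff hM).2 h]

/-- the value of `tau` from a decomposition `P = A * M + R` -/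
theorem tau_eq {M : K[X]} (hM : M.Monic) (P : K[X]) :
    ∃ A R : K[X], P = A * M + R ∧ R.degree < M.degree ∧
      tau M P = R.coeff (M.natDegree - 1) := by
  refine ⟨P /ₘ M, P %ₘ M, ?_, degree_modByMonic_lt P hM, rfl⟩
  rw [add_comm, mul_comm]
  exact (modByMonic_add_div P M).symm

theorem natDegree_le_of_degree_lt {M R : K[X]} (hM : M.Monic) (h : R.degree < M.degree) :
    R.natDegree ≤ M.natDegree - 1 := by
  by_cases hR : R = 0
  · simp [hR]
  · have := natDegree_lt_natDegree hR h
    omega

/-- `Res (P M' / (M M')) = Res (P / M)` -/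
theorem tau_mul {M M' : K[X]} (hM : M.Monic) (hM' : M'.Monic) (hpos : 0 < M.natDegree) (P : K[X]) :
    tau (M * M') (P * M') = tau M P := by
  obtain ⟨A, R, hP, hR, ht⟩ := tau_eq hM P
  have hMM : (M * M').Monic := hM.mul hM'
  have h1 : P * M' = A * (M * M') + R * M' := by rw [hP]; ring
  have hnd : (M * M').natDegree = M.natDegree + M'.natDegree := hM.natDegree_mul hM'
  have h2 : (R * M').degree < (M * M').degree := by
    rw [degree_mul, degree_mul]
    by_cases hR0 : R = 0
    · rw [hR0, degree_zero, WithBot.bot_add, ← degree_mul]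
      exact bot_lt_iff_ne_bot.2 (fun h => hMM.ne_zero (degree_eq_bot.1 h))
    · rw [degree_eq_natDegree hR0, degree_eq_natDegree hM'.ne_zero, degree_eq_natDegree hM.ne_zero]
      have := natDegree_lt_natDegree hR0 hR
      exact_mod_cast (by omega)
  rw [h1, tau_add hMM, tau_mul_self hMM, zero_add, tau_lt hMM _ h2, ht, hnd]
  have h3 : M.natDegree + M'.natDegree - 1 = (M.natDegree - 1) + M'.natDegree := by omega
  rw [h3, coeff_mul_add_eq_of_natDegree_le (natDegree_le_of_degree_lt hM hR) le_rfl]
  rw [hM'.coeff_natDegree, mul_one]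

theorem TQ_C {M : K[X]} (hM : M.Monic) (hpos : 0 < M.natDegree) (a : K) :
    TQ M (C a) = a * M.natDegree := by
  unfold TQ
  rw [tau_C_mul hM, tau_lt hM _ (degree_derivative_lt hM.ne_zero), coeff_derivative]
  have h1 : M.natDegree - 1 + 1 = M.natDegree := by omega
  rw [h1, hM.coeff_natDegree, one_mul]
  congr 1
  have h2 : ((M.natDegree - 1 + 1 : ℕ) : K) = (M.natDegree : K) := by rw [h1]
  rw [← h2]
  push_cast
  ring

theorem TQ_add {M : K[X]} (hM : M.Monic) (V W : K[X]) : TQ M (V + W) = TQ M V + TQ M W := by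
  unfold TQ
  rw [add_mul, tau_add hM]

theorem mc_degree_le {k : Type} [Field k] [Algebra k K] (d : Derivation k K K) (P : K[X]) (n : ℕ)
    (h : P.natDegree ≤ n) : (mc d P).natDegree ≤ n := by
  rw [natDegree_le_iff_coeff_eq_zero]
  intro m hm
  rw [mc_coeff, coeff_eq_zero_of_natDegree_lt (by omega), map_zero]

/-- the derivative of a monic polynomial has smaller degree -/
theorem mc_monic {k : Type} [Field k] [Algebra k K] (d : Derivation k K K) {M : K[X]}
    (hM : M.Monic) (hpos : 0 < M.natDegree) : (mc d M).natDegree ≤ M.natDegree - 1 := by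
  rw [natDegree_le_iff_coeff_eq_zero]
  intro m hm
  rw [mc_coeff]
  rcases Nat.lt_or_ge M.natDegree m with h | h
  · rw [coeff_eq_zero_of_natDegree_lt h, map_zero]
  · have hm' : m = M.natDegree := by omega
    rw [hm', hM.coeff_natDegree]
    exact Derivation.map_one_eq_zero d

theorem derivative_natDegree_le (R : K[X]) (n : ℕ) (h : R.natDegree ≤ n) :
    (derivative R).natDegree ≤ n - 1 :=
  (natDegree_derivative_le R).trans (by omega)

/-- `tau` of a polynomial of natDegree `≤ n`, `n < deg M` -/
theorem tau_of_le {M : K[X]} (hM : M.Monic) (P : K[X]) (n : ℕ) (h : P.natDegree ≤ n)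
    (hn : n < M.natDegree) : tau M P = P.coeff (M.natDegree - 1) := by
  apply tau_lt hM
  rw [degree_eq_natDegree hM.ne_zero]
  exact lt_of_le_of_lt (degree_le_of_natDegree_le h) (by exact_mod_cast hn)

theorem tau_zero_of_le {M : K[X]} (hM : M.Monic) (P : K[X]) (n : ℕ) (h : P.natDegree ≤ n)
    (hn : n + 1 < M.natDegree) : tau M P = 0 := by
  rw [tau_of_le hM P n h (by omega)]
  exact coeff_eq_zero_of_natDegree_lt (by omega)

theorem tau_der {k : Type} [Field k] [Algebra k K] (d : Derivation k K K) {M : K[X]}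
    (hM : M.Monic) (hpos : 0 < M.natDegree) (P : K[X]) :
    d (tau M P) = tau M (mc d P) - tau (M * M) (P * mc d M) := by
  obtain ⟨A, R, hP, hR, ht⟩ := tau_eq hM P
  have hMM : (M * M).Monic := hM.mul hM
  have hRd := natDegree_le_of_degree_lt hM hR
  have h1 : mc d P = A * mc d M + mc d A * M + mc d R := by
    rw [hP, map_add, Derivation.leibniz]
    simp only [smul_eq_mul]
    ring
  have h2 : tau M (mc d R) = d (tau M P) := by
    rw [tau_of_le hM _ _ (mc_degree_le d R _ hRd) (by omega), mc_coeff, ht]
  have h3 : P * mc d M = A * mc d M * M + R * mc d M := by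
    rw [hP]; ring
  have h4 : tau (M * M) (R * mc d M) = 0 := by
    apply tau_zero_of_le hMM _ ((M.natDegree - 1) + (M.natDegree - 1))
    · exact natDegree_mul_le.trans (add_le_add hRd (mc_monic d hM hpos))
    · rw [hM.natDegree_mul hM]
      omega
  rw [h1, tau_add hM, tau_add hM, tau_mul_self hM, h2, h3, tau_add hMM, h4, tau_mul hM hM hpos]
  ring

theorem tau_exact {M : K[X]} (hM : M.Monic) (hpos : 0 < M.natDegree) (P : K[X]) :
    tau (M * M) (derivative P * M - P * derivative M) = 0 := by
  obtain ⟨A, R, hP, hR, ht⟩ := tau_eq hM P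
  have hMM : (M * M).Monic := hM.mul hM
  have hRd := natDegree_le_of_degree_lt hM hR
  have h1 : derivative P * M - P * derivative M =
      derivative A * (M * M) + (derivative R * M - R * derivative M) := by
    rw [hP]
    simp only [derivative_add, derivative_mul]
    ring
  rw [h1, tau_add hMM, tau_mul_self hMM, zero_add]
  rcases Nat.lt_or_ge 1 M.natDegree with h | h
  · apply tau_zero_of_le hMM _ ((M.natDegree - 1) + (M.natDegree - 1))
    · refine (natDegree_sub_le _ _).trans (max_le ?_ ?_)
      · refine natDegree_mul_le.trans ?_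
        have := derivative_natDegree_le R _ hRd
        omega
      · refine natDegree_mul_le.trans ?_
        have := derivative_natDegree_le M _ le_rfl
        omega
    · rw [hM.natDegree_mul hM]
      omega
  · have hR0 : R.natDegree = 0 := by omega
    have hR1 : derivative R = 0 := by
      rw [eq_C_of_natDegree_eq_zero hR0, derivative_C]
    rw [hR1, zero_mul, zero_sub]
    apply tau_zero_of_le hMM _ 0
    · rw [natDegree_neg]
      refine natDegree_mul_le.trans ?_
      have := derivative_natDegree_le M _ le_rfl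
      omega
    · rw [hM.natDegree_mul hM]
      omega

/-- derivative of a trace: `d (TQ M W) = TQ M (dW) - Res (W' dM / M)`. Proof: with
`P = A M + R` one has `d (tau M P) = tau M (d P) - tau (M^2) (P * d M)` (because
`deg (R * dM) ≤ 2 deg M - 2`), and `tau (M^2) (P' M - P M') = 0` for every `P` (same reason);
apply the first to `P = W M'` and the second to `P = W * dM`; use `tau_mul` with `M' = M`. -/
theorem TQ_der {k : Type} [Field k] [Algebra k K] (d : Derivation k K K) {M : K[X]}
    (hM : M.Monic) (hpos : 0 < M.natDegree) (W : K[X]) :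
    d (TQ M W) = TQ M (mc d W) - tau M (derivative W * mc d M) := by
  have hMM : (M * M).Monic := hM.mul hM
  have h1 := tau_der d hM hpos (W * derivative M)
  have h2 : mc d (W * derivative M) = mc d W * derivative M + W * derivative (mc d M) := by
    rw [Derivation.leibniz, mc_derivative]
    simp only [smul_eq_mul]
    ring
  have h3 := tau_exact hM hpos (W * mc d M)
  have h4 : derivative (W * mc d M) * M - W * mc d M * derivative M =
      derivative W * mc d M * M + W * derivative (mc d M) * M - W * derivative M * mc d M := by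
    rw [derivative_mul]
    ring
  rw [h4, tau_sub hMM, tau_add hMM, tau_mul hM hM hpos, tau_mul hM hM hpos] at h3
  unfold TQ
  rw [h1, h2, tau_add hM]
  linear_combination h3

/-- difference of two traces when the two monic polynomials agree in the top coefficients.
Proof: `TQ Q1 W - TQ Q2 W = tau (Q1 * Q2) (W * (Q1' * Q2 - Q2' * Q1))` by `tau_mul`, with
`Q1 = Q2 + S` the argument is `W * (S' Q2 - S Q2')` of degree `≤ 2 N - 1`, so `tau` is its
coefficient of degree `2 N - 1`, which is `W_i * s_{N-i} * ((N - i) - N)`. -/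
theorem TQ_diff {Q1 Q2 : K[X]} (h1 : Q1.Monic) (h2 : Q2.Monic) (N i : ℕ)
    (d1 : Q1.natDegree = N) (d2 : Q2.natDegree = N) (hi : 1 ≤ i) (hiN : i ≤ N)
    (hS : (Q1 - Q2).degree < (N + 1 - i : ℕ)) (W : K[X]) (hW : W.natDegree ≤ i) :
    TQ Q1 W - TQ Q2 W = -((i : K) * W.coeff i * (Q1 - Q2).coeff (N - i)) := by
  have h12 : (Q1 * Q2).Monic := h1.mul h2
  have hnd : (Q1 * Q2).natDegree = N + N := by rw [h1.natDegree_mul h2, d1, d2]
  set S : K[X] := Q1 - Q2 with hSdef
  have hSn : S.natDegree ≤ N - i := by
    by_cases h0 : S = 0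
    · simp [h0]
    · rw [degree_eq_natDegree h0] at hS
      have : S.natDegree < N + 1 - i := by exact_mod_cast hS
      omega
  have e1 : TQ Q1 W = tau (Q1 * Q2) (W * derivative Q1 * Q2) := by
    unfold TQ
    rw [tau_mul h1 h2 (by omega)]
  have e2 : TQ Q2 W = tau (Q1 * Q2) (W * derivative Q2 * Q1) := by
    unfold TQ
    rw [mul_comm Q1 Q2, tau_mul h2 h1 (by omega)]
  have e3 : W * derivative Q1 * Q2 - W * derivative Q2 * Q1 =
      W * derivative S * Q2 - W * S * derivative Q2 := by
    have hQ1 : Q1 = Q2 + S := by rw [hSdef]; ring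
    rw [hQ1, derivative_add]
    ring
  rw [e1, e2, ← tau_sub h12, e3]
  have f2 : (W * S * derivative Q2).natDegree ≤ i + (N - i) + (N - 1) := by
    refine natDegree_mul_le.trans (add_le_add (natDegree_mul_le.trans (add_le_add hW hSn)) ?_)
    exact derivative_natDegree_le Q2 N d2.le
  have c2 : (W * S * derivative Q2).coeff (N + N - 1) = W.coeff i * S.coeff (N - i) * N := by
    have hN : N + N - 1 = (i + (N - i)) + (N - 1) := by omega
    rw [hN, coeff_mul_add_eq_of_natDegree_le (natDegree_mul_le.trans (add_le_add hW hSn))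
      (derivative_natDegree_le Q2 N d2.le), coeff_mul_add_eq_of_natDegree_le hW hSn,
      coeff_derivative]
    have h5 : N - 1 + 1 = N := by omega
    have h6 : ((N - 1 : ℕ) : K) + 1 = (N : K) := by
      have : ((N - 1 + 1 : ℕ) : K) = (N : K) := by rw [h5]
      rw [← this]
      push_cast
      ring
    rw [h5, h6, ← d2, h2.coeff_natDegree, one_mul]
  rcases Nat.eq_or_lt_of_le hiN with hcase | hcase
  · have hS0 : derivative S = 0 := by
      have : S.natDegree = 0 := by omega
      rw [eq_C_of_natDegree_eq_zero this, derivative_C]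
    rw [hS0, mul_zero, zero_mul, zero_sub]
    rw [tau_of_le h12 _ (N + N - 1) (by rw [natDegree_neg]; omega) (by omega), hnd, coeff_neg, c2,
      hcase]
    ring
  · have hdS := derivative_natDegree_le S _ hSn
    have f1 : (W * derivative S * Q2).natDegree ≤ i + (N - i - 1) + N :=
      natDegree_mul_le.trans (add_le_add (natDegree_mul_le.trans (add_le_add hW hdS)) d2.le)
    have c1 : (W * derivative S * Q2).coeff (N + N - 1) =
        W.coeff i * (S.coeff (N - i) * ((N : K) - i)) := by
      have hN : N + N - 1 = (i + (N - i - 1)) + N := by omega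
      rw [hN, coeff_mul_add_eq_of_natDegree_le (natDegree_mul_le.trans (add_le_add hW hdS)) d2.le,
        coeff_mul_add_eq_of_natDegree_le hW hdS, coeff_derivative]
      have h5 : N - i - 1 + 1 = N - i := by omega
      have h6 : ((N - i - 1 : ℕ) : K) + 1 = (N : K) - i := by
        have : ((N - i - 1 + 1 + i : ℕ) : K) = (N : K) := by
          congr 1
          omega
        rw [← this]
        push_cast
        ring
      rw [h5, h6]
      have h7 : Q2.coeff N = 1 := by rw [← d2, h2.coeff_natDegree]
      rw [h7, mul_one]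
    rw [tau_of_le h12 _ (N + N - 1) ((natDegree_sub_le _ _).trans (max_le (by omega) (by omega)))
      (by omega), hnd, coeff_sub, c1, c2]
    ring

/-- the residue does not change when the denominators are close. Proof: difference
`= tau (Q1 * Q2) (P * (Q2 - Q1))`, degree `< 2 N - 1`. -/
theorem tau_diff {Q1 Q2 : K[X]} (h1 : Q1.Monic) (h2 : Q2.Monic) (N i : ℕ) (hN : 0 < N)
    (d1 : Q1.natDegree = N) (d2 : Q2.natDegree = N) (hi : 1 ≤ i) (hiN : i ≤ N)
    (hS : (Q1 - Q2).degree < (N + 1 - i : ℕ)) (P : K[X]) (hP : P.degree < (N + i - 1 : ℕ)) :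
    tau Q1 P = tau Q2 P := by
  have h12 : (Q1 * Q2).Monic := h1.mul h2
  have hnd : (Q1 * Q2).natDegree = N + N := by rw [h1.natDegree_mul h2, d1, d2]
  have e1 : tau Q1 P = tau (Q1 * Q2) (P * Q2) := by rw [tau_mul h1 h2 (by omega)]
  have e2 : tau Q2 P = tau (Q1 * Q2) (P * Q1) := by
    rw [mul_comm Q1 Q2, tau_mul h2 h1 (by omega)]
  rw [← sub_eq_zero, e1, e2, ← tau_sub h12]
  have e3 : P * Q2 - P * Q1 = -(P * (Q1 - Q2)) := by ring
  rw [e3]
  by_cases hP0 : P = 0
  · rw [hP0, zero_mul, neg_zero]
    unfold tau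
    simp
  by_cases hS0 : Q1 - Q2 = 0
  · rw [hS0, mul_zero, neg_zero]
    unfold tau
    simp
  rw [degree_eq_natDegree hP0] at hP
  rw [degree_eq_natDegree hS0] at hS
  have a1 : P.natDegree < N + i - 1 := by exact_mod_cast hP
  have a2 : (Q1 - Q2).natDegree < N + 1 - i := by exact_mod_cast hS
  apply tau_zero_of_le h12 _ (P.natDegree + (Q1 - Q2).natDegree)
  · rw [natDegree_neg]
    exact natDegree_mul_le
  · omega

end Pool.Agent.LNDF
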