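import Mathlib
import Pool.Agent.LNDF.Model

set_option autoImplicit false

open Polynomial

namespace Pool.Agent.LNDF.RhoAux

/-! ### Euler type derivations on Laurent series -/

section Eul

variable {R : Type} [CommRing R]

/-- `F ↦ ∑ (d F_n + n c F_n) X^n` -/
noncomputable def eul (c : R) (d : R →+ R) (F : LaurentSeries R) : LaurentSeries R where
  coeff n := d (F.coeff n) + (n : R) * (c * F.coeff n)
  isPWO_support' := by
    refine F.isPWO_support.mono ?_
    intro n hn
    simp only [Function.mem_support, ne_eq, HahnSeries.mem_support] at hn ⊢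
    intro h0
    apply hn
    rw [h0, map_zero, mul_zero, mul_zero, add_zero]

theorem eul_coeff (c : R) (d : R →+ R) (F : LaurentSeries R) (n : ℤ) :
    (eul c d F).coeff n = d (F.coeff n) + (n : R) * (c * F.coeff n) := rfl

theorem eul_support (c : R) (d : R →+ R) (F : LaurentSeries R) :
    (eul c d F).support ⊆ F.support := by
  intro n hn
  simp only [ne_eq, HahnSeries.mem_support] at hn ⊢
  intro h0
  apply hn
  rw [eul_coeff, h0, map_zero, mul_zero, mul_zero, add_zero]

theorem eul_add (c : R) (d : R →+ R) (F G : LaurentSeries R) :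
    eul c d (F + G) = eul c d F + eul c d G := by
  ext n
  rw [HahnSeries.coeff_add, eul_coeff, eul_coeff, eul_coeff, HahnSeries.coeff_add, map_add]
  ring

theorem eul_mul (c : R) (d : R →+ R) (hd : ∀ a b, d (a * b) = d a * b + a * d b)
    (F G : LaurentSeries R) :
    eul c d (F * G) = eul c d F * G + F * eul c d G := by
  ext n
  rw [HahnSeries.coeff_add, eul_coeff, HahnSeries.coeff_mul,
    HahnSeries.coeff_mul_left' F.isPWO_support (eul_support c d F),
    HahnSeries.coeff_mul_right' G.isPWO_support (eul_support c d G), map_sum, Finset.mul_sum,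
    Finset.mul_sum, ← Finset.sum_add_distrib, ← Finset.sum_add_distrib]
  apply Finset.sum_congr rfl
  rintro ⟨i, j⟩ hij
  rw [Finset.mem_antidiagonal] at hij
  have h1 : ((n : ℤ) : R) = (i : R) + (j : R) := by
    rw [← hij.2.2]
    push_cast
    ring
  simp only [eul_coeff]
  rw [hd, h1]
  ring

theorem eul_single (c : R) (d : R →+ R) (n : ℤ) (r : R) :
    eul c d (HahnSeries.single n r) = HahnSeries.single n (d r + (n : R) * (c * r)) := by
  ext m
  rw [eul_coeff, HahnSeries.coeff_single, HahnSeries.coeff_single]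
  split_ifs with h
  · rw [h]
  · simp

end Eul

variable (k : Type) [Field k]

/-- power series in `X 0`, then in `X 1` -/
abbrev P2 : Type := PowerSeries (PowerSeries k)

/-- Laurent series in `X 0`, then in `X 1` -/
abbrev L2 : Type := LaurentSeries (LaurentSeries k)

/-- polynomials as power series -/
noncomputable def io : A2 k →+* P2 k :=
  MvPolynomial.eval₂Hom ((PowerSeries.C (R := PowerSeries k)).comp (PowerSeries.C (R := k)))
    (fun i => if i = 0 then PowerSeries.C PowerSeries.X else PowerSeries.X)

/-- power series as Laurent series -/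
noncomputable def ps : P2 k →+* L2 k :=
  (HahnSeries.ofPowerSeries ℤ (LaurentSeries k)).comp
    (PowerSeries.map (HahnSeries.ofPowerSeries ℤ k))

variable {k}

theorem io_monomial (m : Fin 2 →₀ ℕ) (r : k) :
    io k (MvPolynomial.monomial m r) =
      PowerSeries.C (PowerSeries.C r * PowerSeries.X ^ (m 0)) * PowerSeries.X ^ (m 1) := by
  unfold io
  rw [MvPolynomial.coe_eval₂Hom, MvPolynomial.eval₂_monomial, Finsupp.prod_fintype _ _ (by simp),
    Fin.prod_univ_two]
  simp only [RingHom.comp_apply, if_true, map_mul, map_pow]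
  rw [if_neg (by decide)]
  ring

theorem io_X0 : io k (MvPolynomial.X 0) = PowerSeries.C PowerSeries.X := by
  unfold io
  simp

theorem io_X1 : io k (MvPolynomial.X 1) = PowerSeries.X := by
  unfold io
  simp

theorem io_C (r : k) : io k (MvPolynomial.C r) = PowerSeries.C (PowerSeries.C r) := by
  unfold io
  simp

theorem fs_iff (m : Fin 2 →₀ ℕ) (i j : ℕ) :
    m = Finsupp.single 0 i + Finsupp.single 1 j ↔ m 0 = i ∧ m 1 = j := by
  constructor
  · intro h
    rw [h]
    simp
  · rintro ⟨h0, h1⟩
    ext t
    fin_cases t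
    · simp [h0]
    · simp [h1]

theorem io_coeff (a : A2 k) (i j : ℕ) :
    PowerSeries.coeff i (PowerSeries.coeff j (io k a)) =
      MvPolynomial.coeff (Finsupp.single 0 i + Finsupp.single 1 j) a := by
  induction a using MvPolynomial.induction_on' with
  | monomial m r =>
    rw [io_monomial, PowerSeries.coeff_C_mul, PowerSeries.coeff_X_pow, MvPolynomial.coeff_monomial]
    by_cases h1 : j = m 1
    · rw [if_pos h1, mul_one, PowerSeries.coeff_C_mul, PowerSeries.coeff_X_pow]
      by_cases h0 : i = m 0
      · rw [if_pos h0, if_pos ((fs_iff m i j).2 ⟨h0.symm, h1.symm⟩), mul_one]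
      · rw [if_neg h0, if_neg (fun h => h0 ((fs_iff m i j).1 h).1.symm), mul_zero]
    · rw [if_neg h1, mul_zero, map_zero, if_neg (fun h => h1 ((fs_iff m i j).1 h).2.symm)]
  | add p q hp hq => rw [map_add, map_add, map_add, hp, hq, MvPolynomial.coeff_add]

theorem ps_coeff (u : P2 k) (j i : ℕ) :
    ((ps k u).coeff (j : ℤ)).coeff (i : ℤ) = PowerSeries.coeff i (PowerSeries.coeff j u) := by
  unfold ps
  rw [RingHom.comp_apply, HahnSeries.ofPowerSeries_apply_coeff, PowerSeries.coeff_map,
    HahnSeries.ofPowerSeries_apply_coeff]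

theorem ps_neg (u : P2 k) {n : ℤ} (hn : n < 0) : (ps k u).coeff n = 0 := by
  unfold ps
  rw [RingHom.comp_apply, PowerSeries.coeff_coe, if_pos hn]

theorem ps_neg' (u : P2 k) (n : ℤ) {m : ℤ} (hm : m < 0) : ((ps k u).coeff n).coeff m = 0 := by
  rcases lt_or_ge n 0 with hn | hn
  · rw [ps_neg u hn, HahnSeries.coeff_zero]
  · obtain ⟨j, rfl⟩ := Int.eq_ofNat_of_zero_le hn
    unfold ps
    rw [RingHom.comp_apply, HahnSeries.ofPowerSeries_apply_coeff, PowerSeries.coeff_map,
      PowerSeries.coeff_coe, if_pos hm]

theorem ps_injective : Function.Injective (ps k) := by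
  intro u v h
  ext j i
  rw [← ps_coeff, ← ps_coeff, h]

theorem io_injective : Function.Injective (io k) := by
  intro a b h
  ext m
  have h1 := io_coeff a (m 0) (m 1)
  have h2 := io_coeff b (m 0) (m 1)
  rw [← (fs_iff m (m 0) (m 1)).2 ⟨rfl, rfl⟩] at h1 h2
  rw [← h1, ← h2, h]

/-- the embedding of the rational functions -/
noncomputable def ph (k : Type) [Field k] : K2 k →+* L2 k :=
  IsFractionRing.lift (A := A2 k) (g := (ps k).comp (io k))
    (ps_injective.comp io_injective)

theorem ph_al (a : A2 k) : ph k (al a) = ps k (io k a) := by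
  unfold ph
  rw [al, IsFractionRing.lift_algebraMap]
  rfl

theorem ps_X0 : ps k (io k (MvPolynomial.X 0)) =
    HahnSeries.single (0 : ℤ) (HahnSeries.single (1 : ℤ) (1 : k)) := by
  rw [io_X0]
  unfold ps
  rw [RingHom.comp_apply, PowerSeries.map_C, HahnSeries.ofPowerSeries_X,
    HahnSeries.ofPowerSeries_C, HahnSeries.C_apply]

theorem ps_X1 : ps k (io k (MvPolynomial.X 1)) =
    HahnSeries.single (1 : ℤ) (1 : LaurentSeries k) := by
  rw [io_X1]
  unfold ps
  rw [RingHom.comp_apply, PowerSeries.map_X, HahnSeries.ofPowerSeries_X]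

theorem ps_C (r : k) : ps k (io k (MvPolynomial.C r)) =
    HahnSeries.single (0 : ℤ) (HahnSeries.single (0 : ℤ) r) := by
  rw [io_C]
  unfold ps
  rw [RingHom.comp_apply, PowerSeries.map_C, HahnSeries.ofPowerSeries_C,
    HahnSeries.ofPowerSeries_C, HahnSeries.C_apply, HahnSeries.C_apply]

/-- the inner Euler operator, an additive map of the coefficients -/
noncomputable def inner (k : Type) [Field k] : LaurentSeries k →+ LaurentSeries k where
  toFun := eul 1 0
  map_zero' := by
    ext n
    rw [eul_coeff]
    simp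
  map_add' := eul_add 1 0

theorem inner_mul (F G : LaurentSeries k) : inner k (F * G) = inner k F * G + F * inner k G :=
  eul_mul 1 0 (by simp) F G

/-- the two Euler operators -/
noncomputable def TT (k : Type) [Field k] (i : Fin 2) (F : L2 k) : L2 k :=
  if i = 0 then eul 0 (inner k) F else eul 1 0 F

theorem TT_add (i : Fin 2) (F G : L2 k) : TT k i (F + G) = TT k i F + TT k i G := by
  unfold TT
  split_ifs
  · exact eul_add _ _ F G
  · exact eul_add _ _ F G

theorem TT_mul (i : Fin 2) (F G : L2 k) : TT k i (F * G) = TT k i F * G + F * TT k i G := by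
  unfold TT
  split_ifs
  · exact eul_mul _ _ inner_mul F G
  · exact eul_mul _ _ (by simp) F G

theorem TT_C (i : Fin 2) (r : k) : TT k i (ps k (io k (MvPolynomial.C r))) = 0 := by
  rw [ps_C]
  unfold TT
  split_ifs
  · rw [eul_single]
    change HahnSeries.single (0 : ℤ) (eul 1 0 (HahnSeries.single (0 : ℤ) r) + _) = 0
    rw [eul_single]
    simp
  · rw [eul_single]
    simp

theorem TT_X (i j : Fin 2) : TT k i (ps k (io k (MvPolynomial.X j))) =
    if i = j then ps k (io k (MvPolynomial.X j)) else 0 := by
  have h10 : (1 : LaurentSeries k) = HahnSeries.single (0 : ℤ) 1 := rfl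
  fin_cases i <;> fin_cases j
  · simp only [Fin.zero_eta, if_true]
    rw [ps_X0]
    unfold TT
    rw [if_pos rfl, eul_single]
    congr 1
    change eul 1 0 (HahnSeries.single (1 : ℤ) (1 : k)) + _ = _
    rw [eul_single]
    simp
  · simp only [Fin.zero_eta, Fin.mk_one]
    rw [ps_X1]
    unfold TT
    rw [if_pos rfl, eul_single, if_neg (by decide)]
    have h1 : inner k (1 : LaurentSeries k) = 0 := by
      rw [h10]
      change eul 1 0 (HahnSeries.single (0 : ℤ) (1 : k)) = 0
      rw [eul_single]
      simp
    rw [h1]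
    simp
  · simp only [Fin.zero_eta, Fin.mk_one]
    rw [ps_X0]
    unfold TT
    rw [if_neg (by decide), eul_single, if_neg (by decide)]
    simp
  · simp only [Fin.mk_one, if_true]
    rw [ps_X1]
    unfold TT
    rw [if_neg (by decide), eul_single]
    congr 1
    simp

theorem TT_al (i : Fin 2) (a : A2 k) :
    TT k i (ps k (io k a)) =
      ps k (io k (MvPolynomial.X i)) * ps k (io k (MvPolynomial.pderiv i a)) := by
  induction a using MvPolynomial.induction_on with
  | C r =>
    rw [TT_C, MvPolynomial.pderiv_C, map_zero, map_zero, mul_zero]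
  | add p q hp hq =>
    rw [map_add, map_add, TT_add, hp, hq, map_add, map_add, map_add]
    ring
  | mul_X p j hp =>
    rw [map_mul, map_mul, TT_mul, hp, TT_X, Derivation.leibniz, MvPolynomial.pderiv_X]
    simp only [smul_eq_mul, map_add, map_mul]
    by_cases h : i = j
    · subst h
      simp only [if_true, Pi.single_eq_same, map_one]
      ring
    · rw [if_neg h, Pi.single_apply, if_neg (fun h' => h h'.symm)]
      simp only [map_zero]
      ring

theorem TT_ph (i : Fin 2) (x : K2 k) :
    TT k i (ph k x) = ps k (io k (MvPolynomial.X i)) * ph k (dK i x) := by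
  obtain ⟨a, s, hs, rfl⟩ := IsFractionRing.div_surjective (A := A2 k) x
  have hs0 := nonZeroDivisors.ne_zero hs
  have hs' : al s ≠ 0 := al_ne hs0
  set x : K2 k := algebraMap (A2 k) (K2 k) a / algebraMap (A2 k) (K2 k) s with hx
  have h1 : x * al s = al a := by
    rw [hx, div_mul_cancel₀ _ hs']
  have h2 : ph k x * ps k (io k s) = ps k (io k a) := by
    rw [← ph_al, ← ph_al, ← map_mul, h1]
  have h3 := congrArg (TT k i) h2
  rw [TT_mul, TT_al, TT_al] at h3
  have h4 := congrArg (fun y => ph k (dK i y)) h1
  simp only [Derivation.leibniz, smul_eq_mul, map_add, map_mul, dK_al, ph_al] at h4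
  have h5 : ps k (io k s) ≠ 0 := by
    rw [← ph_al]
    intro h0
    exact hs' ((map_eq_zero (ph k)).1 h0)
  apply mul_right_cancel₀ h5
  linear_combination h3 - ps k (io k (MvPolynomial.X i)) * h4

end Pool.Agent.LNDF.RhoAux
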