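import Mathlib
import Pool.Agent.LNDF.Model
import Pool.Agent.LNDF.RhoA

set_option autoImplicit false

open Polynomial

namespace Pool.Agent.LNDF

namespace RhoAux

/-- the iterated residue -/
noncomputable def rho (k : Type) [Field k] : K2 k →ₗ[k] k where
  toFun x := ((ph k x).coeff (-1)).coeff (-1)
  map_add' x y := by
    rw [map_add, HahnSeries.coeff_add, HahnSeries.coeff_add]
  map_smul' r x := by
    rw [Algebra.smul_def, IsScalarTower.algebraMap_apply k (A2 k) (K2 k), MvPolynomial.algebraMap_eq,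
      map_mul]
    change ((ph k (al (MvPolynomial.C r)) * ph k x).coeff (-1)).coeff (-1) = _
    rw [ph_al, ps_C, HahnSeries.coeff_single_zero_mul, HahnSeries.coeff_single_zero_mul]
    rfl

variable {k : Type} [Field k]

theorem rho_apply (x : K2 k) : rho k x = ((ph k x).coeff (-1)).coeff (-1) := rfl

theorem rho_d0 (x : K2 k) : rho k (dK 0 x) = 0 := by
  have h := TT_ph (0 : Fin 2) x
  unfold TT at h
  rw [if_pos rfl, ps_X0] at h
  have h1 := congrArg (fun F => F.coeff (-1)) h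
  simp only [eul_coeff, HahnSeries.coeff_single_zero_mul, zero_mul, mul_zero, add_zero] at h1
  have h2 := congrArg (fun F => F.coeff 0) h1
  simp only [HahnSeries.coeff_single_mul, one_mul, zero_sub] at h2
  rw [rho_apply, ← h2]
  change (eul 1 0 ((ph k x).coeff (-1))).coeff 0 = 0
  rw [eul_coeff]
  simp

theorem rho_d1 (x : K2 k) : rho k (dK 1 x) = 0 := by
  have h := TT_ph (1 : Fin 2) x
  unfold TT at h
  rw [if_neg (by decide), ps_X1] at h
  have h1 := congrArg (fun F => F.coeff 0) h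
  simp only [eul_coeff, HahnSeries.coeff_single_mul, one_mul, zero_sub] at h1
  rw [rho_apply, ← h1]
  simp

theorem exists_inv {e : A2 k} (he : MvPolynomial.constantCoeff e ≠ 0) :
    ∃ e' : P2 k, io k e * e' = 1 := by
  have h1 : PowerSeries.coeff 0 (PowerSeries.coeff 0 (io k e)) ≠ 0 := by
    rw [io_coeff]
    simpa [MvPolynomial.constantCoeff_eq] using he
  have h2 : IsUnit (io k e) := by
    rw [PowerSeries.isUnit_iff_constantCoeff, PowerSeries.isUnit_iff_constantCoeff, isUnit_iff_ne_zero]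
    simpa using h1
  exact h2.exists_right_inv

theorem psX1_pow (s : ℕ) : ps k (io k (MvPolynomial.X 1)) ^ s =
    HahnSeries.single (s : ℤ) (1 : LaurentSeries k) := by
  rw [ps_X1, HahnSeries.single_pow, one_pow]
  simp

theorem psX0_pow (s : ℕ) : ps k (io k (MvPolynomial.X 0)) ^ s =
    HahnSeries.single (0 : ℤ) (HahnSeries.single (s : ℤ) (1 : k)) := by
  rw [ps_X0, HahnSeries.single_pow, HahnSeries.single_pow, one_pow]
  simp

theorem rho_small (i : Fin 2) (e : A2 k) (he : MvPolynomial.constantCoeff e ≠ 0) (x : K2 k)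
    (hx : InA (e * MvPolynomial.X i) x) : rho k x = 0 := by
  obtain ⟨s, a, hsa⟩ := hx
  obtain ⟨e', he'⟩ := exists_inv he
  have h1 := congrArg (ph k) hsa
  rw [map_mul, ph_al, ph_al, map_pow, map_pow, map_mul, map_mul, mul_pow] at h1
  have h2 : ps k (io k (MvPolynomial.X i)) ^ s * ph k x = ps k (io k a * e' ^ s) := by
    have h3 : ps k (io k e) ^ s * ps k e' ^ s = 1 := by
      rw [← mul_pow, ← map_mul, he', map_one, one_pow]
    rw [map_mul, map_pow, ← h1]
    linear_combination (-(ps k (io k (MvPolynomial.X i)) ^ s * ph k x)) * h3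
  rw [rho_apply]
  fin_cases i
  · simp only [Fin.zero_eta] at h2
    rw [psX0_pow] at h2
    have h4 := congrArg (fun F => F.coeff (-1)) h2
    simp only [HahnSeries.coeff_single_zero_mul] at h4
    rw [ps_neg _ (by norm_num)] at h4
    have h5 := congrArg (fun F => F.coeff ((s : ℤ) - 1)) h4
    simp only [HahnSeries.coeff_single_mul, one_mul, HahnSeries.coeff_zero] at h5
    rwa [show (s : ℤ) - 1 - s = -1 by ring] at h5
  · simp only [Fin.mk_one] at h2
    rw [psX1_pow] at h2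
    have h4 := congrArg (fun F => F.coeff ((s : ℤ) - 1)) h2
    simp only [HahnSeries.coeff_single_mul, one_mul] at h4
    rw [show (s : ℤ) - 1 - s = -1 by ring] at h4
    rw [h4]
    exact ps_neg' _ _ (by norm_num)

theorem coeff_mul_zero (s : ℕ) (u v : P2 k)
    (hu : ∀ i < s, ∀ j < s, PowerSeries.coeff i (PowerSeries.coeff j u) = 0) :
    ∀ i < s, ∀ j < s, PowerSeries.coeff i (PowerSeries.coeff j (u * v)) = 0 := by
  intro i hi j hj
  rw [PowerSeries.coeff_mul, map_sum]
  apply Finset.sum_eq_zero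
  rintro ⟨j1, j2⟩ hj12
  rw [Finset.HasAntidiagonal.mem_antidiagonal] at hj12
  simp only at hj12 ⊢
  rw [PowerSeries.coeff_mul]
  apply Finset.sum_eq_zero
  rintro ⟨i1, i2⟩ hi12
  rw [Finset.HasAntidiagonal.mem_antidiagonal] at hi12
  simp only at hi12 ⊢
  rw [hu i1 (by omega) j1 (by omega), zero_mul]

theorem exists_split (s : ℕ) (a : A2 k)
    (ha : ∀ i < s, ∀ j < s, MvPolynomial.coeff (Finsupp.single 0 i + Finsupp.single 1 j) a = 0) :
    ∃ a0 a1 : A2 k, a = MvPolynomial.X 0 ^ s * a0 + MvPolynomial.X 1 ^ s * a1 := by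
  have h1 : a ∈ Ideal.span ({MvPolynomial.X 0 ^ s, MvPolynomial.X 1 ^ s} : Set (A2 k)) := by
    rw [a.as_sum]
    apply Ideal.sum_mem
    intro m hm
    have hm' : MvPolynomial.coeff m a ≠ 0 := MvPolynomial.mem_support_iff.1 hm
    have h2 : s ≤ m 0 ∨ s ≤ m 1 := by
      by_contra hcon
      push Not at hcon
      apply hm'
      have := ha (m 0) hcon.1 (m 1) hcon.2
      rwa [← (fs_iff m (m 0) (m 1)).2 ⟨rfl, rfl⟩] at this
    have h3 : MvPolynomial.monomial m (MvPolynomial.coeff m a) =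
        MvPolynomial.C (MvPolynomial.coeff m a) *
          (MvPolynomial.X 0 ^ (m 0) * MvPolynomial.X 1 ^ (m 1)) := by
      rw [MvPolynomial.monomial_eq, Finsupp.prod_fintype _ _ (by simp), Fin.prod_univ_two]
    rw [h3]
    rcases h2 with h2 | h2
    · have h4 : (MvPolynomial.X 0 : A2 k) ^ (m 0) =
          MvPolynomial.X 0 ^ s * MvPolynomial.X 0 ^ (m 0 - s) := by
        rw [← pow_add, Nat.add_sub_cancel' h2]
      rw [h4]
      have h5 : (MvPolynomial.X 0 : A2 k) ^ s ∈
          Ideal.span ({MvPolynomial.X 0 ^ s, MvPolynomial.X 1 ^ s} : Set (A2 k)) :=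
        Ideal.subset_span (by simp)
      exact Ideal.mul_mem_left _ _ (Ideal.mul_mem_right _ _ (Ideal.mul_mem_right _ _ h5))
    · have h4 : (MvPolynomial.X 1 : A2 k) ^ (m 1) =
          MvPolynomial.X 1 ^ s * MvPolynomial.X 1 ^ (m 1 - s) := by
        rw [← pow_add, Nat.add_sub_cancel' h2]
      rw [h4]
      have h5 : (MvPolynomial.X 1 : A2 k) ^ s ∈
          Ideal.span ({MvPolynomial.X 0 ^ s, MvPolynomial.X 1 ^ s} : Set (A2 k)) :=
        Ideal.subset_span (by simp)
      exact Ideal.mul_mem_left _ _ (Ideal.mul_mem_left _ _ (Ideal.mul_mem_right _ _ h5))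
  rw [Ideal.mem_span_pair] at h1
  obtain ⟨p, q, hpq⟩ := h1
  exact ⟨p, q, by rw [← hpq]; ring⟩

end RhoAux

variable {k : Type} [Field k]

/-- THE ITERATED RESIDUE. Proof: embed `K2 k` into `LaurentSeries (LaurentSeries k)` by
`X 0 ↦ C (single 1 1)` (inner variable), `X 1 ↦ single 1 1` (outer variable)
(`IsFractionRing.lift` of an injective ring homomorphism), and let `ρ` be the coefficient of
`X0⁻¹ X1⁻¹`. The derivations `dK i` become the coefficientwise inner derivative and the outer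
derivative (compare two derivations on `X 0`, `X 1`; Leibniz for `X ∂/∂X` on Hahn series is
immediate from `coeff_mul`), whose coefficient at `-1` is zero. If `e` has nonzero constant
coefficient then `e` is a unit in `k⟦X0, X1⟧`, so `A2[1/(e X0)]` has no negative powers of `X1`.
Last part: `x (e X0 X1)^s = a`; `ρ (X0^(s-1-i) X1^(s-1-j) x)` is the coefficient of `X0^i X1^j` of
`a / e^s`, so `a / e^s`, hence `a`, has only monomials with `i ≥ s` or `j ≥ s`:
`a = X0^s a1 + X1^s a2`, `x = a1/(e X1)^s·.. + ..`; `e' = e` works. -/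
theorem exists_rho (k : Type) [Field k] : ∃ ρ : K2 k →ₗ[k] k,
    (∀ x, ρ (dK 0 x) = 0) ∧ (∀ x, ρ (dK 1 x) = 0) ∧
    (∀ (i : Fin 2) (e : A2 k), MvPolynomial.constantCoeff e ≠ 0 → ∀ x : K2 k,
      InA (e * MvPolynomial.X i) x → ρ x = 0) ∧
    (∀ e : A2 k, MvPolynomial.constantCoeff e ≠ 0 → ∀ x : K2 k,
      InA (e * (MvPolynomial.X 0 * MvPolynomial.X 1)) x → (∀ a : A2 k, ρ (al a * x) = 0) →
      ∃ x0 x1 : K2 k, x = x0 + x1 ∧ InA (e * MvPolynomial.X 0) x0 ∧
        InA (e * MvPolynomial.X 1) x1) := by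
  refine ⟨RhoAux.rho k, RhoAux.rho_d0, RhoAux.rho_d1, RhoAux.rho_small, ?_⟩
  intro e he x hx hall
  obtain ⟨s, a, hsa⟩ := hx
  obtain ⟨e', he'⟩ := RhoAux.exists_inv he
  have h1 := congrArg (RhoAux.ph k) hsa
  rw [map_mul, RhoAux.ph_al, RhoAux.ph_al, map_pow, map_pow, map_mul, map_mul, mul_pow, map_mul,
    map_mul, mul_pow, RhoAux.psX0_pow, RhoAux.psX1_pow] at h1
  have h2 : HahnSeries.single (0 : ℤ) (HahnSeries.single (s : ℤ) (1 : k)) *
      (HahnSeries.single (s : ℤ) (1 : LaurentSeries k) * RhoAux.ph k x) =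
      RhoAux.ps k (RhoAux.io k a * e' ^ s) := by
    have h3 : RhoAux.ps k (RhoAux.io k e) ^ s * RhoAux.ps k e' ^ s = 1 := by
      rw [← mul_pow, ← map_mul, he', map_one, one_pow]
    rw [map_mul, map_pow, ← h1]
    linear_combination (-(HahnSeries.single (0 : ℤ) (HahnSeries.single (s : ℤ) (1 : k)) *
      (HahnSeries.single (s : ℤ) (1 : LaurentSeries k) * RhoAux.ph k x))) * h3
  have h4 : ∀ i < s, ∀ j < s,
      PowerSeries.coeff i (PowerSeries.coeff j (RhoAux.io k a * e' ^ s)) = 0 := by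
    intro i hi j hj
    rw [← RhoAux.ps_coeff, ← h2, HahnSeries.coeff_single_zero_mul, HahnSeries.coeff_single_mul,
      one_mul, HahnSeries.coeff_single_mul, one_mul]
    have h5 := hall (MvPolynomial.X 0 ^ (s - 1 - i) * MvPolynomial.X 1 ^ (s - 1 - j))
    rw [RhoAux.rho_apply, map_mul, RhoAux.ph_al, map_mul, map_pow, map_pow, map_mul, map_pow,
      map_pow, RhoAux.psX0_pow, RhoAux.psX1_pow, mul_assoc, HahnSeries.coeff_single_zero_mul,
      HahnSeries.coeff_single_mul, one_mul, HahnSeries.coeff_single_mul, one_mul] at h5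
    rw [show (j : ℤ) - s = -1 - ((s - 1 - j : ℕ) : ℤ) by omega,
      show (i : ℤ) - s = -1 - ((s - 1 - i : ℕ) : ℤ) by omega]
    exact h5
  have h6 : RhoAux.io k a = RhoAux.io k a * e' ^ s * RhoAux.io k e ^ s := by
    rw [mul_assoc, ← mul_pow, mul_comm e', he', one_pow, mul_one]
  have h7 : ∀ i < s, ∀ j < s,
      MvPolynomial.coeff (Finsupp.single 0 i + Finsupp.single 1 j) a = 0 := by
    intro i hi j hj
    rw [← RhoAux.io_coeff, h6]
    exact RhoAux.coeff_mul_zero s _ _ h4 i hi j hj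
  obtain ⟨a0, a1, ha⟩ := RhoAux.exists_split s a h7
  have he0 : e ≠ 0 := by
    rintro rfl
    simp at he
  have hz0 : al ((e * MvPolynomial.X 0) ^ s) ≠ 0 :=
    al_ne (pow_ne_zero _ (mul_ne_zero he0 (MvPolynomial.X_ne_zero 0)))
  have hz1 : al ((e * MvPolynomial.X 1) ^ s) ≠ 0 :=
    al_ne (pow_ne_zero _ (mul_ne_zero he0 (MvPolynomial.X_ne_zero 1)))
  have hz : al ((e * (MvPolynomial.X 0 * MvPolynomial.X 1)) ^ s) ≠ 0 :=
    al_ne (pow_ne_zero _ (mul_ne_zero he0 (mul_ne_zero (MvPolynomial.X_ne_zero 0)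
      (MvPolynomial.X_ne_zero 1))))
  refine ⟨al a1 / al ((e * MvPolynomial.X 0) ^ s), al a0 / al ((e * MvPolynomial.X 1) ^ s),
    ?_, ⟨s, a1, mul_div_cancel₀ _ hz0⟩, ⟨s, a0, mul_div_cancel₀ _ hz1⟩⟩
  rw [div_add_div _ _ hz0 hz1, eq_div_iff (mul_ne_zero hz0 hz1)]
  apply mul_left_cancel₀ hz
  have h8 : al ((e * (MvPolynomial.X 0 * MvPolynomial.X 1)) ^ s) * x =
      al (MvPolynomial.X 0 ^ s * a0 + MvPolynomial.X 1 ^ s * a1) := by rw [hsa, ha]
  simp only [al, map_add, map_mul, map_pow, mul_pow] at h8 ⊢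
  linear_combination (algebraMap (A2 k) (K2 k) e ^ s * algebraMap (A2 k) (K2 k) e ^ s *
    algebraMap (A2 k) (K2 k) (MvPolynomial.X 0) ^ s *
    algebraMap (A2 k) (K2 k) (MvPolynomial.X 1) ^ s) * h8

end Pool.Agent.LNDF
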