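import Mathlib
import Pool.Agent.LNDF.Piola
import Pool.Agent.LNDF.Rho
import Pool.Agent.LNDF.Integ

set_option autoImplicit false

open Polynomial

namespace Pool.Agent.LNDF

variable {k : Type} [Field k] [CharZero k]

/-- a primitive of a polynomial of degree `< i` has degree `≤ i` -/
theorem antider_deg {K : Type} [Field K] [CharZero K] {P W : K[X]} (h : derivative W = P) (i : ℕ)
    (hP : P.degree < (i : ℕ)) : W.natDegree ≤ i := by
  by_cases h0 : W.natDegree = 0
  · omega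
  · have h1 := degree_derivative (p := W) h0
    rw [h] at h1
    rw [h1] at hP
    have h2 : W.natDegree - 1 < i := by exact_mod_cast hP
    omega

/-- the residue of `u * del Q` through the monic version of `Q` -/
theorem Model.tau_del (M : Model k) {d : A2 k} {Q : (K2 k)[X]} (hQ : M.Good d Q)
    (u : (K2 k)[X]) :
    (Pool.Agent.LNDF.al M.c)⁻¹ * tau (C (Q.coeff M.N)⁻¹ * Q)
      (u * M.del (C (Q.coeff M.N)⁻¹ * Q)) = M.R Q (u * M.del Q) := by
  set g : K2 k := Q.coeff M.N with hg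
  have hg0 : g ≠ 0 := hQ.coeff_ne
  have hm := hQ.monic.1
  rw [← hg] at hm
  have h2 : (C g : (K2 k)[X]) * C g⁻¹ = 1 := by
    rw [← C_mul, mul_inv_cancel₀ hg0, C_1]
  have h1 : u * M.del (C g⁻¹ * Q) = C g⁻¹ * (u * M.del Q) +
      (u * (M.xi0 * mc (dK 0) (C g⁻¹) + M.xi1 * mc (dK 1) (C g⁻¹)) * C g) * (C g⁻¹ * Q) := by
    unfold Model.del
    rw [Derivation.leibniz, Derivation.leibniz, derivative_C_mul]
    simp only [smul_eq_mul]
    linear_combination (-(u * (M.xi0 * mc (dK 0) (C g⁻¹) + M.xi1 * mc (dK 1) (C g⁻¹)) * Q)) * h2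
  rw [h1, tau_add hm, tau_mul_self hm, add_zero, tau_C_mul hm]
  unfold Model.R
  rw [← hg]
  have hc := al_ne M.c_ne
  field_simp

/-- THE KEY STEP. `Q0`, `Q1` good over `A2[1/(e X0)]`, `A2[1/(e X1)]`, close to each other. For
`b ∈ S` of degree `≤ i - 1` the number `Λ(b) = R Q0 (b * (Q0 - Q1))` is a sum of an element of
`A2[1/(e X0)]` and an element of `A2[1/(e X1)]`.
Proof. Let `ρ` be from `exists_rho`. For every `b ∈ S` of degree `≤ i - 1` choose `u ∈ S` with
`del u = b` and `W` with `c W' = b` (degree `≤ i`). `piola` for the monic versions of `Q0`, `Q1`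
(same leading coefficient γ) and subtraction: `TQ Q0m W - TQ Q1m W = dK 0 (..) + dK 1 (..) +
R Q0 (u * del Q0) - R Q1 (u * del Q1)` (`tau Qm (u * del Qm) = γ⁻¹ tau Qm (u * del Q)`, because
`del (γ⁻¹) * u * Q` has `tau = 0`); `ρ` kills everything on the right hand side (`integral`,
`InS.del`). By `TQ_diff` the left hand side is `-(i W_i (Q0m - Q1m)_(N-i)) = - b_(i-1) / c *
(Q0 - Q1)_(N-i) / γ = - R Q0 (b (Q0 - Q1))` (`R_lt`, the product has degree `≤ N - 1`).
So `ρ (Λ b) = 0` for all such `b`, also for `a b`, `a ∈ A2`: `ρ (a Λ(b)) = 0`. Finally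
`Λ(b) ∈ A2[1/(e X0 X1)]` by `integral` with `d = e X0 X1`; use the last part of `exists_rho`. -/
theorem Model.lam_split (M : Model k) (e : A2 k) (he : MvPolynomial.constantCoeff e ≠ 0)
    {Q0 Q1 : (K2 k)[X]} (h0 : M.Good (e * MvPolynomial.X 0) Q0)
    (h1 : M.Good (e * MvPolynomial.X 1) Q1) (i : ℕ) (hi : 1 ≤ i) (hiN : i ≤ M.N)
    (hS : (Q0 - Q1).degree < (M.N + 1 - i : ℕ)) (b : (K2 k)[X]) (hb : b ∈ M.S)
    (hbi : b.degree < (i : ℕ)) :
    ∃ x0 x1 : K2 k, M.R Q0 (b * (Q0 - Q1)) = x0 + x1 ∧ InA (e * MvPolynomial.X 0) x0 ∧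
      InA (e * MvPolynomial.X 1) x1 := by
  have hch : CharZero (K2 k) := charZero_of_injective_algebraMap
    (algebraMap k (K2 k)).injective
  obtain ⟨ρ, r0, r1, rsm, rsp⟩ := exists_rho k
  have hN := M.N_pos
  have e0 : e ≠ 0 := by
    rintro rfl
    exact he (map_zero _)
  have hX0 : (MvPolynomial.X 0 : A2 k) ≠ 0 := MvPolynomial.X_ne_zero 0
  have hX1 : (MvPolynomial.X 1 : A2 k) ≠ 0 := MvPolynomial.X_ne_zero 1
  have hc : Pool.Agent.LNDF.al M.c ≠ 0 := al_ne M.c_ne
  set S' : (K2 k)[X] := Q0 - Q1 with hS'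
  have hSn : S'.natDegree ≤ M.N - i := by
    by_cases hz : S' = 0
    · rw [hz, natDegree_zero]
      exact Nat.zero_le _
    · rw [degree_eq_natDegree hz] at hS
      have : S'.natDegree < M.N + 1 - i := by exact_mod_cast hS
      omega
  have hg : Q0.coeff M.N = Q1.coeff M.N := h0.coeff_eq h1
  have hg0 := h0.coeff_ne
  have key : ∀ b : (K2 k)[X], b ∈ M.S → b.degree < (i : ℕ) →
      ρ (M.R Q0 (b * S')) = 0 := by
    intro b hb hbi
    obtain ⟨u, hu, hub⟩ := M.del_surj b hb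
    obtain ⟨W, hW⟩ := exists_antider (C (Pool.Agent.LNDF.al M.c)⁻¹ * b)
    have hbn : b.natDegree ≤ i - 1 := by
      by_cases hz : b = 0
      · rw [hz, natDegree_zero]
        exact Nat.zero_le _
      · rw [degree_eq_natDegree hz] at hbi
        have : b.natDegree < i := by exact_mod_cast hbi
        omega
    have hWd : W.natDegree ≤ i := by
      refine antider_deg hW i ?_
      rw [degree_C_mul (inv_ne_zero hc)]
      exact hbi
    have hWc : C (Pool.Agent.LNDF.al M.c) * derivative W = b := by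
      rw [hW, ← mul_assoc, ← C_mul, mul_inv_cancel₀ hc, C_1, one_mul]
    obtain ⟨U0, U1, κ, hP⟩ := piola M u b W hub hWc
    have p0 := hP _ h0.monic.1 (by rw [h0.monic.2]; exact hN)
    have p1 := hP _ h1.monic.1 (by rw [h1.monic.2]; exact hN)
    rw [M.tau_del h0 u] at p0
    rw [M.tau_del h1 u] at p1
    rw [h0.monic.2] at p0
    rw [h1.monic.2] at p1
    have hdiff := TQ_diff h0.monic.1 h1.monic.1 M.N i h0.monic.2 h1.monic.2 hi hiN
      (by rw [← hg, ← mul_sub, degree_C_mul (inv_ne_zero hg0)]; exact hS) W hWd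
    have hcoef : (C (Q0.coeff M.N)⁻¹ * Q0 - C (Q1.coeff M.N)⁻¹ * Q1).coeff (M.N - i) =
        (Q0.coeff M.N)⁻¹ * S'.coeff (M.N - i) := by
      rw [← hg, ← mul_sub, coeff_C_mul]
    have hWi : (i : K2 k) * W.coeff i = (Pool.Agent.LNDF.al M.c)⁻¹ * b.coeff (i - 1) := by
      have h3 := congrArg (fun P : (K2 k)[X] => P.coeff (i - 1)) hW
      simp only [coeff_derivative, coeff_C_mul] at h3
      have h4 : i - 1 + 1 = i := by omega
      have h5 : ((i - 1 : ℕ) : K2 k) + 1 = (i : K2 k) := by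
        have : ((i - 1 + 1 : ℕ) : K2 k) = (i : K2 k) := by rw [h4]
        rw [← this]
        push_cast
        ring
      rw [h4, h5] at h3
      rw [← h3]
      ring
    have hlt : (b * S').degree < (M.N : ℕ) := by
      by_cases hz : b * S' = 0
      · rw [hz, degree_zero]
        exact WithBot.bot_lt_coe _
      · rw [degree_eq_natDegree hz]
        have h3 : (b * S').natDegree ≤ (i - 1) + (M.N - i) :=
          natDegree_mul_le.trans (add_le_add hbn hSn)
        have h4 : (b * S').natDegree < M.N := by omega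
        exact_mod_cast h4
    have hR : M.R Q0 (b * S') = b.coeff (i - 1) * S'.coeff (M.N - i) /
        (Pool.Agent.LNDF.al M.c * Q0.coeff M.N) := by
      rw [M.R_lt h0 hlt]
      congr 1
      have h3 : M.N - 1 = (i - 1) + (M.N - i) := by omega
      rw [h3, coeff_mul_add_eq_of_natDegree_le hbn hSn]
    have hfin : M.R Q0 (b * S') = -(dK 0 (TQ (C (Q0.coeff M.N)⁻¹ * Q0) U0 -
        TQ (C (Q1.coeff M.N)⁻¹ * Q1) U0) + dK 1 (TQ (C (Q0.coeff M.N)⁻¹ * Q0) U1 -
        TQ (C (Q1.coeff M.N)⁻¹ * Q1) U1) + M.R Q0 (u * M.del Q0) - M.R Q1 (u * M.del Q1)) := by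
      rw [hcoef] at hdiff
      have h3 : M.R Q0 (b * S') = (i : K2 k) * W.coeff i *
          ((Q0.coeff M.N)⁻¹ * S'.coeff (M.N - i)) := by
        rw [hR, hWi]
        field_simp
      rw [h3, map_sub, map_sub]
      linear_combination hdiff - p0 + p1
    have s0 : ρ (M.R Q0 (u * M.del Q0)) = 0 :=
      rsm 0 e he _ (M.integral (mul_ne_zero e0 hX0) h0
        ((Model.InS.of_mem _ hu).mul h0.1.del))
    have s1 : ρ (M.R Q1 (u * M.del Q1)) = 0 :=
      rsm 1 e he _ (M.integral (mul_ne_zero e0 hX1) h1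
        ((Model.InS.of_mem _ hu).mul h1.1.del))
    rw [hfin, map_neg, map_sub, map_add, map_add, r0, r1, s0, s1]
    simp
  have hd0 : e * MvPolynomial.X 0 ∣ e * (MvPolynomial.X 0 * MvPolynomial.X 1) :=
    ⟨MvPolynomial.X 1, by ring⟩
  have hd1 : e * MvPolynomial.X 1 ∣ e * (MvPolynomial.X 0 * MvPolynomial.X 1) :=
    ⟨MvPolynomial.X 0, by ring⟩
  have hG : M.Good (e * (MvPolynomial.X 0 * MvPolynomial.X 1)) Q0 :=
    ⟨h0.1.dvd hd0, h0.2.1, h0.2.2⟩
  have hint : InA (e * (MvPolynomial.X 0 * MvPolynomial.X 1)) (M.R Q0 (b * S')) :=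
    M.integral (mul_ne_zero e0 (mul_ne_zero hX0 hX1)) hG
      ((Model.InS.of_mem _ hb).mul (hG.1.sub (h1.1.dvd hd1)))
  refine rsp e he _ hint ?_
  intro a
  have h3 := key (C (Pool.Agent.LNDF.al a) * b) (M.S.mul_mem (M.C_al_mem a) hb) (by
    by_cases ha : a = 0
    · rw [ha]
      have : C (Pool.Agent.LNDF.al (0 : A2 k)) * b = 0 := by simp [Pool.Agent.LNDF.al]
      rw [this, degree_zero]
      exact WithBot.bot_lt_coe _
    · rw [degree_C_mul (al_ne ha)]
      exact hbi)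
  rw [mul_assoc, M.R_C_mul h0] at h3
  exact h3

end Pool.Agent.LNDF
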