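import Mathlib
import Pool.Agent.LNDF.Integ

set_option autoImplicit false

open Polynomial

namespace Pool.Agent.LNDF

variable {k : Type} [Field k] [CharZero k]

/-- adapted family over `A2[1/d]` up to degree `N` -/
def Model.Adapted (M : Model k) (d : A2 k) (β : ℕ → (K2 k)[X]) : Prop :=
  ∀ n ≤ M.N, M.InS d (β n) ∧ (β n).natDegree ≤ n ∧
    (n.factorial : K2 k) * al M.c ^ n * (β n).coeff n = al (M.cc n)

/-- From `cc_x` (divide by `e_n * X i ^ s_n`, take for `e` the product of the `e_n`, `n ≤ N`). -/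
theorem Model.exists_adapted (M : Model k) : ∃ e : A2 k, MvPolynomial.constantCoeff e ≠ 0 ∧
    ∀ i : Fin 2, ∃ β : ℕ → (K2 k)[X], M.Adapted (e * MvPolynomial.X i) β := by
  classical
  choose! h hS hdeg s e he hcc using M.cc_x
  refine ⟨∏ i : Fin 2, ∏ n ∈ Finset.range (M.N + 1), e i n, ?_, ?_⟩
  · rw [map_prod]
    refine Finset.prod_ne_zero_iff.mpr fun i _ => ?_
    rw [map_prod]
    refine Finset.prod_ne_zero_iff.mpr fun n hn => ?_
    exact he i n (by simpa [Nat.lt_succ_iff] using hn)
  · intro i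
    refine ⟨fun n => C (al (e i n * MvPolynomial.X i ^ s i n))⁻¹ * h i n, fun n hn => ?_⟩
    have hen : e i n ≠ 0 := by
      intro h0
      have := he i n hn
      rw [h0, map_zero] at this
      exact this rfl
    have hne : e i n * MvPolynomial.X i ^ s i n ≠ 0 :=
      mul_ne_zero hen (pow_ne_zero _ (MvPolynomial.X_ne_zero i))
    have hne' := al_ne hne
    refine ⟨?_, ?_, ?_⟩
    · have h1 : e i n ∣ ∏ i : Fin 2, ∏ n ∈ Finset.range (M.N + 1), e i n :=
        (Finset.dvd_prod_of_mem (fun n => e i n)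
          (Finset.mem_range.mpr (Nat.lt_succ_of_le hn))).trans
          (Finset.dvd_prod_of_mem (fun i => ∏ n ∈ Finset.range (M.N + 1), e i n)
            (Finset.mem_univ i))
      have h2 : e i n * MvPolynomial.X i ^ s i n ∣
          ((∏ i : Fin 2, ∏ n ∈ Finset.range (M.N + 1), e i n) * MvPolynomial.X i) ^
            (s i n + 1) := by
        rw [mul_pow]
        refine mul_dvd_mul (h1.trans (dvd_pow_self _ (Nat.succ_ne_zero _))) ?_
        exact pow_dvd_pow _ (Nat.le_succ _)
      obtain ⟨q, hq⟩ := h2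
      refine ⟨s i n + 1, ?_⟩
      rw [hq]
      have h3 : C (al (e i n * MvPolynomial.X i ^ s i n * q)) *
          (C (al (e i n * MvPolynomial.X i ^ s i n))⁻¹ * h i n) = C (al q) * h i n := by
        have h4 : C (al (e i n * MvPolynomial.X i ^ s i n)) *
            C (al (e i n * MvPolynomial.X i ^ s i n))⁻¹ = (1 : (K2 k)[X]) := by
          rw [← C_mul, mul_inv_cancel₀ hne', C_1]
        have h5 : al (e i n * MvPolynomial.X i ^ s i n * q) =
            al (e i n * MvPolynomial.X i ^ s i n) * al q := by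
          simp only [al, map_mul]
        rw [h5, C_mul]
        linear_combination (C (al q) * h i n) * h4
      rw [h3]
      exact M.S.mul_mem (M.C_al_mem _) (hS i n hn)
    · exact (natDegree_C_mul_le _ _).trans (hdeg i n hn)
    · rw [coeff_C_mul]
      have h6 := hcc i n hn
      have h7 : al (M.cc n * (e i n * MvPolynomial.X i ^ s i n)) =
          al (M.cc n) * al (e i n * MvPolynomial.X i ^ s i n) := by
        simp only [al, map_mul]
      rw [h7] at h6
      have h8 : (n.factorial : K2 k) * al M.c ^ n *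
          ((al (e i n * MvPolynomial.X i ^ s i n))⁻¹ * (h i n).coeff n) =
          (al (e i n * MvPolynomial.X i ^ s i n))⁻¹ *
            ((n.factorial : K2 k) * al M.c ^ n * (h i n).coeff n) := by ring
      rw [h8, h6, mul_comm (al (M.cc n)), ← mul_assoc, inv_mul_cancel₀ hne', one_mul]

theorem Model.Adapted.good {M : Model k} {d : A2 k} {β : ℕ → (K2 k)[X]} (h : M.Adapted d β) :
    M.Good d (β M.N) :=
  h M.N le_rfl

/-- more denominators -/
theorem Model.Adapted.dvd {M : Model k} {d d' : A2 k} (hd : d ∣ d') {β : ℕ → (K2 k)[X]}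
    (h : M.Adapted d β) : M.Adapted d' β :=
  fun n hn => ⟨(h n hn).1.dvd hd, (h n hn).2⟩

/-- the pairing of two adapted elements of complementary degrees is a unit of `A2`:
`R Q (β l * β (N-1-l)) = N * (N-1)!/(l! (N-1-l)!) * cc l * cc (N-1-l) / cc N` (`R_lt`, `cc_mul`) -/
theorem Model.pair_unit (M : Model k) {d : A2 k} {β : ℕ → (K2 k)[X]} (h : M.Adapted d β)
    {Q : (K2 k)[X]} {d' : A2 k} (hQ : M.Good d' Q) (l : ℕ) (hl : l < M.N) :
    ∃ u : (A2 k)ˣ, M.R Q (β l * β (M.N - 1 - l)) = al (u : A2 k) := by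
  obtain ⟨v, hv⟩ := M.cc_mul l hl
  obtain ⟨-, hd1, hc1⟩ := h l hl.le
  obtain ⟨-, hd2, hc2⟩ := h (M.N - 1 - l) (by omega)
  have hc3 := hQ.2.2
  have hN := M.N_pos
  have hcast : ∀ n : ℕ, n ≠ 0 → IsUnit ((n : ℕ) : A2 k) := by
    intro n hn
    have h1 : ((n : ℕ) : A2 k) = MvPolynomial.C (n : k) := by simp
    rw [h1]
    exact (IsUnit.mk0 _ (Nat.cast_ne_zero.mpr hn)).map MvPolynomial.C
  obtain ⟨w, hw⟩ := hcast (M.N * (M.N - 1).choose l)
    (mul_ne_zero hN.ne' (Nat.choose_pos (by omega)).ne')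
  refine ⟨w * v⁻¹, ?_⟩
  have hdeg : (β l * β (M.N - 1 - l)).degree < (M.N : ℕ) := by
    refine lt_of_le_of_lt degree_le_natDegree ?_
    have h1 : (β l * β (M.N - 1 - l)).natDegree ≤ l + (M.N - 1 - l) :=
      natDegree_mul_le_of_le hd1 hd2
    have h2 : (β l * β (M.N - 1 - l)).natDegree < M.N := by omega
    exact_mod_cast h2
  rw [M.R_lt hQ hdeg]
  have hco : (β l * β (M.N - 1 - l)).coeff (M.N - 1) =
      (β l).coeff l * (β (M.N - 1 - l)).coeff (M.N - 1 - l) := by
    have h1 := coeff_mul_add_eq_of_natDegree_le hd1 hd2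
    rwa [Nat.add_sub_cancel' (by omega : l ≤ M.N - 1)] at h1
  rw [hco]
  have hc := al_ne M.c_ne
  have hq := hQ.coeff_ne
  rw [div_eq_iff (mul_ne_zero hc hq)]
  have hv' : al (v : A2 k) * al (↑v⁻¹ : A2 k) = 1 := by
    rw [al, al, ← map_mul, Units.mul_inv, map_one]
  have hvne : al (v : A2 k) ≠ 0 := left_ne_zero_of_mul_eq_one hv'
  have e1 : al ((w * v⁻¹ : (A2 k)ˣ) : A2 k) =
      ((M.N : K2 k) * ((M.N - 1).choose l : K2 k)) * al (↑v⁻¹ : A2 k) := by
    rw [Units.val_mul, hw]
    simp [al]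
  rw [e1]
  have hv2 : al (M.cc l) * al (M.cc (M.N - 1 - l)) * al (v : A2 k) = al (M.cc M.N) := by
    rw [← hv]
    simp only [al, map_mul]
  have f0 : ((l.factorial : ℕ) : K2 k) * ((M.N - 1 - l).factorial : K2 k) * al M.c ^ (M.N - 1) ≠ 0 :=
    mul_ne_zero (mul_ne_zero (Nat.cast_ne_zero.mpr (Nat.factorial_ne_zero _))
      (Nat.cast_ne_zero.mpr (Nat.factorial_ne_zero _))) (pow_ne_zero _ hc)
  apply mul_left_cancel₀ f0
  apply mul_right_cancel₀ hvne
  have g1 : ((M.N.factorial : ℕ) : K2 k) = (M.N : K2 k) * (((M.N - 1).choose l : K2 k) *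
      (l.factorial : K2 k) * ((M.N - 1 - l).factorial : K2 k)) := by
    rw [← Nat.cast_mul, ← Nat.cast_mul, Nat.choose_mul_factorial_mul_factorial (by omega),
      ← Nat.cast_mul, Nat.mul_factorial_pred hN.ne']
  have g2 : al M.c ^ M.N = al M.c ^ (M.N - 1) * al M.c := by
    rw [← pow_succ, Nat.sub_add_cancel hN]
  have g3 : al M.c ^ (M.N - 1) = al M.c ^ l * al M.c ^ (M.N - 1 - l) := by
    rw [← pow_add]
    congr 1
    omega
  calc ((l.factorial : ℕ) : K2 k) * ((M.N - 1 - l).factorial : K2 k) * al M.c ^ (M.N - 1) *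
        ((β l).coeff l * (β (M.N - 1 - l)).coeff (M.N - 1 - l)) * al (v : A2 k)
      = ((l.factorial : K2 k) * al M.c ^ l * (β l).coeff l) *
        (((M.N - 1 - l).factorial : K2 k) * al M.c ^ (M.N - 1 - l) *
          (β (M.N - 1 - l)).coeff (M.N - 1 - l)) * al (v : A2 k) := by rw [g3]; ring
    _ = al (M.cc M.N) := by rw [hc1, hc2, hv2]
    _ = (M.N.factorial : K2 k) * al M.c ^ M.N * Q.coeff M.N := hc3.symm
    _ = ((l.factorial : ℕ) : K2 k) * ((M.N - 1 - l).factorial : K2 k) * al M.c ^ (M.N - 1) *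
        ((M.N : K2 k) * ((M.N - 1).choose l : K2 k) * al (↑v⁻¹ : A2 k) *
          (al M.c * Q.coeff M.N)) * al (v : A2 k) := by
        rw [g1, g2]
        linear_combination (-((l.factorial : K2 k) * ((M.N - 1 - l).factorial : K2 k) *
          al M.c ^ (M.N - 1) * ((M.N : K2 k) * ((M.N - 1).choose l : K2 k) *
          (al M.c * Q.coeff M.N)))) * hv'

/-- residue of a product of small degree -/
theorem Model.R_zero (M : Model k) {d' : A2 k} {Q : (K2 k)[X]} (hQ : M.Good d' Q)
    {w : (K2 k)[X]} (hw : w.natDegree < M.N - 1) : M.R Q w = 0 := by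
  have h1 : w.degree < (M.N : ℕ) := by
    refine lt_of_le_of_lt degree_le_natDegree ?_
    have h2 : w.natDegree < M.N := by omega
    exact_mod_cast h2
  rw [M.R_lt hQ h1, coeff_eq_zero_of_natDegree_lt hw, zero_div]

/-- SURJECTIVITY of the pairing. Proof: `V = ∑ l < i, v_l β_(N-1-l)`; for `l' > l` the product
`β_l β_(N-1-l')` has degree `< N - 1`, so `R Q` of it is zero (`R_lt`); the matrix is triangular
with entries in `A2[1/d]` (`integral`) and unit diagonal (`pair_unit`). Induction on `i`. -/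
theorem Model.surj (M : Model k) {d : A2 k} (hd : d ≠ 0) {β : ℕ → (K2 k)[X]}
    (h : M.Adapted d β) {Q : (K2 k)[X]} (hQ : M.Good d Q) (i : ℕ) (hi : i ≤ M.N)
    (lam : ℕ → K2 k) (hlam : ∀ l < i, InA d (lam l)) :
    ∃ V : (K2 k)[X], M.InS d V ∧ V.degree < (M.N : ℕ) ∧ ∀ l < i, M.R Q (β l * V) = lam l := by
  induction i with
  | zero =>
    refine ⟨0, ⟨0, by rw [mul_zero]; exact M.S.zero_mem⟩, ?_, fun l hl => absurd hl (by omega)⟩
    rw [degree_zero]
    exact WithBot.bot_lt_coe _
  | succ i ih =>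
    obtain ⟨V, hV, hVd, hVl⟩ := ih (by omega) fun l hl => hlam l (by omega)
    obtain ⟨u, hu⟩ := M.pair_unit h hQ i (by omega)
    obtain ⟨hb1, hb2, -⟩ := h (M.N - 1 - i) (by omega)
    set x : K2 k := (lam i - M.R Q (β i * V)) * al (↑u⁻¹ : A2 k) with hx
    have hxA : InA d x := by
      refine InA.mul (InA.sub (hlam i (by omega)) ?_) (InA.al _ _)
      exact M.integral hd hQ ((h i (by omega)).1.mul hV)
    refine ⟨V + C x * β (M.N - 1 - i), hV.add (hb1.smul hxA), ?_, fun l hl => ?_⟩
    · refine lt_of_le_of_lt (degree_add_le _ _) (max_lt hVd ?_)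
      refine lt_of_le_of_lt degree_le_natDegree ?_
      have h1 : (C x * β (M.N - 1 - i)).natDegree ≤ M.N - 1 - i :=
        (natDegree_C_mul_le _ _).trans hb2
      have hN := M.N_pos
      have h2 : (C x * β (M.N - 1 - i)).natDegree < M.N := by omega
      exact_mod_cast h2
    · have e1 : β l * (V + C x * β (M.N - 1 - i)) =
          β l * V + C x * (β l * β (M.N - 1 - i)) := by ring
      rw [e1, M.R_add hQ, M.R_C_mul hQ]
      rcases Nat.lt_succ_iff_lt_or_eq.mp hl with hl' | hl'
      · have h1 : (β l * β (M.N - 1 - i)).natDegree < M.N - 1 := by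
          have h2 : (β l * β (M.N - 1 - i)).natDegree ≤ l + (M.N - 1 - i) :=
            natDegree_mul_le_of_le (h l (by omega)).2.1 hb2
          omega
        rw [M.R_zero hQ h1, mul_zero, add_zero]
        exact hVl l hl'
      · subst hl'
        have hu' : al (↑u⁻¹ : A2 k) * al (u : A2 k) = 1 := by
          rw [al, al, ← map_mul, Units.inv_mul, map_one]
        rw [hu, hx, mul_assoc, hu', mul_one]
        ring

/-- a polynomial of degree `< N` orthogonal to all polynomials of degree `< i` has degree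
`< N - i`. Proof: otherwise its degree is `N - 1 - l` with `l < i`; pair it with `X ^ l`
(`R_lt`: the coefficient of degree `N - 1` of the product is the leading coefficient). -/
theorem Model.orth (M : Model k) {d : A2 k} {Q : (K2 k)[X]} (hQ : M.Good d Q) (i : ℕ)
    (hi : i ≤ M.N) (V : (K2 k)[X]) (hV : V.degree < (M.N : ℕ))
    (h0 : ∀ l < i, M.R Q (X ^ l * V) = 0) : V.degree < (M.N - i : ℕ) := by
  by_cases hV0 : V = 0
  · rw [hV0, degree_zero]
    exact WithBot.bot_lt_coe _
  have e1 := degree_eq_natDegree hV0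
  rw [e1] at hV ⊢
  have h1 : V.natDegree < M.N := by exact_mod_cast hV
  by_contra hcon
  have h2 : M.N - i ≤ V.natDegree := by
    by_contra h3
    push Not at h3
    exact hcon (by exact_mod_cast h3)
  have h3 := h0 (M.N - 1 - V.natDegree) (by omega)
  have hlead : (X ^ (M.N - 1 - V.natDegree) * V).coeff (M.N - 1) = V.leadingCoeff := by
    have h4 : M.N - 1 = V.natDegree + (M.N - 1 - V.natDegree) := by omega
    conv_lhs => rw [h4]
    rw [Nat.add_sub_cancel_left, coeff_X_pow_mul]
    rfl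
  have hdeg : ((X : (K2 k)[X]) ^ (M.N - 1 - V.natDegree) * V).degree < (M.N : WithBot ℕ) := by
    rw [degree_mul, degree_X_pow, e1]
    have h5 : (M.N - 1 - V.natDegree) + V.natDegree < M.N := by omega
    exact_mod_cast h5
  rw [M.R_lt hQ hdeg, hlead] at h3
  have h6 : V.leadingCoeff ≠ 0 := leadingCoeff_ne_zero.mpr hV0
  exact div_ne_zero h6 (mul_ne_zero (al_ne M.c_ne) hQ.coeff_ne) h3

/-- an adapted family `β_0 .. β_(i-1)` spans the polynomials of degree `< i` over `K2`, and
elements of `S[1/d]` are combinations with coefficients in `A2[1/d]` -/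
theorem Model.Adapted.span {M : Model k} {d : A2 k} (hd : d ≠ 0) {β : ℕ → (K2 k)[X]}
    (h : M.Adapted d β) (i : ℕ) (hi : i ≤ M.N + 1) (V : (K2 k)[X]) (hV : V.degree < (i : ℕ)) :
    ∃ a : ℕ → K2 k, V = ∑ l ∈ Finset.range i, C (a l) * β l ∧
      (M.InS d V → ∀ l < i, InA d (a l)) := by
  induction i generalizing V with
  | zero =>
    refine ⟨fun _ => 0, ?_, fun _ l hl => absurd hl (by omega)⟩
    rw [Finset.sum_range_zero]
    by_contra h1
    rw [degree_eq_natDegree h1] at hV
    have h2 : V.natDegree < 0 := by exact_mod_cast hV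
    exact absurd h2 (Nat.not_lt_zero _)
  | succ i ih =>
    obtain ⟨hb1, hb2, hb3⟩ := h i (by omega)
    have hfc : (i.factorial : K2 k) * al M.c ^ i ≠ 0 :=
      mul_ne_zero (Nat.cast_ne_zero.mpr (Nat.factorial_ne_zero _)) (pow_ne_zero _ (al_ne M.c_ne))
    have hbne : (β i).coeff i ≠ 0 := by
      intro h0
      rw [h0, mul_zero] at hb3
      exact al_ne (M.cc_ne i) hb3.symm
    have hVn : V.natDegree ≤ i := by
      by_cases hV0 : V = 0
      · rw [hV0, natDegree_zero]
        exact Nat.zero_le _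
      · rw [degree_eq_natDegree hV0] at hV
        have h1 : V.natDegree < i + 1 := by exact_mod_cast hV
        omega
    set x : K2 k := V.coeff i / (β i).coeff i with hx
    have hW : (V - C x * β i).degree < (i : ℕ) := by
      rw [degree_lt_iff_coeff_zero]
      intro m hm
      rw [coeff_sub, coeff_C_mul]
      rcases Nat.lt_or_ge i m with h1 | h1
      · rw [coeff_eq_zero_of_natDegree_lt (lt_of_le_of_lt hVn h1),
          coeff_eq_zero_of_natDegree_lt (lt_of_le_of_lt hb2 h1), mul_zero, sub_zero]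
      · have h2 : m = i := le_antisymm h1 hm
        rw [h2, hx, div_mul_cancel₀ _ hbne, sub_self]
    obtain ⟨a, ha, haA⟩ := ih (by omega) _ hW
    have hxA : M.InS d V → InA d x := by
      intro hVS
      have h1 := M.coeff_InA d hVS i (by omega) hVn hd
      have h2 : x = (i.factorial : K2 k) * al M.c ^ i * V.coeff i / al (M.cc i) := by
        rw [← hb3, hx, mul_div_mul_left _ _ hfc]
      rw [h2]
      exact h1
    refine ⟨fun l => if l = i then x else a l, ?_, ?_⟩
    · rw [Finset.sum_range_succ]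
      simp only [if_true]
      have h1 : ∑ l ∈ Finset.range i, C (if l = i then x else a l) * β l =
          ∑ l ∈ Finset.range i, C (a l) * β l := by
        refine Finset.sum_congr rfl fun l hl => ?_
        rw [if_neg (Finset.mem_range.mp hl).ne]
      rw [h1, ← ha]
      ring
    · intro hVS l hl
      simp only
      split_ifs with h1
      · exact hxA hVS
      · exact haA (hVS.sub (hb1.smul (hxA hVS))) l (by omega)

end Pool.Agent.LNDF
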