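import Mathlib
import Pool.Agent.LNDF.Phi
import Pool.Agent.LNDF.Surj
import Pool.Agent.LNDF.LocFree

set_option autoImplicit false

open Polynomial

namespace Pool.Agent.LNDF

set_option linter.unusedSectionVars false

variable {k : Type} [Field k] [CharZero k]

/-- the induction hypothesis -/
def Model.Close (M : Model k) (i : ℕ) : Prop :=
  ∃ e : A2 k, MvPolynomial.constantCoeff e ≠ 0 ∧ ∃ Q0 Q1 : (K2 k)[X],
    M.Good (e * MvPolynomial.X 0) Q0 ∧ M.Good (e * MvPolynomial.X 1) Q1 ∧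
      (Q0 - Q1).degree < (M.N + 1 - i : ℕ)

theorem Model.Good.dvd {M : Model k} {d d' : A2 k} (hd : d ∣ d') {Q : (K2 k)[X]}
    (h : M.Good d Q) : M.Good d' Q :=
  ⟨h.1.dvd hd, h.2⟩

/-- start: `Q0`, `Q1` from `exists_adapted` (`Adapted.good`), same leading coefficient -/
theorem Model.close_one (M : Model k) : M.Close 1 := by
  obtain ⟨e, he, hβ⟩ := M.exists_adapted
  obtain ⟨β0, a0⟩ := hβ 0
  obtain ⟨β1, a1⟩ := hβ 1
  refine ⟨e, he, β0 M.N, β1 M.N, a0.good, a1.good, ?_⟩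
  rw [Nat.add_sub_cancel, degree_lt_iff_coeff_zero]
  intro m hm
  rw [coeff_sub]
  rcases Nat.eq_or_lt_of_le hm with rfl | hlt
  · rw [a0.good.coeff_eq a1.good, sub_self]
  · rw [coeff_eq_zero_of_natDegree_lt (lt_of_le_of_lt a0.good.2.1 hlt),
      coeff_eq_zero_of_natDegree_lt (lt_of_le_of_lt a1.good.2.1 hlt), sub_self]

/-- the residue as a linear functional -/
noncomputable def Model.Good.lin {M : Model k} {d : A2 k} {Q : (K2 k)[X]} (hQ : M.Good d Q) :
    (K2 k)[X] →ₗ[K2 k] K2 k where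
  toFun := M.R Q
  map_add' := M.R_add hQ
  map_smul' := by
    intro a w
    rw [smul_eq_C_mul, M.R_C_mul hQ]
    rfl

theorem Model.Good.lin_apply {M : Model k} {d : A2 k} {Q : (K2 k)[X]} (hQ : M.Good d Q)
    (w : (K2 k)[X]) : hQ.lin w = M.R Q w := rfl

/-- a linear functional with given values on a linearly independent family -/
theorem exists_functional {K V : Type} [Field K] [AddCommGroup V] [Module K V] {ι : Type}
    (b : ι → V) (hb : LinearIndependent K b) (x : ι → K) : ∃ f : V →ₗ[K] K, ∀ j, f (b j) = x j := by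
  obtain ⟨f, hf⟩ := LinearMap.exists_extend ((Module.Basis.span hb).constr K x)
  refine ⟨f, fun j => ?_⟩
  have h1 := LinearMap.congr_fun hf (Module.Basis.span hb j)
  rw [Module.Basis.constr_basis, LinearMap.comp_apply, Submodule.subtype_apply,
    Module.Basis.span_apply] at h1
  exact h1

theorem InA.sum {d : A2 k} {ι : Type} (s : Finset ι) (x : ι → K2 k) (h : ∀ j ∈ s, InA d (x j)) :
    InA d (∑ j ∈ s, x j) := by
  classical
  induction s using Finset.induction_on with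
  | empty =>
    refine ⟨0, 0, ?_⟩
    simp [Pool.Agent.LNDF.al]
  | insert a s ha ih =>
    rw [Finset.sum_insert ha]
    exact (h a (Finset.mem_insert_self a s)).add
      (ih fun j hj => h j (Finset.mem_insert_of_mem hj))

theorem al_mul (a b : A2 k) : al (a * b) = al a * al b := map_mul _ _ _

theorem al_pow (a : A2 k) (n : ℕ) : al (a ^ n) = al a ^ n := map_pow _ _ _

/-- removing a denominator -/
theorem inA_of_mul {d q : A2 k} {x : K2 k} (s : ℕ) (hq : q ∣ d)
    (h : InA d (al q * (al (d ^ s) * x))) : InA d x := by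
  obtain ⟨f, rfl⟩ := hq
  obtain ⟨t, a, ha⟩ := h
  refine ⟨t + s + 1, f * a, ?_⟩
  rw [al_mul, ← ha]
  simp only [al_mul, al_pow]
  ring

/-- the elements of degree `≤ n` of `S[1/d]` are combinations of the local basis -/
theorem Model.basis_comb (M : Model k) {n ν : ℕ} {b : Fin ν → (K2 k)[X]} {e d : A2 k} (hed : e ∣ d)
    (hd : d ≠ 0)
    (hb : ∀ h ∈ M.S, h.natDegree ≤ n → ∃ a : Fin ν → A2 k,
      C (al e) * h = ∑ j, C (al (a j)) * b j) {h : (K2 k)[X]} (hh : M.InS d h)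
    (hn : h.natDegree ≤ n) : (h ∈ Submodule.span (K2 k) (Set.range b)) ∧
      ∀ (f : (K2 k)[X] →ₗ[K2 k] K2 k), (∀ j, InA d (f (b j))) → InA d (f h) := by
  obtain ⟨s, hs⟩ := hh
  obtain ⟨a, ha⟩ := hb _ hs ((natDegree_C_mul_le _ _).trans hn)
  have he0 : e ≠ 0 := fun h0 => hd (by rw [h0] at hed; exact zero_dvd_iff.1 hed)
  have hq : al e * al (d ^ s) ≠ 0 := mul_ne_zero (al_ne he0) (al_ne (pow_ne_zero _ hd))
  have h1 : (al e * al (d ^ s)) • h = ∑ j, al (a j) • b j := by
    rw [smul_eq_C_mul, C_mul, mul_assoc, ha]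
    exact Finset.sum_congr rfl fun j _ => (smul_eq_C_mul _).symm
  constructor
  · have h2 : h = (al e * al (d ^ s))⁻¹ • ∑ j, al (a j) • b j := by
      rw [← h1, smul_smul, inv_mul_cancel₀ hq, one_smul]
    rw [h2]
    exact Submodule.smul_mem _ _ (Submodule.sum_mem _ fun j _ =>
      Submodule.smul_mem _ _ (Submodule.subset_span ⟨j, rfl⟩))
  · intro f hf
    refine inA_of_mul s hed ?_
    have h2 := congrArg f h1
    rw [map_smul, map_sum, smul_eq_mul, mul_assoc] at h2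
    rw [h2]
    refine InA.sum _ _ fun j _ => ?_
    rw [map_smul, smul_eq_mul]
    exact (InA.al d (a j)).mul (hf j)

/-- THE STEP. -/
theorem Model.close_step (M : Model k) (i : ℕ) (hi : 1 ≤ i) (hiN : i ≤ M.N) (h : M.Close i) :
    M.Close (i + 1) := by
  obtain ⟨e, he, Q0, Q1, g0, g1, hS⟩ := h
  obtain ⟨e', he', hβ⟩ := M.exists_adapted
  obtain ⟨β0, a0⟩ := hβ 0
  obtain ⟨β1, a1⟩ := hβ 1
  obtain ⟨ν, b, e'', he'', hb, hbli, hbs⟩ := M.loc_free (i - 1)
  obtain ⟨E, hE⟩ : ∃ E, E = e * e' * e'' := ⟨_, rfl⟩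
  have hEc : MvPolynomial.constantCoeff E ≠ 0 := by
    rw [hE, map_mul, map_mul]
    exact mul_ne_zero (mul_ne_zero he he') he''
  have hE0 : E ≠ 0 := fun h0 => hEc (by rw [h0, map_zero])
  have hX : ∀ j : Fin 2, E * MvPolynomial.X j ≠ 0 := fun j =>
    mul_ne_zero hE0 (MvPolynomial.X_ne_zero j)
  have d1 : ∀ j : Fin 2, e * MvPolynomial.X j ∣ E * MvPolynomial.X j := fun j =>
    mul_dvd_mul_right (by rw [hE, mul_assoc]; exact dvd_mul_right _ _) _
  have d2 : ∀ j : Fin 2, e' * MvPolynomial.X j ∣ E * MvPolynomial.X j := fun j =>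
    mul_dvd_mul_right (by rw [hE, mul_comm e e', mul_assoc]; exact dvd_mul_right _ _) _
  have d3 : ∀ j : Fin 2, e'' ∣ E * MvPolynomial.X j := fun j =>
    Dvd.dvd.mul_right (by rw [hE]; exact dvd_mul_left _ _) _
  have G0 := g0.dvd (d1 0)
  have G1 := g1.dvd (d1 1)
  have A0 := a0.dvd (d2 0)
  have A1 := a1.dvd (d2 1)
  have hbdeg : ∀ j, (b j).degree < (i : ℕ) := by
    intro j
    refine lt_of_le_of_lt degree_le_natDegree ?_
    have := (hb j).2
    exact_mod_cast (by omega : (b j).natDegree < i)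
  have hx : ∀ j, ∃ x0 x1 : K2 k, M.R Q0 (b j * (Q0 - Q1)) = x0 + x1 ∧
      InA (E * MvPolynomial.X 0) x0 ∧ InA (E * MvPolynomial.X 1) x1 := fun j =>
    M.lam_split E hEc G0 G1 i hi hiN hS (b j) (hb j).1 (hbdeg j)
  choose x0 x1 hx01 hx0 hx1 using hx
  obtain ⟨lam0, hl0⟩ := exists_functional b hbli x0
  obtain ⟨lam1, hl1⟩ := exists_functional b hbli fun j => - x1 j
  have hneg : ∀ j, InA (E * MvPolynomial.X 1) (lam1 (b j)) := by
    intro j
    rw [hl1, ← zero_sub]
    refine InA.sub ?_ (hx1 j)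
    have := InA.al (E * MvPolynomial.X 1) 0
    rwa [Pool.Agent.LNDF.al, map_zero] at this
  have c0 : ∀ l < i, (β0 l ∈ Submodule.span (K2 k) (Set.range b)) ∧
      InA (E * MvPolynomial.X 0) (lam0 (β0 l)) := by
    intro l hl
    have h1 := M.basis_comb (d3 0) (hX 0) hbs (A0 l (by omega)).1
      ((A0 l (by omega)).2.1.trans (by omega))
    exact ⟨h1.1, h1.2 lam0 fun j => by rw [hl0]; exact hx0 j⟩
  have c1 : ∀ l < i, InA (E * MvPolynomial.X 1) (lam1 (β1 l)) := by
    intro l hl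
    have h1 := M.basis_comb (d3 1) (hX 1) hbs (A1 l (by omega)).1
      ((A1 l (by omega)).2.1.trans (by omega))
    exact h1.2 lam1 hneg
  obtain ⟨V0, hV0, hV0d, hV0l⟩ := M.surj (hX 0) A0 G0 i hiN (fun l => lam0 (β0 l))
    fun l hl => (c0 l hl).2
  obtain ⟨V1, hV1, hV1d, hV1l⟩ := M.surj (hX 1) A1 G1 i hiN (fun l => lam1 (β1 l)) c1
  have k0 : ∀ p : (K2 k)[X], p.degree < (i : ℕ) → M.R Q0 (p * V0) = lam0 p := by
    intro p hp
    obtain ⟨a, ha, -⟩ := A0.span (hX 0) i (by omega) p hp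
    have h1 : p * V0 = ∑ l ∈ Finset.range i, a l • (β0 l * V0) := by
      conv_lhs => rw [ha, Finset.sum_mul]
      exact Finset.sum_congr rfl fun l _ => by rw [smul_eq_C_mul, mul_assoc]
    rw [← G0.lin_apply, h1, map_sum]
    conv_rhs => rw [ha, map_sum]
    refine Finset.sum_congr rfl fun l hl => ?_
    rw [map_smul, G0.lin_apply, hV0l l (Finset.mem_range.1 hl), ← smul_eq_C_mul, map_smul]
  have k1 : ∀ p : (K2 k)[X], p.degree < (i : ℕ) → M.R Q1 (p * V1) = lam1 p := by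
    intro p hp
    obtain ⟨a, ha, -⟩ := A1.span (hX 1) i (by omega) p hp
    have h1 : p * V1 = ∑ l ∈ Finset.range i, a l • (β1 l * V1) := by
      conv_lhs => rw [ha, Finset.sum_mul]
      exact Finset.sum_congr rfl fun l _ => by rw [smul_eq_C_mul, mul_assoc]
    rw [← G1.lin_apply, h1, map_sum]
    conv_rhs => rw [ha, map_sum]
    refine Finset.sum_congr rfl fun l hl => ?_
    rw [map_smul, G1.lin_apply, hV1l l (Finset.mem_range.1 hl), ← smul_eq_C_mul, map_smul]
  have k1' : ∀ p : (K2 k)[X], p.degree < (i : ℕ) → M.R Q0 (p * V1) = lam1 p := by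
    intro p hp
    rw [← k1 p hp]
    refine M.R_diff G0 G1 i hi hiN hS ?_
    rcases eq_or_ne p 0 with rfl | hp0
    · rw [zero_mul, degree_zero]
      exact WithBot.bot_lt_coe _
    rcases eq_or_ne V1 0 with rfl | hv0
    · rw [mul_zero, degree_zero]
      exact WithBot.bot_lt_coe _
    rw [degree_mul, degree_eq_natDegree hp0, degree_eq_natDegree hv0]
    rw [degree_eq_natDegree hp0] at hp
    rw [degree_eq_natDegree hv0] at hV1d
    have e1 : p.natDegree < i := by exact_mod_cast hp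
    have e2 : V1.natDegree < M.N := by exact_mod_cast hV1d
    exact_mod_cast (by omega : p.natDegree + V1.natDegree < M.N + i - 1)
  have k2 : ∀ p : (K2 k)[X], p.degree < (i : ℕ) →
      M.R Q0 (p * (Q0 - Q1)) = lam0 p - lam1 p := by
    intro p hp
    have hspan : p ∈ Submodule.span (K2 k) (Set.range b) := by
      obtain ⟨a, ha, -⟩ := A0.span (hX 0) i (by omega) p hp
      rw [ha]
      refine Submodule.sum_mem _ fun l hl => ?_
      rw [← smul_eq_C_mul]
      exact Submodule.smul_mem _ _ (c0 l (Finset.mem_range.1 hl)).1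
    have h1 : Set.EqOn (G0.lin ∘ₗ LinearMap.mulRight (K2 k) (Q0 - Q1))
        ((lam0 - lam1 : (K2 k)[X] →ₗ[K2 k] K2 k)) (Set.range b) := by
      rintro _ ⟨j, rfl⟩
      rw [LinearMap.comp_apply, LinearMap.mulRight_apply, G0.lin_apply, hx01,
        LinearMap.sub_apply, hl0, hl1, sub_neg_eq_add]
    have h2 := LinearMap.eqOn_span h1 hspan
    rw [LinearMap.comp_apply, LinearMap.mulRight_apply, G0.lin_apply, LinearMap.sub_apply] at h2
    exact h2
  have hN1 : ((M.N + 1 - i : ℕ) : WithBot ℕ) ≤ (M.N : ℕ) := by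
    exact_mod_cast (by omega : M.N + 1 - i ≤ M.N)
  refine ⟨E, hEc, Q0 - V0, Q1 - V1, ⟨G0.1.sub hV0, ?_, ?_⟩, ⟨G1.1.sub hV1, ?_, ?_⟩, ?_⟩
  · refine (natDegree_sub_le _ _).trans (max_le G0.2.1 ?_)
    exact natDegree_le_of_degree_le hV0d.le
  · rw [coeff_sub, coeff_eq_zero_of_degree_lt hV0d, sub_zero]
    exact G0.2.2
  · refine (natDegree_sub_le _ _).trans (max_le G1.2.1 ?_)
    exact natDegree_le_of_degree_le hV1d.le
  · rw [coeff_sub, coeff_eq_zero_of_degree_lt hV1d, sub_zero]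
    exact G1.2.2
  · have h3 : M.N + 1 - (i + 1) = M.N - i := by omega
    rw [h3]
    refine M.orth G0 i hiN _ ?_ ?_
    · have h4 : Q0 - V0 - (Q1 - V1) = (Q0 - Q1) - V0 + V1 := by ring
      rw [h4]
      refine lt_of_le_of_lt (degree_add_le _ _) (max_lt ?_ hV1d)
      exact lt_of_le_of_lt (degree_sub_le _ _) (max_lt (lt_of_lt_of_le hS hN1) hV0d)
    · intro l hl
      have hXl : (X ^ l : (K2 k)[X]).degree < (i : ℕ) := by
        rw [degree_X_pow]
        exact_mod_cast hl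
      have h4 : X ^ l * (Q0 - V0 - (Q1 - V1)) =
          X ^ l * (Q0 - Q1) - X ^ l * V0 + X ^ l * V1 := by ring
      rw [h4, ← G0.lin_apply, map_add, map_sub, G0.lin_apply, G0.lin_apply, G0.lin_apply,
        k2 _ hXl, k0 _ hXl, k1' _ hXl]
      ring

/-- CONCLUSION of the local part: `Close (N + 1)` gives `Q0 = Q1 ∈ S[1/e]` (`inter_loc`). -/
theorem Model.main (M : Model k) : ∃ e : A2 k, MvPolynomial.constantCoeff e ≠ 0 ∧
    ∃ h ∈ M.S, h.natDegree ≤ M.N ∧
      (M.N.factorial : K2 k) * al M.c ^ M.N * h.coeff M.N = al (e * M.cc M.N) := by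
  have hcl : ∀ i, 1 ≤ i → i ≤ M.N + 1 → M.Close i := by
    intro i hi
    induction i, hi using Nat.le_induction with
    | base => exact fun _ => M.close_one
    | succ i hi ih => exact fun h => M.close_step i hi (by omega) (ih (by omega))
  obtain ⟨e, he, Q0, Q1, g0, g1, hS⟩ := hcl (M.N + 1) (by omega) le_rfl
  rw [Nat.sub_self] at hS
  have hQ : Q0 = Q1 := by
    by_contra hne
    have h0 : Q0 - Q1 ≠ 0 := sub_ne_zero.2 hne
    rw [degree_eq_natDegree h0] at hS
    exact absurd (by exact_mod_cast hS : (Q0 - Q1).natDegree < 0) (Nat.not_lt_zero _)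
  subst hQ
  obtain ⟨s, hs⟩ := M.inter_loc e he Q0 g0.1 g1.1
  refine ⟨e ^ s, ?_, _, hs, (natDegree_C_mul_le _ _).trans g0.2.1, ?_⟩
  · rw [map_pow]
    exact pow_ne_zero _ he
  · rw [coeff_C_mul, al_mul, ← g0.2.2]
    ring

end Pool.Agent.LNDF
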