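import Mathlib
import Pool.Agent.LNDF.Asm
import Pool.Agent.LNDF.Step

set_option autoImplicit false

open Polynomial

namespace Pool.Agent.LNDF

variable {k : Type} [Field k] [CharZero k]

/-- translation of the base -/
noncomputable abbrev tr (α : Fin 2 → k) : A2 k →ₐ[k] A2 k :=
  MvPolynomial.aeval (fun i => MvPolynomial.X i + MvPolynomial.C (α i))

omit [CharZero k] in
theorem tr_tr (α β : Fin 2 → k) (h : ∀ i, α i + β i = 0) (a : A2 k) : tr α (tr β a) = a := by
  have h1 : (tr α).comp (tr β) = AlgHom.id k (A2 k) := by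
    apply MvPolynomial.algHom_ext
    intro i
    simp only [AlgHom.comp_apply, tr, MvPolynomial.aeval_X, map_add, AlgHom.id_apply]
    rw [← MvPolynomial.algebraMap_eq, AlgHom.commutes, MvPolynomial.algebraMap_eq, add_assoc,
      ← map_add, h i, map_zero, add_zero]
  exact DFunLike.congr_fun h1 a

omit [CharZero k] in
theorem ev_tr (f g : B3 k) (α : Fin 2 → k) (a : A2 k) :
    ev (f - MvPolynomial.C (α 0)) (g - MvPolynomial.C (α 1)) (tr α a) = ev f g a := by
  have h1 : (ev (f - MvPolynomial.C (α 0)) (g - MvPolynomial.C (α 1))).comp (tr α) =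
      ev f g := by
    apply MvPolynomial.algHom_ext
    intro i
    simp only [AlgHom.comp_apply, tr, MvPolynomial.aeval_X, map_add, MvPolynomial.aeval_C]
    fin_cases i <;> simp [MvPolynomial.algebraMap_eq]
  exact DFunLike.congr_fun h1 a

/-- translation: `Slice` for `f - α`, `g - β` (with `c` translated) -/
theorem Slice.translate {D : Derivation k (B3 k) (B3 k)} {f g r : B3 k} {c : A2 k}
    (h : Slice D f g r c) (α : Fin 2 → k) :
    Slice D (f - MvPolynomial.C (α 0)) (g - MvPolynomial.C (α 1)) r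
      (MvPolynomial.aeval (fun i => MvPolynomial.X i + MvPolynomial.C (α i)) c) := by
  refine ⟨h.ln, ?_, ?_, ?_, ?_⟩
  · have h1 := h.ind
    rw [algebraicIndependent_iff] at h1 ⊢
    intro p hp
    have h2 : tr α (tr (fun i => - α i) p) = p := tr_tr _ _ (by simp) p
    rw [← h2] at hp
    have h3 : ev f g (tr (fun i => - α i) p) = 0 := by
      rw [← ev_tr f g α]
      exact hp
    rw [← h2, h1 _ h3, map_zero]
  · intro b
    rw [h.ker b]
    have hle : ∀ (f g : B3 k) (a b : k),
        Algebra.adjoin k {f, g} ≤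
          Algebra.adjoin k {f - MvPolynomial.C a, g - MvPolynomial.C b} := by
      intro f g a b
      apply Algebra.adjoin_le
      intro x hx
      simp only [Set.mem_insert_iff, Set.mem_singleton_iff] at hx
      have hC : ∀ a' : k, (MvPolynomial.C a' : B3 k) ∈
          Algebra.adjoin k {f - MvPolynomial.C a, g - MvPolynomial.C b} := by
        intro a'
        rw [← MvPolynomial.algebraMap_eq]
        exact Subalgebra.algebraMap_mem _ _
      rcases hx with rfl | rfl
      · have h1 : x - MvPolynomial.C a ∈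
            Algebra.adjoin k {x - MvPolynomial.C a, g - MvPolynomial.C b} :=
          Algebra.subset_adjoin (by simp)
        have h2 := Subalgebra.add_mem _ h1 (hC a)
        simpa using h2
      · have h1 : x - MvPolynomial.C b ∈
            Algebra.adjoin k {f - MvPolynomial.C a, x - MvPolynomial.C b} :=
          Algebra.subset_adjoin (by simp)
        have h2 := Subalgebra.add_mem _ h1 (hC b)
        simpa using h2
    constructor
    · intro hb
      exact hle f g (α 0) (α 1) hb
    · intro hb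
      have h1 := hle (f - MvPolynomial.C (α 0)) (g - MvPolynomial.C (α 1)) (- α 0) (- α 1) hb
      simpa using h1
  · intro h0
    apply h.cne
    have h2 : tr (fun i => - α i) (tr α c) = c := tr_tr _ _ (by simp) c
    rw [← h2]
    have h3 : tr α c = 0 := h0
    rw [h3, map_zero]
  · rw [h.Dr]
    exact (ev_tr f g α c).symm

/-- a local slice exists -/
theorem exists_slice (D : Derivation k (B3 k) (B3 k)) (hD : ∃ x, D x ≠ 0)
    (hln : ∀ x, ∃ n, (⇑D)^[n] x = 0) (f g : B3 k) (hind : AlgebraicIndependent k ![f, g])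
    (hker : ∀ b, D b = 0 ↔ b ∈ Algebra.adjoin k {f, g}) : ∃ (r : B3 k) (c : A2 k),
      Slice D f g r c := by
  classical
  obtain ⟨x, hx⟩ := hD
  have hex := hln x
  set n := Nat.find hex with hn
  have h1 : (⇑D)^[n] x = 0 := Nat.find_spec hex
  have hn0 : n ≠ 0 := by
    intro h0
    rw [h0] at h1
    simp only [Function.iterate_zero, id_eq] at h1
    rw [h1] at hx
    exact hx (map_zero D)
  have hn1 : n ≠ 1 := by
    intro h0
    rw [h0] at h1
    exact hx (by simpa using h1)
  obtain ⟨m, hm⟩ : ∃ m, n = m + 2 := ⟨n - 2, by omega⟩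
  have h2 : (⇑D)^[m + 1] x ≠ 0 := Nat.find_min hex (m := m + 1) (by omega)
  rw [Function.iterate_succ', Function.comp_apply] at h2
  have h3 : D (D ((⇑D)^[m] x)) = 0 := by
    rw [hm, Function.iterate_succ', Function.comp_apply, Function.iterate_succ',
      Function.comp_apply] at h1
    exact h1
  have h4 := (hker _).1 h3
  have h5 : Algebra.adjoin k {f, g} = (ev f g).range := by
    rw [← Algebra.adjoin_range_eq_range_aeval]
    congr 1
    ext y
    simp [eq_comm, or_comm]
  rw [h5] at h4
  obtain ⟨c, hc⟩ := h4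
  refine ⟨(⇑D)^[m] x, c, ⟨hln, hind, hker, ?_, ?_⟩⟩
  · rintro rfl
    apply h2
    rw [← hc]
    exact map_zero (ev f g)
  · exact hc.symm

/-- an ideal of `A2 k` which is contained in no `(X0 - α0, X1 - α1)` is everything
(`MvPolynomial.isMaximal_iff_eq_vanishingIdeal_singleton`) -/
theorem one_mem_of_points [IsAlgClosed k] (J : Ideal (A2 k))
    (hJ : ∀ α : Fin 2 → k, ∃ e ∈ J, MvPolynomial.eval α e ≠ 0) : (1 : A2 k) ∈ J := by
  by_contra h1
  have hne : J ≠ ⊤ := fun h => h1 (h ▸ Submodule.mem_top)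
  obtain ⟨m, hm, hJm⟩ := Ideal.exists_le_maximal J hne
  obtain ⟨α, hα⟩ := MvPolynomial.isMaximal_iff_eq_vanishingIdeal_singleton.1 hm
  obtain ⟨e, he, hne⟩ := hJ α
  apply hne
  have h2 := hJm he
  rw [hα] at h2
  have h3 := (MvPolynomial.mem_vanishingIdeal_singleton_iff _ _).1 h2
  exact h3

/-- the local result at a point, translated back to `B3`: `Slice.translate`, `exists_iota`,
`exists_model`, `Model.main`, `Iota.top` -/
theorem local_G [IsAlgClosed k] {D : Derivation k (B3 k) (B3 k)} {f g r : B3 k} {c : A2 k}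
    (h : Slice D f g r c) (hirr : ∀ p : B3 k, Prime p → D p = 0 → ∃ x, ¬ p ∣ D x)
    (A : Arith D) (α : Fin 2 → k) :
    ∃ (e : A2 k) (x : B3 k), MvPolynomial.eval α e ≠ 0 ∧
      (⇑D)^[A.N] x = ev f g e * A.cc A.N := by
  have h' := h.translate α
  obtain ⟨ι, hι⟩ := h'.exists_iota
  obtain ⟨M, hN, hc, hS, hcc⟩ := exists_model h' hirr A hι
  obtain ⟨e, he, w, hw, hdeg, hlead⟩ := M.main
  obtain ⟨x, rfl⟩ := (hS w).1 hw
  rw [hc, hN] at hlead
  rw [hN] at hdeg hcc
  refine ⟨tr (fun i => - α i) e, x, ?_, ?_⟩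
  · have h1 : MvPolynomial.eval α (tr (fun i => - α i) e) = MvPolynomial.constantCoeff e := by
      have h2 : ((MvPolynomial.aeval α : A2 k →ₐ[k] k).comp (tr (fun i => - α i))) =
          (MvPolynomial.aeval (fun _ => (0 : k)) : A2 k →ₐ[k] k) := by
        apply MvPolynomial.algHom_ext
        intro i
        simp [tr]
      have h3 := DFunLike.congr_fun h2 e
      rw [AlgHom.comp_apply] at h3
      rw [MvPolynomial.aeval_eq_eval, MvPolynomial.aeval_eq_eval] at h3
      rw [h3]
      simp [MvPolynomial.constantCoeff_eq, MvPolynomial.eval_zero']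
    rw [h1]
    exact he
  · have h1 := hι.top A.N x hdeg
    rw [hlead, ← hι.ev] at h1
    have h2 := hι.inj h1
    rw [h2, map_mul, hcc]
    congr 1
    have h3 := ev_tr f g α (tr (fun i => - α i) e)
    rw [tr_tr _ _ (by simp)] at h3
    exact h3

/-- EXISTENCE OF `G` (irreducible `D`, algebraically closed field) -/
theorem exists_G [IsAlgClosed k] {D : Derivation k (B3 k) (B3 k)} {f g r : B3 k} {c : A2 k}
    (h : Slice D f g r c) (hirr : ∀ p : B3 k, Prime p → D p = 0 → ∃ x, ¬ p ∣ D x)
    (A : Arith D) : ∃ G : B3 k, (⇑D)^[A.N] G = A.cc A.N := by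
  have hadd : ∀ (n : ℕ) (x y : B3 k), (⇑D)^[n] (x + y) = (⇑D)^[n] x + (⇑D)^[n] y := by
    intro n x y
    exact iterate_map_add D n x y
  have hmul : ∀ (a : A2 k) (n : ℕ) (x : B3 k),
      (⇑D)^[n] (ev f g a * x) = ev f g a * (⇑D)^[n] x := by
    intro a n
    have hDa : D (ev f g a) = 0 := by
      rw [h.ker]
      have h5 : Algebra.adjoin k {f, g} = (ev f g).range := by
        rw [← Algebra.adjoin_range_eq_range_aeval]
        congr 1
        ext y
        simp [eq_comm, or_comm]
      rw [h5]
      exact ⟨a, rfl⟩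
    induction n with
    | zero => intro x; rfl
    | succ n ih =>
      intro x
      rw [Function.iterate_succ', Function.comp_apply, Function.comp_apply, ih,
        Derivation.leibniz, hDa, smul_zero, add_zero, smul_eq_mul]
  let J : Ideal (A2 k) :=
    { carrier := {a | ∃ x, (⇑D)^[A.N] x = ev f g a * A.cc A.N}
      add_mem' := by
        rintro a b ⟨x, hx⟩ ⟨y, hy⟩
        refine ⟨x + y, ?_⟩
        rw [hadd, hx, hy, map_add, add_mul]
      zero_mem' := ⟨0, by rw [iterate_map_zero, map_zero, zero_mul]⟩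
      smul_mem' := by
        rintro a b ⟨x, hx⟩
        refine ⟨ev f g a * x, ?_⟩
        rw [hmul, hx, smul_eq_mul, map_mul, mul_assoc] }
  have h1 : (1 : A2 k) ∈ J := by
    apply one_mem_of_points
    intro α
    obtain ⟨e, x, he, hx⟩ := local_G h hirr A α
    exact ⟨e, ⟨x, hx⟩, he⟩
  obtain ⟨x, hx⟩ := h1
  exact ⟨x, by rw [hx, map_one, one_mul]⟩

end Pool.Agent.LNDF
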