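import Mathlib
import Pool.Agent.LNDF.Fin1
import Pool.Agent.LNDF.LocFree
import Pool.Agent.LNDF.FinDefs

set_option autoImplicit false

open Polynomial

namespace Pool.Agent.LNDF

variable {k : Type} [Field k] [CharZero k]

omit [CharZero k] in
private theorem mul_ker {D : Derivation k (B3 k) (B3 k)} {a : B3 k} (ha : D a = 0) (n : ℕ)
    (x : B3 k) : (⇑D)^[n] (a * x) = a * (⇑D)^[n] x := by
  induction n generalizing x with
  | zero => rfl
  | succ n ih =>
    rw [Function.iterate_succ', Function.comp_apply, Function.comp_apply, ih,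
      Derivation.leibniz, ha, smul_zero, add_zero, smul_eq_mul]

omit [CharZero k] in
private theorem adj_eq (f g : B3 k) : Algebra.adjoin k {f, g} = (ev f g).range := by
  rw [← Algebra.adjoin_range_eq_range_aeval]
  congr 1
  ext y
  simp [eq_comm, or_comm]

omit [CharZero k] in
private theorem ker_ev {D : Derivation k (B3 k) (B3 k)} {f g r : B3 k} {c : A2 k}
    (h : Slice D f g r c) (b : B3 k) : D b = 0 ↔ ∃ a, ev f g a = b := by
  rw [h.ker, adj_eq]
  rfl

/-- local freeness in `B3`, at the point `α`, of `ker D^n` (`Model.loc_free` for `n - 1`; `n ≥ 1`) -/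
theorem local_free [IsAlgClosed k] {D : Derivation k (B3 k) (B3 k)} {f g r : B3 k} {c : A2 k}
    (h : Slice D f g r c) (hirr : ∀ p : B3 k, Prime p → D p = 0 → ∃ x, ¬ p ∣ D x)
    (A : Arith D) (α : Fin 2 → k) (n : ℕ) (hn : 0 < n) :
    ∃ (ν : ℕ) (b : Fin ν → B3 k) (e : A2 k), MvPolynomial.eval α e ≠ 0 ∧
      (∀ j, (⇑D)^[n] (b j) = 0) ∧
      (∀ a : Fin ν → A2 k, ∑ j, ev f g (a j) * b j = 0 → ∀ j, a j = 0) ∧
      ∀ t, (⇑D)^[n] t = 0 → ∃ a : Fin ν → A2 k, ev f g e * t = ∑ j, ev f g (a j) * b j := by
  obtain ⟨m, rfl⟩ : ∃ m, n = m + 1 := ⟨n - 1, by omega⟩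
  have h' := h.translate α
  obtain ⟨ι, hι⟩ := h'.exists_iota
  obtain ⟨M, -, -, hS, -⟩ := exists_model h' hirr A hι
  obtain ⟨ν, b, e, he, hb, hli, hfree⟩ := M.loc_free m
  have hbex : ∀ j, ∃ y, ι y = b j := fun j => (hS _).1 (hb j).1
  choose b' hb' using hbex
  have hev : ∀ a : A2 k, ι (ev f g a) = C (al (tr α a)) := by
    intro a
    rw [← ev_tr f g α a, hι.ev]
  have hev' : ∀ a : A2 k, ι (ev f g (tr (fun i => -α i) a)) = C (al a) := by
    intro a
    rw [hev, tr_tr _ _ (by simp)]
  refine ⟨ν, b', tr (fun i => -α i) e, ?_, ?_, ?_, ?_⟩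
  · have h1 : MvPolynomial.eval α (tr (fun i => - α i) e) = MvPolynomial.constantCoeff e := by
      have h2 : ((MvPolynomial.aeval α : A2 k →ₐ[k] k).comp (tr (fun i => - α i))) =
          (MvPolynomial.aeval (fun _ => (0 : k)) : A2 k →ₐ[k] k) := by
        apply MvPolynomial.algHom_ext
        intro i
        simp [tr]
      have h3 := DFunLike.congr_fun h2 e
      rw [AlgHom.comp_apply] at h3
      rw [MvPolynomial.aeval_eq_eval, MvPolynomial.aeval_eq_eval] at h3
      rw [h3]
      simp [MvPolynomial.constantCoeff_eq, MvPolynomial.eval_zero']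
    rw [h1]
    exact he
  · intro j
    rw [← hι.deg_iff h'.cne, hb' j]
    exact (hb j).2
  · intro a ha j
    have h1 := congrArg ι ha
    rw [map_sum, map_zero] at h1
    have h2 : ∑ j, al (tr α (a j)) • b j = 0 := by
      rw [← h1]
      refine Finset.sum_congr rfl fun j _ => ?_
      rw [map_mul, hev, hb', smul_eq_C_mul]
    have h3 := Fintype.linearIndependent_iff.1 hli _ h2 j
    have h4 : tr α (a j) = 0 := by
      apply al_inj
      rw [h3, al, map_zero]
    have h5 : tr (fun i => -α i) (tr α (a j)) = a j := tr_tr _ _ (by simp) _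
    rw [← h5, h4, map_zero]
  · intro t ht
    obtain ⟨a, ha⟩ := hfree (ι t) ((hS _).2 ⟨t, rfl⟩) ((hι.deg_iff h'.cne m t).2 ht)
    refine ⟨fun j => tr (fun i => -α i) (a j), hι.inj ?_⟩
    rw [map_mul, hev', ha, map_sum]
    refine Finset.sum_congr rfl fun j _ => ?_
    rw [map_mul, hev', hb']

/-- DUAL BASIS: the set of `e ∈ A2` such that `e * id` on `ker D^n` is a finite sum
`t ↦ ∑ lam_i (t) b_i` with `lam_i` additive and `ker D`-linear is an ideal; by `local_free` it is in no
maximal ideal (`one_mem_of_points`), so it contains `1`. -/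
theorem exists_dual [IsAlgClosed k] {D : Derivation k (B3 k) (B3 k)} {f g r : B3 k} {c : A2 k}
    (h : Slice D f g r c) (hirr : ∀ p : B3 k, Prime p → D p = 0 → ∃ x, ¬ p ∣ D x)
    (A : Arith D) (n : ℕ) (hn : 0 < n) : DualB D n := by
  classical
  let J : Ideal (A2 k) :=
    { carrier := {e | ∃ (m : ℕ) (b : Fin m → B3 k) (lam : Fin m → B3 k → B3 k),
        (∀ i, (⇑D)^[n] (b i) = 0) ∧
        (∀ i t, (⇑D)^[n] t = 0 → D (lam i t) = 0) ∧
        (∀ i t t', (⇑D)^[n] t = 0 → (⇑D)^[n] t' = 0 → lam i (t + t') = lam i t + lam i t') ∧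
        (∀ i a t, D a = 0 → (⇑D)^[n] t = 0 → lam i (a * t) = a * lam i t) ∧
        ∀ t, (⇑D)^[n] t = 0 → ev f g e * t = ∑ i, lam i t * b i}
      add_mem' := by
        rintro e e' ⟨m, b, lam, h1, h2, h3, h4, h5⟩ ⟨m', b', lam', h1', h2', h3', h4', h5'⟩
        refine ⟨m + m', Fin.append b b', Fin.append lam lam', ?_, ?_, ?_, ?_, ?_⟩
        · intro i
          refine Fin.addCases (fun i => ?_) (fun i => ?_) i
          · rw [Fin.append_left]; exact h1 i
          · rw [Fin.append_right]; exact h1' i
        · intro i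
          refine Fin.addCases (fun i => ?_) (fun i => ?_) i
          · rw [Fin.append_left]; exact h2 i
          · rw [Fin.append_right]; exact h2' i
        · intro i
          refine Fin.addCases (fun i => ?_) (fun i => ?_) i
          · rw [Fin.append_left]; exact h3 i
          · rw [Fin.append_right]; exact h3' i
        · intro i
          refine Fin.addCases (fun i => ?_) (fun i => ?_) i
          · rw [Fin.append_left]; exact h4 i
          · rw [Fin.append_right]; exact h4' i
        · intro t ht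
          rw [map_add, add_mul, h5 t ht, h5' t ht, Fin.sum_univ_add]
          simp only [Fin.append_left, Fin.append_right]
      zero_mem' := by
        refine ⟨0, Fin.elim0, Fin.elim0, fun i => i.elim0, fun i => i.elim0, fun i => i.elim0,
          fun i => i.elim0, fun t _ => ?_⟩
        rw [map_zero, zero_mul, Fin.sum_univ_zero]
      smul_mem' := by
        rintro a e ⟨m, b, lam, h1, h2, h3, h4, h5⟩
        have hDa : D (ev f g a) = 0 := (ker_ev h _).2 ⟨a, rfl⟩
        refine ⟨m, b, fun i t => ev f g a * lam i t, h1, ?_, ?_, ?_, ?_⟩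
        · intro i t ht
          rw [Derivation.leibniz, hDa, h2 i t ht, smul_zero, smul_zero, add_zero]
        · intro i t t' ht ht'
          show ev f g a * lam i (t + t') = ev f g a * lam i t + ev f g a * lam i t'
          rw [h3 i t t' ht ht', mul_add]
        · intro i a' t ha' ht
          show ev f g a * lam i (a' * t) = a' * (ev f g a * lam i t)
          rw [h4 i a' t ha' ht]
          ring
        · intro t ht
          rw [smul_eq_mul, map_mul, mul_assoc, h5 t ht, Finset.mul_sum]
          refine Finset.sum_congr rfl fun i _ => ?_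
          ring }
  have h1 : (1 : A2 k) ∈ J := by
    apply one_mem_of_points
    intro α
    obtain ⟨ν, b, e, he, hb, hli, hfree⟩ := local_free h hirr A α n hn
    refine ⟨e, ?_, he⟩
    have hex : ∀ t : B3 k, ∃ a : Fin ν → A2 k, (⇑D)^[n] t = 0 →
        ev f g e * t = ∑ j, ev f g (a j) * b j := by
      intro t
      by_cases ht : (⇑D)^[n] t = 0
      · obtain ⟨a, ha⟩ := hfree t ht
        exact ⟨a, fun _ => ha⟩
      · exact ⟨0, fun h => absurd h ht⟩
    choose a ha using hex
    refine ⟨ν, b, fun i t => ev f g (a t i), hb, ?_, ?_, ?_, ?_⟩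
    · intro i t _
      exact (ker_ev h _).2 ⟨_, rfl⟩
    · intro i t t' ht ht'
      have h2 : (⇑D)^[n] (t + t') = 0 := by
        rw [iterate_map_add, ht, ht', add_zero]
      have h3 := hli (fun j => a (t + t') j - (a t j + a t' j)) (by
        simp only [map_sub, map_add, sub_mul, add_mul, Finset.sum_sub_distrib,
          Finset.sum_add_distrib]
        rw [← ha _ h2, ← ha _ ht, ← ha _ ht']
        ring) i
      show ev f g (a (t + t') i) = ev f g (a t i) + ev f g (a t' i)
      rw [sub_eq_zero.1 h3, map_add]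
    · intro i x t hx ht
      obtain ⟨x', rfl⟩ := (ker_ev h x).1 hx
      have h2 : (⇑D)^[n] (ev f g x' * t) = 0 := by
        rw [mul_ker hx, ht, mul_zero]
      have h3 := hli (fun j => a (ev f g x' * t) j - x' * a t j) (by
        simp only [map_sub, map_mul, sub_mul, mul_assoc, Finset.sum_sub_distrib,
          ← Finset.mul_sum]
        rw [← ha _ h2, ← ha _ ht]
        ring) i
      show ev f g (a (ev f g x' * t) i) = ev f g x' * ev f g (a t i)
      rw [sub_eq_zero.1 h3, map_mul]
    · intro t ht
      exact ha t ht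
  obtain ⟨m, b, lam, h1, h2, h3, h4, h5⟩ := h1
  refine ⟨m, b, lam, h1, h2, h3, h4, fun t ht => ?_⟩
  have h6 := h5 t ht
  rwa [map_one, one_mul] at h6

end Pool.Agent.LNDF
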