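import Mathlib
import Pool.Agent.LNDF.Fin1
import Pool.Agent.LNDF.Fin2
import Pool.Agent.LNDF.Ar3

set_option autoImplicit false
set_option linter.unusedSectionVars false

open Polynomial

namespace Pool.Agent.LNDF

open Pool.Agent.LNDHom

variable {k : Type} [Field k] [CharZero k]

section aux

variable {B : Type} [CommRing B] [IsDomain B] [Algebra k B]

/-- iterates of `D = q E` -/
theorem iter_qE {D E : Derivation k B B} {q : B} (hq : q ≠ 0) (hDq : D q = 0) (h : ∀ x, D x = q * E x) (n : ℕ) (x : B) :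
    (⇑D)^[n] x = q ^ n * (⇑E)^[n] x := by
  have hEq : E q = 0 := by
    have := h q
    rw [hDq] at this
    exact (mul_eq_zero.1 this.symm).resolve_left hq
  induction n with
  | zero => simp
  | succ n ih =>
    rw [Function.iterate_succ_apply', ih, h, Derivation.leibniz, Function.iterate_succ_apply']
    have h1 : E (q ^ n) = 0 := by
      rw [Derivation.leibniz_pow, hEq]
      simp
    rw [h1, smul_zero, add_zero, smul_eq_mul, pow_succ]
    ring

theorem iter_zero_iff {D E : Derivation k B B} {q : B} (hq : q ≠ 0) (hDq : D q = 0) (h : ∀ x, D x = q * E x) (n : ℕ) (x : B) :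
    (⇑D)^[n] x = 0 ↔ (⇑E)^[n] x = 0 := by
  rw [iter_qE hq hDq h, mul_eq_zero]
  exact or_iff_right (pow_ne_zero n hq)

/-- top terms of the powers of `G` -/
theorem iter_pow_top (D : Derivation k B B) {N : ℕ} {G : B} (h : (⇑D)^[N + 1] G = 0) (j : ℕ) :
    ∃ m : ℕ, m ≠ 0 ∧ (⇑D)^[j * N] (G ^ j) = (m : B) * ((⇑D)^[N] G) ^ j ∧ (⇑D)^[j * N + 1] (G ^ j) = 0 := by
  induction j with
  | zero =>
    refine ⟨1, one_ne_zero, by simp, ?_⟩
    rw [zero_mul, zero_add, Function.iterate_one, pow_zero]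
    exact D.map_one_eq_zero
  | succ j ih =>
    obtain ⟨m, hm, h1, h2⟩ := ih
    obtain ⟨h3, h4⟩ := iter_mul_top D ((j + 1) * N) (j * N) N (G ^ j) G (by ring) h2 h
    refine ⟨((j + 1) * N).choose (j * N) * m, mul_ne_zero (Nat.choose_pos (Nat.mul_le_mul_right _ (Nat.le_succ _))).ne' hm, ?_, ?_⟩
    · rw [pow_succ G, h3, h1]
      push_cast
      ring
    · rw [pow_succ G]
      exact h4

theorem unit_nat (k : Type) [Field k] [CharZero k] {B : Type} [CommRing B] [Algebra k B] {m : ℕ} (hm : m ≠ 0) :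
    ∃ u : B, (m : B) * u = 1 := by
  refine ⟨algebraMap k B ((m : k)⁻¹), ?_⟩
  rw [← map_natCast (algebraMap k B) m, ← map_mul, mul_inv_cancel₀ (Nat.cast_ne_zero.2 hm), map_one]

theorem D_natCast (D : Derivation k B B) (m : ℕ) : D (m : B) = 0 := D.map_natCast m

theorem iter_const_mul (D : Derivation k B B) {c : B} (hc : D c = 0) (n : ℕ) (x : B) :
    (⇑D)^[n] (c * x) = c * (⇑D)^[n] x := by
  induction n generalizing x with
  | zero => rfl
  | succ n ih =>
    rw [Function.iterate_succ_apply, Function.iterate_succ_apply, Derivation.leibniz, hc, smul_zero, add_zero, smul_eq_mul, ih]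

/-- an image ideal which contains a unit multiple of its gcd is principal -/
theorem princ_of {D : Derivation k B B} {n : ℕ} {c : B} (hc : IsCC D n c) {x : B} {u : B} (hx : (⇑D)^[n + 1] x = 0)
    (hu : D u = 0) (h : c = u * (⇑D)^[n] x) : Princ D n := by
  refine ⟨c, hc.const, fun v => ⟨?_, ?_⟩⟩
  · rintro ⟨y, hy, rfl⟩
    obtain ⟨e, he⟩ := hc.dvd y hy
    refine ⟨e, ?_, he⟩
    have h1 : D ((⇑D)^[n] y) = 0 := by rw [← Function.iterate_succ_apply' (⇑D), hy]
    rw [he, Derivation.leibniz, hc.const, smul_zero, add_zero, smul_eq_mul] at h1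
    exact (mul_eq_zero.1 h1).resolve_left hc.ne
  · rintro ⟨e, he, rfl⟩
    have hue : D (e * u) = 0 := by rw [Derivation.leibniz, he, hu, smul_zero, smul_zero, add_zero]
    refine ⟨(e * u) * x, ?_, ?_⟩
    · rw [iter_const_mul D hue, hx, mul_zero]
    · rw [iter_const_mul D hue]
      conv_rhs => rw [h]
      ring

theorem princ_all {D : Derivation k B B} (A : Arith D) {G : B} (hG : (⇑D)^[A.N] G = A.cc A.N) (n : ℕ)
    (hn : A.N ∣ n ∨ A.N ∣ n + 1) : Princ D n := by
  have htop : (⇑D)^[A.N + 1] G = 0 := by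
    rw [Function.iterate_succ_apply', hG]
    exact (A.isCC _).const
  -- constants: a unit factor between constants is a constant
  have hunit : ∀ (a b : B), D a = 0 → D b = 0 → b ≠ 0 → Associated a b → ∃ u : B, D u = 0 ∧ a = u * b := by
    rintro a b ha hb hb0 ⟨u, hu⟩
    refine ⟨((u⁻¹ : Bˣ) : B), ?_, ?_⟩
    · have h1 : a = b * ((u⁻¹ : Bˣ) : B) := by rw [← hu, mul_assoc, Units.mul_inv, mul_one]
      have h2 := ha
      rw [h1, Derivation.leibniz, hb, smul_zero, add_zero, smul_eq_mul] at h2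
      exact (mul_eq_zero.1 h2).resolve_left hb0
    · rw [← hu, mul_comm a, ← mul_assoc, Units.inv_mul, one_mul]
  rcases Nat.eq_zero_or_pos n with h0 | h0
  · subst h0
    refine ⟨1, D.map_one_eq_zero, fun v => ⟨?_, ?_⟩⟩
    · rintro ⟨x, hx, rfl⟩
      exact ⟨x, by simpa using hx, by simp⟩
    · rintro ⟨c, hc, rfl⟩
      exact ⟨c, by simpa using hc, by simp⟩
  rcases hn with ⟨j, hj⟩ | ⟨j, hj⟩
  · have hj0 : 0 < j := by
      rcases Nat.eq_zero_or_pos j with h | h
      · rw [h, mul_zero] at hj; omega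
      · exact h
    rw [mul_comm] at hj
    obtain ⟨m, hm, h1, h2⟩ := iter_pow_top D htop j
    obtain ⟨w, hw⟩ := unit_nat k (B := B) hm
    have hDw : D w = 0 := by
      have h3 := congrArg D hw
      rw [Derivation.leibniz, D_natCast, D.map_one_eq_zero, smul_zero, add_zero, smul_eq_mul] at h3
      have hm0 : (m : B) ≠ 0 := left_ne_zero_of_mul_eq_one hw
      exact (mul_eq_zero.1 h3).resolve_left hm0
    obtain ⟨u, hu, hu1⟩ := hunit (A.cc (j * A.N)) (A.cc A.N ^ j) (A.isCC _).const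
      (by rw [Derivation.leibniz_pow, (A.isCC _).const]; simp) (pow_ne_zero _ (A.isCC _).ne) (A.mulN j hj0).1
    rw [hj]
    refine princ_of (A.isCC _) (x := G ^ j) (u := u * w) h2 ?_ ?_
    · rw [Derivation.leibniz, hu, hDw, smul_zero, smul_zero, add_zero]
    · rw [h1, hu1, hG]
      linear_combination (-(u * A.cc A.N ^ j)) * hw
  · have hj0 : 0 < j := by
      rcases Nat.eq_zero_or_pos j with h | h
      · rw [h, mul_zero] at hj; omega
      · exact h
    obtain ⟨i, rfl⟩ : ∃ i, j = i + 1 := ⟨j - 1, by omega⟩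
    have hnn : n = (i + 1) * A.N - 1 := by rw [mul_comm, ← hj]; rfl
    have hN := A.N_pos
    obtain ⟨N', hN'⟩ : ∃ N', A.N = N' + 1 := ⟨A.N - 1, by omega⟩
    have hn' : n = i * A.N + N' := by rw [hnn, hN']; have : (i + 1) * (N' + 1) = i * (N' + 1) + N' + 1 := by ring
                                      omega
    obtain ⟨m, hm, h1, h2⟩ := iter_pow_top D htop i
    have hDG : (⇑D)^[N' + 1] (D G) = 0 := by
      rw [← Function.iterate_succ_apply, ← hN']
      exact htop
    have hDG' : (⇑D)^[N'] (D G) = A.cc A.N := by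
      rw [← Function.iterate_succ_apply]
      have : N' + 1 = A.N := hN'.symm
      rw [show N'.succ = A.N from this, hG]
    obtain ⟨h3, h4⟩ := iter_mul_top D n (i * A.N) N' (G ^ i) (D G) hn'.symm h2 hDG
    have hm' : n.choose (i * A.N) * m ≠ 0 := mul_ne_zero (Nat.choose_pos (by omega)).ne' hm
    obtain ⟨w, hw⟩ := unit_nat k (B := B) hm'
    have hDw : D w = 0 := by
      have h3 := congrArg D hw
      rw [Derivation.leibniz, D_natCast, D.map_one_eq_zero, smul_zero, add_zero, smul_eq_mul] at h3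
      have hm0 : ((n.choose (i * A.N) * m : ℕ) : B) ≠ 0 := left_ne_zero_of_mul_eq_one hw
      exact (mul_eq_zero.1 h3).resolve_left hm0
    obtain ⟨u, hu, hu1⟩ := hunit (A.cc ((i + 1) * A.N - 1)) (A.cc A.N ^ (i + 1)) (A.isCC _).const
      (by rw [Derivation.leibniz_pow, (A.isCC _).const]; simp) (pow_ne_zero _ (A.isCC _).ne) (A.mulN (i + 1) hj0).2
    rw [← hnn] at hu1
    refine princ_of (A.isCC n) (x := G ^ i * D G) (u := u * w) h4 ?_ ?_
    · rw [Derivation.leibniz, hu, hDw, smul_zero, smul_zero, add_zero]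
    · rw [h3, h1, hDG', hu1, hG]
      push_cast at hw
      linear_combination (-(u * A.cc A.N ^ (i + 1))) * hw

end aux

/-- `Pkg` for an irreducible `D` over an algebraically closed field. `div`: `Arith.div` with `δ = 1`.
`princ`: `A.mulN`, `IsCC.dvd`, with `D^(jN) (G^j) = const (D^N G)^j` and
`D^(jN-1) (G^(j-1) * D G) = const (D^N G)^j` (top terms, `iter_mul_top`). -/
theorem pkg_irr [IsAlgClosed k] {D : Derivation k (B3 k) (B3 k)} {f g r : B3 k} {c : A2 k}
    (h : Slice D f g r c) (hirr : ∀ p : B3 k, Prime p → D p = 0 → ∃ x, ¬ p ∣ D x) :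
    ∃ (N : ℕ) (G : B3 k), Pkg D N G := by
  have hD : ∃ x, D x ≠ 0 := by
    refine ⟨r, ?_⟩
    rw [h.Dr]
    intro h0
    apply h.cne
    have hinj : Function.Injective (MvPolynomial.aeval ![f, g] : MvPolynomial (Fin 2) k →ₐ[k] B3 k) := h.ind
    exact hinj (by rw [map_zero]; exact h0)
  obtain ⟨A⟩ := exists_arith D hD h.ln hirr
  obtain ⟨G, hG⟩ := exists_G h hirr A
  refine ⟨A.N, G, ?_⟩
  exact
    { pos := A.N_pos
      ne := by rw [hG]; exact (A.isCC _).ne
      top := by
        rw [Function.iterate_succ_apply', hG]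
        exact (A.isCC _).const
      gen := fun x hx => by rw [hG]; exact (A.isCC _).dvd x hx
      div := fun b => by
        obtain ⟨j, s, t, h1, h2⟩ := A.div hD h.ln (Q := G) (δ := 1) D.map_one_eq_zero one_ne_zero
          (by rw [hG, mul_one]) b
        exact ⟨s, t, by rw [← h1, one_pow, one_mul], h2⟩
      princ := fun n hn => princ_all A hG n hn
      dual := fun n hn => exists_dual h hirr A n hn }

/-- division of a derivation by a constant prime -/
theorem exists_quot {B : Type} [CommRing B] [IsDomain B] [Algebra k B] (D : Derivation k B B) (p : B) (hp : p ≠ 0)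
    (h : ∀ x, p ∣ D x) : ∃ E : Derivation k B B, ∀ x, D x = p * E x := by
  choose E hE using h
  refine ⟨Derivation.mk' { toFun := E, map_add' := fun x y => ?_, map_smul' := fun r x => ?_ } fun x y => ?_, fun x => hE x⟩
  · apply mul_left_cancel₀ hp
    rw [mul_add, ← hE, ← hE, ← hE, map_add]
  · apply mul_left_cancel₀ hp
    rw [← hE, RingHom.id_apply, mul_smul_comm, ← hE, Derivation.map_smul]
  · apply mul_left_cancel₀ hp
    change p * E (x * y) = p * (x • E y + y • E x)
    rw [← hE, Derivation.leibniz, smul_eq_mul, smul_eq_mul, smul_eq_mul, smul_eq_mul, hE x, hE y]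
    ring

theorem exists_irr_aux {B : Type} [CommRing B] [IsDomain B] [UniqueFactorizationMonoid B] [Algebra k B] (x0 : B) (y : B) :
    ∀ D : Derivation k B B, D x0 = y → y ≠ 0 → (∀ x, ∃ n, (⇑D)^[n] x = 0) →
    ∃ (q : B) (E : Derivation k B B), q ≠ 0 ∧ D q = 0 ∧ (∀ x, D x = q * E x) ∧
      (∀ x, ∃ n, (⇑E)^[n] x = 0) ∧ (∀ x, E x = 0 ↔ D x = 0) ∧
      ∀ p : B, Prime p → E p = 0 → ∃ x, ¬ p ∣ E x := by
  induction y using IsWellFounded.induction (DvdNotUnit : B → B → Prop) with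
  | _ y ih =>
    intro D hD hy hln
    by_cases hirr : ∀ p : B, Prime p → D p = 0 → ∃ x, ¬ p ∣ D x
    · exact ⟨1, D, one_ne_zero, D.map_one_eq_zero, fun x => (one_mul _).symm, hln, fun x => Iff.rfl, hirr⟩
    · push Not at hirr
      obtain ⟨p, hp, hDp, hpd⟩ := hirr
      obtain ⟨E, hE⟩ := exists_quot D p hp.ne_zero hpd
      have hEp : E p = 0 := by
        have := hE p
        rw [hDp] at this
        exact (mul_eq_zero.1 this.symm).resolve_left hp.ne_zero
      have hlnE : ∀ x, ∃ n, (⇑E)^[n] x = 0 := fun x => by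
        obtain ⟨n, hn⟩ := hln x
        exact ⟨n, (iter_zero_iff hp.ne_zero hDp hE n x).1 hn⟩
      have hE0 : E x0 ≠ 0 := by
        intro h0
        apply hy
        rw [← hD, hE, h0, mul_zero]
      obtain ⟨q, E', h1, h2, h3, h4, h5, h6⟩ := ih (E x0) ⟨hE0, p, hp.not_isUnit, by rw [← hD, hE, mul_comm]⟩ E rfl hE0 hlnE
      refine ⟨p * q, E', mul_ne_zero hp.ne_zero h1, ?_, fun x => ?_, h4, fun x => ?_, h6⟩
      · rw [hE, Derivation.leibniz, hEp, h2, smul_zero, smul_zero, add_zero, mul_zero]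
      · rw [hE, h3, mul_assoc]
      · rw [h5, hE, mul_eq_zero]
        exact (or_iff_right hp.ne_zero).symm

/-- every `D` is a constant times an irreducible one (remove prime constants; `WfDvdMonoid` for
`D x0 ≠ 0`) -/
theorem exists_irr {B : Type} [CommRing B] [IsDomain B] [UniqueFactorizationMonoid B] [Algebra k B]
    (D : Derivation k B B) (hD : ∃ x, D x ≠ 0) (hln : ∀ x, ∃ n, (⇑D)^[n] x = 0) :
    ∃ (q : B) (E : Derivation k B B), q ≠ 0 ∧ D q = 0 ∧ (∀ x, D x = q * E x) ∧
      (∀ x, ∃ n, (⇑E)^[n] x = 0) ∧ (∀ x, E x = 0 ↔ D x = 0) ∧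
      ∀ p : B, Prime p → E p = 0 → ∃ x, ¬ p ∣ E x := by
  obtain ⟨x0, hx0⟩ := hD
  exact exists_irr_aux x0 (D x0) D rfl hx0 hln

/-- `Pkg` goes from `E` to `D = q E` -/
theorem pkg_mul {B : Type} [CommRing B] [IsDomain B] [Algebra k B] (D E : Derivation k B B) (q : B)
    (hq : q ≠ 0) (hDq : D q = 0) (h : ∀ x, D x = q * E x) {N : ℕ} {G : B} (hP : Pkg E N G) :
    Pkg D N G := by
  have hi := fun n x => iter_qE hq hDq h n x
  have hz := fun n x => iter_zero_iff hq hDq h n x
  have hz1 : ∀ x, D x = 0 ↔ E x = 0 := fun x => by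
    have := hz 1 x
    simpa using this
  have hqn : ∀ n : ℕ, D (q ^ n) = 0 := fun n => by rw [Derivation.leibniz_pow, hDq]; simp
  exact
    { pos := hP.pos
      ne := fun h0 => hP.ne ((hz _ _).1 h0)
      top := (hz _ _).2 hP.top
      gen := fun x hx => by
        rw [hi, hi]
        exact mul_dvd_mul_left _ (hP.gen x ((hz _ _).1 hx))
      div := fun b => by
        obtain ⟨s, t, h1, h2⟩ := hP.div b
        exact ⟨s, t, h1, (hz _ _).2 h2⟩
      princ := fun n hn => by
        obtain ⟨a, ha, hav⟩ := hP.princ n hn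
        refine ⟨q ^ n * a, ?_, fun v => ⟨?_, ?_⟩⟩
        · rw [Derivation.leibniz, hqn, (hz1 a).2 ha, smul_zero, smul_zero, add_zero]
        · rintro ⟨x, hx, rfl⟩
          obtain ⟨c, hc, hc'⟩ := (hav _).1 ⟨x, (hz _ _).1 hx, rfl⟩
          exact ⟨c, (hz1 c).2 hc, by rw [hi, hc', mul_assoc]⟩
        · rintro ⟨c, hc, rfl⟩
          obtain ⟨x, hx, hx'⟩ := (hav (a * c)).2 ⟨c, (hz1 c).1 hc, rfl⟩
          exact ⟨x, (hz _ _).2 hx, by rw [hi, hx', mul_assoc]⟩
      dual := fun n hn => by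
        obtain ⟨m, b, lam, h1, h2, h3, h4, h5⟩ := hP.dual n hn
        exact ⟨m, b, lam, fun i => (hz _ _).2 (h1 i), fun i t ht => (hz1 _).2 (h2 i t ((hz _ _).1 ht)),
          fun i t t' ht ht' => h3 i t t' ((hz _ _).1 ht) ((hz _ _).1 ht'),
          fun i a t ha ht => h4 i a t ((hz1 _).1 ha) ((hz _ _).1 ht), fun t ht => h5 t ((hz _ _).1 ht)⟩ }

/-- `Pkg` over an algebraically closed field -/
theorem pkg_closed [IsAlgClosed k] (D : Derivation k (B3 k) (B3 k)) (hD : ∃ x, D x ≠ 0)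
    (hln : ∀ x, ∃ n, (⇑D)^[n] x = 0) (f g : B3 k) (hind : AlgebraicIndependent k ![f, g])
    (hker : ∀ b, D b = 0 ↔ b ∈ Algebra.adjoin k {f, g}) :
    ∃ (N : ℕ) (G : B3 k), Pkg D N G := by
  obtain ⟨q, E, h1, h2, h3, h4, h5, h6⟩ := exists_irr D hD hln
  have hE : ∃ x, E x ≠ 0 := by
    obtain ⟨x, hx⟩ := hD
    exact ⟨x, fun h0 => hx ((h5 x).1 h0)⟩
  obtain ⟨r, c, hs⟩ := exists_slice E hE h4 f g hind (fun b => by rw [h5, hker])
  obtain ⟨N, G, hP⟩ := pkg_irr hs h6
  exact ⟨N, G, pkg_mul D E q h1 h2 h3 hP⟩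

end Pool.Agent.LNDF
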