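import Mathlib
import Pool.Agent.LNDHom.Descent
import Pool.Agent.LNDF.GeoDefs
import Pool.Agent.LNDF.FinDefs

set_option autoImplicit false

open Polynomial

namespace Pool.Agent.LNDF

open Pool.Agent.LNDHom

section general

variable {k K : Type} [Field k] [Field K] [Algebra k K]

/-- `lf` of a constant times a polynomial over the small field -/
theorem lf_C_mul_map {σ : Type} (l : K →ₗ[k] k) (e : K) (b : MvPolynomial σ k) :
    LNDHom.lf l (MvPolynomial.C e * MvPolynomial.map (algebraMap k K) b) =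
      MvPolynomial.C (l e) * b := by
  ext m
  rw [LNDHom.coeff_lf, MvPolynomial.coeff_C_mul, MvPolynomial.coeff_map,
    MvPolynomial.coeff_C_mul, mul_comm, ← Algebra.smul_def, map_smul, smul_eq_mul, mul_comm]

/-- substitution commutes with functionals -/
theorem lf_aeval {σ τ : Type} (l : K →ₗ[k] k) (v : σ → MvPolynomial τ k)
    (p : MvPolynomial σ K) :
    LNDHom.lf l (MvPolynomial.aeval (fun i => MvPolynomial.map (algebraMap k K) (v i)) p) =
      MvPolynomial.aeval v (LNDHom.lf l p) := by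
  classical
  induction p using MvPolynomial.induction_on' with
  | monomial m c =>
    rw [LNDHom.lf_monomial, MvPolynomial.aeval_monomial, MvPolynomial.aeval_monomial]
    have h1 : (m.prod fun i n => (MvPolynomial.map (algebraMap k K) (v i)) ^ n) =
        MvPolynomial.map (algebraMap k K) (m.prod fun i n => (v i) ^ n) := by
      rw [Finsupp.prod, Finsupp.prod, map_prod]
      simp only [map_pow]
    rw [h1]
    exact lf_C_mul_map l c _
  | add p q hp hq => rw [map_add, LNDHom.lf_add, LNDHom.lf_add, map_add, hp, hq]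

/-- finitely many polynomials over `K` in terms of finitely many elements of `K` -/
theorem exists_expand {σ : Type} {ι : Type} (s : Finset ι) (b : ι → MvPolynomial σ K) :
    ∃ S : Finset (Module.Basis.ofVectorSpaceIndex k K), ∀ i ∈ s,
      b i = ∑ μ ∈ S, MvPolynomial.C (Module.Basis.ofVectorSpace k K μ) *
        MvPolynomial.map (algebraMap k K)
          (LNDHom.lf ((Module.Basis.ofVectorSpace k K).coord μ) (b i)) := by
  classical
  refine ⟨s.biUnion fun i => (b i).support.biUnion fun m =>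
    ((Module.Basis.ofVectorSpace k K).repr ((b i).coeff m)).support, ?_⟩
  intro i hi
  ext m
  rw [MvPolynomial.coeff_sum]
  have h1 := (Module.Basis.ofVectorSpace k K).linearCombination_repr ((b i).coeff m)
  rw [Finsupp.linearCombination_apply, Finsupp.sum] at h1
  conv_lhs => rw [← h1]
  by_cases hm : m ∈ (b i).support
  · rw [Finset.sum_subset (s₂ := s.biUnion fun i => (b i).support.biUnion fun m =>
      ((Module.Basis.ofVectorSpace k K).repr ((b i).coeff m)).support)]
    · apply Finset.sum_congr rfl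
      intro μ _
      rw [MvPolynomial.coeff_C_mul, MvPolynomial.coeff_map, LNDHom.coeff_lf, Algebra.smul_def,
        mul_comm]
      rfl
    · intro μ hμ
      rw [Finset.mem_biUnion]
      exact ⟨i, hi, Finset.mem_biUnion.mpr ⟨m, hm, hμ⟩⟩
    · intro μ _ hμ
      rw [Finsupp.notMem_support_iff.mp hμ, zero_smul]
  · rw [MvPolynomial.notMem_support_iff.mp hm]
    rw [map_zero, Finsupp.support_zero, Finset.sum_empty]
    symm
    apply Finset.sum_eq_zero
    intro μ _
    rw [MvPolynomial.coeff_C_mul, MvPolynomial.coeff_map, LNDHom.coeff_lf,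
      MvPolynomial.notMem_support_iff.mp hm, map_zero, map_zero, mul_zero]

/-- a functional with value one at one -/
theorem exists_l1 : ∃ l : K →ₗ[k] k, l 1 = 1 := by
  obtain ⟨l', hl'⟩ : ∃ l : K →ₗ[k] k, l 1 ≠ 0 := by
    by_contra hcon
    push Not at hcon
    exact one_ne_zero ((Module.forall_dual_apply_eq_zero_iff k _).mp hcon)
  refine ⟨(l' 1)⁻¹ • l', ?_⟩
  rw [LinearMap.smul_apply, smul_eq_mul, inv_mul_cancel₀ hl']

/-- a functional not killing a nonzero polynomial -/
theorem exists_lf_ne {σ : Type} {p : MvPolynomial σ K} (hp : p ≠ 0) :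
    ∃ l : K →ₗ[k] k, LNDHom.lf l p ≠ 0 := by
  obtain ⟨m, hm⟩ : ∃ m, MvPolynomial.coeff m p ≠ 0 := by
    by_contra hcon
    push Not at hcon
    apply hp
    ext m
    rw [hcon m, MvPolynomial.coeff_zero]
  obtain ⟨l, hl⟩ : ∃ l : K →ₗ[k] k, l (MvPolynomial.coeff m p) ≠ 0 := by
    by_contra hcon
    push Not at hcon
    exact hm ((Module.forall_dual_apply_eq_zero_iff k _).mp hcon)
  refine ⟨l, fun h0 => hl ?_⟩
  rw [← LNDHom.coeff_lf, h0, MvPolynomial.coeff_zero]

theorem lf_totalDegree {σ : Type} (l : K →ₗ[k] k) (p : MvPolynomial σ K) :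
    (LNDHom.lf l p).totalDegree ≤ p.totalDegree := by
  apply Finset.sup_mono
  intro m hm
  rw [MvPolynomial.mem_support_iff] at hm ⊢
  intro h0
  apply hm
  rw [LNDHom.coeff_lf, h0, map_zero]

theorem totalDegree_map' {σ : Type} (p : MvPolynomial σ k) :
    (MvPolynomial.map (algebraMap k K) p).totalDegree = p.totalDegree := by
  rw [MvPolynomial.totalDegree, MvPolynomial.totalDegree,
    MvPolynomial.support_map_of_injective p (algebraMap k K).injective]

/-- if `a'` divides the image of `lf l a'`, the quotient is a constant -/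
theorem quot_const {σ : Type} (l : K →ₗ[k] k) {a' : MvPolynomial σ K}
    (hne : LNDHom.lf l a' ≠ 0)
    (hd : a' ∣ MvPolynomial.map (algebraMap k K) (LNDHom.lf l a')) :
    ∃ r : K, r ≠ 0 ∧
      MvPolynomial.map (algebraMap k K) (LNDHom.lf l a') = a' * MvPolynomial.C r := by
  obtain ⟨c, hc⟩ := hd
  have hι : MvPolynomial.map (algebraMap k K) (LNDHom.lf l a') ≠ 0 := by
    rwa [map_ne_zero_iff _ (MvPolynomial.map_injective _ (algebraMap k K).injective)]
  have ha' : a' ≠ 0 := by
    rintro rfl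
    rw [zero_mul] at hc
    exact hι hc
  have hc0 : c ≠ 0 := by
    rintro rfl
    rw [mul_zero] at hc
    exact hι hc
  have h1 : (MvPolynomial.map (algebraMap k K) (LNDHom.lf l a')).totalDegree =
      a'.totalDegree + c.totalDegree := by
    rw [hc, MvPolynomial.totalDegree_mul_of_isDomain ha' hc0]
  rw [totalDegree_map'] at h1
  have h2 := lf_totalDegree l a'
  have h3 : c.totalDegree = 0 := by omega
  obtain ⟨r, hr⟩ : ∃ r, c = MvPolynomial.C r :=
    ⟨_, MvPolynomial.totalDegree_eq_zero_iff_eq_C.mp h3⟩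
  refine ⟨r, ?_, by rw [hc, hr]⟩
  rintro rfl
  exact hc0 (by rw [hr, map_zero])

end general

variable {k : Type} [Field k]

/-- base change of algebraic independence -/
theorem ext_ind (K : Type) [Field K] [Algebra k K] (f g : B3 k)
    (hind : AlgebraicIndependent k ![f, g]) :
    AlgebraicIndependent K ![MvPolynomial.map (algebraMap k K) f,
      MvPolynomial.map (algebraMap k K) g] := by
  rw [algebraicIndependent_iff]
  intro p hp
  have hv : ![MvPolynomial.map (algebraMap k K) f, MvPolynomial.map (algebraMap k K) g] =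
      fun i => MvPolynomial.map (algebraMap k K) (![f, g] i) := by
    funext i
    fin_cases i <;> rfl
  by_contra hp0
  obtain ⟨l, hl⟩ := exists_lf_ne (k := k) hp0
  apply hl
  rw [algebraicIndependent_iff] at hind
  apply hind
  rw [← lf_aeval, ← hv, hp, LNDHom.lf_zero]

theorem ext_ker (K : Type) [Field K] [Algebra k K] (D : Derivation k (B3 k) (B3 k)) (f g : B3 k)
    (hker : ∀ b, D b = 0 ↔ b ∈ Algebra.adjoin k {f, g}) (b : B3 K) :
    LNDHom.ext K D b = 0 ↔ b ∈ Algebra.adjoin K {MvPolynomial.map (algebraMap k K) f,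
      MvPolynomial.map (algebraMap k K) g} := by
  classical
  constructor
  · intro hb
    obtain ⟨S, hS⟩ := exists_expand (k := k) (Finset.univ : Finset Unit) (fun _ => b)
    rw [hS () (Finset.mem_univ _)]
    apply Subalgebra.sum_mem
    intro μ _
    apply Subalgebra.mul_mem
    · exact Subalgebra.algebraMap_mem _ _
    · have h1 : LNDHom.lf ((Module.Basis.ofVectorSpace k K).coord μ) b ∈
          Algebra.adjoin k {f, g} := by
        rw [← hker, ← LNDHom.lf_ext, hb, LNDHom.lf_zero]
      generalize LNDHom.lf ((Module.Basis.ofVectorSpace k K).coord μ) b = z at h1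
      induction h1 using Algebra.adjoin_induction with
      | mem x hx =>
        rcases hx with rfl | hx
        · exact Algebra.subset_adjoin (by simp)
        · rw [Set.mem_singleton_iff] at hx
          rw [hx]
          exact Algebra.subset_adjoin (by simp)
      | algebraMap r =>
        rw [MvPolynomial.algebraMap_eq, MvPolynomial.map_C]
        exact Subalgebra.algebraMap_mem _ _
      | add x y _ _ hx hy =>
        rw [map_add]
        exact Subalgebra.add_mem _ hx hy
      | mul x y _ _ hx hy =>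
        rw [map_mul]
        exact Subalgebra.mul_mem _ hx hy
  · intro hb
    have hf : D f = 0 := (hker f).mpr (Algebra.subset_adjoin (by simp))
    have hg : D g = 0 := (hker g).mpr (Algebra.subset_adjoin (by simp))
    induction hb using Algebra.adjoin_induction with
    | mem x hx =>
      rcases hx with rfl | hx
      · rw [LNDHom.ext_map, hf, map_zero]
      · rw [Set.mem_singleton_iff] at hx
        rw [hx, LNDHom.ext_map, hg, map_zero]
    | algebraMap r => exact Derivation.map_algebraMap _ r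
    | add x y _ _ hx hy => rw [map_add, hx, hy, add_zero]
    | mul x y _ _ hx hy => rw [Derivation.leibniz, hx, hy, smul_zero, smul_zero, add_zero]

/-- descent of principal image ideals -/
theorem princ_descent (K : Type) [Field K] [Algebra k K]
    (D : Derivation k (B3 k) (B3 k)) {n : ℕ} (hP : Princ (LNDHom.ext K D) n) :
    Princ D n := by
  obtain ⟨l1, hl1⟩ := exists_l1 (k := k) (K := K)
  have hinj := MvPolynomial.map_injective (σ := Fin 3) _ (algebraMap k K).injective
  obtain ⟨a', ha', hP⟩ := hP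
  by_cases h0 : a' = 0
  · refine ⟨0, map_zero D, fun v => ⟨?_, ?_⟩⟩
    · rintro ⟨x, hx1, hx2⟩
      obtain ⟨c, _, hc⟩ := (hP (MvPolynomial.map (algebraMap k K) v)).mp
        ⟨MvPolynomial.map (algebraMap k K) x, by rw [LNDHom.ext_map_iter, hx1, map_zero],
          by rw [LNDHom.ext_map_iter, hx2]⟩
      rw [h0, zero_mul] at hc
      have hv : v = 0 := hinj (by rw [hc, map_zero])
      exact ⟨0, map_zero D, by rw [hv, zero_mul]⟩
    · rintro ⟨c, _, hc⟩
      exact ⟨0, iterate_map_zero D _, by rw [iterate_map_zero, hc, zero_mul]⟩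
  · obtain ⟨x', hx1, hx2⟩ := (hP a').mpr ⟨1, Derivation.map_one_eq_zero _, (mul_one _).symm⟩
    obtain ⟨l, hl⟩ := exists_lf_ne (k := k) h0
    have hd : a' ∣ MvPolynomial.map (algebraMap k K) (LNDHom.lf l a') := by
      obtain ⟨c, _, hc⟩ := (hP (MvPolynomial.map (algebraMap k K) (LNDHom.lf l a'))).mp
        ⟨MvPolynomial.map (algebraMap k K) (LNDHom.lf l x'),
          by rw [LNDHom.ext_map_iter, ← LNDHom.lf_ext_iter, hx1, LNDHom.lf_zero, map_zero],
          by rw [LNDHom.ext_map_iter, ← LNDHom.lf_ext_iter, hx2]⟩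
      exact ⟨c, hc⟩
    obtain ⟨r, hr0, hr⟩ := quot_const l hl hd
    have ha : a' = MvPolynomial.map (algebraMap k K) (LNDHom.lf l a') *
        MvPolynomial.C r⁻¹ := by
      rw [hr, mul_assoc, ← map_mul, mul_inv_cancel₀ hr0, map_one, mul_one]
    refine ⟨LNDHom.lf l a', by rw [← LNDHom.lf_ext, ha', LNDHom.lf_zero], fun v => ⟨?_, ?_⟩⟩
    · rintro ⟨x, hx3, hx4⟩
      obtain ⟨c, hc1, hc⟩ := (hP (MvPolynomial.map (algebraMap k K) v)).mp
        ⟨MvPolynomial.map (algebraMap k K) x, by rw [LNDHom.ext_map_iter, hx3, map_zero],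
          by rw [LNDHom.ext_map_iter, hx4]⟩
      rw [ha, mul_assoc] at hc
      refine ⟨LNDHom.lf l1 (MvPolynomial.C r⁻¹ * c), ?_, ?_⟩
      · rw [← LNDHom.lf_ext, Derivation.leibniz, hc1, smul_zero, zero_add]
        have h1 : (LNDHom.ext K D) (MvPolynomial.C r⁻¹) = 0 :=
          Derivation.map_algebraMap (LNDHom.ext K D) r⁻¹
        rw [h1, smul_zero, LNDHom.lf_zero]
      · rw [← LNDHom.lf_map_mul, ← hc, LNDHom.lf_map l1 hl1]
    · rintro ⟨c, hc1, hc⟩
      refine ⟨c * LNDHom.lf l x', ?_, ?_⟩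
      · rw [LNDHom.iter_const D hc1, ← LNDHom.lf_ext_iter, hx1, LNDHom.lf_zero, mul_zero]
      · rw [LNDHom.iter_const D hc1, ← LNDHom.lf_ext_iter, hx2, hc, mul_comm]

/-- descent of dual bases -/
theorem dual_descent (K : Type) [Field K] [Algebra k K]
    (D : Derivation k (B3 k) (B3 k)) {n : ℕ} (hP : DualB (LNDHom.ext K D) n) :
    DualB D n := by
  classical
  obtain ⟨l1, hl1⟩ := exists_l1 (k := k) (K := K)
  obtain ⟨m, b, lam, h1, h2, h3, h4, h5⟩ := hP
  obtain ⟨S, hS⟩ := exists_expand (k := k) (Finset.univ : Finset (Fin m)) b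
  let e := Fintype.equivFin (Fin m × S)
  have hC : ∀ c : K, (LNDHom.ext K D) (MvPolynomial.C c) = 0 := fun c =>
    Derivation.map_algebraMap (LNDHom.ext K D) c
  have hm : ∀ t, (⇑D)^[n] t = 0 →
      (⇑(LNDHom.ext K D))^[n] (MvPolynomial.map (algebraMap k K) t) = 0 := by
    intro t ht
    rw [LNDHom.ext_map_iter, ht, map_zero]
  refine ⟨Fintype.card (Fin m × S),
    fun j => LNDHom.lf ((Module.Basis.ofVectorSpace k K).coord (e.symm j).2.1) (b (e.symm j).1),
    fun j t => LNDHom.lf l1 (MvPolynomial.C (Module.Basis.ofVectorSpace k K (e.symm j).2.1) *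
      lam (e.symm j).1 (MvPolynomial.map (algebraMap k K) t)), ?_, ?_, ?_, ?_, ?_⟩
  · intro j
    rw [← LNDHom.lf_ext_iter, h1, LNDHom.lf_zero]
  · intro j t ht
    rw [← LNDHom.lf_ext, Derivation.leibniz, h2 _ _ (hm t ht), hC, smul_zero, smul_zero,
      add_zero, LNDHom.lf_zero]
  · intro j t t' ht ht'
    beta_reduce
    rw [map_add, h3 _ _ _ (hm t ht) (hm t' ht'), mul_add, LNDHom.lf_add]
  · intro j a t ha ht
    beta_reduce
    rw [map_mul, h4 _ _ _ (by rw [LNDHom.ext_map, ha, map_zero]) (hm t ht), mul_left_comm,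
      LNDHom.lf_map_mul]
  · intro t ht
    have h6 := h5 _ (hm t ht)
    have h7 : t = LNDHom.lf l1 (MvPolynomial.map (algebraMap k K) t) :=
      (LNDHom.lf_map l1 hl1 t).symm
    rw [← Equiv.sum_comp e]
    simp only [Equiv.symm_apply_apply]
    rw [Fintype.sum_prod_type]
    conv_lhs => rw [h7, h6, LNDHom.lf_sum]
    apply Finset.sum_congr rfl
    intro i _
    conv_lhs => rw [hS i (Finset.mem_univ _), Finset.mul_sum, LNDHom.lf_sum]
    rw [← Finset.sum_coe_sort S]
    apply Finset.sum_congr rfl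
    intro μ _
    rw [mul_comm (LNDHom.lf l1 _), ← LNDHom.lf_map_mul]
    congr 1
    ring

/-- DESCENT of the package -/
theorem pkg_descent (K : Type) [Field K] [Algebra k K] [CharZero K]
    (D : Derivation k (B3 k) (B3 k)) (hD : ∃ x, D x ≠ 0)
    (hln : ∀ x, ∃ n, (⇑D)^[n] x = 0) {N : ℕ} {G' : B3 K} (hP : Pkg (LNDHom.ext K D) N G') :
    ∃ G : B3 k, Pkg D N G := by
  have _ := hD
  obtain ⟨l1, hl1⟩ := exists_l1 (k := k) (K := K)
  obtain ⟨l, hl⟩ := exists_lf_ne (k := k) hP.ne
  set DK := LNDHom.ext K D with hDK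
  have hC : ∀ c : K, DK (MvPolynomial.C c) = 0 := fun c =>
    Derivation.map_algebraMap DK c
  have hDG : (⇑D)^[N] (LNDHom.lf l G') = LNDHom.lf l ((⇑DK)^[N] G') :=
    (LNDHom.lf_ext_iter D l N G').symm
  have hDG1 : (⇑D)^[N + 1] (LNDHom.lf l G') = 0 := by
    rw [← LNDHom.lf_ext_iter, hP.top, LNDHom.lf_zero]
  have hd : (⇑DK)^[N] G' ∣ MvPolynomial.map (algebraMap k K) (LNDHom.lf l ((⇑DK)^[N] G')) := by
    have h1 := hP.gen (MvPolynomial.map (algebraMap k K) (LNDHom.lf l G')) (by
      rw [LNDHom.ext_map_iter, hDG1, map_zero])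
    rwa [LNDHom.ext_map_iter, hDG] at h1
  obtain ⟨r, hr0, hr⟩ := quot_const l hl hd
  -- the difference `t0`
  have ht0 : (⇑DK)^[N] (MvPolynomial.map (algebraMap k K) (LNDHom.lf l G') -
      MvPolynomial.C r * G') = 0 := by
    rw [iterate_map_sub, LNDHom.ext_map_iter, hDG, hr, LNDHom.iter_const DK (hC r), mul_comm,
      sub_self]
  set t0 := MvPolynomial.map (algebraMap k K) (LNDHom.lf l G') - MvPolynomial.C r * G' with ht0'
  have hdivK : ∀ n : ℕ, ∀ b : B3 K, (⇑DK)^[n] b = 0 →
      ∃ s t, b = s * MvPolynomial.map (algebraMap k K) (LNDHom.lf l G') + t ∧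
        (⇑DK)^[N] t = 0 := by
    intro n
    induction n with
    | zero =>
      intro b hb
      exact ⟨0, b, by rw [zero_mul, zero_add], LNDHom.iter_zero_of_le DK hb (Nat.zero_le _)⟩
    | succ n ih =>
      intro b hb
      by_cases hn : n + 1 ≤ N
      · exact ⟨0, b, by rw [zero_mul, zero_add], LNDHom.iter_zero_of_le DK hb hn⟩
      push Not at hn
      obtain ⟨s, t, hbst, ht⟩ := hP.div b
      have hsG : (⇑DK)^[n + 1] (s * G') = 0 := by
        have h1 : s * G' = b - t := by rw [hbst]; ring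
        rw [h1, iterate_map_sub, hb, LNDHom.iter_zero_of_le DK ht (by omega), sub_zero]
      have hs : (⇑DK)^[n + 1 - N] s = 0 := by
        by_contra hs
        have hs0 : s ≠ 0 := by
          rintro rfl
          exact hs (iterate_map_zero DK _)
        obtain ⟨m, hm1, hm2⟩ := LNDHom.exists_top DK hs0 (LNDHom.ext_ln D hln s)
        have hmn : n + 1 - N ≤ m := by
          by_contra hlt
          push Not at hlt
          exact hs (LNDHom.iter_zero_of_le DK hm2 (by omega))
        have h2 := (LNDHom.iter_mul_top DK (m + N) m N s G' rfl hm2 hP.top).1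
        have h3 : (⇑DK)^[m + N] (s * G') = 0 := LNDHom.iter_zero_of_le DK hsG (by omega)
        rw [h3] at h2
        have h4 : (((m + N).choose m : ℕ) : B3 K) ≠ 0 := by
          rw [Nat.cast_ne_zero]
          exact (Nat.choose_pos (by omega)).ne'
        exact mul_ne_zero h4 (mul_ne_zero hm1 hP.ne) h2.symm
      have hst0 : (⇑DK)^[n] (s * t0) = 0 := by
        obtain ⟨a, ha⟩ : ∃ a, n + 1 - N = a + 1 := ⟨n - N, by omega⟩
        obtain ⟨c, hc⟩ : ∃ c, N = c + 1 := ⟨N - 1, by have := hP.pos; omega⟩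
        rw [ha] at hs
        rw [hc] at ht0
        have h1 := (LNDHom.iter_mul_top DK (a + c) a c s t0 rfl hs ht0).2
        exact LNDHom.iter_zero_of_le DK h1 (by omega)
      obtain ⟨s', t', hb', ht'⟩ := ih (t - MvPolynomial.C r⁻¹ * (s * t0)) (by
        rw [iterate_map_sub, LNDHom.iter_const DK (hC r⁻¹), hst0, mul_zero, sub_zero]
        exact LNDHom.iter_zero_of_le DK ht (by omega))
      refine ⟨MvPolynomial.C r⁻¹ * s + s', t', ?_, ht'⟩
      have h5 : G' = MvPolynomial.C r⁻¹ *
          (MvPolynomial.map (algebraMap k K) (LNDHom.lf l G') - t0) := by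
        rw [ht0', sub_sub_cancel, ← mul_assoc, ← map_mul, inv_mul_cancel₀ hr0, map_one, one_mul]
      calc b = s * G' + t := hbst
        _ = s * (MvPolynomial.C r⁻¹ *
          (MvPolynomial.map (algebraMap k K) (LNDHom.lf l G') - t0)) + t := by rw [← h5]
        _ = MvPolynomial.C r⁻¹ * s * MvPolynomial.map (algebraMap k K) (LNDHom.lf l G') +
          (t - MvPolynomial.C r⁻¹ * (s * t0)) := by ring
        _ = _ := by rw [hb']; ring
  refine ⟨LNDHom.lf l G', ⟨hP.pos, by rw [hDG]; exact hl, hDG1, ?_, ?_, ?_, ?_⟩⟩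
  · intro x hx
    obtain ⟨y, hy⟩ := hP.gen (MvPolynomial.map (algebraMap k K) x) (by
      rw [LNDHom.ext_map_iter, hx, map_zero])
    rw [LNDHom.ext_map_iter] at hy
    have h6 : (⇑DK)^[N] G' =
        MvPolynomial.map (algebraMap k K) (LNDHom.lf l ((⇑DK)^[N] G')) *
          MvPolynomial.C r⁻¹ := by
      rw [hr, mul_assoc, ← map_mul, mul_inv_cancel₀ hr0, map_one, mul_one]
    rw [h6, mul_assoc] at hy
    rw [hDG]
    refine ⟨LNDHom.lf l1 (MvPolynomial.C r⁻¹ * y), ?_⟩
    rw [← LNDHom.lf_map_mul, ← hy, LNDHom.lf_map l1 hl1]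
  · intro b
    obtain ⟨n, hn⟩ := hln b
    obtain ⟨s, t, hb, ht⟩ := hdivK n (MvPolynomial.map (algebraMap k K) b) (by
      rw [LNDHom.ext_map_iter, hn, map_zero])
    refine ⟨LNDHom.lf l1 s, LNDHom.lf l1 t, ?_, ?_⟩
    · have h1 := congrArg (LNDHom.lf l1) hb
      rw [LNDHom.lf_map l1 hl1, LNDHom.lf_add, mul_comm, LNDHom.lf_map_mul] at h1
      rw [h1, mul_comm]
    · rw [← LNDHom.lf_ext_iter, ht, LNDHom.lf_zero]
  · intro n hn
    exact princ_descent K D (hP.princ n hn)
  · intro n hn
    exact dual_descent K D (hP.dual n hn)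

end Pool.Agent.LNDF
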