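import Mathlib
import Pool.Agent.LNDF.Fin4A
import Pool.Agent.LNDF.Fin3

set_option autoImplicit false

open Polynomial

namespace Pool.Agent.LNDF

open Pool.Agent.LNDHom

variable {k : Type} [Field k] [CharZero k]

/-- THE PACKAGE over every field of characteristic zero -/
theorem pkg_all (D : Derivation k (B3 k) (B3 k)) (hD : ∃ x, D x ≠ 0)
    (hln : ∀ x, ∃ n, (⇑D)^[n] x = 0) (f g : B3 k) (hind : AlgebraicIndependent k ![f, g])
    (hker : ∀ b, D b = 0 ↔ b ∈ Algebra.adjoin k {f, g}) :
    ∃ (N : ℕ) (G : B3 k), Pkg D N G := by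
  have hinj := MvPolynomial.map_injective (σ := Fin 3) _
    (algebraMap k (AlgebraicClosure k)).injective
  have : CharZero (AlgebraicClosure k) :=
    charZero_of_injective_algebraMap (algebraMap k (AlgebraicClosure k)).injective
  obtain ⟨N, G', hP⟩ := pkg_closed (k := AlgebraicClosure k)
    (LNDHom.ext (AlgebraicClosure k) D) (by
      obtain ⟨x, hx⟩ := hD
      refine ⟨MvPolynomial.map (algebraMap k (AlgebraicClosure k)) x, ?_⟩
      rw [LNDHom.ext_map]
      rwa [map_ne_zero_iff _ hinj]) (LNDHom.ext_ln D hln) _ _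
    (ext_ind (AlgebraicClosure k) f g hind) (ext_ker (AlgebraicClosure k) D f g hker)
  obtain ⟨G, hG⟩ := pkg_descent (AlgebraicClosure k) D hD hln hP
  exact ⟨N, G, hG⟩

end Pool.Agent.LNDF


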