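import Mathlib

set_option autoImplicit false

namespace Pool.Agent.LNDF

namespace SwindleAux

variable {A : Type} [CommRing A]

/-- a retraction splits -/
theorem split {M N : Type} [AddCommGroup M] [Module A M] [AddCommGroup N] [Module A N] (f : M →ₗ[A] N) (s : N →ₗ[A] M)
    (h : f ∘ₗ s = LinearMap.id) : Nonempty (M ≃ₗ[A] N × LinearMap.ker f) := by
  have hfs : ∀ x, f (s x) = x := fun x => LinearMap.congr_fun h x
  refine ⟨{ toFun := fun x => (f x, ⟨x - s (f x), by rw [LinearMap.mem_ker, map_sub, hfs, sub_self]⟩)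
            map_add' := fun x y => ?_
            map_smul' := fun r x => ?_
            invFun := fun y => s y.1 + y.2
            left_inv := fun x => ?_
            right_inv := fun y => ?_ }⟩
  · refine Prod.ext (map_add f x y) (Subtype.ext ?_)
    simp only [map_add, Prod.mk_add_mk, Submodule.coe_add]
    abel
  · refine Prod.ext (map_smul f r x) (Subtype.ext ?_)
    simp only [map_smul, Prod.smul_mk, SetLike.val_smul, RingHom.id_apply, smul_sub]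
  · simp only [add_sub_cancel]
  · obtain ⟨a, b, hb⟩ := y
    rw [LinearMap.mem_ker] at hb
    refine Prod.ext ?_ (Subtype.ext ?_)
    · simp only [map_add, hfs, hb, add_zero]
    · simp only [map_add, hfs, hb, add_zero, add_sub_cancel_left]

/-- `(X × Y)^(ω) = X^(ω) × Y^(ω)` -/
noncomputable def prodF (X Y : Type) [AddCommGroup X] [Module A X] [AddCommGroup Y] [Module A Y] :
    (ℕ →₀ (X × Y)) ≃ₗ[A] (ℕ →₀ X) × (ℕ →₀ Y) :=
  LinearEquiv.ofLinearMap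
    ((Finsupp.mapRange.linearMap (LinearMap.fst A X Y)).prod (Finsupp.mapRange.linearMap (LinearMap.snd A X Y)))
    ((Finsupp.mapRange.linearMap (LinearMap.inl A X Y)).coprod (Finsupp.mapRange.linearMap (LinearMap.inr A X Y)))
    (by
      refine LinearMap.ext fun x => ?_
      obtain ⟨f, g⟩ := x
      refine Prod.ext ?_ ?_ <;> ext a <;> simp)
    (by
      refine LinearMap.ext fun x => ?_
      ext a <;> simp)

/-- `X^(ω) × X^(ω) = X^(ω)` -/
theorem double (X : Type) [AddCommGroup X] [Module A X] : Nonempty ((ℕ →₀ X) ≃ₗ[A] (ℕ →₀ X) × (ℕ →₀ X)) := by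
  obtain ⟨e⟩ : Nonempty (ℕ ≃ ℕ ⊕ ℕ) := nonempty_equiv_of_countable
  exact ⟨(Finsupp.domLCongr e).trans (Finsupp.sumFinsuppLEquivProdFinsupp A)⟩

/-- `(A^m)^(ω) = A^(ω)` -/
theorem pow {m : ℕ} (hm : 0 < m) : Nonempty ((ℕ →₀ (Fin m → A)) ≃ₗ[A] (ℕ →₀ A)) := by
  have : Nonempty (Fin m) := ⟨⟨0, hm⟩⟩
  obtain ⟨e⟩ : Nonempty (ℕ × Fin m ≃ ℕ) := nonempty_equiv_of_countable
  exact ⟨((Finsupp.mapRange.linearEquiv (Finsupp.linearEquivFunOnFinite A A (Fin m)).symm).trans (Finsupp.curryLinearEquiv A).symm).trans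
    (Finsupp.domLCongr e)⟩

end SwindleAux

open SwindleAux

/-- EILENBERG SWINDLE. `P` finitely generated projective with `A` as a direct summand; then the
direct sum of countably many copies of `P` is free. Proof: `P ⊕ P' ≅ A^n`; `P^(ω) ≅ A^(ω) ⊕ P0^(ω)` and
`A^(ω) ≅ (P ⊕ P')^(ω)`, so `P^(ω) ≅ (A ⊕ P0)^(ω) ≅ A^(ω) ⊕ P0^(ω) ≅ A^(ω) ⊕ A^(ω) ⊕ P0^(ω) ≅ A^(ω) ⊕ P^(ω)
≅ P^(ω) ⊕ P'^(ω) ⊕ P^(ω) ≅ P^(ω) ⊕ P'^(ω) ≅ A^(ω)`. -/
theorem swindle (A : Type) [CommRing A] (P : Type) [AddCommGroup P] [Module A P]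
    [Module.Finite A P] [Module.Projective A P] (i : A →ₗ[A] P) (φ : P →ₗ[A] A)
    (h : φ ∘ₗ i = LinearMap.id) : Nonempty (Module.Basis ℕ A (ℕ →₀ P)) ∨ Subsingleton A := by
  rcases subsingleton_or_nontrivial A with hA | hA
  · exact Or.inr hA
  left
  obtain ⟨m, f, hf⟩ := Module.Finite.exists_fin' A P
  obtain ⟨s, hs⟩ := Module.projective_lifting_property f LinearMap.id hf
  have hm : 0 < m := by
    rcases Nat.eq_zero_or_pos m with rfl | hm
    · exfalso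
      have h1 : ∀ x : P, x = 0 := fun x => by
        obtain ⟨y, rfl⟩ := hf x
        rw [Subsingleton.elim y 0, map_zero]
      have h2 := LinearMap.congr_fun h (1 : A)
      rw [LinearMap.comp_apply, h1 (i 1), map_zero] at h2
      exact zero_ne_one h2
    · exact hm
  obtain ⟨e1⟩ := split f s hs
  obtain ⟨e2⟩ := split φ i h
  obtain ⟨e3⟩ := pow (A := A) hm
  obtain ⟨dA⟩ := double (A := A) A
  obtain ⟨dP⟩ := double (A := A) P
  set Q := LinearMap.ker f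
  set P0 := LinearMap.ker φ
  -- `P^(ω) = A^(ω) × P0^(ω)`
  have a1 : (ℕ →₀ P) ≃ₗ[A] (ℕ →₀ A) × (ℕ →₀ P0) := (Finsupp.mapRange.linearEquiv e2).trans (prodF A P0)
  -- `A^(ω) = P^(ω) × Q^(ω)`
  have a2 : (ℕ →₀ A) ≃ₗ[A] (ℕ →₀ P) × (ℕ →₀ Q) := e3.symm.trans ((Finsupp.mapRange.linearEquiv e1).trans (prodF P Q))
  -- `P^(ω) = A^(ω) × P^(ω)`
  have a3 : (ℕ →₀ P) ≃ₗ[A] (ℕ →₀ A) × (ℕ →₀ P) :=
    a1.trans ((LinearEquiv.prodCongr dA (LinearEquiv.refl A _)).trans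
      ((LinearEquiv.prodAssoc A (ℕ →₀ A) (ℕ →₀ A) (ℕ →₀ P0)).trans (LinearEquiv.prodCongr (LinearEquiv.refl A _) a1.symm)))
  -- `A^(ω) × P^(ω) = A^(ω)`
  have a4 : ((ℕ →₀ A) × (ℕ →₀ P)) ≃ₗ[A] (ℕ →₀ A) :=
    (LinearEquiv.prodComm A (ℕ →₀ A) (ℕ →₀ P)).trans ((LinearEquiv.prodCongr (LinearEquiv.refl A _) a2).trans
      ((LinearEquiv.prodAssoc A (ℕ →₀ P) (ℕ →₀ P) (ℕ →₀ Q)).symm.trans ((LinearEquiv.prodCongr dP.symm (LinearEquiv.refl A _)).trans a2.symm)))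
  exact ⟨Module.Basis.ofRepr (a3.trans a4)⟩

end Pool.Agent.LNDF
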