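import Mathlib
import Pool.Agent.LNDF.FinDefs
import Pool.Agent.LNDF.Ar4
import Pool.Agent.LNDF.Swindle

set_option autoImplicit false

namespace Pool.Agent.LNDF

open Pool.Agent.LNDHom

variable {k B : Type} [Field k] [CharZero k] [CommRing B] [IsDomain B] [Algebra k B]

omit [CharZero k] [IsDomain B] in
private theorem itc (D : Derivation k B B) {c : B} (hc : D c = 0) (n : ℕ) (x : B) :
    (⇑D)^[n] (c * x) = c * (⇑D)^[n] x := by
  induction n generalizing x with
  | zero => rfl
  | succ n ih =>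
    rw [Function.iterate_succ_apply, Derivation.leibniz, hc, smul_zero, add_zero, smul_eq_mul,
      ih, Function.iterate_succ_apply]

omit [CharZero k] [IsDomain B] in
private theorem Pkg.nonconst {D : Derivation k B B} {N : ℕ} {G : B} (hP : Pkg D N G) :
    ∃ x, D x ≠ 0 := by
  by_contra hc
  push Not at hc
  apply hP.ne
  obtain ⟨n, rfl⟩ : ∃ n, N = n + 1 := ⟨N - 1, by have := hP.pos; omega⟩
  rw [Function.iterate_succ_apply']
  exact hc _

/-- a `ker D`-linear retraction `B → ker D`. Let `a` generate `I_(N-1)` (`princ`), `D^(N-1) W = a`,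
`D^N W = 0`. For `b` write `W b = s G + t` (unique, `div_unique`) and `D^(N-1) t = a Φ(b)`. -/
theorem Pkg.retraction {D : Derivation k B B} (hln : ∀ x, ∃ n, (⇑D)^[n] x = 0) {N : ℕ} {G : B}
    (hP : Pkg D N G) : ∃ Φ : B → B, (∀ b, D (Φ b) = 0) ∧ (∀ b b', Φ (b + b') = Φ b + Φ b') ∧
      (∀ a b, D a = 0 → Φ (a * b) = a * Φ b) ∧ Φ 1 = 1 := by
  have hpos := hP.pos
  obtain ⟨a, ha, hI⟩ := hP.princ (N - 1) (Or.inr (by rw [Nat.sub_add_cancel hpos]))
  have hI' : ∀ v, (∃ x, (⇑D)^[N] x = 0 ∧ (⇑D)^[N - 1] x = v) ↔ ∃ c, D c = 0 ∧ v = a * c := by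
    intro v
    have := hI v
    rwa [Nat.sub_add_cancel hpos] at this
  have ha0 : a ≠ 0 := by
    obtain ⟨x, hx, hx'⟩ := exists_deg D hP.nonconst hln (N - 1)
    rw [Nat.sub_add_cancel hpos] at hx'
    obtain ⟨c, -, hc⟩ := (hI' _).1 ⟨x, hx', rfl⟩
    rintro rfl
    rw [zero_mul] at hc
    exact hx hc
  obtain ⟨W, hW, hW'⟩ := (hI' a).2 ⟨1, Derivation.map_one_eq_zero D, (mul_one a).symm⟩
  have key : ∀ b, ∃ c s t, D c = 0 ∧ W * b = s * G + t ∧ (⇑D)^[N] t = 0 ∧
      (⇑D)^[N - 1] t = a * c := by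
    intro b
    obtain ⟨s, t, hst, ht⟩ := hP.div (W * b)
    obtain ⟨c, hc, hc'⟩ := (hI' _).1 ⟨t, ht, rfl⟩
    exact ⟨c, s, t, hc, hst, ht, hc'⟩
  choose Φ s t h1 h2 h3 h4 using key
  have uniq : ∀ b c s' t', D c = 0 → W * b = s' * G + t' → (⇑D)^[N] t' = 0 →
      (⇑D)^[N - 1] t' = a * c → Φ b = c := by
    intro b c s' t' hc h5 h6 h7
    have h8 : (s b - s') * G + (t b - t') = 0 := by
      linear_combination h5 - h2 b
    have h9 := div_unique D hln hP.ne hP.top (by rw [iterate_map_sub, h3, h6, sub_zero]) h8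
    have h10 : t b = t' := sub_eq_zero.1 h9.2
    have h11 := h4 b
    rw [h10, h7] at h11
    exact (mul_left_cancel₀ ha0 h11).symm
  refine ⟨Φ, h1, fun b b' => ?_, fun c b hc => ?_, ?_⟩
  · refine uniq _ _ (s b + s b') (t b + t b') (by rw [map_add, h1, h1, add_zero]) ?_ ?_ ?_
    · rw [mul_add, h2, h2]; ring
    · rw [iterate_map_add, h3, h3, add_zero]
    · rw [iterate_map_add, h4, h4]; ring
  · refine uniq _ _ (c * s b) (c * t b) (by rw [Derivation.leibniz, hc, h1]; simp) ?_ ?_ ?_
    · linear_combination c * h2 b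
    · rw [itc D hc, h3, mul_zero]
    · rw [itc D hc, h4]; ring
  · exact uniq 1 1 0 W (Derivation.map_one_eq_zero D) (by ring) hW (by rw [hW', mul_one])

/-- the module `ker D^N` over `ker D` -/
def kerMod (D : Derivation k B B) (N : ℕ) : Submodule (kerAlg D) B where
  carrier := {x | (⇑D)^[N] x = 0}
  add_mem' := by
    intro x y hx hy
    change (⇑D)^[N] (x + y) = 0
    rw [iterate_map_add, show (⇑D)^[N] x = 0 from hx, show (⇑D)^[N] y = 0 from hy, add_zero]
  zero_mem' := iterate_map_zero D N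
  smul_mem' := by
    intro c x hx
    change (⇑D)^[N] ((c : B) * x) = 0
    rw [itc D c.2, show (⇑D)^[N] x = 0 from hx, mul_zero]

omit [CharZero k] [IsDomain B] in
theorem kerMod_fp {D : Derivation k B B} {N : ℕ} (h : DualB D N) :
    Module.Finite (kerAlg D) (kerMod D N) ∧ Module.Projective (kerAlg D) (kerMod D N) := by
  obtain ⟨m, b, lam, hb, h1, h2, h3, h4⟩ := h
  let i : kerMod D N →ₗ[kerAlg D] (Fin m → kerAlg D) :=
    { toFun := fun t j => ⟨lam j t, h1 j t t.2⟩
      map_add' := fun t t' => by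
        funext j
        exact Subtype.ext (h2 j t t' t.2 t'.2)
      map_smul' := fun a t => by
        funext j
        exact Subtype.ext (h3 j a t a.2 t.2) }
  let s : (Fin m → kerAlg D) →ₗ[kerAlg D] kerMod D N :=
    Fintype.linearCombination (kerAlg D) (fun j => (⟨b j, hb j⟩ : kerMod D N))
  have hs : s ∘ₗ i = LinearMap.id := by
    ext t
    simp only [s, i, LinearMap.comp_apply, Fintype.linearCombination_apply, LinearMap.id_apply,
      LinearMap.coe_mk, AddHom.coe_mk]
    rw [AddSubmonoidClass.coe_finsetSum]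
    conv_rhs => rw [h4 t t.2]
    rfl
  have hsurj : Function.Surjective s := fun t => ⟨i t, LinearMap.congr_fun hs t⟩
  exact ⟨Module.Finite.of_surjective s hsurj, Module.Projective.of_split i s hs⟩

omit [CharZero k] in
private theorem uniq_sum {D : Derivation k B B} (hln : ∀ x, ∃ n, (⇑D)^[n] x = 0) [CharZero k]
    {N : ℕ} {G : B} (hP : Pkg D N G) (n : ℕ) : ∀ c : ℕ → B, (∀ j, (⇑D)^[N] (c j) = 0) →
      ∑ j ∈ Finset.range n, c j * G ^ j = 0 → ∀ j < n, c j = 0 := by
  induction n with
  | zero => intro c _ _ j hj; omega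
  | succ n ih =>
    intro c hc h j hj
    rw [Finset.sum_range_succ'] at h
    have h1 : (∑ j ∈ Finset.range n, c (j + 1) * G ^ j) * G + c 0 = 0 := by
      rw [Finset.sum_mul, ← h]
      congr 1
      · exact Finset.sum_congr rfl fun i _ => by ring
      · ring
    have h2 := div_unique D hln hP.ne hP.top (hc 0) h1
    cases j with
    | zero => exact h2.2
    | succ j => exact ih (fun j => c (j + 1)) (fun j => hc _) h2.1 j (by omega)

private theorem exists_sum {D : Derivation k B B} (hln : ∀ x, ∃ n, (⇑D)^[n] x = 0)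
    {N : ℕ} {G : B} (hP : Pkg D N G) (n : ℕ) : ∀ b, (⇑D)^[n] b = 0 → ∃ m, ∃ c : ℕ → B,
      (∀ j, (⇑D)^[N] (c j) = 0) ∧ b = ∑ j ∈ Finset.range m, c j * G ^ j := by
  induction n using Nat.strong_induction_on with
  | _ n ih =>
    intro b hb
    obtain ⟨s, t, hst, ht⟩ := hP.div b
    by_cases hs : s = 0
    · refine ⟨1, fun _ => t, fun _ => ht, ?_⟩
      rw [hst, hs]; simp
    · obtain ⟨d, hd, hd'⟩ := exists_top D hs (hln s)
      have h1 := iter_mul_top D (d + N) d N s G rfl hd' hP.top
      have h2 : (⇑D)^[d + N] (s * G) ≠ 0 := by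
        rw [h1.1]
        have : CharZero B := charZero_of_injective_algebraMap (FaithfulSMul.algebraMap_injective k B)
        have h3 : ((d + N).choose d : B) ≠ 0 := by
          exact_mod_cast (Nat.choose_pos (by omega)).ne'
        exact mul_ne_zero h3 (mul_ne_zero hd hP.ne)
      have hdn : d + N < n := by
        by_contra hc
        push Not at hc
        apply h2
        have h3 : s * G = b - t := by rw [hst]; ring
        rw [h3, iterate_map_sub, iter_zero_of_le D hb hc, iter_zero_of_le D ht (by omega), sub_zero]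
      obtain ⟨m, c, hc, hc'⟩ := ih (d + 1) (by have := hP.pos; omega) s hd'
      refine ⟨m + 1, fun j => match j with
        | 0 => t
        | j + 1 => c j, fun j => ?_, ?_⟩
      · cases j with
        | zero => exact ht
        | succ j => exact hc j
      · rw [Finset.sum_range_succ', hst]
        have h3 : s * G = ∑ j ∈ Finset.range m, c j * G ^ (j + 1) := by
          conv_lhs => rw [hc', Finset.sum_mul]
          exact Finset.sum_congr rfl fun i _ => by ring
        rw [h3]
        simp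

/-- FREENESS. `B ≅ ℕ →₀ ker D^N` as a `kerAlg D`-module by `(t_j) ↦ ∑ G^j t_j` (`div`, `div_unique`);
`ker D^N` is finitely generated projective (`dual`), `1` splits off (`retraction`); `swindle`. -/
theorem Pkg.free {D : Derivation k B B} (hln : ∀ x, ∃ n, (⇑D)^[n] x = 0) {N : ℕ} {G : B}
    (hP : Pkg D N G) : ∃ Q : ℕ → B, ∀ b : B, ∃! c : ℕ →₀ B,
      (∀ n, D (c n) = 0) ∧ b = c.sum fun n a => a * Q n := by
  classical
  obtain ⟨Φ, hΦ1, hΦ2, hΦ3, hΦ4⟩ := hP.retraction hln
  obtain ⟨hfin, hproj⟩ := kerMod_fp (hP.dual N hP.pos)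
  have h1N : (⇑D)^[N] (1 : B) = 0 := by
    obtain ⟨n, rfl⟩ : ∃ n, N = n + 1 := ⟨N - 1, by have := hP.pos; omega⟩
    rw [Function.iterate_succ_apply, Derivation.map_one_eq_zero, iterate_map_zero]
  let i : kerAlg D →ₗ[kerAlg D] kerMod D N := LinearMap.toSpanSingleton _ _ ⟨1, h1N⟩
  let φ : kerMod D N →ₗ[kerAlg D] kerAlg D :=
    { toFun := fun t => ⟨Φ t, hΦ1 t⟩
      map_add' := fun t t' => Subtype.ext (hΦ2 t t')
      map_smul' := fun a t => Subtype.ext (hΦ3 a t a.2) }
  have hφ : φ ∘ₗ i = LinearMap.id := by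
    refine LinearMap.ext_ring (Subtype.ext ?_)
    simp only [φ, i, LinearMap.comp_apply, LinearMap.toSpanSingleton_apply, one_smul,
      LinearMap.coe_mk, AddHom.coe_mk, LinearMap.id_apply]
    exact hΦ4
  rcases swindle (kerAlg D) (kerMod D N) i φ hφ with ⟨⟨bas⟩⟩ | hs
  · let F : (ℕ →₀ kerMod D N) →ₗ[kerAlg D] B := Finsupp.lsum (kerAlg D) fun j =>
      (LinearMap.mulRight (kerAlg D) (G ^ j)) ∘ₗ (kerMod D N).subtype
    have hF : ∀ c, F c = c.sum fun j t => (t : B) * G ^ j := fun c => by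
      simp only [F, Finsupp.lsum_apply]
      rfl
    have hinj : Function.Injective F := by
      rw [injective_iff_map_eq_zero]
      intro c hc
      rw [hF] at hc
      set n := c.support.sup id + 1 with hn
      have hsub : c.support ⊆ Finset.range n := fun j hj => by
        rw [Finset.mem_range, hn, Nat.lt_succ_iff]
        exact Finset.le_sup (f := id) hj
      rw [Finsupp.sum_of_support_subset c hsub _ (by simp)] at hc
      have h1 := uniq_sum hln hP n (fun j => (c j : B)) (fun j => (c j).2) hc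
      ext j
      by_cases hj : j < n
      · exact h1 j hj
      · have : j ∉ c.support := fun h => hj (Finset.mem_range.1 (hsub h))
        rw [Finsupp.notMem_support_iff.1 this]
        rfl
    have hsurj : Function.Surjective F := by
      intro b
      obtain ⟨n, hn⟩ := hln b
      obtain ⟨m, c, hc, hc'⟩ := exists_sum hln hP n b hn
      refine ⟨∑ j ∈ Finset.range m, Finsupp.single j (⟨c j, hc j⟩ : kerMod D N), ?_⟩
      rw [map_sum, hc']
      refine Finset.sum_congr rfl fun j _ => ?_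
      rw [hF, Finsupp.sum_single_index (by simp)]
    let bas' := bas.map (LinearEquiv.ofBijective F ⟨hinj, hsurj⟩)
    refine ⟨fun n => bas' n, fun b => ⟨(bas'.repr b).mapRange (fun a : kerAlg D => (a : B)) rfl,
      ⟨fun n => ?_, ?_⟩, ?_⟩⟩
    · rw [Finsupp.mapRange_apply]
      exact (bas'.repr b n).2
    · rw [Finsupp.sum_mapRange_index (by simp)]
      conv_lhs => rw [← bas'.linearCombination_repr b, Finsupp.linearCombination_apply]
      rfl
    · rintro c ⟨hc, hc'⟩
      let c' : ℕ →₀ kerAlg D := Finsupp.onFinset c.support (fun n => ⟨c n, hc n⟩) (by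
        intro n hn
        rw [Finsupp.mem_support_iff]
        intro h
        exact hn (Subtype.ext h))
      have h1 : Finsupp.linearCombination (kerAlg D) bas' c' = b := by
        rw [Finsupp.linearCombination_apply, hc', Finsupp.sum_of_support_subset c'
          (Finsupp.support_onFinset_subset) _ (by simp), Finsupp.sum]
        rfl
      have h2 : bas'.repr b = c' := by rw [← h1, Module.Basis.repr_linearCombination]
      ext n
      rw [h2, Finsupp.mapRange_apply]
      rfl
  · exact absurd hs (not_subsingleton _)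

omit [CharZero k] in
private theorem dvd_aux {D : Derivation k B B} [UniqueFactorizationMonoid B] {c : B}
    (hc : IsCC D 1 c) {y : B} (hy : y ≠ 0) : ∀ l : B,
      (∀ x, (⇑D)^[2] x = 0 → y * c ∣ (⇑D)^[1] x * l) → y ∣ l := by
  induction y using UniqueFactorizationMonoid.induction_on_prime with
  | h₁ => exact absurd rfl hy
  | h₂ u hu => exact fun l _ => hu.dvd
  | h₃ y p hy0 hp ih =>
    intro l hl
    have h1 : y ∣ l := ih hy0 l fun x hx => (Dvd.intro_left p (by ring)).trans (hl x hx)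
    obtain ⟨l', rfl⟩ := h1
    obtain ⟨x, hx, hx'⟩ := hc.sharp p hp
    obtain ⟨w, hw⟩ := hc.dvd x hx
    have h2 := hl x hx
    rw [hw] at h2 hx'
    have h3 : (y * c) * p ∣ (y * c) * (w * l') := by
      have e1 : p * y * c = (y * c) * p := by ring
      have e2 : c * w * (y * l') = (y * c) * (w * l') := by ring
      rwa [e1, e2] at h2
    have h4 := (mul_dvd_mul_iff_left (mul_ne_zero hy0 hc.ne)).1 h3
    rcases hp.dvd_or_dvd h4 with h5 | h5
    · exact absurd (mul_dvd_mul_left c h5) hx'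
    · rw [mul_comm p y]
      exact mul_dvd_mul_left y h5

/-- `I_1` is principal -/
theorem Pkg.princ_one {D : Derivation k B B} [UniqueFactorizationMonoid B]
    (hln : ∀ x, ∃ n, (⇑D)^[n] x = 0) {N : ℕ} {G : B} (hP : Pkg D N G) (h2 : DualB D 2)
    (hD : ∃ x, D x ≠ 0) : Princ D 1 := by
  obtain ⟨Φ, hΦ1, hΦ2, hΦ3, hΦ4⟩ := hP.retraction hln
  obtain ⟨m, b, lam, hb, hl1, hl2, hl3, hl4⟩ := h2
  obtain ⟨c, hc⟩ := exists_cc D hD hln 1
  have hΦa : ∀ a, D a = 0 → Φ a = a := fun a ha => by
    have := hΦ3 a 1 ha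
    rwa [mul_one, hΦ4, mul_one] at this
  have hΦsub : ∀ x y, Φ (x - y) = Φ x - Φ y := fun x y => by
    have h := hΦ2 (x - y) y
    rw [sub_add_cancel] at h
    rw [h]; ring
  have h12 : ∀ x, (⇑D)^[1 + 1] x = 0 → D (D x) = 0 := fun x hx => hx
  -- reduced elements
  obtain ⟨u, hu, hu2⟩ := exists_deg D hD hln 1
  set u' := u - Φ u with hu'
  have hDu : D u' = D u := by rw [hu', map_sub, hΦ1, sub_zero]
  have hu'2 : (⇑D)^[2] u' = 0 := by
    change D (D u') = 0
    rw [hDu]; exact hu2
  have hΦu' : Φ u' = 0 := by rw [hu', hΦsub, hΦa _ (hΦ1 u), sub_self]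
  -- `v = D x` implies `v u' = (D u) x'`
  have key : ∀ x, (⇑D)^[2] x = 0 → D x * u' = D u * (x - Φ x) := by
    intro x hx
    have hx' : D (D x) = 0 := hx
    have hu2' : D (D u) = 0 := hu2
    set z := D x * u' - D u * (x - Φ x) with hz
    have h1 : D z = 0 := by
      rw [hz, map_sub, Derivation.leibniz, Derivation.leibniz, hx', hu2', hDu, map_sub, hΦ1]
      simp only [smul_eq_mul, mul_zero, add_zero, sub_zero]
      ring
    have h3 : Φ z = 0 := by
      rw [hz, hΦsub, hΦ3 _ _ hx', hΦ3 _ _ hu2', hΦu', hΦsub, hΦa _ (hΦ1 x)]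
      ring
    rw [hΦa z h1] at h3
    exact sub_eq_zero.1 h3
  have hDu0 : D u ≠ 0 := hu
  obtain ⟨y, hy⟩ := hc.dvd u hu2
  have hy' : D u = c * y := hy
  have hy0 : y ≠ 0 := by
    rintro rfl
    rw [mul_zero] at hy'
    exact hDu0 hy'
  -- divisibility
  have hdiv : ∀ i, y ∣ lam i u' := by
    intro i
    refine dvd_aux hc hy0 _ fun x hx => ?_
    have hx' : D (D x) = 0 := hx
    have h3 := hl3 i (D x) u' hx' hu'2
    have h4 : (⇑D)^[2] (x - Φ x) = 0 := by
      change D (D (x - Φ x)) = 0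
      rw [map_sub, hΦ1, sub_zero]; exact hx'
    have h5 := hl3 i (D u) (x - Φ x) hu2 h4
    rw [key x hx, h5] at h3
    refine ⟨lam i (x - Φ x), ?_⟩
    change D x * lam i u' = _
    rw [← h3, hy']
    ring
  choose mu hmu using hdiv
  have hmu0 : ∀ i, D (mu i) = 0 := by
    intro i
    by_cases h0 : lam i u' = 0
    · have : mu i = 0 := by
        have h3 := hmu i
        rw [h0] at h3
        rcases mul_eq_zero.1 h3.symm with h4 | h4
        · exact absurd h4 hy0
        · exact h4
      rw [this, map_zero]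
    · exact const_of_dvd D hln (hl1 i u' hu'2) h0 ⟨y, by rw [hmu i]; ring⟩
  -- `c` is in the ideal
  have hsum : D (∑ i, mu i * b i) = c := by
    have h3 : u' = y * ∑ i, mu i * b i := by
      conv_lhs => rw [hl4 u' hu'2]
      rw [Finset.mul_sum]
      exact Finset.sum_congr rfl fun i _ => by rw [hmu i]; ring
    have hDy : D y = 0 := const_of_dvd D hln (a := D u) hu2 hDu0 ⟨c, by rw [hy']; ring⟩
    have h4 : D u' = y * D (∑ i, mu i * b i) := by
      conv_lhs => rw [h3]
      rw [Derivation.leibniz, hDy]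
      simp
    rw [hDu, hy', mul_comm c y] at h4
    exact (mul_left_cancel₀ hy0 h4).symm
  have hx2 : (⇑D)^[2] (∑ i, mu i * b i) = 0 := by
    change D (D _) = 0
    rw [hsum]; exact hc.const
  refine ⟨c, hc.const, fun v => ⟨?_, ?_⟩⟩
  · rintro ⟨x, hx, rfl⟩
    obtain ⟨w, hw⟩ := hc.dvd x hx
    refine ⟨w, ?_, hw⟩
    by_cases h0 : (⇑D)^[1] x = 0
    · have : w = 0 := by
        rw [h0] at hw
        rcases mul_eq_zero.1 hw.symm with h4 | h4
        · exact absurd h4 hc.ne
        · exact h4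
      rw [this, map_zero]
    · exact const_of_dvd D hln (a := (⇑D)^[1] x) hx h0 ⟨c, by rw [hw]; ring⟩
  · rintro ⟨w, hw, rfl⟩
    refine ⟨w * ∑ i, mu i * b i, ?_, ?_⟩
    · rw [itc D hw, hx2, mul_zero]
    · rw [itc D hw, Function.iterate_one, hsum]; ring

end Pool.Agent.LNDF
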