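import Mathlib
import Pool.Agent.LNDF.ChG
import Pool.Agent.LNDF.Fin4
import Pool.Agent.LNDF.Fin5
import Pool.Agent.LNDHom.Basis

set_option autoImplicit false

open MvPolynomial

namespace Pool.Agent.LNDF

open Pool.Agent.LNDHom

/-- the CHAIN theorem in the form used for the result -/
theorem chain_result (k : Type) [Field k] [CharZero k]
    (D : Derivation k (MvPolynomial (Fin 3) k) (MvPolynomial (Fin 3) k)) (hD : D ≠ 0)
    (hln : ∀ b : MvPolynomial (Fin 3) k, ∃ m : ℕ, (⇑D)^[m] b = 0)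
    (f g : MvPolynomial (Fin 3) k) (hind : AlgebraicIndependent k ![f, g])
    (hker : ∀ b : MvPolynomial (Fin 3) k, D b = 0 ↔ b ∈ Algebra.adjoin k {f, g})
    (hirr : ∀ p : MvPolynomial (Fin 3) k, Prime p → D p = 0 → ∃ x, ¬ p ∣ D x) (n : ℕ)
    (hyp : ∀ p q : MvPolynomial (Fin 3) k, Prime p → Prime q → D p = 0 → D q = 0 →
      ¬ Associated p q →
      (∃ a b, D a = 0 ∧ D b = 0 ∧ a * p + b * q = 1) ∨
        ∀ i j : ℕ, i ∣ npB D p → j ∣ npB D q → i ≤ n → j ≤ n → i ∣ j ∨ j ∣ i) :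
    ∃ c x : MvPolynomial (Fin 3) k, IsCC D n c ∧ (⇑D)^[n] x = c := by
  have hD0 : ∃ x, D x ≠ 0 := by
    by_contra h
    push Not at h
    exact hD (Derivation.ext (fun x => by rw [h x]; rfl))
  obtain ⟨N0, G0, hP⟩ := pkg_all D hD0 hln f g hind hker
  obtain ⟨N1, hN1, hnp⟩ := exists_N D hD0 hln hirr
  obtain ⟨A, hA⟩ := arith_of D hD0 hln hirr (N0 * N1) (Nat.mul_pos hP.pos hN1)
    (fun p hp hDp => Dvd.dvd.mul_left (hnp p hp hDp) _)
  -- from `Princ` to an element over `cc`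
  have key : ∀ m, Princ D m → ∃ x, (⇑D)^[m] x = A.cc m := by
    intro m ⟨a, ha, hm⟩
    obtain ⟨x, hx1, hx2⟩ := (hm a).mpr ⟨1, by simp, by simp⟩
    have hcc := A.isCC m
    obtain ⟨b, hb⟩ := hcc.dvd x hx1
    rw [hx2] at hb
    -- `a` divides all values, `cc` is the greatest common divisor, so `b` is a unit
    have hbu : IsUnit b := by
      by_contra hbu
      have hb0 : b ≠ 0 := by
        rintro rfl
        rw [mul_zero] at hb
        obtain ⟨y, hy1, hy2⟩ := exists_deg D hD0 hln m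
        obtain ⟨c, _, hc⟩ := (hm _).mp ⟨y, hy2, rfl⟩
        rw [hb, zero_mul] at hc
        exact hy1 hc
      obtain ⟨q, hq, hqb⟩ := WfDvdMonoid.exists_irreducible_factor hbu hb0
      obtain ⟨y, hy1, hy2⟩ := hcc.sharp q hq.prime
      obtain ⟨c, _, hc⟩ := (hm _).mp ⟨y, hy1, rfl⟩
      apply hy2
      rw [hc, hb]
      obtain ⟨b', rfl⟩ := hqb
      exact ⟨b' * c, by ring⟩
    obtain ⟨u, hu⟩ := hbu
    have hcu : a * ↑(u⁻¹) = A.cc m := by rw [hb, ← hu, mul_assoc, Units.mul_inv, mul_one]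
    obtain ⟨y, _, hy⟩ := (hm (A.cc m)).mpr ⟨↑(u⁻¹), by
      have h1 : a ≠ 0 := by rw [hb]; exact mul_ne_zero hcc.ne (by rw [← hu]; exact u.ne_zero)
      have h2 := hcc.const
      rw [← hcu, Derivation.leibniz, ha, smul_zero, add_zero, smul_eq_mul] at h2
      exact (mul_eq_zero.mp h2).resolve_left h1, hcu.symm⟩
    exact ⟨y, hy⟩
  obtain ⟨G, hG⟩ := key A.N (hP.princ A.N (Or.inl (by rw [hA]; exact Dvd.intro _ rfl)))
  obtain ⟨r, hr⟩ := key 1 (hP.princ_one hln (hP.dual 2 (by norm_num)) hD0)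
  obtain ⟨x, hx⟩ := chain_main hD0 hln hirr A hG (by simpa using hr) n hyp
  exact ⟨A.cc n, x, A.isCC n, hx⟩

/-- the least `D`-degree of an element `x` such that `D x` is divisible by no higher power of `p` than
all of `D B` -/
noncomputable def lineNumber {k B : Type} [Field k] [CommRing B] [Algebra k B]
    (D : Derivation k B B) (p : B) : ℕ :=
  sInf {n : ℕ | ∃ x, (⇑D)^[n + 1] x = 0 ∧ ∀ (y : B) (s : ℕ), p ^ s ∣ D x → p ^ s ∣ D y}

theorem iter_smul_const {k B : Type} [Field k] [CommRing B] [Algebra k B]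
    (D E : Derivation k B B) (q : B) (hE : E q = 0) (h : ∀ x, D x = q * E x) (n : ℕ) (x : B) :
    (⇑D)^[n] x = q ^ n * (⇑E)^[n] x := by
  induction n with
  | zero => simp
  | succ n ih =>
    rw [Function.iterate_succ_apply', ih, h, Derivation.leibniz, Derivation.leibniz_pow, hE,
      Function.iterate_succ_apply']
    simp
    ring

theorem lineNumber_eq {k B : Type} [Field k] [CommRing B] [IsDomain B]
    [UniqueFactorizationMonoid B] [Algebra k B]
    (D E : Derivation k B B) (q : B) (hq : q ≠ 0) (hE : E q = 0) (h : ∀ x, D x = q * E x)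
    {p : B} (hp : Prime p) (hnd : ∃ x, ¬ p ∣ E x) : lineNumber D p = npB E p := by
  unfold lineNumber npB
  congr 1
  ext n
  simp only [Set.mem_setOf_eq]
  obtain ⟨m, q', hpq', hq'⟩ := WfDvdMonoid.max_power_factor hq hp.irreducible
  constructor
  · rintro ⟨x, hx, hy⟩
    rw [iter_smul_const D E q hE h] at hx
    refine ⟨x, (mul_eq_zero.mp hx).resolve_left (pow_ne_zero _ hq), ?_⟩
    rintro ⟨z, hz⟩
    obtain ⟨y, hyy⟩ := hnd
    have h1 := hy y (m + 1) ⟨q' * z, by rw [h, hz, hq']; ring⟩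
    rw [h, hq', pow_succ, mul_assoc, mul_dvd_mul_iff_left (pow_ne_zero _ hp.ne_zero)] at h1
    rcases hp.dvd_or_dvd h1 with h2 | h2
    · exact hpq' h2
    · exact hyy h2
  · rintro ⟨x, hx, hy⟩
    refine ⟨x, by rw [iter_smul_const D E q hE h, hx, mul_zero], ?_⟩
    intro y s hs
    have hsm : s ≤ m := by
      by_contra hlt
      have h1 : p ^ (m + 1) ∣ D x := (pow_dvd_pow p (by omega)).trans hs
      rw [h, hq', pow_succ, mul_assoc, mul_dvd_mul_iff_left (pow_ne_zero _ hp.ne_zero)] at h1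
      rcases hp.dvd_or_dvd h1 with h2 | h2
      · exact hpq' h2
      · exact hy h2
    rw [h, hq', mul_assoc]
    exact Dvd.dvd.mul_right (pow_dvd_pow p hsm) _

/-- CHAIN for every `D`, in one degree: there are an element `Q` of degree `n` such that `D^n Q` divides
`D^n x` for every `x` of degree at most `n` -/
theorem chain_degree (k : Type) [Field k] [CharZero k]
    (D : Derivation k (MvPolynomial (Fin 3) k) (MvPolynomial (Fin 3) k)) (hD : D ≠ 0)
    (hln : ∀ b : MvPolynomial (Fin 3) k, ∃ m : ℕ, (⇑D)^[m] b = 0)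
    (f g : MvPolynomial (Fin 3) k) (hind : AlgebraicIndependent k ![f, g])
    (hker : ∀ b : MvPolynomial (Fin 3) k, D b = 0 ↔ b ∈ Algebra.adjoin k {f, g}) (n : ℕ)
    (hyp : ∀ p q : MvPolynomial (Fin 3) k, Prime p → Prime q → D p = 0 → D q = 0 →
      ¬ Associated p q →
      (∃ a b, D a = 0 ∧ D b = 0 ∧ a * p + b * q = 1) ∨
        ∀ i j : ℕ, i ∣ lineNumber D p → j ∣ lineNumber D q → i ≤ n → j ≤ n → i ∣ j ∨ j ∣ i) :
    ∃ c Q : MvPolynomial (Fin 3) k, (⇑D)^[n] Q = c ∧ c ≠ 0 ∧ D c = 0 ∧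
      ∀ x, (⇑D)^[n + 1] x = 0 → c ∣ (⇑D)^[n] x := by
  have hD0 : ∃ x, D x ≠ 0 := by
    by_contra h
    push Not at h
    exact hD (Derivation.ext (fun x => by rw [h x]; rfl))
  obtain ⟨q, E, hq, hDq, hqE, hEln, hEker, hEirr⟩ := exists_irr D hD0 hln
  have hEq : E q = 0 := (hEker q).mpr hDq
  have hE0 : E ≠ 0 := by
    rintro rfl
    obtain ⟨x, hx⟩ := hD0
    exact hx (by rw [hqE]; simp)
  obtain ⟨c, Q, hc, hQ⟩ := chain_result k E hE0 hEln f g hind
    (fun b => (hEker b).trans (hker b)) hEirr n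
    (by
      intro p p' hp hp' hDp hDp' hna
      rcases hyp p p' hp hp' ((hEker p).mp hDp) ((hEker p').mp hDp') hna with
        ⟨a, b, ha, hb, hab⟩ | h
      · exact Or.inl ⟨a, b, (hEker a).mpr ha, (hEker b).mpr hb, hab⟩
      · refine Or.inr ?_
        rw [lineNumber_eq D E q hq hEq hqE hp (hEirr p hp hDp),
          lineNumber_eq D E q hq hEq hqE hp' (hEirr p' hp' hDp')] at h
        exact h)
  refine ⟨q ^ n * c, Q, by rw [iter_smul_const D E q hEq hqE, hQ],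
    mul_ne_zero (pow_ne_zero _ hq) hc.ne, ?_, fun x hx => ?_⟩
  · have h5 := (hEker _).mp hc.const
    rw [Derivation.leibniz, Derivation.leibniz_pow, hDq, h5]
    simp
  · rw [iter_smul_const D E q hEq hqE] at hx ⊢
    exact mul_dvd_mul_left _ (hc.dvd x ((mul_eq_zero.mp hx).resolve_left (pow_ne_zero _ hq)))

/-- divisors `≤ 2` divide one another -/
theorem cmp_two {n i j : ℕ} (hn : n ≤ 2) (hi : i ≤ n) (hj : j ≤ n) : i ∣ j ∨ j ∣ i := by
  have h : i = 0 ∨ i = 1 ∨ i = 2 := by omega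
  have h' : j = 0 ∨ j = 1 ∨ j = 2 := by omega
  rcases h with rfl | rfl | rfl <;> rcases h' with rfl | rfl | rfl <;> simp

/-- divisors of powers of one prime number divide one another -/
theorem cmp_pow {a b : ℕ} (ha0 : 0 < a) (hb0 : 0 < b)
    (h : 1 < a → 1 < b → ∃ l i j : ℕ, l.Prime ∧ a = l ^ i ∧ b = l ^ j)
    {i j : ℕ} (hi : i ∣ a) (hj : j ∣ b) : i ∣ j ∨ j ∣ i := by
  rcases Nat.lt_or_ge 1 a with ha | ha
  · rcases Nat.lt_or_ge 1 b with hb | hb
    · obtain ⟨l, s, t, hl, rfl, rfl⟩ := h ha hb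
      obtain ⟨s', _, rfl⟩ := (Nat.dvd_prime_pow hl).1 hi
      obtain ⟨t', _, rfl⟩ := (Nat.dvd_prime_pow hl).1 hj
      rcases le_total s' t' with h1 | h1
      · exact Or.inl (pow_dvd_pow _ h1)
      · exact Or.inr (pow_dvd_pow _ h1)
    · have hb1 : b = 1 := by omega
      rw [hb1] at hj
      rw [Nat.dvd_one.1 hj]
      exact Or.inr (one_dvd _)
  · have ha1 : a = 1 := by omega
    rw [ha1] at hi
    rw [Nat.dvd_one.1 hi]
    exact Or.inl (one_dvd _)

theorem lineNumber_pos {k B : Type} [Field k] [CharZero k] [CommRing B] [IsDomain B]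
    [UniqueFactorizationMonoid B] [Algebra k B] (D : Derivation k B B)
    (hD : ∃ x, D x ≠ 0) (hln : ∀ x, ∃ n, (⇑D)^[n] x = 0) {p : B} (hp : Prime p) (hDp : D p = 0) :
    0 < lineNumber D p := by
  obtain ⟨q, E, hq, hDq, hqE, hEln, hEker, hEirr⟩ := exists_irr D hD hln
  have hE0 : ∃ x, E x ≠ 0 := by
    obtain ⟨x, hx⟩ := hD
    exact ⟨x, fun h => hx ((hEker x).mp h)⟩
  obtain ⟨N1, hN1, hnp⟩ := exists_N E hE0 hEln hEirr
  rw [lineNumber_eq D E q hq ((hEker q).mpr hDq) hqE hp (hEirr p hp ((hEker p).mpr hDp))]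
  exact Nat.pos_of_dvd_of_pos (hnp p hp ((hEker p).mpr hDp)) hN1

/-- CHAIN for every `D` -/
theorem chain_all (k : Type) [Field k] [CharZero k]
    (D : Derivation k (MvPolynomial (Fin 3) k) (MvPolynomial (Fin 3) k)) (hD : D ≠ 0)
    (hln : ∀ b : MvPolynomial (Fin 3) k, ∃ m : ℕ, (⇑D)^[m] b = 0)
    (f g : MvPolynomial (Fin 3) k) (hind : AlgebraicIndependent k ![f, g])
    (hker : ∀ b : MvPolynomial (Fin 3) k, D b = 0 ↔ b ∈ Algebra.adjoin k {f, g}) :
    (∀ n : ℕ, (n ≤ 2 ∨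
      ∀ p q : MvPolynomial (Fin 3) k, Prime p → Prime q → D p = 0 → D q = 0 → ¬ Associated p q →
        (∃ a b, D a = 0 ∧ D b = 0 ∧ a * p + b * q = 1) ∨
        ∀ i j : ℕ, i ∣ lineNumber D p → j ∣ lineNumber D q → i ≤ n → j ≤ n → i ∣ j ∨ j ∣ i) →
      ∃ a : MvPolynomial (Fin 3) k, D a = 0 ∧ ∀ v : MvPolynomial (Fin 3) k,
        (∃ x : MvPolynomial (Fin 3) k, (⇑D)^[n + 1] x = 0 ∧ (⇑D)^[n] x = v) ↔
        (∃ c : MvPolynomial (Fin 3) k, D c = 0 ∧ v = a * c)) ∧
    ((∀ p q : MvPolynomial (Fin 3) k, Prime p → Prime q → D p = 0 → D q = 0 →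
      ¬ Associated p q → 1 < lineNumber D p → 1 < lineNumber D q →
      (∃ a b, D a = 0 ∧ D b = 0 ∧ a * p + b * q = 1) ∨
        ∃ l i j : ℕ, l.Prime ∧ lineNumber D p = l ^ i ∧ lineNumber D q = l ^ j) →
      ∃ Q : ℕ → MvPolynomial (Fin 3) k,
        (∀ n, (⇑D)^[n] (Q n) ≠ 0 ∧ (⇑D)^[n + 1] (Q n) = 0) ∧
        ∀ b : MvPolynomial (Fin 3) k, ∃! c : ℕ →₀ MvPolynomial (Fin 3) k,
          (∀ n, D (c n) = 0) ∧ b = c.sum fun n a => a * Q n) := by
  have hD0 : ∃ x, D x ≠ 0 := by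
    by_contra h
    push Not at h
    exact hD (Derivation.ext (fun x => by rw [h x]; rfl))
  constructor
  · intro n hn
    obtain ⟨c, Q, h2, h3, h4, h5⟩ := chain_degree k D hD hln f g hind hker n (by
      intro p q hp hq hDp hDq hna
      rcases hn with hn | hn
      · exact Or.inr fun i j _ _ hi hj => cmp_two hn hi hj
      · exact hn p q hp hq hDp hDq hna)
    exact LNDHom.principal D n h2 h3 h4 h5
  · intro hyp
    have key := fun n => chain_degree k D hD hln f g hind hker n (by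
      intro p q hp hq hDp hDq hna
      have hp0 := lineNumber_pos D hD0 hln hp hDp
      have hq0 := lineNumber_pos D hD0 hln hq hDq
      by_cases h : ∃ a b, D a = 0 ∧ D b = 0 ∧ a * p + b * q = 1
      · exact Or.inl h
      · exact Or.inr fun i j hi hj _ _ => cmp_pow hp0 hq0
          (fun h1 h2 => (hyp p q hp hq hDp hDq hna h1 h2).resolve_left h) hi hj)
    choose c Q h2 h3 h4 h5 using key
    refine ⟨Q, fun n => ?_, LNDHom.freeness D hln h2 h3 h4 h5⟩
    exact ⟨by rw [h2]; exact h3 n, by rw [Function.iterate_succ_apply', h2, h4]⟩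

end Pool.Agent.LNDF
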