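import Mathlib
import Pool.Agent.LNDF.Fin4
import Pool.Agent.LNDF.Fin5

set_option autoImplicit false

open MvPolynomial

namespace Pool.Agent.LNDF

/-- the FREE theorem -/
theorem free_result (k : Type) [Field k] [CharZero k]
    (D : Derivation k (MvPolynomial (Fin 3) k) (MvPolynomial (Fin 3) k)) (hD : D ≠ 0)
    (hln : ∀ b : MvPolynomial (Fin 3) k, ∃ m : ℕ, (⇑D)^[m] b = 0)
    (f g : MvPolynomial (Fin 3) k) (hind : AlgebraicIndependent k ![f, g])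
    (hker : ∀ b : MvPolynomial (Fin 3) k, D b = 0 ↔ b ∈ Algebra.adjoin k {f, g}) :
    (∃ Q : ℕ → MvPolynomial (Fin 3) k, ∀ b : MvPolynomial (Fin 3) k,
      ∃! c : ℕ →₀ MvPolynomial (Fin 3) k, (∀ n, D (c n) = 0) ∧ b = c.sum fun n a => a * Q n) ∧
    ∃ (N : ℕ) (G : MvPolynomial (Fin 3) k), 0 < N ∧ (⇑D)^[N] G ≠ 0 ∧ (⇑D)^[N + 1] G = 0 ∧
      (∀ b : MvPolynomial (Fin 3) k, ∃! st : MvPolynomial (Fin 3) k × MvPolynomial (Fin 3) k,
        b = st.1 * G + st.2 ∧ (⇑D)^[N] st.2 = 0) ∧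
      ∀ n : ℕ, N ∣ n ∨ N ∣ n + 1 → ∃ a : MvPolynomial (Fin 3) k, D a = 0 ∧
        ∀ v : MvPolynomial (Fin 3) k,
          (∃ x : MvPolynomial (Fin 3) k, (⇑D)^[n + 1] x = 0 ∧ (⇑D)^[n] x = v) ↔
          (∃ c : MvPolynomial (Fin 3) k, D c = 0 ∧ v = a * c) := by
  have hD0 : ∃ x, D x ≠ 0 := by
    by_contra h
    push Not at h
    exact hD (Derivation.ext (fun x => by rw [h x]; rfl))
  obtain ⟨N, G, hP⟩ := pkg_all D hD0 hln f g hind hker
  refine ⟨hP.free hln, N, G, hP.pos, hP.ne, hP.top, fun b => ?_, hP.princ⟩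
  obtain ⟨s, t, hb, ht⟩ := hP.div b
  refine ⟨(s, t), ⟨hb, ht⟩, ?_⟩
  rintro ⟨s', t'⟩ ⟨hb', ht'⟩
  have h1 := div_unique D hln hP.ne hP.top (s := s' - s) (t := t' - t)
    (by rw [iterate_map_sub, ht', ht, sub_zero]) (by
      have : s' * G + t' = s * G + t := by rw [← hb, ← hb']
      linear_combination this)
  exact Prod.ext (sub_eq_zero.mp h1.1) (sub_eq_zero.mp h1.2)

end Pool.Agent.LNDF
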