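import Mathlib
import Pool.Agent.LNDF.NpDefs

set_option autoImplicit false

open TensorProduct

namespace Pool.Agent.LNDF

open Pool.Agent.LNDHom Pool.Agent.LNDHom.LocData

variable {V Λ : Type*} [CommRing V] [IsDomain V] [CommRing Λ] [IsDomain Λ] [Algebra V Λ]
  {D : Derivation V Λ Λ} {p : V}

/-- `z` is a nonzerodivisor of `Λ ⊗ Λ`: if `z t = 0`, `t ≠ 0`, let `m` be maximal with
`D1^m t ≠ 0` (`D1_lnd`, `exists_top`); `iter_const_mul (D1 D) D1_z`: `D1^(m+1) (z t) =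
z D1^(m+1) t + (m+1) p^(e 1) D1^m t`, so `D1^m t = 0` by `tfree`. -/
theorem z_cancel (h : LocData V Λ D p) (t : Λ ⊗[V] Λ) (ht : h.z * t = 0) : t = 0 := by
  by_contra ht0
  obtain ⟨m, hm, hm1⟩ := exists_top (D1 D) ht0 (D1_lnd D h.lnd t)
  have h1 := iter_const_mul (D1 D) h.D1_z t m
  rw [ht, hm1, mul_zero, zero_add, iterate_map_zero] at h1
  have := h.charZero
  have h2 := h.tfree _ (Nat.cast_ne_zero.2 (Nat.succ_ne_zero m)) _ h1.symm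
  exact hm (h.tfree _ (pow_ne_zero _ h.ne) _ h2)

/-- multiplication law of divided differences: `(x ⊗ 1 - 1 ⊗ x) w_y = (y ⊗ 1 - 1 ⊗ y) w_x` -/
theorem w_comm (h : LocData V Λ D p) {x y : Λ} {w v : Λ ⊗[V] Λ}
    (hw : h.z * w = p ^ h.e 1 • (x ⊗ₜ 1 - 1 ⊗ₜ x))
    (hv : h.z * v = p ^ h.e 1 • (y ⊗ₜ 1 - 1 ⊗ₜ y)) :
    (y ⊗ₜ 1 - 1 ⊗ₜ y) * w = v * (x ⊗ₜ 1 - 1 ⊗ₜ x) := by
  rw [← sub_eq_zero]
  apply z_cancel h
  have e1 : h.z * ((y ⊗ₜ 1 - 1 ⊗ₜ y) * w - v * (x ⊗ₜ 1 - 1 ⊗ₜ x)) =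
      (y ⊗ₜ 1 - 1 ⊗ₜ y) * (h.z * w) - (h.z * v) * (x ⊗ₜ 1 - 1 ⊗ₜ x) := by ring
  rw [e1, hw, hv, mul_smul_comm, smul_mul_assoc, sub_self]

/-- the product map sends `w` to `D x`: `relU` with `a = 0`, then the product map kills `z` -/
theorem w_mul (h : LocData V Λ D p) {x : Λ} {w : Λ ⊗[V] Λ}
    (hw : h.z * w = p ^ h.e 1 • (x ⊗ₜ 1 - 1 ⊗ₜ x)) :
    Algebra.TensorProduct.lmul' (S := Λ) V w = D x := by
  have h1 := congrArg (Algebra.TensorProduct.lmul' (S := Λ) V) (relU h hw 0)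
  have hz : Algebra.TensorProduct.lmul' (S := Λ) V h.z = 0 := by
    rw [LocData.z, map_sub, Algebra.TensorProduct.lmul'_apply_tmul, Algebra.TensorProduct.lmul'_apply_tmul, mul_one, one_mul, sub_self]
  rw [map_add, map_mul, hz, zero_mul, zero_add, map_smul, map_smul, map_smul, Algebra.TensorProduct.lmul'_apply_tmul, mul_one] at h1
  simp only [Function.iterate_zero, id_eq, zero_add, Nat.cast_one, one_smul, Function.iterate_one] at h1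
  rw [Algebra.smul_def, Algebra.smul_def] at h1
  exact mul_left_cancel₀ (h.pne _) h1

end Pool.Agent.LNDF
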